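import Pool.Agent.Helper88.LV.Defs

/-!
# LV-1: the Fejér weight, and frequencies `h m`

PROOF. `K_ge`: put `θ = π x / d`. Multiplying by the unit number `e(-(H-1) x/(2d))` the sum is
`∑_j exp(i (2j - (H-1)) θ)`, whose real part is `∑ cos((2j-H+1) θ)`, and `|(2j-H+1) θ| ≤ H π |x| / d ≤ π/4`,
so each cosine is `≥ cos(π/4) = √2/2`; so the norm is `≥ H √2/2`.
(`ZMod.stdAddChar_coe : stdAddChar (j : ZMod N) = exp (2π i j / N)` for integers `j`.)
`K_eq`: expand the square. `diffs`: for `0 < |h| ≤ H` at most `H` pairs have difference `h` (also for `h = 0`).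
`hits`: an integer `k` with `|k| ≤ H L` is determined by its residue (`2 H L < d`), and it is non-zero and has
at most `2 τ(|k|)` factorisations `k = h m`.
-/

set_option autoImplicit false

namespace Pool.Agent.Helper88.LV

open Finset

theorem K_ge (d H : ℕ) [NeZero d] (hH : 1 ≤ H) (x : ℤ) (hx : 4 * (H : ℤ) * |x| ≤ d) :
    1 / 2 ≤ K d H (x : ZMod d) := by
  have hd : (0 : ℝ) < d := by exact_mod_cast NeZero.pos d
  have hHr : (0 : ℝ) < H := by exact_mod_cast hH
  obtain ⟨θ, hθdef⟩ : ∃ θ : ℝ, θ = Real.pi * x / d := ⟨_, rfl⟩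
  have hx' : 4 * (H : ℝ) * |(x : ℝ)| ≤ d := by exact_mod_cast hx
  have hθ : (H : ℝ) * |θ| ≤ Real.pi / 4 := by
    rw [hθdef, abs_div, abs_mul, abs_of_pos Real.pi_pos, abs_of_pos hd, mul_div_assoc', div_le_iff₀ hd]
    have := mul_le_mul_of_nonneg_left hx' (show (0 : ℝ) ≤ Real.pi / 4 by positivity)
    linarith
  have hterm : ∀ j : ℕ, ZMod.stdAddChar ((j : ZMod d) * ((x : ℤ) : ZMod d)) =
      Complex.exp (((2 * j * θ : ℝ) : ℂ) * Complex.I) := by
    intro j
    have h1 : ((j : ZMod d) * ((x : ℤ) : ZMod d)) = (((j : ℤ) * x : ℤ) : ZMod d) := by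
      push_cast
      rfl
    rw [h1, ZMod.stdAddChar_coe, hθdef]
    congr 1
    push_cast
    ring
  have hS : (H : ℝ) * (Real.sqrt 2 / 2) ≤
      ‖∑ j ∈ range H, ZMod.stdAddChar ((j : ZMod d) * ((x : ℤ) : ZMod d))‖ := by
    have h1 : ‖∑ j ∈ range H, ZMod.stdAddChar ((j : ZMod d) * ((x : ℤ) : ZMod d))‖ =
        ‖Complex.exp (((-((H : ℝ) - 1) * θ : ℝ) : ℂ) * Complex.I) *
          ∑ j ∈ range H, ZMod.stdAddChar ((j : ZMod d) * ((x : ℤ) : ZMod d))‖ := by
      rw [norm_mul, Complex.norm_exp_ofReal_mul_I, one_mul]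
    rw [h1]
    refine le_trans ?_ (Complex.re_le_norm _)
    rw [Finset.mul_sum, Complex.re_sum]
    have h2 : (H : ℝ) * (Real.sqrt 2 / 2) = ∑ _j ∈ range H, Real.sqrt 2 / 2 := by
      rw [Finset.sum_const, Finset.card_range, nsmul_eq_mul]
    rw [h2]
    refine Finset.sum_le_sum fun j hj => ?_
    rw [hterm, ← Complex.exp_add, ← add_mul, ← Complex.ofReal_add, Complex.exp_ofReal_mul_I_re,
      ← Real.cos_pi_div_four, ← Real.cos_abs (-((H : ℝ) - 1) * θ + 2 * j * θ)]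
    refine Real.cos_le_cos_of_nonneg_of_le_pi (abs_nonneg _) (by linarith [Real.pi_pos]) ?_
    have hj' : (j : ℝ) + 1 ≤ H := by
      have := Finset.mem_range.1 hj
      exact_mod_cast this
    have h3 : -((H : ℝ) - 1) * θ + 2 * j * θ = (2 * j - H + 1) * θ := by ring
    rw [h3, abs_mul]
    have h4 : |2 * (j : ℝ) - H + 1| ≤ H := by
      rw [abs_le]
      have : (0 : ℝ) ≤ j := Nat.cast_nonneg j
      constructor <;> linarith
    exact (mul_le_mul_of_nonneg_right h4 (abs_nonneg _)).trans hθ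
  unfold K
  rw [le_div_iff₀ (by positivity)]
  have h5 : ((H : ℝ) * (Real.sqrt 2 / 2)) ^ 2 = 1 / 2 * (H : ℝ) ^ 2 := by
    have := Real.sq_sqrt (show (0 : ℝ) ≤ 2 by norm_num)
    calc ((H : ℝ) * (Real.sqrt 2 / 2)) ^ 2 = (H : ℝ) ^ 2 * (Real.sqrt 2 ^ 2) / 4 := by ring
      _ = _ := by
        rw [this]
        ring
  rw [← h5]
  exact pow_le_pow_left₀ (by positivity) hS 2

theorem K_eq (d H : ℕ) [NeZero d] (s : ZMod d) :
    (K d H s : ℂ) = (∑ j ∈ range H, ∑ i ∈ range H,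
      ZMod.stdAddChar (((j : ZMod d) - (i : ZMod d)) * s)) / (H : ℂ) ^ 2 := by
  unfold K
  push_cast
  congr 1
  rw [← Complex.mul_conj', map_sum, Finset.sum_mul_sum]
  refine Finset.sum_congr rfl fun j _ => Finset.sum_congr rfl fun i _ => ?_
  rw [← AddChar.map_neg_eq_conj, ← AddChar.map_add_eq_mul]
  congr 1
  ring

theorem diffs (H : ℕ) (Φ : ℤ → ℝ) (hΦ : ∀ h, 0 ≤ Φ h) :
    ∑ j ∈ range H, ∑ i ∈ range H, Φ ((j : ℤ) - (i : ℤ)) ≤ H * (Φ 0 + ∑ h ∈ A H, Φ h) := by
  have h1 : ∀ j ∈ range H, ∑ i ∈ range H, Φ ((j : ℤ) - (i : ℤ)) ≤ Φ 0 + ∑ h ∈ A H, Φ h := by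
    intro j hj
    have hj' := Finset.mem_range.1 hj
    have h0 : (0 : ℤ) ∈ Finset.Icc (-(H : ℤ)) H := Finset.mem_Icc.2 ⟨by omega, by omega⟩
    have h2 : Φ 0 + ∑ h ∈ A H, Φ h = ∑ h ∈ Finset.Icc (-(H : ℤ)) H, Φ h := by
      unfold A
      rw [Finset.add_sum_erase _ _ h0]
    rw [h2]
    have hinj : Set.InjOn (fun i : ℕ => (j : ℤ) - (i : ℤ)) (range H : Finset ℕ) := by
      intro a _ b _ hab
      have : (j : ℤ) - (a : ℤ) = (j : ℤ) - (b : ℤ) := hab
      omega
    rw [← Finset.sum_image (f := Φ) hinj]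
    refine Finset.sum_le_sum_of_subset_of_nonneg ?_ fun h _ _ => hΦ h
    intro h hh
    obtain ⟨i, hi, rfl⟩ := Finset.mem_image.1 hh
    have hi' := Finset.mem_range.1 hi
    exact Finset.mem_Icc.2 ⟨by omega, by omega⟩
  calc ∑ j ∈ range H, ∑ i ∈ range H, Φ ((j : ℤ) - (i : ℤ))
      ≤ ∑ _j ∈ range H, (Φ 0 + ∑ h ∈ A H, Φ h) := Finset.sum_le_sum h1
    _ = H * (Φ 0 + ∑ h ∈ A H, Φ h) := by
        rw [Finset.sum_const, Finset.card_range, nsmul_eq_mul]

theorem hits (d H L : ℕ) [NeZero d] (T : ℝ)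
    (hT : ∀ n : ℕ, 1 ≤ n → n ≤ d → ((n.divisors.card : ℕ) : ℝ) ≤ T)
    (hHL : 2 * (H * L) < d) (F : ZMod d → ℝ) (hF : ∀ l, 0 ≤ F l) :
    ∑ h ∈ A H, ∑ m ∈ A L, F ((h * m : ℤ) : ZMod d) ≤ 2 * T * ∑ l : ZMod d, F l := by
  classical
  have hd1 : 1 ≤ d := Nat.one_le_iff_ne_zero.2 (NeZero.ne d)
  have hT0 : 0 ≤ T := (Nat.cast_nonneg _).trans (hT 1 le_rfl hd1)
  have hcard : ∀ l : ZMod d,
      (((A H ×ˢ A L).filter fun p : ℤ × ℤ => ((p.1 * p.2 : ℤ) : ZMod d) = l).card : ℝ) ≤ 2 * T := by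
    intro l
    obtain ⟨P, hP⟩ : ∃ P : Finset (ℤ × ℤ),
        P = (A H ×ˢ A L).filter fun p : ℤ × ℤ => ((p.1 * p.2 : ℤ) : ZMod d) = l := ⟨_, rfl⟩
    rw [← hP]
    rcases P.eq_empty_or_nonempty with hE | ⟨p₀, hp₀⟩
    · rw [hE, Finset.card_empty, Nat.cast_zero]
      positivity
    · have hmem : ∀ p ∈ P, p.1 ≠ 0 ∧ |p.1| ≤ H ∧ p.2 ≠ 0 ∧ |p.2| ≤ L ∧
          ((p.1 * p.2 : ℤ) : ZMod d) = l := by
        intro p hp
        rw [hP, Finset.mem_filter, Finset.mem_product, mem_A, mem_A] at hp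
        exact ⟨hp.1.1.1, hp.1.1.2, hp.1.2.1, hp.1.2.2, hp.2⟩
      have habs : ∀ p ∈ P, |p.1 * p.2| ≤ (H * L : ℕ) := by
        intro p hp
        obtain ⟨_, h2, _, h4, _⟩ := hmem p hp
        rw [abs_mul]
        push_cast
        exact mul_le_mul h2 h4 (abs_nonneg _) (by positivity)
      obtain ⟨k, hk⟩ : ∃ k : ℤ, k = p₀.1 * p₀.2 := ⟨_, rfl⟩
      have hk0 : k ≠ 0 := by
        rw [hk]
        exact mul_ne_zero (hmem p₀ hp₀).1 (hmem p₀ hp₀).2.2.1
      have hkabs : |k| ≤ (H * L : ℕ) := hk ▸ habs p₀ hp₀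
      have hall : ∀ p ∈ P, p.1 * p.2 = k := by
        intro p hp
        have e1 : ((p.1 * p.2 : ℤ) : ZMod d) = ((k : ℤ) : ZMod d) := by
          rw [(hmem p hp).2.2.2.2, hk, (hmem p₀ hp₀).2.2.2.2]
        rw [← sub_eq_zero, ← Int.cast_sub, ZMod.intCast_zmod_eq_zero_iff_dvd] at e1
        have e2 := habs p hp
        have e3 : |p.1 * p.2 - k| < d := by
          have e4 := abs_sub (p.1 * p.2) k
          have e5 : (2 * (H * L : ℕ) : ℤ) < d := by exact_mod_cast hHL
          omega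
        have e6 := Int.eq_zero_of_abs_lt_dvd e1 e3
        omega
      have hτ : ((k.natAbs.divisors.card : ℕ) : ℝ) ≤ T := by
        apply hT
        · exact Nat.one_le_iff_ne_zero.2 (Int.natAbs_ne_zero.2 hk0)
        · have e1 : (k.natAbs : ℤ) ≤ (H * L : ℕ) := by
            rw [Int.natCast_natAbs]
            exact hkabs
          have e2 : k.natAbs ≤ H * L := by exact_mod_cast e1
          omega
      have hinj : Set.InjOn (fun p : ℤ × ℤ => (p.1.natAbs, decide (0 < p.1))) (P : Set (ℤ × ℤ)) := by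
        intro p hp p' hp' hpp
        have e1 : p.1.natAbs = p'.1.natAbs := congrArg Prod.fst hpp
        have e2 : decide (0 < p.1) = decide (0 < p'.1) := congrArg Prod.snd hpp
        have e3 : (0 < p.1) ↔ (0 < p'.1) := by
          by_cases h : 0 < p.1
          · rw [decide_eq_true h] at e2
            exact ⟨fun _ => of_decide_eq_true e2.symm, fun _ => h⟩
          · rw [decide_eq_false h] at e2
            exact ⟨fun h' => absurd h' h, fun h' => absurd h' (of_decide_eq_false e2.symm)⟩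
        have e4 : p.1 = p'.1 := by
          by_cases h : 0 < p.1
          · have := e3.1 h
            omega
          · have : ¬ 0 < p'.1 := fun h' => h (e3.2 h')
            omega
        have e5 := hall p hp
        have e6 := hall p' hp'
        rw [← e6, ← e4] at e5
        exact Prod.ext e4 (mul_left_cancel₀ (hmem p hp).1 e5)
      have hsub : P.image (fun p : ℤ × ℤ => (p.1.natAbs, decide (0 < p.1))) ⊆
          k.natAbs.divisors ×ˢ ({true, false} : Finset Bool) := by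
        intro y hy
        obtain ⟨p, hp, rfl⟩ := Finset.mem_image.1 hy
        rw [Finset.mem_product, Nat.mem_divisors]
        refine ⟨⟨?_, Int.natAbs_ne_zero.2 hk0⟩, ?_⟩
        · rw [Int.natAbs_dvd_natAbs]
          exact ⟨p.2, (hall p hp).symm⟩
        · cases decide (0 < p.1) <;> simp
      have hc := Finset.card_le_card hsub
      rw [Finset.card_image_of_injOn hinj, Finset.card_product] at hc
      have hc2 : ({true, false} : Finset Bool).card = 2 := by decide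
      rw [hc2] at hc
      have hc3 : ((P.card : ℕ) : ℝ) ≤ ((k.natAbs.divisors.card * 2 : ℕ) : ℝ) := by exact_mod_cast hc
      push_cast at hc3
      linarith
  rw [← Finset.sum_product (s := A H) (t := A L) (f := fun p : ℤ × ℤ => F ((p.1 * p.2 : ℤ) : ZMod d))]
  rw [← Finset.sum_fiberwise (A H ×ˢ A L) (fun p : ℤ × ℤ => ((p.1 * p.2 : ℤ) : ZMod d))
    (fun p : ℤ × ℤ => F ((p.1 * p.2 : ℤ) : ZMod d)), Finset.mul_sum]
  refine Finset.sum_le_sum fun l _ => ?_
  have h1 : ∑ p ∈ (A H ×ˢ A L).filter (fun p : ℤ × ℤ => ((p.1 * p.2 : ℤ) : ZMod d) = l),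
      F ((p.1 * p.2 : ℤ) : ZMod d) =
      (((A H ×ˢ A L).filter fun p : ℤ × ℤ => ((p.1 * p.2 : ℤ) : ZMod d) = l).card : ℝ) * F l := by
    rw [← nsmul_eq_mul, ← Finset.sum_const]
    refine Finset.sum_congr rfl fun p hp => ?_
    rw [(Finset.mem_filter.1 hp).2]
  rw [h1]
  exact mul_le_mul_of_nonneg_right (hcard l) (hF l)

private theorem card_diff (H : ℕ) (m : ℤ) (hm : |m| ≤ H) :
    ((range H ×ˢ range H).filter fun p : ℕ × ℕ => (p.1 : ℤ) - (p.2 : ℤ) = m).card = ((H : ℤ) - |m|).toNat := by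
  rcases le_total 0 m with h | h
  · rw [abs_of_nonneg h] at hm ⊢
    rw [← Finset.card_range ((H : ℤ) - m).toNat]
    refine Finset.card_nbij' (fun p => p.2) (fun t => (t + m.toNat, t)) ?_ ?_ ?_ ?_
    · intro p hp
      rw [Finset.mem_coe, Finset.mem_filter, Finset.mem_product, Finset.mem_range, Finset.mem_range] at hp
      rw [Finset.mem_coe, Finset.mem_range]
      dsimp only
      omega
    · intro t ht
      rw [Finset.mem_coe, Finset.mem_range] at ht
      rw [Finset.mem_coe, Finset.mem_filter, Finset.mem_product, Finset.mem_range, Finset.mem_range]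
      dsimp only
      omega
    · intro p hp
      rw [Finset.mem_coe, Finset.mem_filter, Finset.mem_product, Finset.mem_range, Finset.mem_range] at hp
      refine Prod.ext ?_ rfl
      dsimp only
      omega
    · intro t _
      rfl
  · rw [abs_of_nonpos h] at hm ⊢
    rw [← Finset.card_range ((H : ℤ) - -m).toNat]
    refine Finset.card_nbij' (fun p => p.1) (fun t => (t, t + (-m).toNat)) ?_ ?_ ?_ ?_
    · intro p hp
      rw [Finset.mem_coe, Finset.mem_filter, Finset.mem_product, Finset.mem_range, Finset.mem_range] at hp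
      rw [Finset.mem_coe, Finset.mem_range]
      dsimp only
      omega
    · intro t ht
      rw [Finset.mem_coe, Finset.mem_range] at ht
      rw [Finset.mem_coe, Finset.mem_filter, Finset.mem_product, Finset.mem_range, Finset.mem_range]
      dsimp only
      omega
    · intro p hp
      rw [Finset.mem_coe, Finset.mem_filter, Finset.mem_product, Finset.mem_range, Finset.mem_range] at hp
      refine Prod.ext rfl ?_
      dsimp only
      omega
    · intro t _
      rfl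

private theorem sum_diff (H : ℕ) (Φ : ℤ → ℂ) :
    ∑ j ∈ range H, ∑ i ∈ range H, Φ ((j : ℤ) - (i : ℤ)) =
      ∑ m ∈ Finset.Icc (-(H : ℤ)) H, (((H : ℤ) - |m| : ℤ) : ℂ) * Φ m := by
  classical
  rw [← Finset.sum_product (s := range H) (t := range H) (f := fun p : ℕ × ℕ => Φ ((p.1 : ℤ) - (p.2 : ℤ)))]
  rw [← Finset.sum_fiberwise_of_maps_to (s := range H ×ˢ range H) (t := Finset.Icc (-(H : ℤ)) H)
    (g := fun p : ℕ × ℕ => (p.1 : ℤ) - (p.2 : ℤ))]
  · refine Finset.sum_congr rfl fun m hm => ?_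
    have hm' : |m| ≤ H := abs_le.2 (Finset.mem_Icc.1 hm)
    have h1 : ∑ p ∈ (range H ×ˢ range H).filter (fun p : ℕ × ℕ => (p.1 : ℤ) - (p.2 : ℤ) = m),
        Φ ((p.1 : ℤ) - (p.2 : ℤ)) =
        (((range H ×ˢ range H).filter fun p : ℕ × ℕ => (p.1 : ℤ) - (p.2 : ℤ) = m).card : ℂ) * Φ m := by
      rw [← nsmul_eq_mul, ← Finset.sum_const]
      refine Finset.sum_congr rfl fun p hp => ?_
      rw [(Finset.mem_filter.1 hp).2]
    rw [h1, card_diff H m hm']
    congr 1
    have h2 : ((((H : ℤ) - |m|).toNat : ℤ) : ℂ) = (((H : ℤ) - |m| : ℤ) : ℂ) := by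
      rw [Int.toNat_of_nonneg (by omega)]
    exact h2
  · intro p hp
    rw [Finset.mem_product, Finset.mem_range, Finset.mem_range] at hp
    rw [Finset.mem_Icc]
    omega

/-- The weight of length `J` on `ZMod q`, without its constant term, as a trigonometric polynomial. -/
theorem K_split (q J : ℕ) [NeZero q] (hJ : 1 ≤ J) (u : (ZMod q)ˣ) :
    (K q J (u : ZMod q) : ℂ) = 1 / (J : ℂ) +
      kap (fun m : ℤ => (((J : ℤ) - |m| : ℤ) : ℂ) / (J : ℂ) ^ 2) J u := by
  have hJ0 : (J : ℂ) ≠ 0 := Nat.cast_ne_zero.2 (by omega)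
  have h1 := sum_diff J (fun m : ℤ => ZMod.stdAddChar ((m : ZMod q) * (u : ZMod q)))
  have h2 : ∑ j ∈ range J, ∑ i ∈ range J,
      ZMod.stdAddChar (((j : ZMod q) - (i : ZMod q)) * (u : ZMod q)) =
      ∑ j ∈ range J, ∑ i ∈ range J, ZMod.stdAddChar ((((j : ℤ) - (i : ℤ) : ℤ) : ZMod q) * (u : ZMod q)) := by
    refine Finset.sum_congr rfl fun j _ => Finset.sum_congr rfl fun i _ => ?_
    push_cast
    rfl
  have h0 : (0 : ℤ) ∈ Finset.Icc (-(J : ℤ)) J := Finset.mem_Icc.2 ⟨by omega, by omega⟩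
  rw [K_eq, h2, h1, ← Finset.add_sum_erase _ _ h0, add_div]
  congr 1
  · simp only [abs_zero, sub_zero, Int.cast_zero, zero_mul, AddChar.map_zero_eq_one, mul_one,
      Int.cast_natCast]
    field_simp
  · unfold kap A
    rw [Finset.sum_div]
    refine Finset.sum_congr rfl fun m _ => ?_
    ring

end Pool.Agent.Helper88.LV
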