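import Mathlib

/-!
# LV-8a: an inequality for positive semidefinite matrices

PROOF. Left inequality: with `w = (G - m) c` one has `w* G w + 2 (m - s) w* w ≥ 0`, and for `c* c = r`,
`c* G c = r m` (`G` Hermitian, everything commutes)
`c* (G-s) G (G-s) c - (w* G w + 2(m-s) w* w) = c* [(s² - m² + 4m(m-s)) G] c - 2(m-s) m² c* c = r m (m-s)²`.
Right inequality: `B = (G-s) G (G-s)` is positive semidefinite (`Matrix.PosSemidef.conjTranspose_mul_mul_same`),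
and `c* B c ≤ (tr B) c* c` for positive semidefinite `B` (write `B = D* D`, Cauchy; or via a square root).
-/

set_option autoImplicit false

namespace Pool.Agent.Helper88.LV

open Matrix
open scoped ComplexOrder

private theorem re_nonneg56 {ι : Type*} [Fintype ι] [DecidableEq ι] {M : Matrix ι ι ℂ} (hM : M.PosSemidef) (c : ι → ℂ) :
    0 ≤ (star c ⬝ᵥ (M *ᵥ c)).re :=
  hM.re_dotProduct_nonneg c

open scoped MatrixOrder in
private theorem le_trace56 {ι : Type*} [Fintype ι] [DecidableEq ι] {M : Matrix ι ι ℂ} (hM : M.PosSemidef) (c : ι → ℂ)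
    {r : ℝ} (hc : star c ⬝ᵥ c = (r : ℂ)) : (star c ⬝ᵥ (M *ᵥ c)).re ≤ r * (trace M).re := by
  obtain ⟨D, hD⟩ : ∃ D : Matrix ι ι ℂ, M = Dᴴ * D := CStarAlgebra.nonneg_iff_eq_star_mul_self.mp hM.nonneg
  subst hD
  have hr : r = ∑ j, ‖c j‖ ^ 2 := by
    have h1 := congrArg Complex.re hc
    rw [Complex.ofReal_re] at h1
    rw [← h1, dotProduct, Complex.re_sum]
    refine Finset.sum_congr rfl fun j _ => ?_
    rw [Pi.star_apply, Complex.star_def, ← Complex.normSq_eq_conj_mul_self, Complex.ofReal_re, Complex.normSq_eq_norm_sq]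
  have h1 : (star c ⬝ᵥ ((Dᴴ * D) *ᵥ c)).re = ∑ i, ‖(D *ᵥ c) i‖ ^ 2 := by
    rw [← mulVec_mulVec, dotProduct_mulVec, ← star_mulVec, dotProduct, Complex.re_sum]
    refine Finset.sum_congr rfl fun j _ => ?_
    rw [Pi.star_apply, Complex.star_def, ← Complex.normSq_eq_conj_mul_self, Complex.ofReal_re, Complex.normSq_eq_norm_sq]
  have h2 : (trace (Dᴴ * D)).re = ∑ i, ∑ j, ‖D i j‖ ^ 2 := by
    rw [trace, Complex.re_sum, Finset.sum_comm]
    refine Finset.sum_congr rfl fun j _ => ?_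
    rw [diag_apply, mul_apply, Complex.re_sum]
    refine Finset.sum_congr rfl fun i _ => ?_
    rw [conjTranspose_apply, Complex.star_def, ← Complex.normSq_eq_conj_mul_self, Complex.ofReal_re, Complex.normSq_eq_norm_sq]
  rw [h1, h2, Finset.mul_sum]
  refine Finset.sum_le_sum fun i _ => ?_
  have h3 : ‖(D *ᵥ c) i‖ ≤ ∑ j, ‖D i j‖ * ‖c j‖ := by
    rw [mulVec, dotProduct]
    refine (norm_sum_le _ _).trans (Finset.sum_le_sum fun j _ => ?_)
    rw [norm_mul]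
  calc ‖(D *ᵥ c) i‖ ^ 2 ≤ (∑ j, ‖D i j‖ * ‖c j‖) ^ 2 := pow_le_pow_left₀ (norm_nonneg _) h3 2
    _ ≤ (∑ j, ‖D i j‖ ^ 2) * ∑ j, ‖c j‖ ^ 2 := Finset.sum_mul_sq_le_sq_mul_sq _ _ _
    _ = r * ∑ j, ‖D i j‖ ^ 2 := by rw [hr, mul_comm]

theorem psd_cubic {ι : Type*} [Fintype ι] [DecidableEq ι] (G : Matrix ι ι ℂ) (hG : G.PosSemidef)
    (s m r : ℝ) (c : ι → ℂ) (hc : star c ⬝ᵥ c = (r : ℂ)) (hm : star c ⬝ᵥ (G *ᵥ c) = ((r * m : ℝ) : ℂ))
    (hs : s ≤ m) :
    r * (m * (m - s) ^ 2) ≤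
      r * (trace ((G - (s : ℂ) • 1) * G * (G - (s : ℂ) • 1))).re := by
  have hH : ∀ t : ℝ, (G - (t : ℂ) • (1 : Matrix ι ι ℂ))ᴴ = G - (t : ℂ) • 1 := by
    intro t
    rw [conjTranspose_sub, conjTranspose_smul, conjTranspose_one, hG.isHermitian.eq, Complex.star_def, Complex.conj_ofReal]
  have hB : ((G - (s : ℂ) • 1) * G * (G - (s : ℂ) • 1)).PosSemidef := by
    have h1 := hG.conjTranspose_mul_mul_same (G - (s : ℂ) • 1)
    rwa [hH] at h1
  have hB1 : ((G - (m : ℂ) • 1) * G * (G - (m : ℂ) • 1)).PosSemidef := by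
    have h1 := hG.conjTranspose_mul_mul_same (G - (m : ℂ) • 1)
    rwa [hH] at h1
  have hB2 : ((G - (m : ℂ) • 1) * (G - (m : ℂ) • 1)).PosSemidef := by
    have h1 := posSemidef_conjTranspose_mul_self (G - (m : ℂ) • 1)
    rwa [hH] at h1
  refine le_trans ?_ (le_trace56 hB c hc)
  have key : (G - (s : ℂ) • 1) * G * (G - (s : ℂ) • 1) = (G - (m : ℂ) • 1) * G * (G - (m : ℂ) • 1) +
      (2 * (m - s) : ℂ) • ((G - (m : ℂ) • 1) * (G - (m : ℂ) • 1)) +
      ((s ^ 2 - m ^ 2 + 4 * m * (m - s) : ℂ) • G - (2 * (m - s) * m ^ 2 : ℂ) • 1) := by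
    simp only [sub_mul, mul_sub, smul_mul_assoc, mul_smul_comm, one_mul, mul_one]
    module
  have h1 := re_nonneg56 hB1 c
  have h2 := re_nonneg56 hB2 c
  rw [key, add_mulVec, add_mulVec, sub_mulVec, smul_mulVec, smul_mulVec, smul_mulVec, one_mulVec,
    dotProduct_add, dotProduct_add, dotProduct_sub, dotProduct_smul, dotProduct_smul, dotProduct_smul, hc, hm]
  have e1 : (2 * (m - s) : ℂ) = ((2 * (m - s) : ℝ) : ℂ) := by push_cast; ring
  have e2 : ((s ^ 2 - m ^ 2 + 4 * m * (m - s) : ℂ)) • ((r * m : ℝ) : ℂ) - (2 * (m - s) * m ^ 2 : ℂ) • (r : ℂ) =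
      ((r * (m * (m - s) ^ 2) : ℝ) : ℂ) := by
    simp only [smul_eq_mul]
    push_cast
    ring
  rw [e2, Complex.add_re, Complex.add_re, Complex.ofReal_re, e1, smul_eq_mul, Complex.re_ofReal_mul]
  have h3 : 0 ≤ 2 * (m - s) * (star c ⬝ᵥ (((G - (m : ℂ) • 1) * (G - (m : ℂ) • 1)) *ᵥ c)).re :=
    mul_nonneg (by linarith) h2
  linarith

end Pool.Agent.Helper88.LV
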