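import Pool.Agent.Helper88.LV.Orth
import Pool.Agent.Helper88.LV.Fejer
import Pool.Agent.Helper88.LV.Psd

/-!
# LV-8: duality and the cubic inequality

PROOF. `dual_c`: `c χ` the unimodular number with `c χ * D(χ) = ‖D(χ)‖`, `D(χ) = ∑_{n ≤ N} b(n) χ(n)`. Then
`r V ≤ ∑_χ c_χ D(χ) = ∑_{n ≤ N, n unit} b(n) P(n)`, `P(n) = ∑_χ c_χ χ(n)`, Cauchy: `r² V² ≤ B² N ∑_{n ≤ N} |P(n)|²`,
and the `n ≤ N < q` are different residues with `2 K(n) ≥ 1` (`K_ge`, `4 J n ≤ q`), so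
`∑_{n ≤ N} |P(n)|² ≤ 2 ∑_u K(u) |P(u)|²`.
`cubic`: `psd_cubic` for `ι = ↥W`, `G_{χψ} = ∑_u K(u) conj(χ(u)) ψ(u)`, `s = φ/J`: `G - s` has the entries
`∑_u k(u) conj(χ(u)) ψ(u)` with `k = K - 1/J = kap κ J` (`K_split`, `sum_char`), so
`tr((G-s) G (G-s)) = ∑_{u,v,w} k(u) K(v) k(w) R(w u⁻¹) R(u v⁻¹) R(v w⁻¹) = T3 + (φ/J) T2`
(`K = 1/J + k`, rename `u, w`; `sum_R_mul`, `R_inv`).
-/

set_option autoImplicit false

namespace Pool.Agent.Helper88.LV

open Finset Matrix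
open scoped ComplexOrder

variable {q : ℕ} [NeZero q]

/-- The coefficients of the Fejér weight. -/
noncomputable def kF (J : ℕ) (m : ℤ) : ℂ := (((J : ℤ) - |m| : ℤ) : ℂ) / (J : ℂ) ^ 2

theorem norm_kF_le (J : ℕ) (hJ : 1 ≤ J) (m : ℤ) (hm : m ∈ A J) : ‖kF J m‖ ≤ 1 / J := by
  obtain ⟨_, h2⟩ := mem_A.1 hm
  have hJ' : (0 : ℝ) < J := by exact_mod_cast hJ
  unfold kF
  rw [norm_div, norm_pow, Complex.norm_natCast, Complex.norm_intCast, div_le_div_iff₀ (by positivity) hJ', one_mul]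
  have h3 : |(((J : ℤ) - |m| : ℤ) : ℝ)| ≤ J := by
    have h4 : (0 : ℤ) ≤ |m| := abs_nonneg m
    rw [abs_le]
    constructor
    · have : (-(J : ℤ) : ℤ) ≤ (J : ℤ) - |m| := by omega
      exact_mod_cast this
    · have : (J : ℤ) - |m| ≤ (J : ℤ) := by omega
      exact_mod_cast this
  calc |(((J : ℤ) - |m| : ℤ) : ℝ)| * (J : ℝ) ≤ J * J := mul_le_mul_of_nonneg_right h3 hJ'.le
    _ = (J : ℝ) ^ 2 := by ring

/-- sum over the units and over all residues -/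
private theorem sum_units62 (g : ZMod q → ℝ) (hg : ∀ s, ¬ IsUnit s → g s = 0) :
    ∑ u : (ZMod q)ˣ, g (u : ZMod q) = ∑ s : ZMod q, g s := by
  refine Fintype.sum_of_injective (fun u : (ZMod q)ˣ => (u : ZMod q)) Units.val_injective _ _ ?_ fun _ => rfl
  intro s hs
  refine hg s fun hu => hs ?_
  obtain ⟨u, hu⟩ := hu
  exact ⟨u, hu⟩

theorem dual_c (N J : ℕ) (hN : 1 ≤ N) (hJ : 1 ≤ J) (hNJ : 4 * J * N ≤ q) (b : ℕ → ℂ) (B : ℝ)
    (hB : 0 ≤ B) (hb : ∀ n ∈ Icc 1 N, ‖b n‖ ≤ B) (W : Finset (DirichletCharacter ℂ q)) (V : ℝ)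
    (hV : 0 ≤ V) (hVW : ∀ χ ∈ W, V ≤ ‖∑ n ∈ Icc 1 N, b n * χ (n : ZMod q)‖) :
    ∃ c : DirichletCharacter ℂ q → ℂ, (∀ χ, ‖c χ‖ = 1) ∧
      (W.card : ℝ) ^ 2 * V ^ 2 ≤ 2 * B ^ 2 * N *
        ∑ u : (ZMod q)ˣ, K q J (u : ZMod q) * ‖∑ χ ∈ W, c χ * χ (u : ZMod q)‖ ^ 2 := by
  classical
  obtain ⟨D, hD⟩ : ∃ D : DirichletCharacter ℂ q → ℂ, D = fun χ => ∑ n ∈ Icc 1 N, b n * χ (n : ZMod q) := ⟨_, rfl⟩
  have hqN : N < q := by
    have : N * 1 ≤ N * J := Nat.mul_le_mul_left N hJ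
    have h2 : 4 * J * N = 4 * (N * J) := by ring
    omega
  have hex : ∀ χ, ∃ c : ℂ, ‖c‖ = 1 ∧ c * D χ = (‖D χ‖ : ℂ) := by
    intro χ
    by_cases h : D χ = 0
    · exact ⟨1, norm_one, by rw [h, norm_zero, mul_zero, Complex.ofReal_zero]⟩
    · have h1 : (‖D χ‖ : ℂ) ≠ 0 := Complex.ofReal_ne_zero.2 (norm_ne_zero_iff.2 h)
      refine ⟨(starRingEnd ℂ) (D χ) / ‖D χ‖, ?_, ?_⟩
      · rw [norm_div, RCLike.norm_conj, Complex.norm_real, norm_norm, div_self (norm_ne_zero_iff.2 h)]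
      · rw [div_mul_eq_mul_div, Complex.conj_mul', div_eq_iff h1]
        ring
  choose c hc1 hc2 using hex
  refine ⟨c, hc1, ?_⟩
  obtain ⟨P, hP⟩ : ∃ P : ZMod q → ℂ, P = fun s => ∑ χ ∈ W, c χ * χ s := ⟨_, rfl⟩
  have h1 : (W.card : ℝ) * V ≤ ∑ n ∈ Icc 1 N, B * ‖P (n : ZMod q)‖ := by
    have e1 : (W.card : ℝ) * V ≤ ∑ χ ∈ W, ‖D χ‖ := by
      rw [← nsmul_eq_mul]
      refine Finset.card_nsmul_le_sum W _ V fun χ hχ => ?_
      rw [hD]
      exact hVW χ hχ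
    have e2 : ((∑ χ ∈ W, ‖D χ‖ : ℝ) : ℂ) = ∑ n ∈ Icc 1 N, b n * P (n : ZMod q) := by
      rw [Complex.ofReal_sum]
      have e3 : ∀ χ ∈ W, ((‖D χ‖ : ℝ) : ℂ) = ∑ n ∈ Icc 1 N, b n * (c χ * χ (n : ZMod q)) := by
        intro χ _
        rw [← hc2 χ, hD, Finset.mul_sum]
        refine Finset.sum_congr rfl fun n _ => ?_
        ring
      rw [Finset.sum_congr rfl e3, Finset.sum_comm]
      refine Finset.sum_congr rfl fun n _ => ?_
      rw [hP, Finset.mul_sum]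
    have e4 : (0 : ℝ) ≤ ∑ χ ∈ W, ‖D χ‖ := Finset.sum_nonneg fun _ _ => norm_nonneg _
    have e5 : ∑ χ ∈ W, ‖D χ‖ = ‖((∑ χ ∈ W, ‖D χ‖ : ℝ) : ℂ)‖ := by
      rw [Complex.norm_real, Real.norm_of_nonneg e4]
    refine e1.trans ?_
    rw [e5, e2]
    refine (norm_sum_le _ _).trans (Finset.sum_le_sum fun n hn => ?_)
    rw [norm_mul]
    exact mul_le_mul_of_nonneg_right (hb n hn) (norm_nonneg _)
  have h2 : ((W.card : ℝ) * V) ^ 2 ≤ B ^ 2 * (N * ∑ n ∈ Icc 1 N, ‖P (n : ZMod q)‖ ^ 2) := by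
    have e1 : (0 : ℝ) ≤ (W.card : ℝ) * V := by positivity
    have e2 := pow_le_pow_left₀ e1 h1 2
    rw [← Finset.mul_sum, mul_pow B] at e2
    refine e2.trans (mul_le_mul_of_nonneg_left ?_ (sq_nonneg B))
    have e3 := sq_sum_le_card_mul_sum_sq (s := Icc 1 N) (f := fun n : ℕ => ‖P (n : ZMod q)‖)
    rw [Nat.card_Icc, Nat.add_sub_cancel] at e3
    exact e3
  obtain ⟨g, hg⟩ : ∃ g : ZMod q → ℝ, g = fun s => K q J s * ‖P s‖ ^ 2 := ⟨_, rfl⟩
  have hg0 : ∀ s, 0 ≤ g s := by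
    intro s
    rw [hg]
    exact mul_nonneg (K_nonneg q J s) (sq_nonneg _)
  have hgu : ∀ s, ¬ IsUnit s → g s = 0 := by
    intro s hs
    have e1 : P s = 0 := by
      rw [hP]
      refine Finset.sum_eq_zero fun χ _ => ?_
      rw [MulChar.map_nonunit χ hs, mul_zero]
    rw [hg]
    simp only [e1, norm_zero]
    ring
  have h3 : ∑ n ∈ Icc 1 N, ‖P (n : ZMod q)‖ ^ 2 ≤ 2 * ∑ s : ZMod q, g s := by
    have e1 : ∀ n ∈ Icc 1 N, ‖P (n : ZMod q)‖ ^ 2 ≤ 2 * g (n : ZMod q) := by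
      intro n hn
      have hn' := Finset.mem_Icc.1 hn
      have e2 : 1 / 2 ≤ K q J (((n : ℤ) : ℤ) : ZMod q) := by
        refine K_ge q J hJ n ?_
        rw [abs_of_nonneg (Int.natCast_nonneg n)]
        have e3 : 4 * J * n ≤ 4 * J * N := Nat.mul_le_mul_left _ hn'.2
        have e4 : 4 * J * n ≤ q := e3.trans hNJ
        exact_mod_cast e4
      rw [Int.cast_natCast] at e2
      rw [hg]
      have e5 := sq_nonneg ‖P (n : ZMod q)‖
      have e6 := mul_le_mul_of_nonneg_right e2 e5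
      dsimp only
      linarith
    refine (Finset.sum_le_sum e1).trans ?_
    rw [← Finset.mul_sum]
    refine mul_le_mul_of_nonneg_left ?_ (by norm_num)
    have hinj : Set.InjOn (fun n : ℕ => (n : ZMod q)) (Icc 1 N : Finset ℕ) := by
      intro n hn n' hn' hnn
      rw [Finset.mem_coe, Finset.mem_Icc] at hn hn'
      have e2 : (n : ZMod q) = (n' : ZMod q) := hnn
      rw [ZMod.natCast_eq_natCast_iff'] at e2
      rwa [Nat.mod_eq_of_lt (by omega), Nat.mod_eq_of_lt (by omega)] at e2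
    rw [← Finset.sum_image (f := g) hinj]
    exact Finset.sum_le_sum_of_subset_of_nonneg (Finset.subset_univ _) fun s _ _ => hg0 s
  have h4 := sum_units62 g hgu
  rw [← h4] at h3
  calc (W.card : ℝ) ^ 2 * V ^ 2 = ((W.card : ℝ) * V) ^ 2 := by ring
    _ ≤ B ^ 2 * (N * ∑ n ∈ Icc 1 N, ‖P (n : ZMod q)‖ ^ 2) := h2
    _ ≤ B ^ 2 * (N * (2 * ∑ u : (ZMod q)ˣ, g (u : ZMod q))) := by
        gcongr
    _ = 2 * B ^ 2 * N * ∑ u : (ZMod q)ˣ, g (u : ZMod q) := by ring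
    _ = _ := by rw [hg, hP]

/-- The matrix of the characters of `W`. -/
private noncomputable def X62 (W : Finset (DirichletCharacter ℂ q)) : Matrix (ZMod q)ˣ W ℂ :=
  Matrix.of fun u χ => (χ : DirichletCharacter ℂ q) (u : ZMod q)

omit [NeZero q] in
private theorem gram62 (W : Finset (DirichletCharacter ℂ q)) (u v : (ZMod q)ˣ) :
    (X62 W * (X62 W).conjTranspose) u v = R W (u * v⁻¹) := by
  have h1 : ∀ χ : DirichletCharacter ℂ q, χ (((u * v⁻¹ : (ZMod q)ˣ) : ZMod q)) =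
      χ (u : ZMod q) * star (χ (v : ZMod q)) := by
    intro χ
    rw [Units.val_mul, map_mul]
    congr 1
    have h2 : χ (v : ZMod q) * χ ((v⁻¹ : (ZMod q)ˣ) : ZMod q) = 1 := by
      rw [← map_mul, Units.mul_inv, map_one]
    rw [eq_inv_of_mul_eq_one_right h2, RCLike.star_def]
    exact Complex.inv_eq_conj (DirichletCharacter.unit_norm_eq_one χ v)
  unfold R
  rw [Matrix.mul_apply, ← Finset.sum_coe_sort W]
  refine Finset.sum_congr rfl fun χ _ => ?_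
  rw [h1]
  rfl

/-- weighted Gram matrix -/
private noncomputable def M62 (W : Finset (DirichletCharacter ℂ q)) (a : (ZMod q)ˣ → ℂ) : Matrix W W ℂ :=
  (X62 W).conjTranspose * (Matrix.diagonal a * X62 W)

private theorem trace62 (W : Finset (DirichletCharacter ℂ q)) (a b c : (ZMod q)ˣ → ℂ) :
    (M62 W a * M62 W b * M62 W c).trace = ∑ w : (ZMod q)ˣ, ∑ v : (ZMod q)ˣ, ∑ u : (ZMod q)ˣ,
      a w * b v * c u * (R W (u * w⁻¹) * R W (v * u⁻¹) * R W (w * v⁻¹)) := by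
  have h1 : (M62 W a * M62 W b * M62 W c).trace =
      ((Matrix.diagonal a * (X62 W * (X62 W).conjTranspose)) *
        (Matrix.diagonal b * (X62 W * (X62 W).conjTranspose)) *
        (Matrix.diagonal c * (X62 W * (X62 W).conjTranspose))).trace := by
    unfold M62
    have e1 : (X62 W).conjTranspose * (Matrix.diagonal a * X62 W) *
        ((X62 W).conjTranspose * (Matrix.diagonal b * X62 W)) *
        ((X62 W).conjTranspose * (Matrix.diagonal c * X62 W)) =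
        (X62 W).conjTranspose * ((Matrix.diagonal a * X62 W) *
        ((X62 W).conjTranspose * (Matrix.diagonal b * X62 W)) *
        ((X62 W).conjTranspose * (Matrix.diagonal c * X62 W))) := by
      simp only [Matrix.mul_assoc]
    rw [e1, Matrix.trace_mul_comm]
    simp only [Matrix.mul_assoc]
  rw [h1]
  unfold Matrix.trace
  refine Finset.sum_congr rfl fun w _ => ?_
  rw [Matrix.diag_apply, Matrix.mul_apply, Finset.sum_comm]
  have h2 : ∀ u : (ZMod q)ˣ, ((Matrix.diagonal a * (X62 W * (X62 W).conjTranspose)) *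
        (Matrix.diagonal b * (X62 W * (X62 W).conjTranspose))) w u =
        ∑ v : (ZMod q)ˣ, (a w * R W (w * v⁻¹)) * (b v * R W (v * u⁻¹)) := by
    intro u
    rw [Matrix.mul_apply]
    refine Finset.sum_congr rfl fun v _ => ?_
    rw [Matrix.diagonal_mul, Matrix.diagonal_mul, gram62, gram62]
  have h3 : ∀ u : (ZMod q)ˣ, (Matrix.diagonal c * (X62 W * (X62 W).conjTranspose)) u w =
      c u * R W (u * w⁻¹) := by
    intro u
    rw [Matrix.diagonal_mul, gram62]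
  refine Finset.sum_congr rfl fun u _ => ?_
  rw [h2, h3, Finset.sum_mul]
  refine Finset.sum_congr rfl fun v _ => ?_
  ring

private theorem M62_apply (W : Finset (DirichletCharacter ℂ q)) (a : (ZMod q)ˣ → ℂ) (χ ψ : W) :
    M62 W a χ ψ = ∑ u : (ZMod q)ˣ, a u *
      (star ((χ : DirichletCharacter ℂ q) (u : ZMod q)) * (ψ : DirichletCharacter ℂ q) (u : ZMod q)) := by
  unfold M62
  rw [Matrix.mul_apply]
  refine Finset.sum_congr rfl fun u _ => ?_
  rw [Matrix.diagonal_mul, Matrix.conjTranspose_apply]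
  unfold X62
  rw [Matrix.of_apply, Matrix.of_apply]
  ring

private theorem M62_const (W : Finset (DirichletCharacter ℂ q)) (z : ℂ) :
    M62 W (fun _ => z) = ((Fintype.card (ZMod q)ˣ : ℂ) * z) • (1 : Matrix W W ℂ) := by
  ext χ ψ
  rw [M62_apply, Matrix.smul_apply, ← Finset.mul_sum, Matrix.one_apply, smul_eq_mul]
  have h1 : ∀ u : (ZMod q)ˣ, star ((χ : DirichletCharacter ℂ q) (u : ZMod q)) *
      (ψ : DirichletCharacter ℂ q) (u : ZMod q) =
      ((χ : DirichletCharacter ℂ q)⁻¹ * (ψ : DirichletCharacter ℂ q)) (u : ZMod q) := by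
    intro u
    rw [MulChar.mul_apply, MulChar.inv_apply_eq_inv', RCLike.star_def]
    congr 1
    exact (Complex.inv_eq_conj (DirichletCharacter.unit_norm_eq_one (χ : DirichletCharacter ℂ q) u)).symm
  rw [Finset.sum_congr rfl fun u _ => h1 u, sum_char]
  by_cases h : χ = ψ
  · rw [if_pos h, if_pos (by rw [h, inv_mul_cancel])]
    ring
  · rw [if_neg h, if_neg, mul_zero, mul_zero]
    intro h2
    exact h (Subtype.ext (inv_mul_eq_one.1 h2))

private theorem M62_add (W : Finset (DirichletCharacter ℂ q)) (a b : (ZMod q)ˣ → ℂ) :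
    M62 W (fun u => a u + b u) = M62 W a + M62 W b := by
  ext χ ψ
  rw [Matrix.add_apply, M62_apply, M62_apply, M62_apply, ← Finset.sum_add_distrib]
  refine Finset.sum_congr rfl fun u _ => ?_
  ring

theorem cubic (J : ℕ) (hJ : 1 ≤ J) (W : Finset (DirichletCharacter ℂ q))
    (c : DirichletCharacter ℂ q → ℂ) (hc : ∀ χ, ‖c χ‖ = 1) (m : ℝ)
    (hm : ∑ u : (ZMod q)ˣ, K q J (u : ZMod q) * ‖∑ χ ∈ W, c χ * χ (u : ZMod q)‖ ^ 2 = W.card * m)
    (hs : (Fintype.card (ZMod q)ˣ : ℝ) / J ≤ m) :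
    W.card * (m * (m - (Fintype.card (ZMod q)ˣ : ℝ) / J) ^ 2) ≤ W.card * (‖T3 W (kF J) J‖ +
      (Fintype.card (ZMod q)ˣ : ℝ) / J * ‖T2 W (kF J) J‖) := by
  classical
  have hJ' : (0 : ℝ) < J := by exact_mod_cast hJ
  obtain ⟨k, hk⟩ : ∃ k : (ZMod q)ˣ → ℂ, k = fun u => kap (kF J) J u := ⟨_, rfl⟩
  obtain ⟨φ, hφ⟩ : ∃ φ : ℝ, φ = (Fintype.card (ZMod q)ˣ : ℝ) := ⟨_, rfl⟩
  obtain ⟨K', hK'⟩ : ∃ K' : (ZMod q)ˣ → ℂ, K' = fun u : (ZMod q)ˣ => ((K q J (u : ZMod q) : ℝ) : ℂ) :=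
    ⟨_, rfl⟩
  rw [← hφ] at hs ⊢
  have hφ0 : 0 ≤ φ := by
    rw [hφ]
    exact Nat.cast_nonneg _
  have hKk : K' = fun u => (fun _ => 1 / (J : ℂ)) u + k u := by
    rw [hK', hk]
    funext u
    exact K_split q J hJ u
  have hG : M62 W K' - ((φ / J : ℝ) : ℂ) • (1 : Matrix W W ℂ) = M62 W k := by
    rw [hKk, M62_add, M62_const, hφ]
    have e1 : (Fintype.card (ZMod q)ˣ : ℂ) * (1 / (J : ℂ)) =
        (((Fintype.card (ZMod q)ˣ : ℝ) / J : ℝ) : ℂ) := by
      push_cast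
      ring
    rw [e1]
    abel
  have hpsd : (M62 W K').PosSemidef := by
    have e1 : M62 W K' = (Matrix.diagonal (fun u : (ZMod q)ˣ => ((Real.sqrt (K q J (u : ZMod q)) : ℝ) : ℂ)) *
        X62 W).conjTranspose *
        (Matrix.diagonal (fun u : (ZMod q)ˣ => ((Real.sqrt (K q J (u : ZMod q)) : ℝ) : ℂ)) * X62 W) := by
      have e2 : K' = fun u : (ZMod q)ˣ => star (fun u : (ZMod q)ˣ => ((Real.sqrt (K q J (u : ZMod q)) : ℝ) : ℂ)) u *
          ((Real.sqrt (K q J (u : ZMod q)) : ℝ) : ℂ) := by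
        rw [hK']
        funext u
        rw [Pi.star_apply, RCLike.star_def, Complex.conj_ofReal, ← Complex.ofReal_mul,
          Real.mul_self_sqrt (K_nonneg q J _)]
      unfold M62
      rw [Matrix.conjTranspose_mul, Matrix.diagonal_conjTranspose, Matrix.mul_assoc, ← Matrix.mul_assoc
        (Matrix.diagonal _) (Matrix.diagonal _), Matrix.diagonal_mul_diagonal, e2]
    rw [e1]
    exact Matrix.posSemidef_conjTranspose_mul_self _
  have hXc : ∀ u : (ZMod q)ˣ, (X62 W *ᵥ fun χ : W => c χ) u = ∑ χ ∈ W, c χ * χ (u : ZMod q) := by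
    intro u
    rw [← Finset.sum_coe_sort W]
    refine Finset.sum_congr rfl fun χ _ => ?_
    exact mul_comm _ _
  have hquad : star (fun χ : W => c χ) ⬝ᵥ (M62 W K' *ᵥ fun χ : W => c χ) = ((W.card * m : ℝ) : ℂ) := by
    unfold M62
    rw [← Matrix.mulVec_mulVec, ← Matrix.mulVec_mulVec, Matrix.dotProduct_mulVec, ← Matrix.star_mulVec, ← hm]
    unfold dotProduct
    rw [Complex.ofReal_sum]
    refine Finset.sum_congr rfl fun u _ => ?_
    rw [Pi.star_apply, Matrix.mulVec_diagonal, hXc, hK', RCLike.star_def]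
    push_cast
    rw [← Complex.conj_mul']
    ring
  have hcc : star (fun χ : W => c χ) ⬝ᵥ (fun χ : W => c χ) = ((W.card : ℝ) : ℂ) := by
    unfold dotProduct
    have e1 : ∀ χ : W, star (fun χ : W => c χ) χ * c χ = 1 := by
      intro χ
      rw [Pi.star_apply, RCLike.star_def, Complex.conj_mul', hc]
      norm_num
    rw [Finset.sum_congr rfl fun χ _ => e1 χ]
    simp
  have hmain := psd_cubic (M62 W K') hpsd (φ / J) m W.card (fun χ : W => c χ) hcc hquad hs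
  rw [hG, trace62] at hmain
  refine hmain.trans (mul_le_mul_of_nonneg_left ?_ (Nat.cast_nonneg _))
  refine (Complex.re_le_norm _).trans ?_
  have hswap : ∀ F : (ZMod q)ˣ → (ZMod q)ˣ → (ZMod q)ˣ → ℂ,
      ∑ a, ∑ b, ∑ c, F a b c = ∑ c, ∑ b, ∑ a, F a b c := by
    intro F
    rw [Finset.sum_comm]
    rw [Finset.sum_congr rfl fun b _ => Finset.sum_comm (f := fun a c => F a b c)]
    rw [Finset.sum_comm]
  have htr : ∑ w : (ZMod q)ˣ, ∑ v : (ZMod q)ˣ, ∑ u : (ZMod q)ˣ,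
      k w * K' v * k u * (R W (u * w⁻¹) * R W (v * u⁻¹) * R W (w * v⁻¹)) =
      T3 W (kF J) J + ((φ / J : ℝ) : ℂ) * T2 W (kF J) J := by
    rw [hswap]
    have e1 : ∀ u v w : (ZMod q)ˣ,
        k w * K' v * k u * (R W (u * w⁻¹) * R W (v * u⁻¹) * R W (w * v⁻¹)) =
        k u * k v * k w * (R W (u * w⁻¹) * R W (v * u⁻¹) * R W (w * v⁻¹)) +
        1 / (J : ℂ) * (k u * k w * R W (u * w⁻¹)) * (R W (v * u⁻¹) * R W (w * v⁻¹)) := by
      intro u v w
      rw [hKk]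
      ring
    rw [Finset.sum_congr rfl fun u _ => Finset.sum_congr rfl fun v _ => Finset.sum_congr rfl fun w _ => e1 u v w]
    simp only [Finset.sum_add_distrib]
    refine congrArg₂ (· + ·) ?_ ?_
    · unfold T3
      rw [hk]
    · unfold T2
      rw [Finset.mul_sum]
      refine Finset.sum_congr rfl fun u _ => ?_
      rw [Finset.sum_comm, Finset.mul_sum]
      refine Finset.sum_congr rfl fun w _ => ?_
      rw [← Finset.mul_sum, sum_R_mul]
      have e2 : R W (w * u⁻¹) = (starRingEnd ℂ) (R W (u * w⁻¹)) := by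
        rw [← R_inv, _root_.mul_inv_rev, inv_inv]
      have e3 : ((f W (u * w⁻¹) : ℝ) : ℂ) = R W (u * w⁻¹) * (starRingEnd ℂ) (R W (u * w⁻¹)) := by
        rw [Complex.mul_conj']
        unfold f
        push_cast
        rfl
      rw [e2, e3, hφ, hk]
      push_cast
      ring
  rw [htr]
  refine (norm_add_le _ _).trans (add_le_add le_rfl ?_)
  rw [norm_mul, Complex.norm_real, Real.norm_of_nonneg (by positivity)]

end Pool.Agent.Helper88.LV
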