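import Pool.Agent.Helper88.LV.Defs

/-!
# LV-2: Fourier coefficients modulo a divisor

For `d ∣ q` and a function `g` on the units modulo `q` put `F_d(l) = ∑_y g(y) e(l y / d)`.

PROOF. `four_sq`: `F_d(l) = ∑_{w mod d} G(w) e(l w / d)` with `G(w) = ∑_{y ≡ w} g(y)`; Parseval on `ZMod d`
(or expand the square and use `∑_l e(l w / d) = d [w = 0]`), and `G(w)² ≤ (q/d) ∑_{y ≡ w} g(y)²` by Cauchy,
since at most `q/d` residues modulo `q` are `≡ w` modulo `d`. `four_abs`: Cauchy over the `d` values of `l`.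
-/

set_option autoImplicit false

namespace Pool.Agent.Helper88.LV

open Finset

/-- The Fourier coefficient modulo `d` of a function on the units modulo `q`. -/
noncomputable def Fd {q : ℕ} [NeZero q] (d : ℕ) [NeZero d] (g : (ZMod q)ˣ → ℝ) (l : ZMod d) : ℂ :=
  ∑ y : (ZMod q)ˣ, (g y : ℂ) * ZMod.stdAddChar (l * red d y)

theorem norm_Fd_le {q : ℕ} [NeZero q] (d : ℕ) [NeZero d] (g : (ZMod q)ˣ → ℝ) (hg : ∀ y, 0 ≤ g y)
    (l : ZMod d) : ‖Fd d g l‖ ≤ ∑ y, g y := by
  unfold Fd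
  refine (norm_sum_le _ _).trans (Finset.sum_le_sum fun y _ => ?_)
  rw [norm_mul, AddChar.norm_apply, mul_one, Complex.norm_real, Real.norm_of_nonneg (hg y)]

private theorem card_red_97 {q : ℕ} [NeZero q] (d : ℕ) [NeZero d] (hd : d ∣ q) (w : ZMod d) :
    ((univ : Finset (ZMod q)ˣ).filter (fun z => red d z = w)).card ≤ q / d := by
  have hd0 : 0 < d := Nat.pos_of_ne_zero (NeZero.ne d)
  rw [← card_range (q / d)]
  refine Finset.card_le_card_of_injOn (fun z => (z : ZMod q).val / d) ?_ ?_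
  · intro z _
    simp only [coe_range, Set.mem_Iio]
    exact Nat.div_lt_div_of_lt_of_dvd hd (ZMod.val_lt _)
  · intro z hz z' hz' h
    simp only [coe_filter, mem_univ, true_and, Set.mem_ofPred_eq] at hz hz'
    have h1 : (((z : ZMod q).val : ℕ) : ZMod d) = (((z' : ZMod q).val : ℕ) : ZMod d) := hz.trans hz'.symm
    rw [ZMod.natCast_eq_natCast_iff'] at h1
    have h2 : (z : ZMod q).val / d = (z' : ZMod q).val / d := h
    have h3 : (z : ZMod q).val = (z' : ZMod q).val := by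
      rw [← Nat.div_add_mod (z : ZMod q).val d, ← Nat.div_add_mod (z' : ZMod q).val d, h1, h2]
    exact Units.ext (ZMod.val_injective q h3)

theorem four_sq {q : ℕ} [NeZero q] (d : ℕ) [NeZero d] (hd : d ∣ q) (g : (ZMod q)ˣ → ℝ) :
    ∑ l : ZMod d, ‖Fd d g l‖ ^ 2 ≤ q * ∑ y, g y ^ 2 := by
  classical
  have hd0 : 0 < d := Nat.pos_of_ne_zero (NeZero.ne d)
  have h1 : ((∑ l : ZMod d, ‖Fd d g l‖ ^ 2 : ℝ) : ℂ) =
      ((∑ y : (ZMod q)ˣ, ∑ z : (ZMod q)ˣ, if red d y = red d z then (d : ℝ) * (g y * g z) else 0 : ℝ) : ℂ) := by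
    push_cast
    have h2 : ∀ l : ZMod d, ((‖Fd d g l‖ : ℂ)) ^ 2 =
        ∑ y : (ZMod q)ˣ, ∑ z : (ZMod q)ˣ, ((g y : ℂ) * (g z : ℂ)) *
          ZMod.stdAddChar (l * (red d y - red d z)) := by
      intro l
      rw [← Complex.mul_conj', Fd, map_sum, Finset.sum_mul_sum]
      refine Finset.sum_congr rfl fun y _ => Finset.sum_congr rfl fun z _ => ?_
      have e1 : (starRingEnd ℂ) ((g z : ℂ) * ZMod.stdAddChar (l * red d z)) =
          (g z : ℂ) * ZMod.stdAddChar (-(l * red d z)) := by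
        rw [map_mul, Complex.conj_ofReal, AddChar.map_neg_eq_conj]
      rw [e1, mul_sub, sub_eq_add_neg, AddChar.map_add_eq_mul]
      ring
    rw [Finset.sum_congr rfl fun l _ => h2 l, Finset.sum_comm]
    refine Finset.sum_congr rfl fun y _ => ?_
    rw [Finset.sum_comm]
    refine Finset.sum_congr rfl fun z _ => ?_
    rw [← Finset.mul_sum, AddChar.sum_mulShift _ (ZMod.isPrimitive_stdAddChar d)]
    by_cases h : red d y = red d z
    · rw [if_pos (sub_eq_zero.2 h), if_pos h, ZMod.card]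
      push_cast
      ring
    · rw [if_neg (sub_ne_zero.2 h), if_neg h]
      simp
  have h3 := Complex.ofReal_injective h1
  rw [h3]
  have h4 : ∀ y z : (ZMod q)ˣ, (if red d y = red d z then (d : ℝ) * (g y * g z) else 0) ≤
      (if red d z = red d y then (d : ℝ) * g y ^ 2 / 2 else 0) +
      (if red d y = red d z then (d : ℝ) * g z ^ 2 / 2 else 0) := by
    intro y z
    by_cases h : red d y = red d z
    · rw [if_pos h, if_pos h.symm, if_pos h]
      have h5 : (0 : ℝ) ≤ d := Nat.cast_nonneg d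
      nlinarith [mul_nonneg h5 (sq_nonneg (g y - g z))]
    · rw [if_neg h, if_neg fun h' => h h'.symm, if_neg h, add_zero]
  have h5 : ∀ y : (ZMod q)ˣ, (∑ z : (ZMod q)ˣ, if red d z = red d y then (d : ℝ) * g y ^ 2 / 2 else 0) ≤
      q * g y ^ 2 / 2 := by
    intro y
    rw [← Finset.sum_filter, Finset.sum_const, nsmul_eq_mul]
    have h6 : ((((univ : Finset (ZMod q)ˣ).filter (fun z => red d z = red d y)).card : ℕ) : ℝ) * d ≤ q := by
      have h7 := Nat.mul_le_mul_right d (card_red_97 d hd (red d y))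
      rw [Nat.div_mul_cancel hd] at h7
      exact_mod_cast h7
    have h8 : 0 ≤ g y ^ 2 / 2 := by positivity
    have h9 := mul_le_mul_of_nonneg_right h6 h8
    linarith
  calc (∑ y : (ZMod q)ˣ, ∑ z : (ZMod q)ˣ, if red d y = red d z then (d : ℝ) * (g y * g z) else 0)
      ≤ ∑ y : (ZMod q)ˣ, ∑ z : (ZMod q)ˣ, ((if red d z = red d y then (d : ℝ) * g y ^ 2 / 2 else 0) +
      (if red d y = red d z then (d : ℝ) * g z ^ 2 / 2 else 0)) :=
        Finset.sum_le_sum fun y _ => Finset.sum_le_sum fun z _ => h4 y z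
    _ = (∑ y : (ZMod q)ˣ, ∑ z : (ZMod q)ˣ, (if red d z = red d y then (d : ℝ) * g y ^ 2 / 2 else 0)) +
        ∑ z : (ZMod q)ˣ, ∑ y : (ZMod q)ˣ, (if red d y = red d z then (d : ℝ) * g z ^ 2 / 2 else 0) := by
        have e : (∑ z : (ZMod q)ˣ, ∑ y : (ZMod q)ˣ, (if red d y = red d z then (d : ℝ) * g z ^ 2 / 2 else 0)) =
            ∑ y : (ZMod q)ˣ, ∑ z : (ZMod q)ˣ, (if red d y = red d z then (d : ℝ) * g z ^ 2 / 2 else 0) :=
          Finset.sum_comm
        refine Eq.trans ?_ (congrArg₂ (· + ·) rfl e.symm)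
        show _ = _ + _
        rw [← Finset.sum_add_distrib]
        exact Finset.sum_congr rfl fun y _ => Finset.sum_add_distrib
    _ ≤ (∑ y : (ZMod q)ˣ, q * g y ^ 2 / 2) + ∑ y : (ZMod q)ˣ, q * g y ^ 2 / 2 :=
        add_le_add (Finset.sum_le_sum fun y _ => h5 y) (Finset.sum_le_sum fun y _ => h5 y)
    _ = q * ∑ y, g y ^ 2 := by
        rw [← Finset.sum_add_distrib, Finset.mul_sum]
        exact Finset.sum_congr rfl fun y _ => by ring

theorem four_abs {q : ℕ} [NeZero q] (d : ℕ) [NeZero d] (hd : d ∣ q) (g : (ZMod q)ˣ → ℝ) :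
    ∑ l : ZMod d, ‖Fd d g l‖ ≤ Real.sqrt (d * q * ∑ y, g y ^ 2) := by
  refine Real.le_sqrt_of_sq_le ?_
  have h1 := sq_sum_le_card_mul_sum_sq (s := (univ : Finset (ZMod d))) (f := fun l => ‖Fd d g l‖)
  rw [card_univ, ZMod.card] at h1
  refine h1.trans ?_
  rw [mul_assoc]
  exact mul_le_mul_of_nonneg_left (four_sq d hd g) (Nat.cast_nonneg d)

private theorem card_class_97 (L d : ℕ) [NeZero d] (s : ZMod d) :
    ((A L).filter (fun b : ℤ => s + (b : ZMod d) = 0)).card ≤ 2 * L / d + 1 := by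
  have hd0 : 0 < d := Nat.pos_of_ne_zero (NeZero.ne d)
  rw [← card_range (2 * L / d + 1)]
  refine Finset.card_le_card_of_injOn (fun b => (b + L).toNat / d) ?_ ?_
  · intro b hb
    simp only [coe_filter, Set.mem_ofPred_eq, mem_A, abs_le] at hb
    simp only [coe_range, Set.mem_Iio]
    refine Nat.lt_succ_of_le (Nat.div_le_div_right ?_)
    omega
  · intro b hb b' hb' h
    simp only [coe_filter, Set.mem_ofPred_eq, mem_A, abs_le] at hb hb'
    have h0 : (b + L).toNat / d = (b' + L).toNat / d := h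
    have h1 : (b : ZMod d) = (b' : ZMod d) := add_left_cancel (hb.2.trans hb'.2.symm)
    have h2 : (((b + L).toNat : ℕ) : ZMod d) = (((b' + L).toNat : ℕ) : ZMod d) := by
      have e1 : (((b + L).toNat : ℕ) : ℤ) = b + L := Int.toNat_of_nonneg (by omega)
      have e2 : (((b' + L).toNat : ℕ) : ℤ) = b' + L := Int.toNat_of_nonneg (by omega)
      have e3 : (((b + L).toNat : ℤ) : ZMod d) = (((b' + L).toNat : ℤ) : ZMod d) := by
        rw [e1, e2]
        push_cast
        rw [h1]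
      exact_mod_cast e3
    rw [ZMod.natCast_eq_natCast_iff'] at h2
    have h3 : (b + L).toNat = (b' + L).toNat := by
      rw [← Nat.div_add_mod (b + L).toNat d, ← Nat.div_add_mod (b' + L).toNat d, h0, h2]
    omega

/-- At most `10 L / d` integers of `A L` are in a given residue class modulo `d ≤ 8 L`. -/
theorem count_class (L d : ℕ) [NeZero d] (hL : 1 ≤ L) (hd : d ≤ 8 * L) (s : ZMod d) :
    (((A L).filter (fun b : ℤ => s + (b : ZMod d) = 0)).card : ℝ) ≤ 10 * L / d := by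
  have hd0 : (0 : ℝ) < d := Nat.cast_pos.2 (Nat.pos_of_ne_zero (NeZero.ne d))
  have h1 : (((A L).filter (fun b : ℤ => s + (b : ZMod d) = 0)).card : ℝ) ≤ ((2 * L / d + 1 : ℕ) : ℝ) :=
    Nat.cast_le.2 (card_class_97 L d s)
  have h2 : ((2 * L / d : ℕ) : ℝ) ≤ ((2 * L : ℕ) : ℝ) / d := Nat.cast_div_le
  have h3 : (1 : ℝ) ≤ 8 * L / d := by
    rw [le_div_iff₀ hd0, one_mul]
    exact_mod_cast hd
  refine h1.trans ?_
  push_cast at h2 ⊢
  have h4 : (10 : ℝ) * L / d = 2 * L / d + 8 * L / d := by ring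
  rw [h4]
  linarith

/-- At most one integer of `A L` is in a given residue class modulo `d > 8 L`. -/
theorem count_class_one (L d : ℕ) [NeZero d] (hd : 8 * L < d) (s : ZMod d) :
    ((A L).filter (fun b : ℤ => s + (b : ZMod d) = 0)).card ≤ 1 := by
  have h1 := card_class_97 L d s
  have h2 : 2 * L / d = 0 := Nat.div_eq_of_lt (by omega)
  omega

end Pool.Agent.Helper88.LV
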