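import Pool.Agent.Helper88.LV.Fejer
import Pool.Agent.Helper88.LV.Four

/-!
# LV-3: pairs

PROOF. If `d ≤ 8 L`, `count_class` gives at most `10 L / d` values of `b` for each `a, y`, so the sum is
`≤ (10 L/d) (2 L) ∑ g`. If `d > 8 L` put `H = d / (4 L)` (floor, `≥ 2`, `≥ d/(8L)`). For each `a, y` there is
at most one `b` (`count_class_one`), and if it exists then `a y ≡ -b` with `4 H |b| ≤ d`, so
`1 ≤ 2 K d H (a y)` (`K_ge`). So the sum is `≤ 2 ∑_a ∑_y g(y) K(a y) ≤ (2/H²) ∑_{j,i} ∑_a ‖F_d((j-i) a)‖`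
(`K_eq`) `≤ (2/H) (∑_a ‖F_d(0)‖ + ∑_{h ∈ A H} ∑_a ‖F_d(h a)‖)` (`diffs`), the first `≤ (2/H)(2L) ∑ g`,
the second `≤ (2/H) 2 T ∑_l ‖F_d(l)‖` (`hits`, `2 H L ≤ d/2 < d`) and `four_abs`; `1/H ≤ 8L/d`.
-/

set_option autoImplicit false

namespace Pool.Agent.Helper88.LV

open Finset

private lemma h80_card_A (L : ℕ) : ((A L).card : ℝ) ≤ 2 * L := by
  have h0 : (0 : ℤ) ∈ Finset.Icc (-(L : ℤ)) L := by
    rw [mem_Icc]
    omega
  have h1 : (A L).card = 2 * L := by
    unfold A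
    rw [card_erase_of_mem h0, Int.card_Icc]
    omega
  rw [h1]
  push_cast
  exact le_rfl

/-- the weight and the Fourier coefficients -/
private lemma h80_K_sum {q : ℕ} [NeZero q] (d : ℕ) [NeZero d] (H : ℕ) (g : (ZMod q)ˣ → ℝ) (a : ℤ) :
    ∑ y : (ZMod q)ˣ, g y * K d H ((a : ZMod d) * red d y) ≤
      (∑ j ∈ range H, ∑ i ∈ range H, ‖Fd d g ((((j : ℤ) - (i : ℤ)) * a : ℤ) : ZMod d)‖) / (H : ℝ) ^ 2 := by
  have h1 : ((∑ y : (ZMod q)ˣ, g y * K d H ((a : ZMod d) * red d y) : ℝ) : ℂ) =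
      (∑ j ∈ range H, ∑ i ∈ range H, Fd d g ((((j : ℤ) - (i : ℤ)) * a : ℤ) : ZMod d)) / (H : ℂ) ^ 2 := by
    push_cast
    simp only [K_eq, Fd]
    rw [Finset.sum_div, ]
    have e1 : ∀ y : (ZMod q)ˣ, (g y : ℂ) * ((∑ j ∈ range H, ∑ i ∈ range H,
        ZMod.stdAddChar (((j : ZMod d) - (i : ZMod d)) * ((a : ZMod d) * red d y))) / (H : ℂ) ^ 2) =
        ∑ j ∈ range H, (∑ i ∈ range H, (g y : ℂ) *
          ZMod.stdAddChar ((((j : ZMod d) - (i : ZMod d)) * (a : ZMod d)) * red d y)) / (H : ℂ) ^ 2 := by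
      intro y
      rw [← mul_div_assoc, Finset.mul_sum, Finset.sum_div]
      refine Finset.sum_congr rfl fun j _ => ?_
      rw [Finset.mul_sum]
      refine congrArg (fun z => z / (H : ℂ) ^ 2) (Finset.sum_congr rfl fun i _ => ?_)
      rw [mul_assoc ((j : ZMod d) - (i : ZMod d))]
    rw [Finset.sum_congr rfl fun y _ => e1 y, Finset.sum_comm]
    refine Finset.sum_congr rfl fun j _ => ?_
    rw [← Finset.sum_div, Finset.sum_comm]
  have h2 : (∑ y : (ZMod q)ˣ, g y * K d H ((a : ZMod d) * red d y) : ℝ) ≤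
      ‖((∑ y : (ZMod q)ˣ, g y * K d H ((a : ZMod d) * red d y) : ℝ) : ℂ)‖ := by
    rw [Complex.norm_real]
    exact le_abs_self _
  refine h2.trans ?_
  rw [h1, norm_div, norm_pow, Complex.norm_natCast]
  refine div_le_div_of_nonneg_right ?_ (by positivity)
  refine (norm_sum_le _ _).trans (Finset.sum_le_sum fun j _ => ?_)
  exact norm_sum_le _ _

theorem pair_count {q : ℕ} [NeZero q] (d : ℕ) [NeZero d] (hd : d ∣ q) (L : ℕ) (hL : 1 ≤ L)
    (T : ℝ) (hT1 : 1 ≤ T) (hT : ∀ n : ℕ, 1 ≤ n → n ≤ q → ((n.divisors.card : ℕ) : ℝ) ≤ T)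
    (g : (ZMod q)ˣ → ℝ) (hg : ∀ y, 0 ≤ g y) :
    ∑ a ∈ A L, ∑ b ∈ A L, ∑ y : (ZMod q)ˣ,
        (if (a : ZMod d) * red d y + (b : ZMod d) = 0 then g y else 0) ≤
      100 * ((L : ℝ) ^ 2 / d * ∑ y, g y + T * L * Real.sqrt ((q : ℝ) / d * ∑ y, g y ^ 2)) := by
  have hd0 : (0 : ℝ) < d := Nat.cast_pos.2 (Nat.pos_of_ne_zero (NeZero.ne d))
  have hL0 : (1 : ℝ) ≤ L := by exact_mod_cast hL
  have hG : 0 ≤ ∑ y, g y := Finset.sum_nonneg fun y _ => hg y
  have hS : 0 ≤ T * L * Real.sqrt ((q : ℝ) / d * ∑ y, g y ^ 2) := by positivity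
  have hcard := h80_card_A L
  by_cases hdL : d ≤ 8 * L
  · -- small `d`
    have h1 : ∀ a ∈ A L, ∑ b ∈ A L, ∑ y : (ZMod q)ˣ,
        (if (a : ZMod d) * red d y + (b : ZMod d) = 0 then g y else 0) ≤ 10 * L / d * ∑ y, g y := by
      intro a _
      rw [Finset.sum_comm, Finset.mul_sum]
      refine Finset.sum_le_sum fun y _ => ?_
      rw [← Finset.sum_filter, Finset.sum_const, nsmul_eq_mul]
      exact mul_le_mul_of_nonneg_right (count_class L d hL hdL _) (hg y)
    have h2 := Finset.sum_le_sum h1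
    rw [Finset.sum_const, nsmul_eq_mul] at h2
    refine h2.trans ?_
    have h3 : 0 ≤ 10 * (L : ℝ) / d * ∑ y, g y := by positivity
    have h4 := mul_le_mul_of_nonneg_right hcard h3
    have h5 : 2 * (L : ℝ) * (10 * L / d * ∑ y, g y) = 20 * ((L : ℝ) ^ 2 / d * ∑ y, g y) := by ring
    have h6 : 0 ≤ (L : ℝ) ^ 2 / d * ∑ y, g y := by positivity
    linarith
  · -- large `d`
    push Not at hdL
    obtain ⟨H, hH⟩ : ∃ H, H = d / (4 * L) := ⟨_, rfl⟩
    have hH2 : 2 ≤ H := by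
      rw [hH, Nat.le_div_iff_mul_le (by omega)]
      omega
    have hHL : 4 * (H * L) ≤ d := by
      have := Nat.div_mul_le_self d (4 * L)
      rw [← hH] at this
      calc 4 * (H * L) = H * (4 * L) := by ring
        _ ≤ d := this
    have hHlt : d < 4 * L * (H + 1) := by
      have := Nat.lt_mul_div_succ d (show 0 < 4 * L by omega)
      rw [← hH] at this
      exact this
    have hHd : (1 : ℝ) / H ≤ 8 * L / d := by
      have hH0 : (0 : ℝ) < H := by
        have : 0 < H := by omega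
        exact_mod_cast this
      rw [div_le_div_iff₀ hH0 hd0, one_mul]
      have h1 : (d : ℝ) ≤ 4 * L * (H + 1) := by exact_mod_cast hHlt.le
      have h2 : (2 : ℝ) ≤ H := by exact_mod_cast hH2
      nlinarith
    -- one term
    have h1 : ∀ a ∈ A L, ∑ b ∈ A L, ∑ y : (ZMod q)ˣ,
        (if (a : ZMod d) * red d y + (b : ZMod d) = 0 then g y else 0) ≤
        2 * ∑ y, g y * K d H ((a : ZMod d) * red d y) := by
      intro a _
      rw [Finset.sum_comm, Finset.mul_sum]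
      refine Finset.sum_le_sum fun y _ => ?_
      rw [← Finset.sum_filter, Finset.sum_const, nsmul_eq_mul]
      have hK := K_nonneg d H ((a : ZMod d) * red d y)
      rcases Finset.eq_empty_or_nonempty ((A L).filter (fun b : ℤ => (a : ZMod d) * red d y + (b : ZMod d) = 0)) with he | he
      · rw [he, Finset.card_empty]
        have := mul_nonneg (hg y) hK
        push_cast
        linarith
      · obtain ⟨b, hb⟩ := he
        rw [mem_filter, mem_A] at hb
        have hc : ((((A L).filter (fun b : ℤ => (a : ZMod d) * red d y + (b : ZMod d) = 0)).card : ℕ) : ℝ) ≤ 1 := by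
          exact_mod_cast count_class_one L d hdL _
        have hs : (a : ZMod d) * red d y = ((-b : ℤ) : ZMod d) := by
          push_cast
          exact eq_neg_of_add_eq_zero_left hb.2
        have hk : 1 / 2 ≤ K d H ((a : ZMod d) * red d y) := by
          rw [hs]
          refine K_ge d H (by omega) (-b) ?_
          rw [abs_neg]
          have h2 : 4 * (H : ℤ) * |b| ≤ 4 * (H : ℤ) * L := mul_le_mul_of_nonneg_left hb.1.2 (by positivity)
          have h3 : 4 * (H : ℤ) * L ≤ d := by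
            have : ((4 * (H * L) : ℕ) : ℤ) ≤ (d : ℤ) := by exact_mod_cast hHL
            push_cast at this
            linarith
          exact h2.trans h3
        have h4 := mul_le_mul_of_nonneg_right hc (hg y)
        have h5 := mul_le_mul_of_nonneg_left hk (hg y)
        linarith
    have h2 := Finset.sum_le_sum h1
    refine h2.trans ?_
    rw [← Finset.mul_sum]
    -- Fourier coefficients
    have h3 : ∑ a ∈ A L, ∑ y : (ZMod q)ˣ, g y * K d H ((a : ZMod d) * red d y) ≤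
        (∑ j ∈ range H, ∑ i ∈ range H, ∑ a ∈ A L, ‖Fd d g ((((j : ℤ) - (i : ℤ)) * a : ℤ) : ZMod d)‖) /
          (H : ℝ) ^ 2 := by
      refine (Finset.sum_le_sum fun a _ => h80_K_sum d H g a).trans ?_
      rw [← Finset.sum_div, Finset.sum_comm]
      refine div_le_div_of_nonneg_right (Finset.sum_le_sum fun j _ => ?_) (by positivity)
      rw [Finset.sum_comm]
    have h4 := diffs H (fun h : ℤ => ∑ a ∈ A L, ‖Fd d g (((h * a : ℤ)) : ZMod d)‖)
      (fun h => Finset.sum_nonneg fun a _ => norm_nonneg _)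
    have h5 : ∑ a ∈ A L, ‖Fd d g (((0 * a : ℤ)) : ZMod d)‖ ≤ 2 * L * ∑ y, g y := by
      refine (Finset.sum_le_sum fun a _ => norm_Fd_le d g hg _).trans ?_
      rw [Finset.sum_const, nsmul_eq_mul]
      exact mul_le_mul_of_nonneg_right hcard hG
    have h6 : ∑ h ∈ A H, ∑ a ∈ A L, ‖Fd d g (((h * a : ℤ)) : ZMod d)‖ ≤
        2 * T * Real.sqrt (d * q * ∑ y, g y ^ 2) := by
      refine (hits d H L T ?_ ?_ (fun l => ‖Fd d g l‖) fun l => norm_nonneg _).trans ?_
      · exact fun n hn hn' => hT n hn (hn'.trans (Nat.le_of_dvd (Nat.pos_of_ne_zero (NeZero.ne q)) hd))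
      · have : 0 < H * L := Nat.mul_pos (by omega) hL
        omega
      · exact mul_le_mul_of_nonneg_left (four_abs d hd g) (by positivity)
    have h7 : Real.sqrt (d * q * ∑ y, g y ^ 2) = d * Real.sqrt ((q : ℝ) / d * ∑ y, g y ^ 2) := by
      have e1 : (d : ℝ) * q * ∑ y, g y ^ 2 = (d : ℝ) ^ 2 * ((q : ℝ) / d * ∑ y, g y ^ 2) := by
        field_simp
      rw [e1, Real.sqrt_mul (by positivity), Real.sqrt_sq hd0.le]
    have hH0 : (0 : ℝ) < H := by
      have : 0 < H := by omega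
      exact_mod_cast this
    have h8 : (∑ j ∈ range H, ∑ i ∈ range H, ∑ a ∈ A L, ‖Fd d g ((((j : ℤ) - (i : ℤ)) * a : ℤ) : ZMod d)‖) /
          (H : ℝ) ^ 2 ≤ 1 / H * (2 * L * ∑ y, g y + 2 * T * Real.sqrt (d * q * ∑ y, g y ^ 2)) := by
      rw [div_le_iff₀ (by positivity)]
      have e1 : 1 / (H : ℝ) * (2 * L * ∑ y, g y + 2 * T * Real.sqrt (d * q * ∑ y, g y ^ 2)) * (H : ℝ) ^ 2 =
          H * (2 * L * ∑ y, g y + 2 * T * Real.sqrt (d * q * ∑ y, g y ^ 2)) := by
        field_simp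
      rw [e1]
      exact h4.trans (mul_le_mul_of_nonneg_left (add_le_add h5 h6) hH0.le)
    have h9 : 0 ≤ 2 * L * ∑ y, g y + 2 * T * Real.sqrt (d * q * ∑ y, g y ^ 2) := by positivity
    have h10 := mul_le_mul_of_nonneg_right hHd h9
    have h11 : 8 * (L : ℝ) / d * (2 * L * ∑ y, g y + 2 * T * Real.sqrt (d * q * ∑ y, g y ^ 2)) =
        16 * ((L : ℝ) ^ 2 / d * ∑ y, g y) + 16 * (T * L * Real.sqrt ((q : ℝ) / d * ∑ y, g y ^ 2)) := by
      rw [h7]
      field_simp
      ring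
    have h12 : 0 ≤ (L : ℝ) ^ 2 / d * ∑ y, g y := by positivity
    linarith

end Pool.Agent.Helper88.LV
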