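import Pool.Agent.Helper88.LV.Cubic
import Pool.Agent.Helper88.LV.Dual
import Pool.Agent.Helper88.LV.Energy
import Pool.Agent.Helper7.GPC.Div

/-!
# LV-10: the large value theorem at the critical point

PROOF. Let `r = #W > q^{59/100}`, `N ≤ q^{4/5+η}`, `V ≥ q^{3/5-η}`, `B = q^η`, `η = 1/2000`, `T = q^{1/10000}`
(`q` large: the divisor bound `τ(n) ≤ C n^{1/20000}`), `J = q/(4N)` (floor), so `q^{.1995}/8 ≤ q/(8N) ≤ J`.
(1) Energy: with `x = E`, LV-9 gives `E² ≤ q^{-2.398+.0023} (…)(…)`; the four products give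
`E ≤ max(q^{.8063} r, q^{.3372} r², q^{1.0116}, q^{.2053} r²) · const ≤ q^{.338} r²` (as `r ≥ q^{.59}`).
(2) Duality: `m = (1/r) ∑_u K |P|²`, `r V² ≤ 2 B² N m`, so `m ≥ r q^{.3975}/2 ≥ q^{.9875}/2`, and
`s = φ/J ≤ 8 N ≤ 8 q^{.8005} ≤ m/2`; so `m (m-s)² ≥ m³/4 ≥ r³ q^{1.1925}/32`.
(3) `T3 ≤ 35 T² q² √(r³ + rE/J) ≤ 105 q^{2.0695} r^{3/2}` (`E/J ≤ 8 q^{.1385} r²`),
`s T2 ≤ 8 q^{.8005} · 100 T (q r + T q^{3/2} √E / J) ≤ C q^{2.2702} r`.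
Contradiction for `r > q^{.59}`, `q` large: `3ρ + 1.1925 > 2.0695 + 1.5 ρ` and `> 2.2702 + ρ`.
-/

set_option autoImplicit false

namespace Pool.Agent.Helper88.LV

open Finset

private lemma rp_le88 {Q : ℝ} (hQ : 1 ≤ Q) {a b : ℝ} (h : a ≤ b) : Q ^ a ≤ Q ^ b :=
  Real.rpow_le_rpow_of_exponent_le hQ h

private lemma rp_sq88 {Q : ℝ} (hQ : 0 ≤ Q) (a : ℝ) : (Q ^ a) ^ 2 = Q ^ (2 * a) := by
  rw [← Real.rpow_natCast (Q ^ a) 2, ← Real.rpow_mul hQ]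
  norm_num
  ring_nf

private lemma rp_four88 {Q : ℝ} (hQ : 0 ≤ Q) (a : ℝ) : (Q ^ a) ^ 4 = Q ^ (4 * a) := by
  rw [← Real.rpow_natCast (Q ^ a) 4, ← Real.rpow_mul hQ]
  norm_num
  ring_nf

/-- The energy step. -/
private lemma energy_num88 {Q r E N V B T : ℝ} (hQ : 1 ≤ Q)
    (hbig : (10 : ℝ) ^ 8 ≤ Q ^ (1 / 10000 : ℝ)) (hr : Q ^ (59 / 100 : ℝ) ≤ r) (hE : 0 ≤ E)
    (hN0 : 0 ≤ N) (hN : N ≤ Q ^ (4 / 5 + 1 / 2000 : ℝ))
    (hV : Q ^ (3 / 5 - 1 / 2000 : ℝ) ≤ V) (hB0 : 0 ≤ B) (hB : B ≤ Q ^ (1 / 2000 : ℝ)) (hT0 : 0 ≤ T)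
    (hT : T ≤ Q ^ (1 / 10000 : ℝ))
    (h : V ^ 4 * E ^ 2 ≤ 10 ^ 4 * B ^ 4 * T ^ 2 * (N ^ 2 * r + N * Real.sqrt (Q * E)) *
      (N ^ 2 * E + N * r ^ 2 * Real.sqrt (Q * E))) :
    E ≤ Q ^ (338 / 1000 : ℝ) * r ^ 2 := by
  have hQ0 : 0 < Q := by linarith
  have hQ0' : 0 ≤ Q := hQ0.le
  by_contra hcon
  rw [not_le] at hcon
  have hr0 : 0 < r := lt_of_lt_of_le (Real.rpow_pos_of_pos hQ0 _) hr
  have hEpos : 0 < E := lt_of_le_of_lt (by positivity) hcon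
  set X : ℝ := Real.sqrt E with hX
  have hXpos : 0 < X := Real.sqrt_pos.2 hEpos
  have hXX : X ^ 2 = E := Real.sq_sqrt hE
  -- X > Q^.169 r
  have hXr : Q ^ (169 / 1000 : ℝ) * r ≤ X := by
    apply Real.le_sqrt_of_sq_le
    rw [mul_pow, rp_sq88 hQ0']
    have : (2 * (169 / 1000) : ℝ) = 338 / 1000 := by norm_num
    rw [this]
    exact hcon.le
  have hsq : Real.sqrt (Q * E) = Q ^ (1 / 2 : ℝ) * X := by
    rw [Real.sqrt_mul hQ0', ← Real.sqrt_eq_rpow]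
  set Y : ℝ := Q ^ (1 / 2 : ℝ) with hY
  have hY0 : 0 < Y := Real.rpow_pos_of_pos hQ0 _
  rw [hsq, ← hXX] at h
  -- divide by X
  have h1 : V ^ 4 * X ^ 3 ≤ 10 ^ 4 * B ^ 4 * T ^ 2 * N ^ 2 *
      (N ^ 2 * r * X + N * Y * r ^ 3 + N * Y * X ^ 2 + Y ^ 2 * r ^ 2 * X) := by
    have h2 : X * (V ^ 4 * X ^ 3) ≤ X * (10 ^ 4 * B ^ 4 * T ^ 2 * N ^ 2 *
      (N ^ 2 * r * X + N * Y * r ^ 3 + N * Y * X ^ 2 + Y ^ 2 * r ^ 2 * X)) := by
      calc X * (V ^ 4 * X ^ 3) = V ^ 4 * (X ^ 2) ^ 2 := by ring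
        _ ≤ _ := h
        _ = _ := by ring
    exact le_of_mul_le_mul_left h2 hXpos
  -- the four terms
  have hN2 : N ^ 2 ≤ Q ^ (1601 / 1000 : ℝ) := by
    calc N ^ 2 ≤ (Q ^ (4 / 5 + 1 / 2000 : ℝ)) ^ 2 := by gcongr
      _ = Q ^ (1601 / 1000 : ℝ) := by
        rw [rp_sq88 hQ0']
        norm_num
  have hXbig : Q ^ (759 / 1000 : ℝ) ≤ X := by
    calc Q ^ (759 / 1000 : ℝ) = Q ^ (169 / 1000 : ℝ) * Q ^ (59 / 100 : ℝ) := by
          rw [← Real.rpow_add hQ0]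
          norm_num
      _ ≤ Q ^ (169 / 1000 : ℝ) * r := by gcongr
      _ ≤ X := hXr
  have t1 : N ^ 2 * r * X ≤ Q ^ (7935 / 10000 : ℝ) * X ^ 3 := by
    have e1 : Q ^ (928 / 1000 : ℝ) * r ≤ X ^ 2 := by
      calc Q ^ (928 / 1000 : ℝ) * r = Q ^ (169 / 1000 : ℝ) * r * Q ^ (759 / 1000 : ℝ) := by
            rw [mul_right_comm, ← Real.rpow_add hQ0]
            norm_num
        _ ≤ X * X := by gcongr
        _ = X ^ 2 := by ring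
    have e2 : N ^ 2 ≤ Q ^ (7935 / 10000 : ℝ) * Q ^ (928 / 1000 : ℝ) := by
      rw [← Real.rpow_add hQ0]
      exact hN2.trans (rp_le88 hQ (by norm_num))
    calc N ^ 2 * r * X ≤ (Q ^ (7935 / 10000 : ℝ) * Q ^ (928 / 1000 : ℝ)) * r * X := by gcongr
      _ = Q ^ (7935 / 10000 : ℝ) * (Q ^ (928 / 1000 : ℝ) * r) * X := by ring
      _ ≤ Q ^ (7935 / 10000 : ℝ) * X ^ 2 * X := by gcongr
      _ = _ := by ring
  have t2 : N * Y * r ^ 3 ≤ Q ^ (7935 / 10000 : ℝ) * X ^ 3 := by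
    have e1 : Q ^ (507 / 1000 : ℝ) * r ^ 3 ≤ X ^ 3 := by
      calc Q ^ (507 / 1000 : ℝ) * r ^ 3 = (Q ^ (169 / 1000 : ℝ) * r) ^ 3 := by
            rw [mul_pow, ← Real.rpow_natCast (Q ^ (169 / 1000 : ℝ)) 3, ← Real.rpow_mul hQ0']
            norm_num
        _ ≤ X ^ 3 := by gcongr
    have e2 : N * Y ≤ Q ^ (7935 / 10000 : ℝ) * Q ^ (507 / 1000 : ℝ) := by
      calc N * Y ≤ Q ^ (4 / 5 + 1 / 2000 : ℝ) * Q ^ (1 / 2 : ℝ) := by gcongr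
        _ = Q ^ (7935 / 10000 : ℝ) * Q ^ (507 / 1000 : ℝ) := by
          rw [← Real.rpow_add hQ0, ← Real.rpow_add hQ0]
          norm_num
    calc N * Y * r ^ 3 ≤ (Q ^ (7935 / 10000 : ℝ) * Q ^ (507 / 1000 : ℝ)) * r ^ 3 := by gcongr
      _ = Q ^ (7935 / 10000 : ℝ) * (Q ^ (507 / 1000 : ℝ) * r ^ 3) := by ring
      _ ≤ _ := by gcongr
  have t3 : N * Y * X ^ 2 ≤ Q ^ (7935 / 10000 : ℝ) * X ^ 3 := by
    have e2 : N * Y ≤ Q ^ (7935 / 10000 : ℝ) * Q ^ (759 / 1000 : ℝ) := by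
      calc N * Y ≤ Q ^ (4 / 5 + 1 / 2000 : ℝ) * Q ^ (1 / 2 : ℝ) := by gcongr
        _ ≤ Q ^ (7935 / 10000 : ℝ) * Q ^ (759 / 1000 : ℝ) := by
          rw [← Real.rpow_add hQ0, ← Real.rpow_add hQ0]
          exact rp_le88 hQ (by norm_num)
    calc N * Y * X ^ 2 ≤ (Q ^ (7935 / 10000 : ℝ) * Q ^ (759 / 1000 : ℝ)) * X ^ 2 := by gcongr
      _ ≤ (Q ^ (7935 / 10000 : ℝ) * X) * X ^ 2 := by gcongr
      _ = _ := by ring
  have t4 : Y ^ 2 * r ^ 2 * X ≤ Q ^ (7935 / 10000 : ℝ) * X ^ 3 := by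
    have e1 : Q ^ (338 / 1000 : ℝ) * r ^ 2 ≤ X ^ 2 := by
      rw [hXX]
      exact hcon.le
    have e2 : Y ^ 2 ≤ Q ^ (7935 / 10000 : ℝ) * Q ^ (338 / 1000 : ℝ) := by
      rw [hY, rp_sq88 hQ0', ← Real.rpow_add hQ0]
      exact rp_le88 hQ (by norm_num)
    calc Y ^ 2 * r ^ 2 * X ≤ (Q ^ (7935 / 10000 : ℝ) * Q ^ (338 / 1000 : ℝ)) * r ^ 2 * X := by
          gcongr
      _ = Q ^ (7935 / 10000 : ℝ) * (Q ^ (338 / 1000 : ℝ) * r ^ 2) * X := by ring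
      _ ≤ Q ^ (7935 / 10000 : ℝ) * X ^ 2 * X := by gcongr
      _ = _ := by ring
  have hconst : 10 ^ 4 * B ^ 4 * T ^ 2 * N ^ 2 ≤ 10 ^ 4 * Q ^ (16032 / 10000 : ℝ) := by
    calc 10 ^ 4 * B ^ 4 * T ^ 2 * N ^ 2 ≤ 10 ^ 4 * (Q ^ (1 / 2000 : ℝ)) ^ 4 *
          (Q ^ (1 / 10000 : ℝ)) ^ 2 * Q ^ (1601 / 1000 : ℝ) := by gcongr
      _ = 10 ^ 4 * Q ^ (16032 / 10000 : ℝ) := by
        rw [rp_four88 hQ0', rp_sq88 hQ0', mul_assoc (10 ^ 4 : ℝ), ← Real.rpow_add hQ0, mul_assoc,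
          ← Real.rpow_add hQ0]
        norm_num
  have hV4 : Q ^ (2398 / 1000 : ℝ) ≤ V ^ 4 := by
    calc Q ^ (2398 / 1000 : ℝ) = (Q ^ (3 / 5 - 1 / 2000 : ℝ)) ^ 4 := by
          rw [rp_four88 hQ0']
          norm_num
      _ ≤ V ^ 4 := by gcongr
  have hX3 : 0 < X ^ 3 := by positivity
  have h3 : Q ^ (2398 / 1000 : ℝ) * X ^ 3 ≤ 4 * 10 ^ 4 * Q ^ (23967 / 10000 : ℝ) * X ^ 3 := by
    calc Q ^ (2398 / 1000 : ℝ) * X ^ 3 ≤ V ^ 4 * X ^ 3 := by gcongr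
      _ ≤ _ := h1
      _ ≤ 10 ^ 4 * B ^ 4 * T ^ 2 * N ^ 2 * (Q ^ (7935 / 10000 : ℝ) * X ^ 3 +
          Q ^ (7935 / 10000 : ℝ) * X ^ 3 + Q ^ (7935 / 10000 : ℝ) * X ^ 3 +
          Q ^ (7935 / 10000 : ℝ) * X ^ 3) := by gcongr
      _ ≤ 10 ^ 4 * Q ^ (16032 / 10000 : ℝ) * (Q ^ (7935 / 10000 : ℝ) * X ^ 3 +
          Q ^ (7935 / 10000 : ℝ) * X ^ 3 + Q ^ (7935 / 10000 : ℝ) * X ^ 3 +
          Q ^ (7935 / 10000 : ℝ) * X ^ 3) := by gcongr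
      _ = 4 * 10 ^ 4 * (Q ^ (16032 / 10000 : ℝ) * Q ^ (7935 / 10000 : ℝ)) * X ^ 3 := by ring
      _ = _ := by
        rw [← Real.rpow_add hQ0]
        norm_num
  have h4 : Q ^ (2398 / 1000 : ℝ) ≤ 4 * 10 ^ 4 * Q ^ (23967 / 10000 : ℝ) :=
    le_of_mul_le_mul_right h3 hX3
  have h5 : 10 ^ 8 * Q ^ (23967 / 10000 : ℝ) ≤ Q ^ (2398 / 1000 : ℝ) := by
    calc 10 ^ 8 * Q ^ (23967 / 10000 : ℝ) ≤ Q ^ (1 / 10000 : ℝ) * Q ^ (23967 / 10000 : ℝ) := by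
          gcongr
      _ ≤ _ := by
        rw [← Real.rpow_add hQ0]
        exact rp_le88 hQ (by norm_num)
  have h6 : 0 < Q ^ (23967 / 10000 : ℝ) := Real.rpow_pos_of_pos hQ0 _
  nlinarith [h4, h5, h6]

/-- The final step. -/
private lemma final_num88 {Q r E N V B T m s t3 t2 ji : ℝ} (hQ : 1 ≤ Q)
    (hbig : (10 : ℝ) ^ 8 ≤ Q ^ (1 / 10000 : ℝ)) (hr : Q ^ (59 / 100 : ℝ) ≤ r) (hE0 : 0 ≤ E)
    (hE : E ≤ Q ^ (338 / 1000 : ℝ) * r ^ 2)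
    (hN0 : 0 ≤ N) (hN : N ≤ Q ^ (4 / 5 + 1 / 2000 : ℝ))
    (hV : Q ^ (3 / 5 - 1 / 2000 : ℝ) ≤ V) (hB0 : 0 ≤ B) (hB : B ≤ Q ^ (1 / 2000 : ℝ)) (hT0 : 0 ≤ T)
    (hT : T ≤ Q ^ (1 / 10000 : ℝ)) (hji0 : 0 ≤ ji) (hji : ji ≤ 8 * N / Q) (hm0 : 0 ≤ m)
    (h1 : r * V ^ 2 ≤ 2 * B ^ 2 * N * m) (hs0 : 0 ≤ s) (hs : s ≤ 8 * N)
    (h2 : s ≤ m → m * (m - s) ^ 2 ≤ t3 + s * t2)
    (h3 : t3 ≤ 35 * T ^ 2 * Q ^ 2 * Real.sqrt (r ^ 3 + r * E * ji))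
    (h4 : t2 ≤ 100 * T * (Q * r + T * Real.sqrt (Q ^ 3 * E) * ji)) : False := by
  have hQ0 : 0 < Q := by linarith
  have hQ0' : 0 ≤ Q := hQ0.le
  have hr0 : 0 < r := lt_of_lt_of_le (Real.rpow_pos_of_pos hQ0 _) hr
  have hNb : 8 * N ≤ 8 * Q ^ (8005 / 10000 : ℝ) := by
    have : (4 / 5 + 1 / 2000 : ℝ) = 8005 / 10000 := by norm_num
    rw [this] at hN
    linarith
  -- the lower bound for m
  have hm1 : r * Q ^ (3975 / 10000 : ℝ) ≤ 2 * m := by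
    have e1 : r * Q ^ (1199 / 1000 : ℝ) ≤ r * V ^ 2 := by
      have : Q ^ (1199 / 1000 : ℝ) = (Q ^ (3 / 5 - 1 / 2000 : ℝ)) ^ 2 := by
        rw [rp_sq88 hQ0']
        norm_num
      rw [this]
      gcongr
    have e2 : 2 * B ^ 2 * N * m ≤ Q ^ (8015 / 10000 : ℝ) * (2 * m) := by
      calc 2 * B ^ 2 * N * m ≤ 2 * (Q ^ (1 / 2000 : ℝ)) ^ 2 * Q ^ (4 / 5 + 1 / 2000 : ℝ) * m := by
            gcongr
        _ = (Q ^ (1 / 2000 : ℝ)) ^ 2 * Q ^ (4 / 5 + 1 / 2000 : ℝ) * (2 * m) := by ring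
        _ = _ := by
          rw [rp_sq88 hQ0', ← Real.rpow_add hQ0]
          norm_num
    have e3 : Q ^ (8015 / 10000 : ℝ) * (r * Q ^ (3975 / 10000 : ℝ)) ≤
        Q ^ (8015 / 10000 : ℝ) * (2 * m) := by
      calc Q ^ (8015 / 10000 : ℝ) * (r * Q ^ (3975 / 10000 : ℝ)) =
            r * (Q ^ (8015 / 10000 : ℝ) * Q ^ (3975 / 10000 : ℝ)) := by ring
        _ = r * Q ^ (1199 / 1000 : ℝ) := by
          rw [← Real.rpow_add hQ0]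
          norm_num
        _ ≤ _ := e1.trans (h1.trans e2)
    exact le_of_mul_le_mul_left e3 (Real.rpow_pos_of_pos hQ0 _)
  have hm2 : 16 * N ≤ m := by
    have e1 : Q ^ (9875 / 10000 : ℝ) ≤ 2 * m := by
      calc Q ^ (9875 / 10000 : ℝ) = Q ^ (59 / 100 : ℝ) * Q ^ (3975 / 10000 : ℝ) := by
            rw [← Real.rpow_add hQ0]
            norm_num
        _ ≤ r * Q ^ (3975 / 10000 : ℝ) := by gcongr
        _ ≤ _ := hm1
    have e2 : 10 ^ 8 * Q ^ (8005 / 10000 : ℝ) ≤ Q ^ (9875 / 10000 : ℝ) := by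
      calc 10 ^ 8 * Q ^ (8005 / 10000 : ℝ) ≤ Q ^ (1 / 10000 : ℝ) * Q ^ (8005 / 10000 : ℝ) := by
            gcongr
        _ ≤ _ := by
          rw [← Real.rpow_add hQ0]
          exact rp_le88 hQ (by norm_num)
    have e3 : 0 < Q ^ (8005 / 10000 : ℝ) := Real.rpow_pos_of_pos hQ0 _
    nlinarith
  have hsm : s ≤ m / 2 := by linarith
  have h2' := h2 (by linarith)
  have h5 : m ^ 3 / 4 ≤ m * (m - s) ^ 2 := by
    have e1 : (m / 2) ^ 2 ≤ (m - s) ^ 2 := by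
      apply pow_le_pow_left₀ (by linarith)
      linarith
    calc m ^ 3 / 4 = m * (m / 2) ^ 2 := by ring
      _ ≤ _ := by gcongr
  have h6 : r ^ 3 * Q ^ (11925 / 10000 : ℝ) ≤ 32 * (t3 + s * t2) := by
    have e1 : (r * Q ^ (3975 / 10000 : ℝ)) ^ 3 ≤ (2 * m) ^ 3 := by gcongr
    have e2 : (r * Q ^ (3975 / 10000 : ℝ)) ^ 3 = r ^ 3 * Q ^ (11925 / 10000 : ℝ) := by
      rw [mul_pow, ← Real.rpow_natCast (Q ^ (3975 / 10000 : ℝ)) 3, ← Real.rpow_mul hQ0']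
      norm_num
    rw [e2] at e1
    have e3 : (2 * m) ^ 3 = 32 * (m ^ 3 / 4) := by ring
    rw [e3] at e1
    linarith
  -- the number 1/J
  have hji2 : ji ≤ 8 * Q ^ (-(1995 / 10000) : ℝ) := by
    calc ji ≤ 8 * N / Q := hji
      _ ≤ 8 * Q ^ (8005 / 10000 : ℝ) / Q := by gcongr
      _ = 8 * (Q ^ (8005 / 10000 : ℝ) * Q ^ (-1 : ℝ)) := by
        rw [Real.rpow_neg_one]
        ring
      _ = _ := by
        rw [← Real.rpow_add hQ0]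
        norm_num
  -- the cubic sum
  set y : ℝ := Real.sqrt (r ^ 3) with hy
  have hyy : y ^ 2 = r ^ 3 := Real.sq_sqrt (by positivity)
  have hy0 : 0 < y := Real.sqrt_pos.2 (by positivity)
  have hylow : Q ^ (885 / 1000 : ℝ) ≤ y := by
    apply Real.le_sqrt_of_sq_le
    calc (Q ^ (885 / 1000 : ℝ)) ^ 2 = (Q ^ (59 / 100 : ℝ)) ^ 3 := by
          rw [rp_sq88 hQ0', ← Real.rpow_natCast (Q ^ (59 / 100 : ℝ)) 3, ← Real.rpow_mul hQ0']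
          norm_num
      _ ≤ r ^ 3 := by gcongr
  have h7 : Real.sqrt (r ^ 3 + r * E * ji) ≤ 3 * Q ^ (6925 / 100000 : ℝ) * y := by
    apply Real.sqrt_le_left (by positivity) |>.mpr
    have e1 : r * E * ji ≤ 8 * (Q ^ (1385 / 10000 : ℝ) * r ^ 3) := by
      calc r * E * ji ≤ r * (Q ^ (338 / 1000 : ℝ) * r ^ 2) * (8 * Q ^ (-(1995 / 10000) : ℝ)) := by
            gcongr
        _ = 8 * ((Q ^ (338 / 1000 : ℝ) * Q ^ (-(1995 / 10000) : ℝ)) * r ^ 3) := by ring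
        _ = _ := by
          rw [← Real.rpow_add hQ0]
          norm_num
    have e2 : (1 : ℝ) ≤ Q ^ (1385 / 10000 : ℝ) := Real.one_le_rpow hQ (by norm_num)
    have e3 : (3 * Q ^ (6925 / 100000 : ℝ) * y) ^ 2 = 9 * (Q ^ (1385 / 10000 : ℝ) * r ^ 3) := by
      rw [mul_pow, mul_pow, rp_sq88 hQ0', hyy]
      norm_num
      ring
    rw [e3]
    have e4 : r ^ 3 ≤ Q ^ (1385 / 10000 : ℝ) * r ^ 3 := by
      have : 0 < r ^ 3 := by positivity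
      nlinarith
    linarith
  have h8 : t3 ≤ 105 * Q ^ (206945 / 100000 : ℝ) * y := by
    calc t3 ≤ 35 * T ^ 2 * Q ^ 2 * Real.sqrt (r ^ 3 + r * E * ji) := h3
      _ ≤ 35 * (Q ^ (1 / 10000 : ℝ)) ^ 2 * Q ^ 2 * (3 * Q ^ (6925 / 100000 : ℝ) * y) := by gcongr
      _ = 105 * ((Q ^ (1 / 10000 : ℝ)) ^ 2 * Q ^ (2 : ℝ) * Q ^ (6925 / 100000 : ℝ)) * y := by
        rw [Real.rpow_two]
        ring
      _ = _ := by
        rw [rp_sq88 hQ0', ← Real.rpow_add hQ0, ← Real.rpow_add hQ0]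
        norm_num
  -- the quadratic sum
  have h9 : Real.sqrt (Q ^ 3 * E) ≤ Q ^ (1669 / 1000 : ℝ) * r := by
    apply Real.sqrt_le_left (by positivity) |>.mpr
    calc Q ^ 3 * E ≤ Q ^ 3 * (Q ^ (338 / 1000 : ℝ) * r ^ 2) := by gcongr
      _ = (Q ^ (3 : ℝ) * Q ^ (338 / 1000 : ℝ)) * r ^ 2 := by
        have : Q ^ (3 : ℝ) = Q ^ 3 := by exact_mod_cast Real.rpow_natCast Q 3
        rw [this]
        ring
      _ = (Q ^ (1669 / 1000 : ℝ) * r) ^ 2 := by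
        rw [mul_pow, rp_sq88 hQ0', ← Real.rpow_add hQ0]
        norm_num
  have h10 : t2 ≤ 900 * Q ^ (14697 / 10000 : ℝ) * r := by
    have e1 : T * Real.sqrt (Q ^ 3 * E) * ji ≤ 8 * Q ^ (14696 / 10000 : ℝ) * r := by
      calc T * Real.sqrt (Q ^ 3 * E) * ji ≤ Q ^ (1 / 10000 : ℝ) * (Q ^ (1669 / 1000 : ℝ) * r) *
            (8 * Q ^ (-(1995 / 10000) : ℝ)) := by gcongr
        _ = 8 * (Q ^ (1 / 10000 : ℝ) * Q ^ (1669 / 1000 : ℝ) * Q ^ (-(1995 / 10000) : ℝ)) * r := by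
          ring
        _ = _ := by
          rw [← Real.rpow_add hQ0, ← Real.rpow_add hQ0]
          norm_num
    have e2 : Q * r ≤ Q ^ (14696 / 10000 : ℝ) * r := by
      have : Q ≤ Q ^ (14696 / 10000 : ℝ) := by
        calc Q = Q ^ (1 : ℝ) := (Real.rpow_one Q).symm
          _ ≤ _ := rp_le88 hQ (by norm_num)
      gcongr
    calc t2 ≤ 100 * T * (Q * r + T * Real.sqrt (Q ^ 3 * E) * ji) := h4
      _ ≤ 100 * Q ^ (1 / 10000 : ℝ) * (Q ^ (14696 / 10000 : ℝ) * r +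
          8 * Q ^ (14696 / 10000 : ℝ) * r) := by
        have : 0 ≤ Q * r + T * Real.sqrt (Q ^ 3 * E) * ji := by positivity
        gcongr
      _ = 900 * (Q ^ (1 / 10000 : ℝ) * Q ^ (14696 / 10000 : ℝ)) * r := by ring
      _ = _ := by
        rw [← Real.rpow_add hQ0]
        norm_num
  have h11 : s * t2 ≤ 7200 * Q ^ (22702 / 10000 : ℝ) * r := by
    calc s * t2 ≤ s * (900 * Q ^ (14697 / 10000 : ℝ) * r) := by gcongr
      _ ≤ 8 * Q ^ (8005 / 10000 : ℝ) * (900 * Q ^ (14697 / 10000 : ℝ) * r) := by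
        have : s ≤ 8 * Q ^ (8005 / 10000 : ℝ) := hs.trans hNb
        gcongr
      _ = 7200 * (Q ^ (8005 / 10000 : ℝ) * Q ^ (14697 / 10000 : ℝ)) * r := by ring
      _ = _ := by
        rw [← Real.rpow_add hQ0]
        norm_num
  -- comparison
  have h12 : 10 ^ 8 * (Q ^ (206945 / 100000 : ℝ) * y) ≤ r ^ 3 * Q ^ (11925 / 10000 : ℝ) := by
    calc 10 ^ 8 * (Q ^ (206945 / 100000 : ℝ) * y) ≤
          Q ^ (1 / 10000 : ℝ) * (Q ^ (206945 / 100000 : ℝ) * y) := by gcongr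
      _ = (Q ^ (1 / 10000 : ℝ) * Q ^ (206945 / 100000 : ℝ)) * y := by ring
      _ ≤ (Q ^ (885 / 1000 : ℝ) * Q ^ (11925 / 10000 : ℝ)) * y := by
        gcongr ?_ * y
        rw [← Real.rpow_add hQ0, ← Real.rpow_add hQ0]
        exact rp_le88 hQ (by norm_num)
      _ ≤ (y * Q ^ (11925 / 10000 : ℝ)) * y := by gcongr
      _ = y ^ 2 * Q ^ (11925 / 10000 : ℝ) := by ring
      _ = _ := by rw [hyy]
  have h13 : 10 ^ 8 * (Q ^ (22702 / 10000 : ℝ) * r) ≤ r ^ 3 * Q ^ (11925 / 10000 : ℝ) := by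
    calc 10 ^ 8 * (Q ^ (22702 / 10000 : ℝ) * r) ≤
          Q ^ (1 / 10000 : ℝ) * (Q ^ (22702 / 10000 : ℝ) * r) := by gcongr
      _ = (Q ^ (1 / 10000 : ℝ) * Q ^ (22702 / 10000 : ℝ)) * r := by ring
      _ ≤ ((Q ^ (59 / 100 : ℝ)) ^ 2 * Q ^ (11925 / 10000 : ℝ)) * r := by
        gcongr ?_ * r
        rw [rp_sq88 hQ0', ← Real.rpow_add hQ0, ← Real.rpow_add hQ0]
        exact rp_le88 hQ (by norm_num)
      _ ≤ (r ^ 2 * Q ^ (11925 / 10000 : ℝ)) * r := by gcongr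
      _ = _ := by ring
  have p1 : 0 < Q ^ (206945 / 100000 : ℝ) * y := by positivity
  have p2 : 0 < Q ^ (22702 / 10000 : ℝ) * r := by positivity
  have h14 : t3 + s * t2 ≤ 105 * (Q ^ (206945 / 100000 : ℝ) * y) +
      7200 * (Q ^ (22702 / 10000 : ℝ) * r) := by linarith
  nlinarith [h6, h12, h13, h14, p1, p2]

/-- The large value theorem for general Dirichlet polynomials of length about `q^{4/5}` over the characters
modulo `q`: fewer than `q^{59/100}` characters have values of size `q^{3/5 - 1/2000}`. -/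
theorem large_values : ∃ q₀ : ℕ, ∀ q : ℕ, q₀ ≤ q → ∀ [NeZero q], ∀ (N : ℕ) (b : ℕ → ℂ)
    (W : Finset (DirichletCharacter ℂ q)),
    1 ≤ N → (N : ℝ) ≤ (q : ℝ) ^ (4 / 5 + 1 / 2000 : ℝ) →
    (∀ n ∈ Icc 1 N, ‖b n‖ ≤ (q : ℝ) ^ (1 / 2000 : ℝ)) →
    (∀ χ ∈ W, (q : ℝ) ^ (3 / 5 - 1 / 2000 : ℝ) ≤ ‖∑ n ∈ Icc 1 N, b n * χ (n : ZMod q)‖) →
    (W.card : ℝ) ≤ (q : ℝ) ^ (59 / 100 : ℝ) := by
  classical
  obtain ⟨C, hC1, hC⟩ := Pool.Agent.Helper7.GPC.card_divisors_le (ε := 1 / 20000) (by norm_num)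
  have hev : ∀ᶠ q : ℕ in Filter.atTop, (10 : ℝ) ^ 8 ≤ (q : ℝ) ^ (1 / 10000 : ℝ) ∧
      C ≤ (q : ℝ) ^ (1 / 20000 : ℝ) ∧ (8 : ℝ) ≤ (q : ℝ) ^ (1995 / 10000 : ℝ) := by
    have h1 := ((tendsto_rpow_atTop (by norm_num : (0 : ℝ) < 1 / 10000)).comp
      tendsto_natCast_atTop_atTop).eventually_ge_atTop ((10 : ℝ) ^ 8)
    have h2 := ((tendsto_rpow_atTop (by norm_num : (0 : ℝ) < 1 / 20000)).comp
      tendsto_natCast_atTop_atTop).eventually_ge_atTop C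
    have h3 := ((tendsto_rpow_atTop (by norm_num : (0 : ℝ) < 1995 / 10000)).comp
      tendsto_natCast_atTop_atTop).eventually_ge_atTop (8 : ℝ)
    filter_upwards [h1, h2, h3] with q a b c using ⟨a, b, c⟩
  obtain ⟨q₀, hq₀⟩ := Filter.eventually_atTop.1 hev
  refine ⟨max q₀ 1, ?_⟩
  intro q hq _ N b W hN hNQ hb hVW
  obtain ⟨hbig, hCq, h8⟩ := hq₀ q ((le_max_left _ _).trans hq)
  have hq1 : 1 ≤ q := (le_max_right _ _).trans hq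
  set Q : ℝ := (q : ℝ) with hQdef
  have hQ : 1 ≤ Q := by
    rw [hQdef]
    exact_mod_cast hq1
  have hQ0 : 0 < Q := by linarith
  set T : ℝ := Q ^ (1 / 10000 : ℝ) with hTdef
  have hT1 : 1 ≤ T := Real.one_le_rpow hQ (by norm_num)
  have hT : ∀ n : ℕ, 1 ≤ n → n ≤ q → ((n.divisors.card : ℕ) : ℝ) ≤ T := by
    intro n hn1 hnq
    calc ((n.divisors.card : ℕ) : ℝ) ≤ C * (n : ℝ) ^ (1 / 20000 : ℝ) := hC n (by omega)
      _ ≤ Q ^ (1 / 20000 : ℝ) * Q ^ (1 / 20000 : ℝ) := by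
        have : (n : ℝ) ≤ Q := by
          rw [hQdef]
          exact_mod_cast hnq
        gcongr
      _ = T := by
        rw [← Real.rpow_add hQ0, hTdef]
        norm_num
  by_contra hcon
  rw [not_le] at hcon
  have hr0 : (0 : ℝ) < W.card := lt_trans (Real.rpow_pos_of_pos hQ0 _) hcon
  set V : ℝ := Q ^ (3 / 5 - 1 / 2000 : ℝ) with hVdef
  have hV0 : 0 ≤ V := (Real.rpow_pos_of_pos hQ0 _).le
  set B : ℝ := Q ^ (1 / 2000 : ℝ) with hBdef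
  have hB0 : 0 ≤ B := (Real.rpow_pos_of_pos hQ0 _).le
  have hNpos : (0 : ℝ) < N := by exact_mod_cast hN
  -- `J`
  have h8N : 8 * (N : ℝ) ≤ Q := by
    calc 8 * (N : ℝ) ≤ Q ^ (1995 / 10000 : ℝ) * Q ^ (4 / 5 + 1 / 2000 : ℝ) := by gcongr
      _ = Q ^ (1 : ℝ) := by
        rw [← Real.rpow_add hQ0]
        norm_num
      _ = Q := Real.rpow_one Q
  have h8N' : 8 * N ≤ q := by
    rw [hQdef] at h8N
    exact_mod_cast h8N
  set J : ℕ := q / (4 * N) with hJdef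
  have h4N : 0 < 4 * N := by omega
  have hJ1 : 1 ≤ J := by
    rw [hJdef, Nat.le_div_iff_mul_le h4N]
    omega
  have hJq : J ≤ q := Nat.div_le_self _ _
  have hNJ : 4 * J * N ≤ q := by
    have := Nat.div_mul_le_self q (4 * N)
    calc 4 * J * N = J * (4 * N) := by ring
      _ ≤ q := this
  have hJpos : (0 : ℝ) < J := by exact_mod_cast hJ1
  have hji : 1 / (J : ℝ) ≤ 8 * N / Q := by
    rw [div_le_div_iff₀ hJpos hQ0]
    have h1 : q < (J + 1) * (4 * N) := by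
      have := Nat.lt_div_mul_add h4N (a := q)
      calc q < q / (4 * N) * (4 * N) + 4 * N := this
        _ = (J + 1) * (4 * N) := by rw [hJdef]; ring
    have h2 : q ≤ J * (8 * N) := by
      have h3 : (J + 1) * (4 * N) ≤ (J + J) * (4 * N) := Nat.mul_le_mul_right _ (by omega)
      calc q ≤ (J + 1) * (4 * N) := h1.le
        _ ≤ (J + J) * (4 * N) := h3
        _ = J * (8 * N) := by ring
    have h4 : Q ≤ J * (8 * N) := by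
      rw [hQdef]
      exact_mod_cast h2
    linarith
  have hNq : N < q := by omega
  have hb' : ∀ n ∈ Icc 1 N, ‖b n‖ ≤ B := hb
  have hVW' : ∀ χ ∈ W, V ≤ ‖∑ n ∈ Icc 1 N, b n * χ (n : ZMod q)‖ := hVW
  -- energy
  have hen := energy N hN hNq b B hB0 hb' W V hV0 hVW' T hT1 hT
  have hE := energy_num88 hQ hbig hcon.le (Nat.cast_nonneg (En W)) hNpos.le hNQ le_rfl hB0 le_rfl
    (by linarith) le_rfl hen
  -- duality
  obtain ⟨c, hc, hdual⟩ := dual_c N J hN hJ1 hNJ b B hB0 hb' W V hV0 hVW'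
  set P : ℝ := ∑ u : (ZMod q)ˣ, K q J (u : ZMod q) * ‖∑ χ ∈ W, c χ * χ (u : ZMod q)‖ ^ 2 with hP
  have hP0 : 0 ≤ P := Finset.sum_nonneg fun u _ => mul_nonneg (K_nonneg _ _ _) (by positivity)
  set m : ℝ := P / W.card with hm
  have hPm : P = W.card * m := by
    rw [hm]
    field_simp
  have hm0 : 0 ≤ m := div_nonneg hP0 hr0.le
  have h1 : (W.card : ℝ) * V ^ 2 ≤ 2 * B ^ 2 * N * m := by
    rw [hPm] at hdual
    have h2 : (W.card : ℝ) * (W.card * V ^ 2) ≤ W.card * (2 * B ^ 2 * N * m) := by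
      calc (W.card : ℝ) * (W.card * V ^ 2) = (W.card : ℝ) ^ 2 * V ^ 2 := by ring
        _ ≤ _ := hdual
        _ = _ := by ring
    exact le_of_mul_le_mul_left h2 hr0
  set s : ℝ := (Fintype.card (ZMod q)ˣ : ℝ) / J with hs
  have hs0 : 0 ≤ s := by positivity
  have hs8 : s ≤ 8 * N := by
    have h2 : (Fintype.card (ZMod q)ˣ : ℝ) ≤ Q := card_units_le
    calc s = (Fintype.card (ZMod q)ˣ : ℝ) * (1 / J) := by rw [hs]; ring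
      _ ≤ Q * (8 * N / Q) := by gcongr
      _ = 8 * N := by field_simp
  have hκ : ∀ m ∈ A J, ‖kF J m‖ ≤ 1 / J := fun m hm => norm_kF_le J hJ1 m hm
  have h2 : s ≤ m → m * (m - s) ^ 2 ≤ ‖T3 W (kF J) J‖ + s * ‖T2 W (kF J) J‖ := by
    intro hsm
    have := cubic J hJ1 W c hc m hPm hsm
    exact le_of_mul_le_mul_left this hr0
  have h3 := T3_le W (kF J) J hJ1 hJq hκ T hT1 hT
  have h4 := T2_le W (kF J) J hJ1 hJq hκ T hT1 hT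
  refine final_num88 (t3 := ‖T3 W (kF J) J‖) (t2 := ‖T2 W (kF J) J‖) (ji := 1 / (J : ℝ)) hQ hbig
    hcon.le (Nat.cast_nonneg (En W)) hE hNpos.le hNQ le_rfl hB0 le_rfl (by linarith) le_rfl
    (by positivity) hji hm0 h1 hs0 hs8 h2 ?_ ?_
  · refine h3.trans (le_of_eq ?_)
    rw [mul_one_div]
  · refine h4.trans (le_of_eq ?_)
    rw [mul_one_div]

end Pool.Agent.Helper88.LV
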