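import Pool.Agent.Helper25.HM.Defs

/-!
# The large value theorem for the family `χ(n) n^{it}`: the statement
-/

set_option autoImplicit false

namespace Pool.Agent.Helper88.LV

open Finset Pool.Agent.Helper25.HM

/-- Large values at the critical point for the pairs `(χ, t)`, `χ` modulo `q`, `t` integer, `|t| ≤ T`,
`N^{2/5 + k0} ≤ q T ≤ N^{1/2 - d}`: polynomials of length `N^{2/5+η}` exceed `N^{4/5-η} / (q T)` for at most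
`(q T)³ N^{-6/5-c0}` pairs, with `c0 > 3 η`. -/
def LVT (k0 d : ℝ) : Prop :=
  ∃ η : ℝ, 0 < η ∧ ∃ c0 : ℝ, 3 * η < c0 ∧ ∃ N0 : ℕ, ∀ N : ℕ, N0 ≤ N → ∀ (q : ℕ) [NeZero q] (T : ℕ),
    1 ≤ T → (N : ℝ) ^ ((2 : ℝ) / 5 + k0) ≤ (q : ℝ) * T → (q : ℝ) * T ≤ (N : ℝ) ^ ((1 : ℝ) / 2 - d) →
    ∀ M : ℕ, (M : ℝ) ≤ (N : ℝ) ^ ((2 : ℝ) / 5 + η) → ∀ b : ℕ → ℂ, (∀ n, ‖b n‖ ≤ (N : ℝ) ^ η) →
    ∀ W : Finset (DirichletCharacter ℂ q × ℤ), (∀ p ∈ W, |p.2| ≤ (T : ℤ)) →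
      (∀ p ∈ W, (N : ℝ) ^ ((4 : ℝ) / 5 - η) / ((q : ℝ) * T) ≤
        ‖∑ n ∈ Icc 1 M, b n * (p.1 (n : ZMod q) * nt n p.2)‖) →
      (W.card : ℝ) ≤ ((q : ℝ) * T) ^ 3 * (N : ℝ) ^ (-((6 : ℝ) / 5) - c0)

end Pool.Agent.Helper88.LV
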