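import Pool.Agent.Helper88.LV.MainAll
import Pool.Agent.Helper19.V5.FifthT

/-!
# LV-15: the large value theorem for pairs in the form of `Helper19.V5`
-/

set_option autoImplicit false

namespace Pool.Agent.Helper88.LV

theorem lvt_pairs {κ d : ℝ} (hκ : 0 < κ) (hd : 0 < d) : Pool.Helper19.V5.LVT κ d :=
  lvt_all κ d hκ hd

end Pool.Agent.Helper88.LV
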