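import Pool.Agent.Helper88.LV.Raw2
import Pool.Agent.Helper25.HM.M5E
import Pool.Agent.Helper19.VE.Defs

/-!
# The fifth moment over the characters modulo `q` (block (G) of project VE, `MP_b6b996_nt`)

`m5g`: `∑_χ |∑_{n ≤ K} c n χ(n)|⁵ ≤ C (q K)^ε (K⁵ + q^{13/12} K^{5/2} + q K^{27/10} + q^{2/3} K^{7/2} + q^{7/8} K³)`.
For `q ≤ 8 K²` by the fourth moment; otherwise levels, `lv_log2` for the squares.
-/

set_option autoImplicit false

namespace Pool.Agent.Helper88.LV.G5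

open Finset Pool.Agent.Helper25.HM Pool.Helper19.VE

/-- the fourth moment, with one factor `Λ` for every loss -/
private lemma mean88 {q : ℕ} [NeZero q] {M : ℕ} (hM : 1 ≤ M) (b : ℕ → ℂ) {Λ B : ℝ}
    (hΛ : 3 ≤ Λ) (hJ : (JJ M : ℝ) ≤ Λ) (hl : 16 * (1 + Real.log (4 * M + 1)) ≤ Λ)
    (hb : ∀ n ∈ Icc 1 M, ‖b n‖ ≤ B) :
    ∑ χ : DirichletCharacter ℂ q, ‖P M b (χ, 0)‖ ^ 2 ≤ Λ ^ 2 * ((q + M) * (B ^ 2 * M)) := by
  have hq0 : (0 : ℝ) < q := by exact_mod_cast Nat.pos_of_ne_zero (NeZero.ne q)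
  have hM1 : (1 : ℝ) ≤ M := by exact_mod_cast hM
  have h1 : ∑ χ : DirichletCharacter ℂ q, ‖P M b (χ, 0)‖ ^ 2 =
      ∑ χ : DirichletCharacter ℂ q, ∑ k ∈ Icc (-((0 : ℕ) : ℤ)) ((0 : ℕ) : ℤ), ‖P M b (χ, k)‖ ^ 2 := by
    refine sum_congr rfl fun χ _ => ?_
    simp
  rw [h1]
  refine (mean_full 0 hM b).trans ?_
  have h2 : ∑ n ∈ Icc 1 M, ‖b n‖ ^ 2 ≤ B ^ 2 * M := by
    have : ∀ n ∈ Icc 1 M, ‖b n‖ ^ 2 ≤ B ^ 2 := fun n hn =>
      pow_le_pow_left₀ (norm_nonneg _) (hb n hn) 2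
    refine (sum_le_sum this).trans (le_of_eq ?_)
    rw [sum_const, Nat.card_Icc, nsmul_eq_mul]
    simp only [Nat.add_sub_cancel]
    ring
  have h3 : (q : ℝ) * (2 * (0 : ℕ) + 1) + 16 * M * (1 + Real.log (4 * M + 1)) ≤ Λ * (q + M) := by
    have e1 : (q : ℝ) * (2 * ((0 : ℕ) : ℝ) + 1) ≤ Λ * q := by push_cast; nlinarith
    have e2 : 16 * (M : ℝ) * (1 + Real.log (4 * M + 1)) ≤ Λ * M := by
      nlinarith [mul_le_mul_of_nonneg_left hl (by linarith : (0 : ℝ) ≤ M)]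
    linarith
  have h4 : 0 ≤ (q : ℝ) * (2 * (0 : ℕ) + 1) + 16 * M * (1 + Real.log (4 * M + 1)) := by
    have : 0 ≤ Real.log (4 * (M : ℝ) + 1) := Real.log_nonneg (by linarith)
    positivity
  have h5 : 0 ≤ ∑ n ∈ Icc 1 M, ‖b n‖ ^ 2 := sum_nonneg fun _ _ => sq_nonneg _
  calc (JJ M : ℝ) * ((q * (2 * (0 : ℕ) + 1) + 16 * M * (1 + Real.log (4 * M + 1))) *
        ∑ n ∈ Icc 1 M, ‖b n‖ ^ 2)
      ≤ Λ * ((Λ * (q + M)) * (B ^ 2 * M)) := by gcongr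
    _ = Λ ^ 2 * ((q + M) * (B ^ 2 * M)) := by ring

private lemma cvG88_le {A B : ℕ} {f g : ℕ → ℂ} (hf : ∀ n, ‖f n‖ ≤ 1)
    (hg : ∀ n, ‖g n‖ ≤ 1) (n : ℕ) : ‖cv A B f g n‖ ≤ (n.divisors.card : ℝ) := by
  unfold cv
  refine (norm_sum_le _ _).trans ?_
  have h1 : ∀ p ∈ (Icc 1 A ×ˢ Icc 1 B).filter (fun p => p.1 * p.2 = n), ‖f p.1 * g p.2‖ ≤ 1 := by
    intro p _
    rw [norm_mul]
    exact mul_le_one₀ (hf _) (norm_nonneg _) (hg _)
  refine (Finset.sum_le_card_nsmul _ _ _ h1).trans ?_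
  rw [nsmul_eq_mul, mul_one]
  have h2 : ((Icc 1 A ×ˢ Icc 1 B).filter (fun p => p.1 * p.2 = n)).card ≤ n.divisors.card := by
    apply Finset.card_le_card_of_injOn (fun p => p.1)
    · intro p hp
      have hp' := Finset.mem_filter.1 (Finset.mem_coe.1 hp)
      rw [Finset.mem_product, Finset.mem_Icc, Finset.mem_Icc] at hp'
      rw [Finset.mem_coe, Nat.mem_divisors]
      refine ⟨⟨p.2, hp'.2.symm⟩, ?_⟩
      rw [← hp'.2]
      exact (Nat.mul_pos hp'.1.1.1 hp'.1.2.1).ne'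
    · intro p hp r hr he
      have hp' := Finset.mem_filter.1 (Finset.mem_coe.1 hp)
      have hr' := Finset.mem_filter.1 (Finset.mem_coe.1 hr)
      rw [Finset.mem_product, Finset.mem_Icc, Finset.mem_Icc] at hp' hr'
      have he' : p.1 = r.1 := he
      have e1 : p.1 * p.2 = p.1 * r.2 := by rw [hp'.2, he', hr'.2]
      have e2 : p.2 = r.2 := Nat.eq_of_mul_eq_mul_left hp'.1.1.1 e1
      exact Prod.ext he' e2
  exact_mod_cast h2

private lemma cvG88_zero {A B : ℕ} {f g : ℕ → ℂ} {n : ℕ} (hn : n = 0 ∨ A * B < n) : cv A B f g n = 0 := by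
  unfold cv
  rw [Finset.sum_eq_zero]
  intro p hp
  exfalso
  have hp' := Finset.mem_filter.1 hp
  rw [Finset.mem_product, Finset.mem_Icc, Finset.mem_Icc] at hp'
  have h1 : 0 < p.1 * p.2 := Nat.mul_pos hp'.1.1.1 hp'.1.2.1
  have h2 : p.1 * p.2 ≤ A * B := Nat.mul_le_mul hp'.1.1.2 hp'.1.2.2
  rw [hp'.2] at h1 h2
  rcases hn with h | h <;> omega

/-- the fifth moment from the fourth moment and the counting of large values -/
private lemma levels88 {ι : Type*} (s : Finset ι) (F : ι → ℝ) {V1 K Y : ℝ} (hV1 : 0 < V1) (hY : 0 ≤ Y)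
    (hF : ∀ i ∈ s, 0 ≤ F i) (hFK : ∀ i ∈ s, F i ≤ K) (J : ℕ) (hJ : K ≤ 2 ^ J * V1)
    (hlarge : ∀ V : ℝ, V1 ≤ V → V ≤ K → ((s.filter (fun i => V ≤ F i)).card : ℝ) * V ^ 5 ≤ Y) :
    ∑ i ∈ s, F i ^ 5 ≤ V1 * ∑ i ∈ s, F i ^ 4 + 32 * J * Y := by
  have h1 : ∑ i ∈ s, F i ^ 5 ≤ ∑ i ∈ s, (V1 * F i ^ 4 +
      ∑ j ∈ range J, (if 2 ^ j * V1 ≤ F i then 32 * (2 ^ j * V1) ^ 5 else 0)) :=
    sum_le_sum fun i hi => level_one hV1 J (F i) (hF i hi) ((hFK i hi).trans hJ)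
  refine h1.trans ?_
  rw [sum_add_distrib, ← mul_sum, sum_comm]
  have h2 : ∀ j ∈ range J, ∑ i ∈ s, (if 2 ^ j * V1 ≤ F i then 32 * (2 ^ j * V1) ^ 5 else 0) ≤
      32 * Y := by
    intro j _
    rw [← sum_filter, sum_const, nsmul_eq_mul]
    have hVj : V1 ≤ 2 ^ j * V1 := by
      have : (1 : ℝ) ≤ 2 ^ j := one_le_pow₀ (by norm_num)
      nlinarith
    by_cases h : 2 ^ j * V1 ≤ K
    · have h3 := hlarge (2 ^ j * V1) hVj h
      linarith
    · push Not at h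
      have h3 : s.filter (fun i => 2 ^ j * V1 ≤ F i) = ∅ := by
        rw [filter_eq_empty_iff]
        intro i hi h4
        linarith [hFK i hi]
      rw [h3, card_empty, Nat.cast_zero, zero_mul]
      positivity
  have h3 := sum_le_sum h2
  rw [sum_const, card_range, nsmul_eq_mul] at h3
  linarith

private lemma SK88 {q K : ℝ} (hq0 : 0 < q) (hK0 : 0 < K) : K ^ 5 ≤ SG q K := by
  have e1 : K ^ (5 : ℝ) = K ^ 5 := by
    rw [← Real.rpow_natCast]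
    norm_num
  have p2 : 0 < q ^ (13 / 12 : ℝ) * K ^ (5 / 2 : ℝ) := by positivity
  have p3 : 0 < q * K ^ (27 / 10 : ℝ) := by positivity
  have p4 : 0 < q ^ (2 / 3 : ℝ) * K ^ (7 / 2 : ℝ) := by positivity
  have p5 : 0 < q ^ (7 / 8 : ℝ) * K ^ (3 : ℝ) := by positivity
  have hSG : SG q K = K ^ (5 : ℝ) + q ^ (13 / 12 : ℝ) * K ^ (5 / 2 : ℝ) + q * K ^ (27 / 10 : ℝ) +
      q ^ (2 / 3 : ℝ) * K ^ (7 / 2 : ℝ) + q ^ (7 / 8 : ℝ) * K ^ (3 : ℝ) := rfl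
  rw [hSG, ← e1]
  linarith

/-- the linear inequalities -/
private lemma lin88 {ρ v k κ l S : ℝ} (hl : 0 ≤ l) (hκ0 : 0 ≤ κ) (hvk : v ≤ k) (hv : S - κ - 2 * k ≤ v)
    (h1 : 5 * k ≤ S) (h2 : 13 / 12 * κ + 5 / 2 * k ≤ S) (h3 : κ + 27 / 10 * k ≤ S)
    (h4 : 2 / 3 * κ + 7 / 2 * k ≤ S) (h5 : 7 / 8 * κ + 3 * k ≤ S)
    (h : ρ + 2 * (2 * v) ≤ 2 * (2 * k) + 4 * l ∨
      3 * (ρ + 2 * (2 * v) - 3 * l - 2 * k) ≤ 3 * l + 2 * κ + 3 / 2 * ρ ∨
      3 * (ρ + 2 * (2 * v) - 3 * l - 2 * k) ≤ 3 * l + 2 * k + κ + ρ ∨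
      ∃ e : ℝ, (2 * (2 * v) + e ≤ 4 * l + 2 * (2 * k) + (ρ + e) / 2 ∨
          2 * (2 * v) + e ≤ 4 * l + 2 * k + ρ + (κ + e) / 2) ∧
        (3 * (ρ + 2 * (2 * v) - 3 * l - 2 * k) ≤ 3 * l + κ + 2 * k + (ρ + e) / 2 ∨
         3 * (ρ + 2 * (2 * v) - 3 * l - 2 * k) ≤ 3 * l + 2 * (2 * k) + (κ + e) / 2)) :
    ρ + 5 * v ≤ 11 * l + S := by
  rcases h with h | h | h | ⟨e, h | h, h0 | h0⟩
  · linarith
  · linarith
  · linarith
  · linarith
  · linarith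
  · linarith
  · linarith

/-- the counting of the characters with large values -/
private lemma large88 {q : ℕ} [NeZero q] {K : ℕ} (hK : 1 ≤ K) (h8 : 8 * (K * K) ≤ q) {b : ℕ → ℂ} {Λ : ℝ}
    (hΛ : 10 ^ 6 ≤ Λ) (hb : ∀ n, ‖b n‖ ≤ Λ)
    (hT : ∀ n : ℕ, 1 ≤ n → n ≤ q → (n.divisors.card : ℝ) ≤ Λ)
    (c : ℕ → ℂ) {V : ℝ} (hsq : ∀ p : DirichletCharacter ℂ q × ℤ, ‖P K c p‖ ^ 2 = ‖P (K * K) b p‖)
    (hV : SG q K / (q * K ^ 2) ≤ V) (hVK : V ≤ K) :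
    ((univ.filter (fun χ : DirichletCharacter ℂ q => V ≤ ‖P K c (χ, 0)‖)).card : ℝ) * V ^ 5 ≤
      Λ ^ 11 * SG q K := by
  classical
  have hΛ0 : 0 < Λ := by linarith
  have hq0 : (0 : ℝ) < q := by exact_mod_cast Nat.pos_of_ne_zero (NeZero.ne q)
  have hq1 : (1 : ℝ) ≤ q := by exact_mod_cast Nat.one_le_iff_ne_zero.2 (NeZero.ne q)
  have hK0 : (0 : ℝ) < K := by exact_mod_cast hK
  have hS0 : 0 < SG q K := SG_pos hq0 hK0
  have hV0 : 0 < V := lt_of_lt_of_le (by positivity) hV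
  obtain ⟨W, hW⟩ : ∃ W, W = univ.filter (fun χ : DirichletCharacter ℂ q => V ≤ ‖P K c (χ, 0)‖) := ⟨_, rfl⟩
  rw [← hW]
  rcases W.eq_empty_or_nonempty with h0 | hne
  · rw [h0, card_empty, Nat.cast_zero, zero_mul]
    positivity
  have hr0 : (0 : ℝ) < W.card := by exact_mod_cast Finset.card_pos.2 hne
  have hM1 : 1 ≤ K * K := Nat.mul_pos hK hK
  have hvw : ∀ χ ∈ W, V ^ 2 ≤ ‖∑ n ∈ Icc 1 (K * K), b n * χ (n : ZMod q)‖ := by
    intro χ hχ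
    rw [hW, mem_filter] at hχ
    have h1 : ∑ n ∈ Icc 1 (K * K), b n * χ (n : ZMod q) = P (K * K) b (χ, 0) := by
      unfold P
      refine sum_congr rfl fun n _ => ?_
      simp [nt_zero]
    rw [h1, ← hsq]
    exact pow_le_pow_left₀ hV0.le hχ.2 2
  have hmain := lv_log2 (q := q) (M := K * K) hM1 h8 b hΛ (fun n _ => hb n) hT W hne (V := V ^ 2)
    (by positivity) hvw
  have e1 : Real.log ((K * K : ℕ) : ℝ) = 2 * Real.log K := by
    push_cast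
    rw [Real.log_mul hK0.ne' hK0.ne']
    ring
  have e2 : Real.log (V ^ 2) = 2 * Real.log V := by
    rw [Real.log_pow]
    push_cast
    ring
  rw [e1, e2] at hmain
  have hlogΛ : 0 ≤ Real.log Λ := Real.log_nonneg (by linarith)
  have hlogq : 0 ≤ Real.log q := Real.log_nonneg hq1
  have hvk : Real.log V ≤ Real.log K := Real.log_le_log hV0 hVK
  have hv : Real.log (SG q K) - Real.log q - 2 * Real.log K ≤ Real.log V := by
    have h1 := Real.log_le_log (by positivity) hV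
    rw [Real.log_div hS0.ne' (by positivity), Real.log_mul hq0.ne' (by positivity), Real.log_pow] at h1
    push_cast at h1
    linarith
  have p1 : 0 < (K : ℝ) ^ (5 : ℝ) := by positivity
  have p2 : 0 < (q : ℝ) ^ (13 / 12 : ℝ) * (K : ℝ) ^ (5 / 2 : ℝ) := by positivity
  have p3 : 0 < (q : ℝ) * (K : ℝ) ^ (27 / 10 : ℝ) := by positivity
  have p4 : 0 < (q : ℝ) ^ (2 / 3 : ℝ) * (K : ℝ) ^ (7 / 2 : ℝ) := by positivity
  have p5 : 0 < (q : ℝ) ^ (7 / 8 : ℝ) * (K : ℝ) ^ (3 : ℝ) := by positivity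
  have hSG : SG q K = (K : ℝ) ^ (5 : ℝ) + (q : ℝ) ^ (13 / 12 : ℝ) * (K : ℝ) ^ (5 / 2 : ℝ) +
      (q : ℝ) * (K : ℝ) ^ (27 / 10 : ℝ) + (q : ℝ) ^ (2 / 3 : ℝ) * (K : ℝ) ^ (7 / 2 : ℝ) +
      (q : ℝ) ^ (7 / 8 : ℝ) * (K : ℝ) ^ (3 : ℝ) := rfl
  have s1 : 5 * Real.log K ≤ Real.log (SG q K) := by
    have := Real.log_le_log p1 (by rw [hSG]; linarith : (K : ℝ) ^ (5 : ℝ) ≤ SG q K)
    rwa [Real.log_rpow hK0] at this
  have s2 : 13 / 12 * Real.log q + 5 / 2 * Real.log K ≤ Real.log (SG q K) := by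
    have := Real.log_le_log p2 (by rw [hSG]; linarith : (q : ℝ) ^ (13 / 12 : ℝ) * (K : ℝ) ^ (5 / 2 : ℝ) ≤ SG q K)
    rwa [Real.log_mul (by positivity) (by positivity), Real.log_rpow hK0, Real.log_rpow hq0] at this
  have s3 : Real.log q + 27 / 10 * Real.log K ≤ Real.log (SG q K) := by
    have := Real.log_le_log p3 (by rw [hSG]; linarith : (q : ℝ) * (K : ℝ) ^ (27 / 10 : ℝ) ≤ SG q K)
    rwa [Real.log_mul (by positivity) (by positivity), Real.log_rpow hK0] at this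
  have s4 : 2 / 3 * Real.log q + 7 / 2 * Real.log K ≤ Real.log (SG q K) := by
    have := Real.log_le_log p4 (by rw [hSG]; linarith : (q : ℝ) ^ (2 / 3 : ℝ) * (K : ℝ) ^ (7 / 2 : ℝ) ≤ SG q K)
    rwa [Real.log_mul (by positivity) (by positivity), Real.log_rpow hK0, Real.log_rpow hq0] at this
  have s5 : 7 / 8 * Real.log q + 3 * Real.log K ≤ Real.log (SG q K) := by
    have := Real.log_le_log p5 (by rw [hSG]; linarith : (q : ℝ) ^ (7 / 8 : ℝ) * (K : ℝ) ^ (3 : ℝ) ≤ SG q K)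
    rwa [Real.log_mul (by positivity) (by positivity), Real.log_rpow hK0, Real.log_rpow hq0] at this
  have hfin := lin88 hlogΛ hlogq hvk hv s1 s2 s3 s4 s5 hmain
  have h2 : Real.log ((W.card : ℝ) * V ^ 5) ≤ Real.log (Λ ^ 11 * SG q K) := by
    rw [Real.log_mul (by positivity) (by positivity), Real.log_mul (by positivity) hS0.ne', Real.log_pow,
      Real.log_pow]
    push_cast
    linarith
  exact (Real.log_le_log_iff (by positivity) (by positivity)).1 h2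

/-- the fifth moment, with one small factor -/
private lemma core88 {q : ℕ} [NeZero q] {K : ℕ} (hK : 1 ≤ K) {Λ : ℝ}
    (hΛ : 10 ^ 6 ≤ Λ) (hτ : ∀ n : ℕ, 1 ≤ n → (n ≤ q ∨ n ≤ K * K) → (n.divisors.card : ℝ) ≤ Λ)
    (hJ : (JJ (K * K) : ℝ) ≤ Λ) (hJq : (JJ q : ℝ) ≤ Λ)
    (hlog : 16 * (1 + Real.log (4 * ((K * K : ℕ) : ℝ) + 1)) ≤ Λ)
    (c : ℕ → ℂ) (hc : ∀ n, ‖c n‖ ≤ 1) :
    ∑ χ : DirichletCharacter ℂ q, ‖P K c (χ, 0)‖ ^ 5 ≤ Λ ^ 14 * SG q K := by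
  classical
  have hΛ0 : 0 < Λ := by linarith
  have hΛ1 : 1 ≤ Λ := by linarith
  have hq0 : (0 : ℝ) < q := by exact_mod_cast Nat.pos_of_ne_zero (NeZero.ne q)
  have hq1 : (1 : ℝ) ≤ q := by exact_mod_cast Nat.one_le_iff_ne_zero.2 (NeZero.ne q)
  have hK1 : (1 : ℝ) ≤ K := by exact_mod_cast hK
  have hK0 : (0 : ℝ) < K := by linarith
  have hKK1 : 1 ≤ K * K := Nat.mul_pos hK hK
  have hS0 : 0 < SG q K := SG_pos hq0 hK0
  have hSK : (K : ℝ) ^ 5 ≤ SG q K := SK88 hq0 hK0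
  obtain ⟨b, hb⟩ : ∃ b : ℕ → ℂ, b = cv K K c c := ⟨_, rfl⟩
  have hbB : ∀ n, ‖b n‖ ≤ Λ := by
    intro n
    rw [hb]
    by_cases hn : n = 0 ∨ K * K < n
    · rw [cvG88_zero hn, norm_zero]
      exact hΛ0.le
    · push Not at hn
      exact (cvG88_le (A := K) (B := K) (f := c) (g := c) hc hc n).trans
        (hτ n (Nat.one_le_iff_ne_zero.2 hn.1) (Or.inr hn.2))
  have hsq : ∀ p : DirichletCharacter ℂ q × ℤ, ‖P K c p‖ ^ 2 = ‖P (K * K) b p‖ := by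
    intro p
    rw [hb, ← cv_mul, norm_mul]
    ring
  have hS4 : ∑ χ : DirichletCharacter ℂ q, ‖P K c (χ, 0)‖ ^ 4 ≤ Λ ^ 4 * ((q + (K : ℝ) ^ 2) * (K : ℝ) ^ 2) := by
    have h1 : ∑ χ : DirichletCharacter ℂ q, ‖P K c (χ, 0)‖ ^ 4 =
        ∑ χ : DirichletCharacter ℂ q, ‖P (K * K) b (χ, 0)‖ ^ 2 := by
      refine sum_congr rfl fun χ _ => ?_
      rw [← hsq]
      ring
    rw [h1]
    refine (mean88 hKK1 b (by linarith) hJ hlog (fun n _ => hbB n)).trans (le_of_eq ?_)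
    push_cast
    ring
  by_cases h8 : 8 * (K * K) ≤ q
  · -- levels
    have h8r : (K : ℝ) ^ 2 ≤ q := by
      have : K * K ≤ q := by omega
      have h1 : ((K * K : ℕ) : ℝ) ≤ q := by exact_mod_cast this
      push_cast at h1
      nlinarith
    obtain ⟨V1, hV1⟩ : ∃ V1 : ℝ, V1 = SG q K / (q * K ^ 2) := ⟨_, rfl⟩
    have hV10 : 0 < V1 := by rw [hV1]; positivity
    have hKJ : (K : ℝ) ≤ 2 ^ (JJ q) * V1 := by
      have h1 : (q : ℝ) < 2 ^ (JJ q) := by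
        have : q < 2 ^ (JJ q) := Nat.lt_pow_succ_log_self (by norm_num) q
        exact_mod_cast this
      have h2 : (K : ℝ) ^ 3 / q ≤ V1 := by
        rw [hV1, div_le_div_iff₀ hq0 (by positivity)]
        calc (K : ℝ) ^ 3 * (q * K ^ 2) = K ^ 5 * q := by ring
          _ ≤ _ := mul_le_mul_of_nonneg_right hSK hq0.le
      calc (K : ℝ) ≤ (K : ℝ) ^ 3 := le_self_pow₀ hK1 (by norm_num)
        _ = q * ((K : ℝ) ^ 3 / q) := by field_simp
        _ ≤ 2 ^ (JJ q) * V1 := mul_le_mul h1.le h2 (by positivity) (by positivity)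
    have hY : 0 ≤ Λ ^ 11 * SG q K := by positivity
    have hfin := levels88 (univ : Finset (DirichletCharacter ℂ q)) (fun χ => ‖P K c (χ, 0)‖) (V1 := V1) (K := K)
      (Y := Λ ^ 11 * SG q K) hV10 hY (fun p _ => norm_nonneg _) (fun p _ => P_triv K hc _) (JJ q) hKJ (by
        intro V hV hVK
        rw [hV1] at hV
        exact large88 hK h8 hΛ hbB (fun n h1 h2 => hτ n h1 (Or.inl h2)) c hsq hV hVK)
    refine hfin.trans ?_
    have h1 : V1 * ∑ χ : DirichletCharacter ℂ q, ‖P K c (χ, 0)‖ ^ 4 ≤ Λ ^ 12 * (2 * SG q K) := by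
      have e0 : V1 * (q * K ^ 2) = SG q K := by rw [hV1]; field_simp
      have e1 : (q + (K : ℝ) ^ 2) * (K : ℝ) ^ 2 ≤ 2 * (q * K ^ 2) := by
        have : (q + (K : ℝ) ^ 2) * (K : ℝ) ^ 2 ≤ (q + q) * (K : ℝ) ^ 2 := by gcongr
        linarith
      have e2 : Λ ^ 4 ≤ Λ ^ 12 := pow_le_pow_right₀ hΛ1 (by norm_num)
      calc V1 * ∑ χ : DirichletCharacter ℂ q, ‖P K c (χ, 0)‖ ^ 4
          ≤ V1 * (Λ ^ 12 * (2 * (q * K ^ 2))) := by
            apply mul_le_mul_of_nonneg_left _ hV10.le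
            exact hS4.trans (mul_le_mul e2 e1 (by positivity) (by positivity))
        _ = Λ ^ 12 * (2 * (V1 * (q * K ^ 2))) := by ring
        _ = _ := by rw [e0]
    have h2 : 32 * (JJ q : ℝ) * (Λ ^ 11 * SG q K) ≤ Λ ^ 12 * (32 * SG q K) := by
      have e1 : (0 : ℝ) ≤ (JJ q : ℝ) := Nat.cast_nonneg _
      calc 32 * (JJ q : ℝ) * (Λ ^ 11 * SG q K) ≤ 32 * Λ * (Λ ^ 11 * SG q K) := by gcongr
        _ = _ := by ring
    calc V1 * ∑ χ : DirichletCharacter ℂ q, ‖P K c (χ, 0)‖ ^ 4 + 32 * (JJ q : ℝ) * (Λ ^ 11 * SG q K)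
        ≤ Λ ^ 12 * (34 * SG q K) := by linarith
      _ = Λ ^ 12 * 34 * SG q K := by ring
      _ ≤ Λ ^ 14 * SG q K := by
        apply mul_le_mul_of_nonneg_right _ hS0.le
        calc Λ ^ 12 * 34 ≤ Λ ^ 12 * Λ := by
              apply mul_le_mul_of_nonneg_left _ (by positivity)
              linarith
          _ = Λ ^ 13 := by ring
          _ ≤ Λ ^ 14 := pow_le_pow_right₀ hΛ1 (by norm_num)
  · -- small `q`
    push Not at h8
    have h8r : (q : ℝ) ≤ 8 * (K : ℝ) ^ 2 := by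
      have h1 : (q : ℝ) < 8 * ((K : ℝ) * K) := by exact_mod_cast h8
      nlinarith
    have h1 : ∑ χ : DirichletCharacter ℂ q, ‖P K c (χ, 0)‖ ^ 5 ≤
        K * ∑ χ : DirichletCharacter ℂ q, ‖P K c (χ, 0)‖ ^ 4 := by
      rw [mul_sum]
      refine sum_le_sum fun χ _ => ?_
      have := P_triv K hc (χ, (0 : ℤ))
      calc ‖P K c (χ, 0)‖ ^ 5 = ‖P K c (χ, 0)‖ * ‖P K c (χ, 0)‖ ^ 4 := by ring
        _ ≤ K * ‖P K c (χ, 0)‖ ^ 4 := mul_le_mul_of_nonneg_right this (by positivity)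
    refine h1.trans ?_
    calc (K : ℝ) * ∑ χ : DirichletCharacter ℂ q, ‖P K c (χ, 0)‖ ^ 4
        ≤ K * (Λ ^ 4 * ((8 * (K : ℝ) ^ 2 + (K : ℝ) ^ 2) * (K : ℝ) ^ 2)) := by
          apply mul_le_mul_of_nonneg_left _ hK0.le
          refine hS4.trans ?_
          gcongr
      _ = Λ ^ 4 * 9 * (K : ℝ) ^ 5 := by ring
      _ ≤ Λ ^ 14 * SG q K := by
        have e1 : Λ ^ 4 * 9 ≤ Λ ^ 14 := by
          calc Λ ^ 4 * 9 ≤ Λ ^ 4 * Λ := by
                apply mul_le_mul_of_nonneg_left _ (by positivity)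
                linarith
            _ = Λ ^ 5 := by ring
            _ ≤ Λ ^ 14 := pow_le_pow_right₀ hΛ1 (by norm_num)
        exact mul_le_mul e1 hSK (by positivity) (by positivity)

/-- for large `q K` -/
private lemma big88 {e : ℝ} (he : 0 < e) : ∃ N0 : ℕ, ∀ (q : ℕ) [NeZero q] (K : ℕ), 1 ≤ K →
    N0 ≤ q * K → ∀ c : ℕ → ℂ, (∀ n, ‖c n‖ ≤ 1) →
    ∑ χ : DirichletCharacter ℂ q, ‖P K c (χ, 0)‖ ^ 5 ≤ ((q : ℝ) * K) ^ (14 * e) * SG q K := by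
  obtain ⟨Cd, hCd, hdiv⟩ := Pool.Agent.Helper69.FF.div_bound (ε := e / 4) (by positivity)
  obtain ⟨N1, hN1⟩ := ev_log he (10 ^ 6) (10 ^ 3)
  obtain ⟨N2, hN2⟩ := ev_log (e := e / 2) (by positivity) Cd 0
  refine ⟨max (max N1 N2) 2, fun q _ K hK hN c hc => ?_⟩
  obtain ⟨N, hNdef⟩ : ∃ N : ℕ, N = q * K := ⟨_, rfl⟩
  rw [← hNdef] at hN
  have hNN1 : N1 ≤ N := ((le_max_left _ _).trans (le_max_left _ _)).trans hN
  have hNN2 : N2 ≤ N := ((le_max_right _ _).trans (le_max_left _ _)).trans hN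
  have hN2' : 2 ≤ N := (le_max_right _ _).trans hN
  have hNr : (1 : ℝ) ≤ N := by exact_mod_cast (by omega : 1 ≤ N)
  have hNp : (0 : ℝ) < N := by linarith
  have hlogN : 0 ≤ Real.log N := Real.log_nonneg hNr
  have hNcast : (q : ℝ) * K = N := by rw [hNdef]; push_cast; ring
  have hq1 : 1 ≤ q := Nat.one_le_iff_ne_zero.2 (NeZero.ne q)
  have hqN : q ≤ N := by
    rw [hNdef]
    exact Nat.le_mul_of_pos_right _ hK
  have hKN : K ≤ N := by
    rw [hNdef]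
    exact Nat.le_mul_of_pos_left _ hq1
  have hqNr : (q : ℝ) ≤ N := by exact_mod_cast hqN
  have hKNr : (K : ℝ) ≤ N := by exact_mod_cast hKN
  have hq1r : (1 : ℝ) ≤ q := by exact_mod_cast hq1
  have hK1r : (1 : ℝ) ≤ K := by exact_mod_cast hK
  obtain ⟨Λ, hΛ⟩ : ∃ Λ : ℝ, Λ = (N : ℝ) ^ e := ⟨_, rfl⟩
  have hΛ1 : 10 ^ 6 + 10 ^ 3 * Real.log N ≤ Λ := by rw [hΛ]; exact hN1 N hNN1
  have hΛ6 : (10 : ℝ) ^ 6 ≤ Λ := by nlinarith
  have hbig : ∀ n : ℕ, 1 ≤ n → (n ≤ q ∨ n ≤ K * K) → (n : ℝ) ≤ (N : ℝ) ^ 2 := by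
    intro n _ hn
    rcases hn with h | h
    · have h1 : (n : ℝ) ≤ q := by exact_mod_cast h
      have h2 : (N : ℝ) ≤ (N : ℝ) ^ 2 := le_self_pow₀ hNr (by norm_num)
      linarith
    · have h1 : (n : ℝ) ≤ (K : ℝ) ^ 2 := by
        have : (n : ℝ) ≤ ((K * K : ℕ) : ℝ) := by exact_mod_cast h
        refine this.trans (le_of_eq ?_)
        push_cast
        ring
      exact h1.trans (pow_le_pow_left₀ (by linarith) hKNr 2)
  have hτ : ∀ n : ℕ, 1 ≤ n → (n ≤ q ∨ n ≤ K * K) → (n.divisors.card : ℝ) ≤ Λ := by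
    intro n h1 h2
    refine (hdiv n (by omega)).trans ?_
    have h3 := hbig n h1 h2
    have h4 : (n : ℝ) ^ (e / 4) ≤ (N : ℝ) ^ (e / 2) := by
      calc (n : ℝ) ^ (e / 4) ≤ ((N : ℝ) ^ 2) ^ (e / 4) :=
            Real.rpow_le_rpow (Nat.cast_nonneg _) h3 (by positivity)
        _ = (N : ℝ) ^ (e / 2) := by
            rw [← Real.rpow_natCast, ← Real.rpow_mul hNp.le]
            congr 1
            push_cast
            ring
    have h5 : Cd ≤ (N : ℝ) ^ (e / 2) := by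
      have := hN2 N hNN2
      linarith
    calc Cd * (n : ℝ) ^ (e / 4) ≤ (N : ℝ) ^ (e / 2) * (N : ℝ) ^ (e / 2) :=
          mul_le_mul h5 h4 (by positivity) (by positivity)
      _ = Λ := by
          rw [← Real.rpow_add hNp, hΛ]
          congr 1
          ring
  have hKK1 : 1 ≤ K * K := Nat.mul_pos hK hK
  have hlogM : ∀ M : ℕ, 1 ≤ M → (M ≤ q ∨ M ≤ K * K) → Real.log M ≤ 2 * Real.log N := by
    intro M h1 h2
    have h3 := hbig M h1 h2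
    have h4 : (0 : ℝ) < M := by exact_mod_cast h1
    have := Real.log_le_log h4 h3
    rw [Real.log_pow] at this
    push_cast at this
    exact this
  have hJ : ∀ M : ℕ, 1 ≤ M → (M ≤ q ∨ M ≤ K * K) → (JJ M : ℝ) ≤ Λ := by
    intro M h1 h2
    unfold JJ
    push_cast
    have h3 := log2_le M h1
    have h4 := hlogM M h1 h2
    linarith
  have hlog : 16 * (1 + Real.log (4 * ((K * K : ℕ) : ℝ) + 1)) ≤ Λ := by
    have h4 := hlogM (K * K) hKK1 (Or.inr le_rfl)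
    have h5 : (1 : ℝ) ≤ ((K * K : ℕ) : ℝ) := by exact_mod_cast hKK1
    have h6 : Real.log (4 * ((K * K : ℕ) : ℝ) + 1) ≤ Real.log (8 * ((K * K : ℕ) : ℝ)) :=
      Real.log_le_log (by positivity) (by linarith)
    have h7 : Real.log (8 * ((K * K : ℕ) : ℝ)) = Real.log 8 + Real.log ((K * K : ℕ) : ℝ) :=
      Real.log_mul (by norm_num) (by positivity)
    have h8 : Real.log 8 = 3 * Real.log 2 := by
      rw [show (8 : ℝ) = 2 ^ 3 by norm_num, Real.log_pow]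
      push_cast
      ring
    have := Real.log_two_lt_d9
    linarith
  have hmain := core88 hK hΛ6 hτ (hJ _ hKK1 (Or.inr le_rfl)) (hJ q hq1 (Or.inl le_rfl)) hlog c hc
  have h1 : Λ ^ 14 = (N : ℝ) ^ (14 * e) := by
    rw [hΛ, ← Real.rpow_natCast, ← Real.rpow_mul hNp.le]
    congr 1
    push_cast
    ring
  rw [h1] at hmain
  rw [hNcast]
  exact hmain

/-- **The fifth moment over the characters modulo `q`.** -/
theorem m5g : M5G := by
  classical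
  intro ε hε
  obtain ⟨N0, hN0⟩ := big88 (e := ε / 14) (by positivity)
  refine ⟨N0 + 1, by positivity, fun q _ K hK c hc => ?_⟩
  have hq1 : 1 ≤ q := Nat.one_le_iff_ne_zero.2 (NeZero.ne q)
  have hq1r : (1 : ℝ) ≤ q := by exact_mod_cast hq1
  have hq0 : (0 : ℝ) < q := by linarith
  have hK1 : (1 : ℝ) ≤ K := by exact_mod_cast hK
  have hK0 : (0 : ℝ) < K := by linarith
  have hX1 : (1 : ℝ) ≤ (q : ℝ) * K := by nlinarith
  have hXε : 1 ≤ ((q : ℝ) * K) ^ ε := Real.one_le_rpow hX1 hε.le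
  have hN00 : (0 : ℝ) ≤ N0 := Nat.cast_nonneg _
  have hS0 : 0 < SG q K := SG_pos hq0 hK0
  have hSK : (K : ℝ) ^ 5 ≤ SG q K := SK88 hq0 hK0
  have hP : ∀ χ : DirichletCharacter ℂ q, ∑ n ∈ Icc 1 K, c n * χ (n : ZMod q) = P K c (χ, 0) := by
    intro χ
    unfold P
    refine sum_congr rfl fun n _ => ?_
    simp [nt_zero]
  simp_rw [hP]
  by_cases h : N0 ≤ q * K
  · have h1 := hN0 q K hK h c hc
    rw [show 14 * (ε / 14) = ε by ring] at h1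
    refine h1.trans ?_
    apply mul_le_mul_of_nonneg_right _ hS0.le
    exact le_mul_of_one_le_left (by positivity) (by linarith)
  · push Not at h
    have h1 : ∀ χ ∈ (univ : Finset (DirichletCharacter ℂ q)), ‖P K c (χ, 0)‖ ^ 5 ≤ (K : ℝ) ^ 5 :=
      fun χ _ => pow_le_pow_left₀ (norm_nonneg _) (P_triv K hc _) 5
    refine (sum_le_sum h1).trans ?_
    rw [sum_const, nsmul_eq_mul]
    have h2 : (univ : Finset (DirichletCharacter ℂ q)).card ≤ q := by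
      rw [Finset.card_univ, ← Nat.card_eq_fintype_card, DirichletCharacter.card_eq_totient_of_hasEnoughRootsOfUnity]
      exact Nat.totient_le q
    have h3 : ((univ : Finset (DirichletCharacter ℂ q)).card : ℝ) ≤ N0 := by
      have h4 : q ≤ q * K := Nat.le_mul_of_pos_right _ hK
      have h5 : (univ : Finset (DirichletCharacter ℂ q)).card ≤ N0 := by omega
      exact_mod_cast h5
    calc ((univ : Finset (DirichletCharacter ℂ q)).card : ℝ) * (K : ℝ) ^ 5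
        ≤ N0 * SG q K := mul_le_mul h3 hSK (by positivity) hN00
      _ ≤ (N0 + 1) * ((q : ℝ) * K) ^ ε * SG q K := by
          apply mul_le_mul_of_nonneg_right _ hS0.le
          nlinarith

end Pool.Agent.Helper88.LV.G5
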