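import Pool.Agent.Helper88.LV.Cubic
import Pool.Agent.Helper88.LV.Dual
import Pool.Agent.Helper88.LV.Energy
import Pool.Agent.Helper7.GPC.Div
import Pool.Agent.Helper19.V4.Defs

/-!
# LV-11: the large value theorem for the moduli between `N^{2/5}` and `N^{68/135}`

All quantities are written as powers of `X = N`: `q = X^k`, `#W = X^ρ`, `E = X^e`, `m = X^μ`; the losses (constants,
divisor functions, coefficients) are powers of `X^h`.
(1) Energy: one of `e ≤ ρ + 4k - 8/5`, `e ≤ 2ρ + 3k - 4/3`, `e ≤ 9k - 4`, `e ≤ 2ρ + 5k - 12/5` (up to `O(h)`).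
(2) `μ ≥ ρ + 6/5 - 2k` and `3μ ≤ max(2k + 3ρ/2, 2k + (ρ + e + 2/5 - k)/2, 2/5 + k + ρ, 4/5 + (k + e)/2)`.
With `ρ ≥ 3k - 6/5 - 4h` and `2/5 + 20h ≤ k ≤ 68/135 - 10h` this is a contradiction.
-/

set_option autoImplicit false

namespace Pool.Agent.Helper88.LV

open Finset

private lemma exp_le88 {X : ℝ} (hX : 1 < X) {a b h C : ℝ} (hC : C ≤ X ^ h)
    (H : X ^ a ≤ C * X ^ b) : a ≤ b + h := by
  have h0 : 0 < X := by linarith
  have h1 : X ^ a ≤ X ^ (b + h) := by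
    calc X ^ a ≤ C * X ^ b := H
      _ ≤ X ^ h * X ^ b := by
        have : 0 ≤ X ^ b := (Real.rpow_pos_of_pos h0 _).le
        gcongr
      _ = X ^ (b + h) := by rw [← Real.rpow_add h0, add_comm]
  exact (Real.rpow_le_rpow_left_iff hX).1 h1

private lemma add_le_max88 {X : ℝ} (hX : 1 < X) (a b : ℝ) :
    X ^ a + X ^ b ≤ 2 * X ^ (max a b) := by
  have h1 : X ^ a ≤ X ^ (max a b) := Real.rpow_le_rpow_of_exponent_le hX.le (le_max_left _ _)
  have h2 : X ^ b ≤ X ^ (max a b) := Real.rpow_le_rpow_of_exponent_le hX.le (le_max_right _ _)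
  linarith

private lemma pw_nat88 {X : ℝ} (hX : 0 ≤ X) (a : ℝ) (n : ℕ) : (X ^ a) ^ n = X ^ (a * n) := by
  rw [← Real.rpow_natCast (X ^ a) n, ← Real.rpow_mul hX]

private lemma sqrt_rp88 {X : ℝ} (hX : 0 ≤ X) (a : ℝ) : Real.sqrt (X ^ a) = X ^ (a / 2) := by
  rw [Real.sqrt_eq_rpow, ← Real.rpow_mul hX]
  ring_nf

/-- The energy step in exponents. -/
private lemma energy_exp88 {X k h ρ e M : ℝ} (hX : 1 < X) (hbig : (10 : ℝ) ^ 8 ≤ X ^ h)
    (hM0 : 0 ≤ M) (hM : M ≤ X ^ (2 / 5 + h))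
    (H : (X ^ (4 / 5 - k - h)) ^ 4 * (X ^ e) ^ 2 ≤ 10 ^ 4 * (X ^ h) ^ 4 * (X ^ h) ^ 2 *
      (M ^ 2 * X ^ ρ + M * Real.sqrt (X ^ k * X ^ e)) *
      (M ^ 2 * X ^ e + M * (X ^ ρ) ^ 2 * Real.sqrt (X ^ k * X ^ e))) :
    16 / 5 - 4 * k - 4 * h + 2 * e ≤ 7 * h + max (4 / 5 + 2 * h + ρ) (2 / 5 + h + (k + e) / 2) +
      max (4 / 5 + 2 * h + e) (2 / 5 + h + 2 * ρ + (k + e) / 2) := by
  have hX0 : 0 < X := by linarith
  have hX0' : 0 ≤ X := hX0.le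
  have hs : Real.sqrt (X ^ k * X ^ e) = X ^ ((k + e) / 2) := by
    rw [← Real.rpow_add hX0, sqrt_rp88 hX0']
  have hM2 : M ^ 2 ≤ X ^ (4 / 5 + 2 * h) := by
    calc M ^ 2 ≤ (X ^ (2 / 5 + h)) ^ 2 := by gcongr
      _ = X ^ (4 / 5 + 2 * h) := by
        rw [pw_nat88 hX0']
        congr 1
        push_cast
        ring
  have a1 : M ^ 2 * X ^ ρ + M * Real.sqrt (X ^ k * X ^ e) ≤
      2 * X ^ (max (4 / 5 + 2 * h + ρ) (2 / 5 + h + (k + e) / 2)) := by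
    refine le_trans ?_ (add_le_max88 hX _ _)
    rw [hs, Real.rpow_add hX0 (4 / 5 + 2 * h) ρ, Real.rpow_add hX0 (2 / 5 + h) ((k + e) / 2)]
    gcongr
  have a2 : M ^ 2 * X ^ e + M * (X ^ ρ) ^ 2 * Real.sqrt (X ^ k * X ^ e) ≤
      2 * X ^ (max (4 / 5 + 2 * h + e) (2 / 5 + h + 2 * ρ + (k + e) / 2)) := by
    refine le_trans ?_ (add_le_max88 hX _ _)
    have hr2 : (X ^ ρ) ^ 2 = X ^ (2 * ρ) := by
      rw [pw_nat88 hX0']
      congr 1
      push_cast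
      ring
    rw [hs, hr2, Real.rpow_add hX0 (4 / 5 + 2 * h) e,
      Real.rpow_add hX0 (2 / 5 + h + 2 * ρ) ((k + e) / 2), Real.rpow_add hX0 (2 / 5 + h) (2 * ρ)]
    gcongr
  have hp1 : 0 ≤ M ^ 2 * X ^ ρ + M * Real.sqrt (X ^ k * X ^ e) := by positivity
  have hp2 : 0 ≤ M ^ 2 * X ^ e + M * (X ^ ρ) ^ 2 * Real.sqrt (X ^ k * X ^ e) := by positivity
  set P1 := max (4 / 5 + 2 * h + ρ) (2 / 5 + h + (k + e) / 2) with hP1
  set P2 := max (4 / 5 + 2 * h + e) (2 / 5 + h + 2 * ρ + (k + e) / 2) with hP2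
  have hL : (X ^ (4 / 5 - k - h)) ^ 4 * (X ^ e) ^ 2 = X ^ (16 / 5 - 4 * k - 4 * h + 2 * e) := by
    rw [pw_nat88 hX0', pw_nat88 hX0', ← Real.rpow_add hX0]
    congr 1
    push_cast
    ring
  have hR : 10 ^ 4 * (X ^ h) ^ 4 * (X ^ h) ^ 2 *
      (M ^ 2 * X ^ ρ + M * Real.sqrt (X ^ k * X ^ e)) *
      (M ^ 2 * X ^ e + M * (X ^ ρ) ^ 2 * Real.sqrt (X ^ k * X ^ e)) ≤
      (4 * 10 ^ 4) * X ^ (6 * h + P1 + P2) := by
    calc 10 ^ 4 * (X ^ h) ^ 4 * (X ^ h) ^ 2 *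
      (M ^ 2 * X ^ ρ + M * Real.sqrt (X ^ k * X ^ e)) *
      (M ^ 2 * X ^ e + M * (X ^ ρ) ^ 2 * Real.sqrt (X ^ k * X ^ e)) ≤
          10 ^ 4 * (X ^ h) ^ 4 * (X ^ h) ^ 2 * (2 * X ^ P1) * (2 * X ^ P2) := by gcongr
      _ = (4 * 10 ^ 4) * ((X ^ h) ^ 4 * (X ^ h) ^ 2 * X ^ P1 * X ^ P2) := by ring
      _ = (4 * 10 ^ 4) * X ^ (6 * h + P1 + P2) := by
        rw [pw_nat88 hX0', pw_nat88 hX0', ← Real.rpow_add hX0, ← Real.rpow_add hX0,
          ← Real.rpow_add hX0]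
        congr 2
        push_cast
        ring
  rw [hL] at H
  have hC : (4 * 10 ^ 4 : ℝ) ≤ X ^ h := le_trans (by norm_num) hbig
  have := exp_le88 hX hC (H.trans hR)
  linarith

/-- The final step in exponents. -/
private lemma final_exp88 {X k h ρ e M m s t3 t2 ji : ℝ} (hX : 1 < X) (hh : 0 < h)
    (hbig : (10 : ℝ) ^ 8 ≤ X ^ h) (hM0 : 0 ≤ M) (hM : M ≤ X ^ (2 / 5 + h)) (hm0 : 0 ≤ m)
    (hk0 : 2 / 5 + 20 * h ≤ k) (hρ : 3 * k - 6 / 5 - 4 * h ≤ ρ)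
    (hji0 : 0 ≤ ji) (hji : ji ≤ 8 * M / X ^ k)
    (h1 : X ^ ρ * (X ^ (4 / 5 - k - h)) ^ 2 ≤ 2 * (X ^ h) ^ 2 * M * m) (hs0 : 0 ≤ s)
    (hs : s ≤ 8 * M) (h2 : s ≤ m → m * (m - s) ^ 2 ≤ t3 + s * t2)
    (h3 : t3 ≤ 35 * (X ^ h) ^ 2 * (X ^ k) ^ 2 * Real.sqrt ((X ^ ρ) ^ 3 + X ^ ρ * X ^ e * ji))
    (h4 : t2 ≤ 100 * X ^ h * (X ^ k * X ^ ρ + X ^ h * Real.sqrt ((X ^ k) ^ 3 * X ^ e) * ji)) :
    3 * (ρ + 6 / 5 - 2 * k - 6 * h) ≤ h + max (2 * h + 2 * k + max (3 * ρ / 2)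
      ((ρ + e + 2 / 5 + h - k) / 2)) (2 / 5 + 2 * h + max (k + ρ) (2 * h + (k + e) / 2 + 2 / 5)) := by
  have hX0 : 0 < X := by linarith
  have hX0' : 0 ≤ X := hX0.le
  -- `m` as a power
  have hmpos : 0 < m := by
    rcases hm0.lt_or_eq with hm' | hm'
    · exact hm'
    · rw [← hm'] at h1
      have : 0 < X ^ ρ * (X ^ (4 / 5 - k - h)) ^ 2 := by positivity
      linarith
  obtain ⟨μ, hμ⟩ : ∃ μ : ℝ, m = X ^ μ := ⟨Real.logb X m, (Real.rpow_logb hX0 hX.ne' hmpos).symm⟩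
  have hμ1 : ρ + 6 / 5 - 2 * k - 6 * h ≤ μ := by
    have e1 : X ^ (ρ + 8 / 5 - 2 * k - 2 * h) ≤ 2 * X ^ (2 / 5 + 3 * h + μ) := by
      calc X ^ (ρ + 8 / 5 - 2 * k - 2 * h) = X ^ ρ * (X ^ (4 / 5 - k - h)) ^ 2 := by
            rw [pw_nat88 hX0', ← Real.rpow_add hX0]
            congr 1
            push_cast
            ring
        _ ≤ 2 * (X ^ h) ^ 2 * M * m := h1
        _ ≤ 2 * (X ^ h) ^ 2 * X ^ (2 / 5 + h) * X ^ μ := by
          rw [hμ]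
          gcongr
        _ = 2 * ((X ^ h) ^ 2 * X ^ (2 / 5 + h) * X ^ μ) := by ring
        _ = _ := by
          rw [pw_nat88 hX0', ← Real.rpow_add hX0, ← Real.rpow_add hX0]
          congr 2
          push_cast
          ring
    have := exp_le88 hX (le_trans (by norm_num) hbig) e1
    linarith
  -- `16 M ≤ m`
  have hm16 : 16 * M ≤ m := by
    calc 16 * M ≤ X ^ h * X ^ (2 / 5 + h) := by
          have : (16 : ℝ) ≤ X ^ h := le_trans (by norm_num) hbig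
          gcongr
      _ = X ^ (2 / 5 + 2 * h) := by
        rw [← Real.rpow_add hX0]
        congr 1
        ring
      _ ≤ X ^ μ := Real.rpow_le_rpow_of_exponent_le hX.le (by linarith)
      _ = m := hμ.symm
  have hsm : s ≤ m / 2 := by linarith
  have h2' := h2 (by linarith)
  have h5 : m ^ 3 ≤ 4 * t3 + 4 * (s * t2) := by
    have e1 : (m / 2) ^ 2 ≤ (m - s) ^ 2 := by
      apply pow_le_pow_left₀ (by linarith)
      linarith
    have e2 : m ^ 3 / 4 ≤ m * (m - s) ^ 2 := by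
      calc m ^ 3 / 4 = m * (m / 2) ^ 2 := by ring
        _ ≤ _ := by gcongr
    linarith
  -- `1 / J`
  have hji2 : ji ≤ 8 * X ^ (2 / 5 + h - k) := by
    calc ji ≤ 8 * M / X ^ k := hji
      _ ≤ 8 * X ^ (2 / 5 + h) / X ^ k := by gcongr
      _ = 8 * X ^ (2 / 5 + h - k) := by
        rw [Real.rpow_sub hX0]
        ring
  -- the cubic sum
  set a := max (3 * ρ / 2) ((ρ + e + 2 / 5 + h - k) / 2) with ha
  have h6 : Real.sqrt ((X ^ ρ) ^ 3 + X ^ ρ * X ^ e * ji) ≤ 4 * X ^ a := by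
    apply Real.sqrt_le_left (by positivity) |>.mpr
    have e1 : (X ^ ρ) ^ 3 ≤ X ^ (2 * a) := by
      rw [pw_nat88 hX0']
      apply Real.rpow_le_rpow_of_exponent_le hX.le
      have := le_max_left (3 * ρ / 2) ((ρ + e + 2 / 5 + h - k) / 2)
      push_cast
      linarith
    have e2 : X ^ ρ * X ^ e * ji ≤ 8 * X ^ (2 * a) := by
      calc X ^ ρ * X ^ e * ji ≤ X ^ ρ * X ^ e * (8 * X ^ (2 / 5 + h - k)) := by gcongr
        _ = 8 * (X ^ ρ * X ^ e * X ^ (2 / 5 + h - k)) := by ring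
        _ ≤ 8 * X ^ (2 * a) := by
          rw [← Real.rpow_add hX0, ← Real.rpow_add hX0]
          gcongr 8 * ?_
          apply Real.rpow_le_rpow_of_exponent_le hX.le
          have := le_max_right (3 * ρ / 2) ((ρ + e + 2 / 5 + h - k) / 2)
          linarith
    have e3 : (4 * X ^ a) ^ 2 = 16 * X ^ (2 * a) := by
      rw [mul_pow, pw_nat88 hX0']
      norm_num
      ring_nf
    have e4 : 0 ≤ X ^ (2 * a) := by positivity
    rw [e3]
    linarith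
  have h7 : 4 * t3 ≤ 560 * X ^ (2 * h + 2 * k + a) := by
    calc 4 * t3 ≤ 4 * (35 * (X ^ h) ^ 2 * (X ^ k) ^ 2 *
          Real.sqrt ((X ^ ρ) ^ 3 + X ^ ρ * X ^ e * ji)) := by linarith
      _ ≤ 4 * (35 * (X ^ h) ^ 2 * (X ^ k) ^ 2 * (4 * X ^ a)) := by gcongr
      _ = 560 * ((X ^ h) ^ 2 * (X ^ k) ^ 2 * X ^ a) := by ring
      _ = _ := by
        rw [pw_nat88 hX0', pw_nat88 hX0', ← Real.rpow_add hX0, ← Real.rpow_add hX0]
        congr 2
        push_cast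
        ring
  -- the quadratic sum
  set b := max (k + ρ) (2 * h + (k + e) / 2 + 2 / 5) with hb
  have h8 : X ^ k * X ^ ρ + X ^ h * Real.sqrt ((X ^ k) ^ 3 * X ^ e) * ji ≤ 9 * X ^ b := by
    have e1 : X ^ k * X ^ ρ ≤ X ^ b := by
      rw [← Real.rpow_add hX0]
      exact Real.rpow_le_rpow_of_exponent_le hX.le (le_max_left _ _)
    have e2 : X ^ h * Real.sqrt ((X ^ k) ^ 3 * X ^ e) * ji ≤ 8 * X ^ b := by
      rw [pw_nat88 hX0', ← Real.rpow_add hX0, sqrt_rp88 hX0']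
      calc X ^ h * X ^ ((k * ((3 : ℕ) : ℝ) + e) / 2) * ji ≤
            X ^ h * X ^ ((k * ((3 : ℕ) : ℝ) + e) / 2) * (8 * X ^ (2 / 5 + h - k)) := by gcongr
        _ = 8 * (X ^ h * X ^ ((k * ((3 : ℕ) : ℝ) + e) / 2) * X ^ (2 / 5 + h - k)) := by ring
        _ ≤ 8 * X ^ b := by
          rw [← Real.rpow_add hX0, ← Real.rpow_add hX0]
          gcongr 8 * ?_
          apply Real.rpow_le_rpow_of_exponent_le hX.le
          have := le_max_right (k + ρ) (2 * h + (k + e) / 2 + 2 / 5)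
          push_cast
          linarith
    linarith
  have h9 : 4 * (s * t2) ≤ 28800 * X ^ (2 / 5 + 2 * h + b) := by
    have e1 : t2 ≤ 100 * X ^ h * (9 * X ^ b) := h4.trans (by gcongr)
    have e2 : s ≤ 8 * X ^ (2 / 5 + h) := hs.trans (by linarith)
    calc 4 * (s * t2) ≤ 4 * (s * (100 * X ^ h * (9 * X ^ b))) := by gcongr
      _ ≤ 4 * (8 * X ^ (2 / 5 + h) * (100 * X ^ h * (9 * X ^ b))) := by gcongr
      _ = 28800 * (X ^ (2 / 5 + h) * X ^ h * X ^ b) := by ring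
      _ = _ := by
        rw [← Real.rpow_add hX0, ← Real.rpow_add hX0]
        congr 2
        ring
  have h10 : X ^ (3 * μ) ≤ (2 * 28800) * X ^ (max (2 * h + 2 * k + a) (2 / 5 + 2 * h + b)) := by
    have e1 : m ^ 3 = X ^ (3 * μ) := by
      rw [hμ, pw_nat88 hX0']
      congr 1
      push_cast
      ring
    rw [e1] at h5
    have e2 := add_le_max88 hX (2 * h + 2 * k + a) (2 / 5 + 2 * h + b)
    have e3 : 0 ≤ X ^ (2 * h + 2 * k + a) := by positivity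
    linarith
  have h11 := exp_le88 hX (le_trans (by norm_num) hbig) h10
  linarith

/-- Linear arithmetic. -/
private lemma lin88 {k h ρ e : ℝ} (hh : 0 < h) (hh' : h ≤ 1 / 2000) (hk0 : 2 / 5 + 20 * h ≤ k)
    (hk1 : k ≤ 68 / 135 - 20 * h) (hρ : 3 * k - 6 / 5 - 4 * h ≤ ρ)
    (h1 : 16 / 5 - 4 * k - 4 * h + 2 * e ≤ 7 * h + max (4 / 5 + 2 * h + ρ)
      (2 / 5 + h + (k + e) / 2) + max (4 / 5 + 2 * h + e) (2 / 5 + h + 2 * ρ + (k + e) / 2))
    (h2 : 3 * (ρ + 6 / 5 - 2 * k - 6 * h) ≤ h + max (2 * h + 2 * k + max (3 * ρ / 2)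
      ((ρ + e + 2 / 5 + h - k) / 2)) (2 / 5 + 2 * h + max (k + ρ) (2 * h + (k + e) / 2 + 2 / 5))) :
    False := by
  have h1a : 16 / 5 - 4 * k - 4 * h + 2 * e - 7 * h - max (4 / 5 + 2 * h + e)
      (2 / 5 + h + 2 * ρ + (k + e) / 2) ≤ max (4 / 5 + 2 * h + ρ) (2 / 5 + h + (k + e) / 2) := by
    linarith
  have h2a : 3 * (ρ + 6 / 5 - 2 * k - 6 * h) - h ≤ max (2 * h + 2 * k + max (3 * ρ / 2)
      ((ρ + e + 2 / 5 + h - k) / 2))
      (2 / 5 + 2 * h + max (k + ρ) (2 * h + (k + e) / 2 + 2 / 5)) := by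
    linarith
  have H2 : 3 * (ρ + 6 / 5 - 2 * k - 6 * h) - h - 2 * h - 2 * k ≤ 3 * ρ / 2 ∨
      3 * (ρ + 6 / 5 - 2 * k - 6 * h) - h - 2 * h - 2 * k ≤ (ρ + e + 2 / 5 + h - k) / 2 ∨
      3 * (ρ + 6 / 5 - 2 * k - 6 * h) - h - 2 / 5 - 2 * h ≤ k + ρ ∨
      3 * (ρ + 6 / 5 - 2 * k - 6 * h) - h - 2 / 5 - 2 * h ≤ 2 * h + (k + e) / 2 + 2 / 5 := by
    rcases le_max_iff.1 h2a with h2b | h2b
    · have h2c : 3 * (ρ + 6 / 5 - 2 * k - 6 * h) - h - 2 * h - 2 * k ≤ max (3 * ρ / 2)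
          ((ρ + e + 2 / 5 + h - k) / 2) := by linarith
      rcases le_max_iff.1 h2c with h2d | h2d
      · exact Or.inl h2d
      · exact Or.inr (Or.inl h2d)
    · have h2c : 3 * (ρ + 6 / 5 - 2 * k - 6 * h) - h - 2 / 5 - 2 * h ≤ max (k + ρ)
          (2 * h + (k + e) / 2 + 2 / 5) := by linarith
      rcases le_max_iff.1 h2c with h2d | h2d
      · exact Or.inr (Or.inr (Or.inl h2d))
      · exact Or.inr (Or.inr (Or.inr h2d))
  have H1 : e ≤ ρ + 4 * k - 8 / 5 + 15 * h ∨ 3 / 2 * e ≤ 3 * ρ + 9 / 2 * k - 2 + 14 * h ∨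
      e / 2 ≤ 9 / 2 * k - 2 + 14 * h ∨ e ≤ 2 * ρ + 5 * k - 12 / 5 + 13 * h := by
    rcases le_max_iff.1 h1a with h1b | h1b
    · have h1c : 16 / 5 - 4 * k - 4 * h + 2 * e - 7 * h - (4 / 5 + 2 * h + ρ) ≤
          max (4 / 5 + 2 * h + e) (2 / 5 + h + 2 * ρ + (k + e) / 2) := by linarith
      rcases le_max_iff.1 h1c with h1d | h1d
      · exact Or.inl (by linarith)
      · exact Or.inr (Or.inl (by linarith))
    · have h1c : 16 / 5 - 4 * k - 4 * h + 2 * e - 7 * h - (2 / 5 + h + (k + e) / 2) ≤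
          max (4 / 5 + 2 * h + e) (2 / 5 + h + 2 * ρ + (k + e) / 2) := by linarith
      rcases le_max_iff.1 h1c with h1d | h1d
      · exact Or.inr (Or.inr (Or.inl (by linarith)))
      · exact Or.inr (Or.inr (Or.inr (by linarith)))
  rcases H1 with g | g | g | g <;> rcases H2 with g' | g' | g' | g' <;> linarith

/-- **The large value theorem for general Dirichlet polynomials of length about `N^{2/5}` over the characters
modulo `q`, `N^{k0} ≤ q ≤ N^{k1}`, for any `2/5 < k0`, `k1 < 68/135`.** -/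
theorem lvn (k0 k1 : ℝ) (hk0 : 2 / 5 < k0) (hk1 : k1 < 68 / 135) :
    Pool.Helper19.V4.LVN k0 k1 := by
  classical
  obtain ⟨h, hh, hh1, hh2, hh3⟩ : ∃ h : ℝ, 0 < h ∧ h ≤ 1 / 2000 ∧ 2 / 5 + 20 * h ≤ k0 ∧
      k1 ≤ 68 / 135 - 20 * h := by
    refine ⟨min (1 / 2000) (min ((k0 - 2 / 5) / 20) ((68 / 135 - k1) / 20)), ?_, ?_, ?_, ?_⟩
    · refine lt_min (by norm_num) (lt_min (by linarith) (by linarith))
    · exact min_le_left _ _
    · have := (min_le_right (1 / 2000 : ℝ) (min ((k0 - 2 / 5) / 20) ((68 / 135 - k1) / 20))).trans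
        (min_le_left _ _)
      linarith
    · have := (min_le_right (1 / 2000 : ℝ) (min ((k0 - 2 / 5) / 20) ((68 / 135 - k1) / 20))).trans
        (min_le_right _ _)
      linarith
  obtain ⟨C, hC1, hC⟩ := Pool.Agent.Helper7.GPC.card_divisors_le (ε := h / 2) (by linarith)
  have hev : ∀ᶠ n : ℕ in Filter.atTop, (10 : ℝ) ^ 8 ≤ (n : ℝ) ^ h ∧
      C ≤ (n : ℝ) ^ (h / 2) ∧ (2 : ℝ) ≤ n := by
    have h1 := ((tendsto_rpow_atTop hh).comp
      tendsto_natCast_atTop_atTop).eventually_ge_atTop ((10 : ℝ) ^ 8)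
    have h2 := ((tendsto_rpow_atTop (by linarith : (0 : ℝ) < h / 2)).comp
      tendsto_natCast_atTop_atTop).eventually_ge_atTop C
    have h3 : ∀ᶠ n : ℕ in Filter.atTop, (2 : ℝ) ≤ (n : ℝ) :=
      tendsto_natCast_atTop_atTop.eventually_ge_atTop (2 : ℝ)
    filter_upwards [h1, h2, h3] with q a b c using ⟨a, b, c⟩
  obtain ⟨N0, hN0⟩ := Filter.eventually_atTop.1 hev
  refine ⟨h, hh, 4 * h, by linarith, N0, ?_⟩
  intro N hN q _ hqk0 hqk1 M hMX b hb W hVW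
  obtain ⟨hbig, hCX, hN2⟩ := hN0 N hN
  set X : ℝ := (N : ℝ) with hXdef
  have hX : 1 < X := by linarith
  have hX0 : 0 < X := by linarith
  have hX0' : 0 ≤ X := hX0.le
  have hqpos : (0 : ℝ) < q := by exact_mod_cast NeZero.pos q
  obtain ⟨k, hk⟩ : ∃ k : ℝ, (q : ℝ) = X ^ k :=
    ⟨Real.logb X q, (Real.rpow_logb hX0 hX.ne' hqpos).symm⟩
  have hkk0 : k0 ≤ k := by
    rw [hk] at hqk0
    exact (Real.rpow_le_rpow_left_iff hX).1 hqk0
  have hkk1 : k ≤ k1 := by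
    rw [hk] at hqk1
    exact (Real.rpow_le_rpow_left_iff hX).1 hqk1
  by_contra hcon
  rw [not_le] at hcon
  have hrpos : (0 : ℝ) < W.card := by
    refine lt_of_le_of_lt ?_ hcon
    positivity
  have hWne : W.Nonempty := by
    rw [← card_pos]
    exact_mod_cast hrpos
  obtain ⟨ρ, hρ⟩ : ∃ ρ : ℝ, (W.card : ℝ) = X ^ ρ :=
    ⟨Real.logb X W.card, (Real.rpow_logb hX0 hX.ne' hrpos).symm⟩
  have hρ1 : 3 * k - 6 / 5 - 4 * h ≤ ρ := by
    have e1 : X ^ (3 * k - 6 / 5 - 4 * h) < X ^ ρ := by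
      calc X ^ (3 * k - 6 / 5 - 4 * h) = (q : ℝ) ^ 3 * X ^ (-(6 / 5 : ℝ) - 4 * h) := by
            rw [hk, pw_nat88 hX0', ← Real.rpow_add hX0]
            congr 1
            push_cast
            ring
        _ < W.card := hcon
        _ = X ^ ρ := hρ
    exact ((Real.rpow_lt_rpow_left_iff hX).1 e1).le
  have hEpos : (0 : ℝ) < En W := by
    have : 0 < En W := by
      obtain ⟨χ, hχ⟩ := hWne
      unfold En
      rw [card_pos]
      exact ⟨((χ, χ), (χ, χ)), by simp [hχ]⟩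
    exact_mod_cast this
  obtain ⟨e, he⟩ : ∃ e : ℝ, (En W : ℝ) = X ^ e :=
    ⟨Real.logb X (En W), (Real.rpow_logb hX0 hX.ne' hEpos).symm⟩
  -- `V`
  set V : ℝ := X ^ (4 / 5 - k - h) with hVdef
  have hV0 : 0 ≤ V := (Real.rpow_pos_of_pos hX0 _).le
  have hVW' : ∀ χ ∈ W, V ≤ ‖∑ n ∈ Icc 1 M, b n * χ (n : ZMod q)‖ := by
    intro χ hχ
    refine le_trans (le_of_eq ?_) (hVW χ hχ)
    rw [hk, ← Real.rpow_sub hX0, hVdef]
    congr 1
    ring
  have hM1 : 1 ≤ M := by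
    by_contra hM
    have hM' : M = 0 := by omega
    obtain ⟨χ, hχ⟩ := hWne
    have h1 := hVW' χ hχ
    rw [hM'] at h1
    have h2 : (0 : ℝ) < V := Real.rpow_pos_of_pos hX0 _
    simp at h1
    linarith
  have hMpos : (0 : ℝ) < M := by exact_mod_cast hM1
  -- divisors
  set T : ℝ := X ^ h with hTdef
  have hT1 : 1 ≤ T := Real.one_le_rpow hX.le hh.le
  have hqX : (q : ℝ) ≤ X := by
    rw [hk]
    calc X ^ k ≤ X ^ (1 : ℝ) := Real.rpow_le_rpow_of_exponent_le hX.le (by linarith)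
      _ = X := Real.rpow_one X
  have hT : ∀ n : ℕ, 1 ≤ n → n ≤ q → ((n.divisors.card : ℕ) : ℝ) ≤ T := by
    intro n hn1 hnq
    calc ((n.divisors.card : ℕ) : ℝ) ≤ C * (n : ℝ) ^ (h / 2) := hC n (by omega)
      _ ≤ X ^ (h / 2) * X ^ (h / 2) := by
        have h1 : (n : ℝ) ≤ q := by exact_mod_cast hnq
        have : (n : ℝ) ≤ X := h1.trans hqX
        gcongr
      _ = T := by
        rw [← Real.rpow_add hX0, hTdef]
        congr 1
        ring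
  -- `J`
  have h8M : 8 * (M : ℝ) ≤ q := by
    rw [hk]
    calc 8 * (M : ℝ) ≤ X ^ h * X ^ (2 / 5 + h) := by
          have : (8 : ℝ) ≤ X ^ h := le_trans (by norm_num) hbig
          gcongr
      _ = X ^ (2 / 5 + 2 * h) := by
        rw [← Real.rpow_add hX0]
        congr 1
        ring
      _ ≤ X ^ k := Real.rpow_le_rpow_of_exponent_le hX.le (by linarith)
  have h8M' : 8 * M ≤ q := by exact_mod_cast h8M
  set J : ℕ := q / (4 * M) with hJdef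
  have h4M : 0 < 4 * M := by omega
  have hJ1 : 1 ≤ J := by
    rw [hJdef, Nat.le_div_iff_mul_le h4M]
    omega
  have hJq : J ≤ q := Nat.div_le_self _ _
  have hMJ : 4 * J * M ≤ q := by
    have := Nat.div_mul_le_self q (4 * M)
    calc 4 * J * M = J * (4 * M) := by ring
      _ ≤ q := this
  have hJpos : (0 : ℝ) < J := by exact_mod_cast hJ1
  have hji : 1 / (J : ℝ) ≤ 8 * M / q := by
    rw [div_le_div_iff₀ hJpos hqpos]
    have h1 : q < (J + 1) * (4 * M) := by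
      have := Nat.lt_div_mul_add h4M (a := q)
      calc q < q / (4 * M) * (4 * M) + 4 * M := this
        _ = (J + 1) * (4 * M) := by rw [hJdef]; ring
    have h2 : q ≤ J * (8 * M) := by
      have h3 : (J + 1) * (4 * M) ≤ (J + J) * (4 * M) := Nat.mul_le_mul_right _ (by omega)
      calc q ≤ (J + 1) * (4 * M) := h1.le
        _ ≤ (J + J) * (4 * M) := h3
        _ = J * (8 * M) := by ring
    have h4 : (q : ℝ) ≤ J * (8 * M) := by exact_mod_cast h2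
    linarith
  have hMq : M < q := by omega
  have hT0 : 0 ≤ T := by linarith
  have hb' : ∀ n ∈ Icc 1 M, ‖b n‖ ≤ T := fun n _ => hb n
  -- energy
  have hen := energy M hM1 hMq b T hT0 hb' W V hV0 hVW' T hT1 hT
  rw [he, hρ, hk] at hen
  have hE := energy_exp88 hX hbig hMpos.le hMX hen
  -- duality
  obtain ⟨c, hc, hdual⟩ := dual_c M J hM1 hJ1 hMJ b T hT0 hb' W V hV0 hVW'
  set P : ℝ := ∑ u : (ZMod q)ˣ, K q J (u : ZMod q) * ‖∑ χ ∈ W, c χ * χ (u : ZMod q)‖ ^ 2 with hP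
  have hP0 : 0 ≤ P := Finset.sum_nonneg fun u _ => mul_nonneg (K_nonneg _ _ _) (by positivity)
  set m : ℝ := P / W.card with hm
  have hPm : P = W.card * m := by
    rw [hm]
    field_simp
  have hm0 : 0 ≤ m := div_nonneg hP0 hrpos.le
  have h1 : (W.card : ℝ) * V ^ 2 ≤ 2 * T ^ 2 * M * m := by
    rw [hPm] at hdual
    have h2 : (W.card : ℝ) * (W.card * V ^ 2) ≤ W.card * (2 * T ^ 2 * M * m) := by
      calc (W.card : ℝ) * (W.card * V ^ 2) = (W.card : ℝ) ^ 2 * V ^ 2 := by ring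
        _ ≤ _ := hdual
        _ = _ := by ring
    exact le_of_mul_le_mul_left h2 hrpos
  set s : ℝ := (Fintype.card (ZMod q)ˣ : ℝ) / J with hs
  have hs0 : 0 ≤ s := by positivity
  have hs8 : s ≤ 8 * M := by
    have h2 : (Fintype.card (ZMod q)ˣ : ℝ) ≤ q := card_units_le
    calc s = (Fintype.card (ZMod q)ˣ : ℝ) * (1 / J) := by rw [hs]; ring
      _ ≤ q * (8 * M / q) := by gcongr
      _ = 8 * M := by field_simp
  have hκ : ∀ m ∈ A J, ‖kF J m‖ ≤ 1 / J := fun m hm => norm_kF_le J hJ1 m hm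
  have h2 : s ≤ m → m * (m - s) ^ 2 ≤ ‖T3 W (kF J) J‖ + s * ‖T2 W (kF J) J‖ := by
    intro hsm
    have := cubic J hJ1 W c hc m hPm hsm
    exact le_of_mul_le_mul_left this hrpos
  have h3 := T3_le W (kF J) J hJ1 hJq hκ T hT1 hT
  have h4 := T2_le W (kF J) J hJ1 hJq hκ T hT1 hT
  rw [hρ] at h1
  rw [he, hρ, hk] at h3 h4
  have hfin := final_exp88 (t3 := ‖T3 W (kF J) J‖) (t2 := ‖T2 W (kF J) J‖) (ji := 1 / (J : ℝ))
    hX hh hbig hMpos.le hMX hm0 (by linarith : 2 / 5 + 20 * h ≤ k) hρ1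
    (by positivity) (by rw [← hk]; exact hji) h1 hs0 hs8 h2
    (h3.trans (le_of_eq (by rw [mul_one_div]))) (h4.trans (le_of_eq (by rw [mul_one_div])))
  exact lin88 hh hh1 (by linarith) (by linarith) hρ1 hE hfin

end Pool.Agent.Helper88.LV
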