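import Pool.Agent.Helper88.LV.Defs

/-!
# LV-0: orthogonality

PROOF. `norm_R_le`: `‖χ u‖ = 1` for units. `R_inv`: `χ(u⁻¹) = conj (χ u)`.
`sum_f`: `‖R u‖² = ∑_{χ,ψ} χ(u) conj(ψ(u)) = ∑_{χ,ψ} (χ ψ⁻¹)(u)`, and `∑_u η(u) = 0` for `η ≠ 1`,
`= card` of the units for `η = 1` (`MulChar.sum_eq_zero_of_ne_one` is for the sum over `ZMod q`; the
non-units contribute `0`). `sum_f_sq`: `‖R u‖⁴ = |R(u)²|² = ∑ χ₁χ₂ conj(χ₃χ₄)(u)`.
`sum_R_mul`: `∑_v R(v u⁻¹) R(w v⁻¹) = card · R(w u⁻¹)`.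
-/

set_option autoImplicit false

namespace Pool.Agent.Helper88.LV

open Finset

variable {q : ℕ} [NeZero q] (W : Finset (DirichletCharacter ℂ q))

theorem norm_R_le (u : (ZMod q)ˣ) : ‖R W u‖ ≤ W.card := by
  unfold R
  refine (norm_sum_le _ _).trans ?_
  refine (Finset.sum_le_sum (fun χ _ => (DirichletCharacter.unit_norm_eq_one χ u).le)).trans ?_
  simp

omit [NeZero q] in
private lemma char_inv31 (χ : DirichletCharacter ℂ q) (u : (ZMod q)ˣ) :
    χ ((u⁻¹ : (ZMod q)ˣ) : ZMod q) = (χ (u : ZMod q))⁻¹ := by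
  have h : χ (u : ZMod q) * χ ((u⁻¹ : (ZMod q)ˣ) : ZMod q) = 1 := by
    rw [← map_mul, Units.mul_inv, map_one]
  exact eq_inv_of_mul_eq_one_right h

private lemma char_conj31 (χ : DirichletCharacter ℂ q) (u : (ZMod q)ˣ) :
    (starRingEnd ℂ) (χ (u : ZMod q)) = (χ (u : ZMod q))⁻¹ :=
  (Complex.inv_eq_conj (DirichletCharacter.unit_norm_eq_one χ u)).symm

private lemma inv_char31 (χ : DirichletCharacter ℂ q) (u : (ZMod q)ˣ) :
    (χ⁻¹ : DirichletCharacter ℂ q) (u : ZMod q) = (χ (u : ZMod q))⁻¹ := by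
  rw [MulChar.inv_apply_eq_inv', ]

theorem R_inv (u : (ZMod q)ˣ) : R W u⁻¹ = (starRingEnd ℂ) (R W u) := by
  unfold R
  rw [map_sum]
  refine Finset.sum_congr rfl fun χ _ => ?_
  rw [char_conj31, char_inv31]

theorem f_le (u : (ZMod q)ˣ) : f W u ≤ (W.card : ℝ) ^ 2 := by
  unfold f
  exact pow_le_pow_left₀ (norm_nonneg _) (norm_R_le W u) 2

theorem sum_char (χ : DirichletCharacter ℂ q) :
    (∑ u : (ZMod q)ˣ, χ (u : ZMod q)) = if χ = 1 then (Fintype.card (ZMod q)ˣ : ℂ) else 0 := by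
  split_ifs with h
  · subst h
    simp [MulChar.one_apply_coe]
  · obtain ⟨a, ha⟩ := MulChar.ne_one_iff.mp h
    have h1 : χ (a : ZMod q) * ∑ u : (ZMod q)ˣ, χ (u : ZMod q) =
        ∑ u : (ZMod q)ˣ, χ (u : ZMod q) := by
      rw [Finset.mul_sum]
      refine Fintype.sum_equiv (Equiv.mulLeft a) _ _ fun u => ?_
      simp
    have h2 : (χ (a : ZMod q) - 1) * ∑ u : (ZMod q)ˣ, χ (u : ZMod q) = 0 := by
      rw [sub_mul, one_mul, h1, sub_self]
    rcases mul_eq_zero.mp h2 with h3 | h3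
    · exact absurd (sub_eq_zero.mp h3) ha
    · exact h3

private lemma f_eq31 (u : (ZMod q)ˣ) : (f W u : ℂ) = R W u * R W u⁻¹ := by
  unfold f
  rw [R_inv, Complex.mul_conj, Complex.normSq_eq_norm_sq]

theorem sum_f : ∑ u : (ZMod q)ˣ, f W u = (Fintype.card (ZMod q)ˣ : ℝ) * W.card := by
  classical
  have h : ((∑ u : (ZMod q)ˣ, f W u : ℝ) : ℂ) =
      (Fintype.card (ZMod q)ˣ : ℂ) * W.card := by
    rw [Complex.ofReal_sum]
    have h1 : ∀ u : (ZMod q)ˣ, (f W u : ℂ) =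
        ∑ χ ∈ W, ∑ ψ ∈ W, (χ * ψ⁻¹ : DirichletCharacter ℂ q) (u : ZMod q) := by
      intro u
      rw [f_eq31]
      unfold R
      rw [Finset.sum_mul_sum]
      refine Finset.sum_congr rfl fun χ _ => Finset.sum_congr rfl fun ψ _ => ?_
      rw [MulChar.mul_apply, inv_char31, char_inv31]
    simp only [h1]
    rw [Finset.sum_comm]
    have h2 : ∀ χ ∈ W, (∑ u : (ZMod q)ˣ, ∑ ψ ∈ W,
        (χ * ψ⁻¹ : DirichletCharacter ℂ q) (u : ZMod q)) = (Fintype.card (ZMod q)ˣ : ℂ) := by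
      intro χ hχ
      rw [Finset.sum_comm]
      simp only [sum_char]
      rw [Finset.sum_eq_single χ]
      · rw [if_pos (mul_inv_cancel χ)]
      · intro ψ _ hne
        rw [if_neg]
        intro h3
        exact hne (mul_inv_eq_one.mp h3).symm
      · exact fun h3 => absurd hχ h3
    rw [Finset.sum_congr rfl h2, Finset.sum_const, nsmul_eq_mul, mul_comm]
  exact_mod_cast h

theorem sum_f_sq : ∑ u : (ZMod q)ˣ, f W u ^ 2 = (Fintype.card (ZMod q)ˣ : ℝ) * En W := by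
  classical
  have h : ((∑ u : (ZMod q)ˣ, f W u ^ 2 : ℝ) : ℂ) =
      (Fintype.card (ZMod q)ˣ : ℂ) * En W := by
    rw [Complex.ofReal_sum]
    have h1 : ∀ u : (ZMod q)ˣ, ((f W u ^ 2 : ℝ) : ℂ) =
        ∑ p ∈ (W ×ˢ W) ×ˢ (W ×ˢ W),
          (p.1.1 * p.1.2 * (p.2.1 * p.2.2)⁻¹ : DirichletCharacter ℂ q) (u : ZMod q) := by
      intro u
      rw [Complex.ofReal_pow, f_eq31, mul_pow]
      unfold R
      rw [sq, sq, Finset.sum_mul_sum, Finset.sum_mul_sum, ← Finset.sum_product',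
        ← Finset.sum_product', Finset.sum_mul_sum, ← Finset.sum_product']
      refine Finset.sum_congr rfl fun p _ => ?_
      rw [MulChar.mul_apply, MulChar.mul_apply, inv_char31, MulChar.mul_apply, char_inv31,
        char_inv31, mul_inv]
    simp only [h1]
    rw [Finset.sum_comm]
    simp only [sum_char]
    rw [← Finset.sum_filter, Finset.sum_const, nsmul_eq_mul, mul_comm]
    congr 2
    unfold En
    congr 1
    ext p
    simp only [Finset.mem_filter, mul_inv_eq_one]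
  exact_mod_cast h

theorem sum_R_mul (u w : (ZMod q)ˣ) :
    ∑ v : (ZMod q)ˣ, R W (v * u⁻¹) * R W (w * v⁻¹) =
      (Fintype.card (ZMod q)ˣ : ℂ) * R W (w * u⁻¹) := by
  classical
  have h1 : ∀ v : (ZMod q)ˣ, R W (v * u⁻¹) * R W (w * v⁻¹) =
      ∑ χ ∈ W, ∑ ψ ∈ W, (χ ((u⁻¹ : (ZMod q)ˣ) : ZMod q) * ψ (w : ZMod q)) *
        (χ * ψ⁻¹ : DirichletCharacter ℂ q) (v : ZMod q) := by
    intro v
    unfold R
    rw [Finset.sum_mul_sum]
    refine Finset.sum_congr rfl fun χ _ => Finset.sum_congr rfl fun ψ _ => ?_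
    rw [MulChar.mul_apply, inv_char31, Units.val_mul, Units.val_mul, map_mul, map_mul,
      char_inv31 ψ v]
    ring
  simp only [h1]
  rw [Finset.sum_comm]
  have h2 : ∀ χ ∈ W, (∑ v : (ZMod q)ˣ, ∑ ψ ∈ W,
      (χ ((u⁻¹ : (ZMod q)ˣ) : ZMod q) * ψ (w : ZMod q)) *
        (χ * ψ⁻¹ : DirichletCharacter ℂ q) (v : ZMod q)) =
      (Fintype.card (ZMod q)ˣ : ℂ) * χ ((w * u⁻¹ : (ZMod q)ˣ) : ZMod q) := by
    intro χ hχ
    rw [Finset.sum_comm]
    simp only [← Finset.mul_sum, sum_char]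
    rw [Finset.sum_eq_single χ]
    · rw [if_pos (mul_inv_cancel χ), Units.val_mul, map_mul]
      ring
    · intro ψ _ hne
      rw [if_neg, mul_zero]
      intro h3
      exact hne (mul_inv_eq_one.mp h3).symm
    · exact fun h3 => absurd hχ h3
  rw [Finset.sum_congr rfl h2, ← Finset.mul_sum]
  rfl

theorem card_units_le : (Fintype.card (ZMod q)ˣ : ℝ) ≤ q := by
  rw [ZMod.card_units_eq_totient]
  exact_mod_cast Nat.totient_le q

/-- The energy is at least the number of the trivial solutions. -/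
theorem sq_le_En : W.card ^ 2 ≤ En W := by
  classical
  unfold En
  rw [sq, ← Finset.card_product]
  refine Finset.card_le_card_of_injOn (fun p => (p, p)) ?_ ?_
  · intro p hp
    simp only [Finset.coe_filter, Finset.mem_product, Set.mem_ofPred_eq]
    have h := Finset.mem_product.mp hp
    exact ⟨⟨h, h⟩, trivial⟩
  · intro a _ b _ h
    exact (Prod.mk.inj h).1

end Pool.Agent.Helper88.LV
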