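import Pool.Agent.Helper88.LV.Defs
import Pool.Agent.Helper88.LV.Orth

/-!
# LV-6a: Ramanujan sums, averaging over the units

PROOF. `ram`: `∑_{λ unit} e(λ k/q) = ∑_{x mod q} e(x k/q) ∑_{e ∣ gcd(x,q)} μ(e) = ∑_{e ∣ q} μ(e) ∑_{x = e x'} e(e x' k/q)
= ∑_{e ∣ q} μ(e) (q/e) [q/e ∣ k]`, so the norm is at most `∑_{d ∣ q, d ∣ k} d` (`d = q/e`).
(`(k.val : ZMod d) = 0` is `d ∣ k.val`.)
`T3_le_sum`: expand the three `kap`s. For fixed `a, b, c ∈ A J` let
`S = ∑_{u,v,w} e((a u + b v + c w)/q) F(u,v,w)`, `F = R(u w⁻¹) R(v u⁻¹) R(w v⁻¹)`. Replacing `(u,v,w)` by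
`(λ u, λ v, λ w)` does not change `F`, so `φ S = ∑_{u,v,w} F ∑_λ e(λ (a u + b v + c w)/q)` and
`φ ‖S‖ ≤ ∑_{u,v,w} ‖F‖ ∑_{d ∣ q} d [d ∣ a u + b v + c w]`. Put `u = y w`, `v = z w`: `d ∣ w (a y + b z + c)` iff
`d ∣ a y + b z + c`, `‖F‖ = ‖R y‖ ‖R (z y⁻¹)‖ ‖R z‖` (`‖R z⁻¹‖ = ‖R z‖`), and `w` gives the factor `φ`.
`T2_le_sum`: the same with two variables.
-/

set_option autoImplicit false

namespace Pool.Agent.Helper88.LV

open Finset

variable {q : ℕ} [NeZero q]

private lemma red_cast_5 (d : ℕ) (hd : d ∣ q) (y : (ZMod q)ˣ) :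
    red d y = ZMod.castHom hd (ZMod d) (y : ZMod q) := by
  unfold red
  rw [ZMod.natCast_val, ZMod.castHom_apply]

private lemma val_cast_5 (d : ℕ) (hd : d ∣ q) (x : ZMod q) :
    ((x.val : ℕ) : ZMod d) = ZMod.castHom hd (ZMod d) x := by
  rw [ZMod.natCast_val, ZMod.castHom_apply]

/-- the sum over the multiples of `e` -/
private lemma sub_sum_5 (e : ℕ) (he : e ∣ q) (k : ZMod q) :
    ‖∑ x : ZMod q, (if e ∣ x.val then (ZMod.stdAddChar (x * k) : ℂ) else 0)‖ ≤
      (if ((k.val : ℕ) : ZMod (q / e)) = 0 then ((q / e : ℕ) : ℝ) else 0) := by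
  classical
  have hq0 : q ≠ 0 := NeZero.ne q
  have he0 : e ≠ 0 := fun h => hq0 (Nat.eq_zero_of_zero_dvd (h ▸ he))
  have hdiv : ∀ x : ZMod q, e ∣ x.val ↔ ZMod.castHom he (ZMod e) x = 0 := by
    intro x
    rw [← val_cast_5 e he x, ZMod.natCast_eq_zero_iff]
  split_ifs with hk
  · -- trivial bound
    rw [← Finset.sum_filter]
    refine (norm_sum_le_of_le (f := fun x : ZMod q => (ZMod.stdAddChar (x * k) : ℂ)) _
      (n := fun _ => (1 : ℝ)) ?_).trans ?_
    · intro x _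
      exact (AddChar.norm_apply _ _).le
    · rw [Finset.sum_const, nsmul_eq_mul, mul_one]
      have hcard : (univ.filter fun x : ZMod q => e ∣ x.val).card ≤ (range (q / e)).card := by
        apply Finset.card_le_card_of_injOn (fun x : ZMod q => x.val / e)
        · intro x hx
          rw [Finset.mem_coe, mem_filter] at hx
          rw [Finset.mem_coe, mem_range]
          obtain ⟨m, hm⟩ := hx.2
          have h1 := ZMod.val_lt x
          rw [hm] at h1
          simp only [hm]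
          rw [Nat.mul_div_cancel_left _ (Nat.pos_of_ne_zero he0)]
          rw [Nat.lt_div_iff_mul_lt' he]
          exact h1
        · intro x hx y hy hxy
          rw [Finset.mem_coe, mem_filter] at hx hy
          obtain ⟨m, hm⟩ := hx.2
          obtain ⟨n, hn⟩ := hy.2
          simp only [hm, hn] at hxy
          rw [Nat.mul_div_cancel_left _ (Nat.pos_of_ne_zero he0),
            Nat.mul_div_cancel_left _ (Nat.pos_of_ne_zero he0)] at hxy
          apply ZMod.val_injective q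
          rw [hm, hn, hxy]
      rw [card_range] at hcard
      exact_mod_cast hcard
  · -- vanishing
    have hne : (ZMod.stdAddChar ((e : ZMod q) * k) : ℂ) ≠ 1 := by
      intro h1
      have h2 : (e : ZMod q) * k = 0 := by
        apply ZMod.injective_stdAddChar (N := q)
        rw [h1, AddChar.map_zero_eq_one]
      apply hk
      have h3 : ((e * k.val : ℕ) : ZMod q) = 0 := by
        push_cast
        rw [ZMod.natCast_zmod_val]
        exact h2
      rw [ZMod.natCast_eq_zero_iff] at h3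
      rw [ZMod.natCast_eq_zero_iff]
      obtain ⟨m, hm⟩ := h3
      obtain ⟨n, hn⟩ := he
      have h4 : q / e = n := Nat.div_eq_of_eq_mul_right (Nat.pos_of_ne_zero he0) hn
      rw [h4]
      refine ⟨m, Nat.eq_of_mul_eq_mul_left (Nat.pos_of_ne_zero he0) ?_⟩
      rw [hm]
      calc q * m = (e * n) * m := by rw [← hn]
        _ = e * (n * m) := by ring
    have hinv : ∑ x : ZMod q, (if e ∣ x.val then (ZMod.stdAddChar (x * k) : ℂ) else 0) =
        (ZMod.stdAddChar ((e : ZMod q) * k) : ℂ) *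
          ∑ x : ZMod q, (if e ∣ x.val then (ZMod.stdAddChar (x * k) : ℂ) else 0) := by
      rw [Finset.mul_sum]
      rw [← Equiv.sum_comp (Equiv.addLeft (e : ZMod q))
        (fun x : ZMod q => if e ∣ x.val then (ZMod.stdAddChar (x * k) : ℂ) else 0)]
      refine Finset.sum_congr rfl fun x _ => ?_
      rw [Equiv.coe_addLeft]
      have h1 : (e ∣ ((e : ZMod q) + x).val) ↔ e ∣ x.val := by
        rw [hdiv, hdiv, map_add, map_natCast, ZMod.natCast_self, zero_add]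
      simp only [h1]
      rw [add_mul, AddChar.map_add_eq_mul]
      split_ifs <;> simp
    have h0 : ∑ x : ZMod q, (if e ∣ x.val then (ZMod.stdAddChar (x * k) : ℂ) else 0) = 0 := by
      have h1 : (1 - (ZMod.stdAddChar ((e : ZMod q) * k) : ℂ)) *
          ∑ x : ZMod q, (if e ∣ x.val then (ZMod.stdAddChar (x * k) : ℂ) else 0) = 0 := by
        rw [sub_mul, one_mul, ← hinv, sub_self]
      rcases mul_eq_zero.1 h1 with h | h
      · exact absurd (sub_eq_zero.1 h).symm hne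
      · exact h
    rw [h0, norm_zero]

theorem ram (k : ZMod q) :
    ‖∑ l : (ZMod q)ˣ, ZMod.stdAddChar ((l : ZMod q) * k)‖ ≤
      ∑ d ∈ q.divisors, (if ((k.val : ℕ) : ZMod d) = 0 then (d : ℝ) else 0) := by
  classical
  have hq0 : q ≠ 0 := NeZero.ne q
  have h1 : (∑ l : (ZMod q)ˣ, (ZMod.stdAddChar ((l : ZMod q) * k) : ℂ)) =
      ∑ x : ZMod q, (if IsUnit x then (ZMod.stdAddChar (x * k) : ℂ) else 0) := by
    rw [← Finset.sum_filter]
    symm
    refine Finset.sum_bij' (fun x hx => (mem_filter.1 hx).2.unit) (fun u _ => (u : ZMod q)) ?_ ?_ ?_ ?_ ?_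
    · intro x hx
      exact mem_univ _
    · intro u _
      rw [mem_filter]
      exact ⟨mem_univ _, u.isUnit⟩
    · intro x hx
      rfl
    · intro u _
      ext
      rfl
    · intro x hx
      rfl
  have h2 : ∀ x : ZMod q, (if IsUnit x then (1 : ℂ) else 0) =
      ∑ e ∈ q.divisors, (if e ∣ x.val then ((ArithmeticFunction.moebius e : ℤ) : ℂ) else 0) := by
    intro x
    have e1 : q.divisors.filter (fun e => e ∣ x.val) = (Nat.gcd x.val q).divisors := by
      ext e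
      rw [mem_filter, Nat.mem_divisors, Nat.mem_divisors, Nat.dvd_gcd_iff]
      constructor
      · rintro ⟨⟨h3, _⟩, h4⟩
        exact ⟨⟨h4, h3⟩, Nat.gcd_ne_zero_right hq0⟩
      · rintro ⟨⟨h3, h4⟩, _⟩
        exact ⟨⟨h4, hq0⟩, h3⟩
    rw [← Finset.sum_filter, e1]
    have e2 : IsUnit x ↔ Nat.gcd x.val q = 1 := by
      have := ZMod.isUnit_iff_coprime x.val q
      rw [ZMod.natCast_zmod_val] at this
      rw [this]
    have e3 : ∑ e ∈ (Nat.gcd x.val q).divisors, ((ArithmeticFunction.moebius e : ℤ) : ℂ) =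
        if Nat.gcd x.val q = 1 then 1 else 0 := by
      have h3 := ArithmeticFunction.coe_mul_zeta_apply (f := ArithmeticFunction.moebius)
        (x := Nat.gcd x.val q)
      rw [ArithmeticFunction.moebius_mul_coe_zeta, ArithmeticFunction.one_apply] at h3
      have h4 := congrArg (fun z : ℤ => (z : ℂ)) h3
      push_cast at h4
      exact h4.symm
    rw [e3]
    simp only [e2]
  have h3 : (∑ l : (ZMod q)ˣ, (ZMod.stdAddChar ((l : ZMod q) * k) : ℂ)) =
      ∑ e ∈ q.divisors, ((ArithmeticFunction.moebius e : ℤ) : ℂ) *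
        ∑ x : ZMod q, (if e ∣ x.val then (ZMod.stdAddChar (x * k) : ℂ) else 0) := by
    rw [h1]
    have h4 : ∀ x : ZMod q, (if IsUnit x then (ZMod.stdAddChar (x * k) : ℂ) else 0) =
        ∑ e ∈ q.divisors, ((ArithmeticFunction.moebius e : ℤ) : ℂ) *
          (if e ∣ x.val then (ZMod.stdAddChar (x * k) : ℂ) else 0) := by
      intro x
      have h5 : (if IsUnit x then (ZMod.stdAddChar (x * k) : ℂ) else 0) =
          (if IsUnit x then (1 : ℂ) else 0) * (ZMod.stdAddChar (x * k) : ℂ) := by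
        split_ifs <;> simp
      rw [h5, h2, Finset.sum_mul]
      refine Finset.sum_congr rfl fun e _ => ?_
      split_ifs <;> simp
    rw [Finset.sum_congr rfl fun x _ => h4 x, Finset.sum_comm]
    refine Finset.sum_congr rfl fun e _ => ?_
    rw [Finset.mul_sum]
  rw [h3]
  rw [← Nat.sum_div_divisors q (fun d => if ((k.val : ℕ) : ZMod d) = 0 then (d : ℝ) else 0)]
  refine norm_sum_le_of_le _ fun e he => ?_
  have he' : e ∣ q := (Nat.mem_divisors.1 he).1
  rw [norm_mul]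
  have h5 : ‖((ArithmeticFunction.moebius e : ℤ) : ℂ)‖ ≤ 1 := by
    rw [Complex.norm_intCast]
    exact_mod_cast ArithmeticFunction.abs_moebius_le_one
  calc _ ≤ 1 * (if ((k.val : ℕ) : ZMod (q / e)) = 0 then ((q / e : ℕ) : ℝ) else 0) :=
        mul_le_mul h5 (sub_sum_5 e he' k) (norm_nonneg _) zero_le_one
    _ = _ := one_mul _

private lemma ram_red_5 (x : ZMod q) :
    ‖∑ l : (ZMod q)ˣ, ZMod.stdAddChar ((l : ZMod q) * x)‖ ≤
      ∑ d ∈ q.divisors.attach, (if ZMod.castHom (Nat.mem_divisors.1 d.2).1 (ZMod d) x = 0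
        then ((d : ℕ) : ℝ) else 0) := by
  classical
  refine (ram x).trans (le_of_eq ?_)
  rw [← Finset.sum_attach]
  refine Finset.sum_congr rfl fun d _ => ?_
  rw [val_cast_5 d (Nat.mem_divisors.1 d.2).1]

private lemma lin3_5 (a b c : ℤ) (u v w : (ZMod q)ˣ) (d : ℕ) (hd : d ∣ q) :
    ZMod.castHom hd (ZMod d) ((a : ZMod q) * u + (b : ZMod q) * v + (c : ZMod q) * w) =
      (a : ZMod d) * red d u + (b : ZMod d) * red d v + (c : ZMod d) * red d w := by
  rw [red_cast_5 d hd, red_cast_5 d hd, red_cast_5 d hd, map_add, map_add, map_mul, map_mul, map_mul,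
    map_intCast, map_intCast, map_intCast]

private lemma kap3_5 (κ : ℤ → ℂ) (J : ℕ) (hJ : 1 ≤ J) (hκ : ∀ m ∈ A J, ‖κ m‖ ≤ 1 / J)
    (u v w : (ZMod q)ˣ) :
    ‖∑ l : (ZMod q)ˣ, kap κ J (l * u) * kap κ J (l * v) * kap κ J (l * w)‖ ≤
      1 / (J : ℝ) ^ 3 * ∑ a ∈ A J, ∑ b ∈ A J, ∑ c ∈ A J, ∑ d ∈ q.divisors,
        (if (a : ZMod d) * red d u + (b : ZMod d) * red d v + (c : ZMod d) * red d w = 0
          then (d : ℝ) else 0) := by
  classical
  have hJ0 : (0 : ℝ) < J := by exact_mod_cast hJ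
  have h1 : ∀ l : (ZMod q)ˣ, kap κ J (l * u) * kap κ J (l * v) * kap κ J (l * w) =
      ∑ a ∈ A J, ∑ b ∈ A J, ∑ c ∈ A J, (κ a * κ b * κ c) *
        (ZMod.stdAddChar ((l : ZMod q) * ((a : ZMod q) * (u : ZMod q) + (b : ZMod q) * (v : ZMod q) +
          (c : ZMod q) * (w : ZMod q))) : ℂ) := by
    intro l
    unfold kap
    rw [Finset.sum_mul_sum, Finset.sum_mul]
    refine Finset.sum_congr rfl fun a _ => ?_
    rw [Finset.sum_mul]
    refine Finset.sum_congr rfl fun b _ => ?_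
    rw [Finset.mul_sum]
    refine Finset.sum_congr rfl fun c _ => ?_
    have h2 : (l : ZMod q) * ((a : ZMod q) * (u : ZMod q) + (b : ZMod q) * (v : ZMod q) +
          (c : ZMod q) * (w : ZMod q)) =
        (a : ZMod q) * Units.val (l * u) + (b : ZMod q) * Units.val (l * v) +
          (c : ZMod q) * Units.val (l * w) := by
      push_cast
      ring
    rw [h2, AddChar.map_add_eq_mul, AddChar.map_add_eq_mul]
    ring
  rw [Finset.sum_congr rfl fun l _ => h1 l]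
  rw [Finset.sum_comm, Finset.mul_sum]
  refine norm_sum_le_of_le _ fun a ha => ?_
  rw [Finset.sum_comm, Finset.mul_sum]
  refine norm_sum_le_of_le _ fun b hb => ?_
  rw [Finset.sum_comm, Finset.mul_sum]
  refine norm_sum_le_of_le _ fun c hc => ?_
  rw [← Finset.mul_sum, norm_mul, norm_mul, norm_mul]
  refine mul_le_mul ?_ ?_ (norm_nonneg _) (by positivity)
  · have h3 := hκ a ha
    have h4 := hκ b hb
    have h5 := hκ c hc
    calc ‖κ a‖ * ‖κ b‖ * ‖κ c‖ ≤ (1 / J) * (1 / J) * (1 / J) := by gcongr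
      _ = 1 / (J : ℝ) ^ 3 := by
          field_simp
  · refine (ram_red_5 _).trans (le_of_eq ?_)
    rw [← Finset.sum_attach q.divisors]
    refine Finset.sum_congr rfl fun d _ => ?_
    rw [lin3_5]

private lemma lin2_5 (a c : ℤ) (u w : (ZMod q)ˣ) (d : ℕ) (hd : d ∣ q) :
    ZMod.castHom hd (ZMod d) ((a : ZMod q) * u + (c : ZMod q) * w) =
      (a : ZMod d) * red d u + (c : ZMod d) * red d w := by
  rw [red_cast_5 d hd, red_cast_5 d hd, map_add, map_mul, map_mul,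
    map_intCast, map_intCast]

private lemma kap2_5 (κ : ℤ → ℂ) (J : ℕ) (hJ : 1 ≤ J) (hκ : ∀ m ∈ A J, ‖κ m‖ ≤ 1 / J)
    (u w : (ZMod q)ˣ) :
    ‖∑ l : (ZMod q)ˣ, kap κ J (l * u) * kap κ J (l * w)‖ ≤
      1 / (J : ℝ) ^ 2 * ∑ a ∈ A J, ∑ c ∈ A J, ∑ d ∈ q.divisors,
        (if (a : ZMod d) * red d u + (c : ZMod d) * red d w = 0
          then (d : ℝ) else 0) := by
  classical
  have hJ0 : (0 : ℝ) < J := by exact_mod_cast hJ
  have h1 : ∀ l : (ZMod q)ˣ, kap κ J (l * u) * kap κ J (l * w) =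
      ∑ a ∈ A J, ∑ c ∈ A J, (κ a * κ c) *
        (ZMod.stdAddChar ((l : ZMod q) * ((a : ZMod q) * (u : ZMod q) +
          (c : ZMod q) * (w : ZMod q))) : ℂ) := by
    intro l
    unfold kap
    rw [Finset.sum_mul_sum]
    refine Finset.sum_congr rfl fun a _ => ?_
    refine Finset.sum_congr rfl fun c _ => ?_
    have h2 : (l : ZMod q) * ((a : ZMod q) * (u : ZMod q) + (c : ZMod q) * (w : ZMod q)) =
        (a : ZMod q) * Units.val (l * u) + (c : ZMod q) * Units.val (l * w) := by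
      push_cast
      ring
    rw [h2, AddChar.map_add_eq_mul]
    ring
  rw [Finset.sum_congr rfl fun l _ => h1 l]
  rw [Finset.sum_comm, Finset.mul_sum]
  refine norm_sum_le_of_le _ fun a ha => ?_
  rw [Finset.sum_comm, Finset.mul_sum]
  refine norm_sum_le_of_le _ fun c hc => ?_
  rw [← Finset.mul_sum, norm_mul, norm_mul]
  refine mul_le_mul ?_ ?_ (norm_nonneg _) (by positivity)
  · have h3 := hκ a ha
    have h5 := hκ c hc
    calc ‖κ a‖ * ‖κ c‖ ≤ (1 / J) * (1 / J) := by gcongr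
      _ = 1 / (J : ℝ) ^ 2 := by
          field_simp
  · refine (ram_red_5 _).trans (le_of_eq ?_)
    rw [← Finset.sum_attach q.divisors]
    refine Finset.sum_congr rfl fun d _ => ?_
    rw [lin2_5]

private lemma norm_R_inv_5 (W : Finset (DirichletCharacter ℂ q)) (z : (ZMod q)ˣ) :
    ‖R W z⁻¹‖ = ‖R W z‖ := by
  rw [R_inv, Complex.norm_conj]

private lemma swapA_5 {ι : Type*} (U : Finset ι) (S : Finset ℤ) (g : ι → ℤ → ℤ → ℤ → ℝ) :
    ∑ u ∈ U, ∑ a ∈ S, ∑ b ∈ S, ∑ c ∈ S, g u a b c = ∑ a ∈ S, ∑ b ∈ S, ∑ c ∈ S, ∑ u ∈ U, g u a b c := by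
  rw [Finset.sum_comm]
  refine Finset.sum_congr rfl fun a _ => ?_
  rw [Finset.sum_comm]
  refine Finset.sum_congr rfl fun b _ => ?_
  rw [Finset.sum_comm]

private lemma swapB_5 {ι : Type*} (U : Finset ι) (S : Finset ℤ) (g : ι → ℤ → ℤ → ℝ) :
    ∑ u ∈ U, ∑ a ∈ S, ∑ b ∈ S, g u a b = ∑ a ∈ S, ∑ b ∈ S, ∑ u ∈ U, g u a b := by
  rw [Finset.sum_comm]
  refine Finset.sum_congr rfl fun a _ => ?_
  rw [Finset.sum_comm]

theorem T3_le_sum (W : Finset (DirichletCharacter ℂ q)) (κ : ℤ → ℂ) (J : ℕ) (hJ : 1 ≤ J)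
    (hκ : ∀ m ∈ A J, ‖κ m‖ ≤ 1 / J) :
    ‖T3 W κ J‖ ≤ 1 / (J : ℝ) ^ 3 * ∑ d ∈ q.divisors, (d : ℝ) *
      ∑ a ∈ A J, ∑ b ∈ A J, ∑ c ∈ A J, ∑ y : (ZMod q)ˣ, ∑ z : (ZMod q)ˣ,
        (if (a : ZMod d) * red d y + (b : ZMod d) * red d z + (c : ZMod d) = 0
          then ‖R W y‖ * ‖R W z‖ * ‖R W (z * y⁻¹)‖ else 0) := by
  classical
  set φ : ℝ := (Fintype.card (ZMod q)ˣ : ℝ) with hφ
  have hφ0 : 0 < φ := by
    rw [hφ]
    exact_mod_cast Fintype.card_pos
  set Q : ℝ := ∑ y : (ZMod q)ˣ, ∑ z : (ZMod q)ˣ, (‖R W y‖ * ‖R W z‖ * ‖R W (z * y⁻¹)‖) *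
    (1 / (J : ℝ) ^ 3 * ∑ a ∈ A J, ∑ b ∈ A J, ∑ c ∈ A J, ∑ d ∈ q.divisors,
        (if (a : ZMod d) * red d y + (b : ZMod d) * red d z + (c : ZMod d) = 0
          then (d : ℝ) else 0)) with hQ
  -- averaging
  have hA : (φ : ℂ) * T3 W κ J = ∑ u : (ZMod q)ˣ, ∑ v : (ZMod q)ˣ, ∑ w : (ZMod q)ˣ,
      (∑ l : (ZMod q)ˣ, kap κ J (l * u) * kap κ J (l * v) * kap κ J (l * w)) *
        (R W (u * w⁻¹) * R W (v * u⁻¹) * R W (w * v⁻¹)) := by
    have h1 : ∀ l : (ZMod q)ˣ, T3 W κ J = ∑ u : (ZMod q)ˣ, ∑ v : (ZMod q)ˣ, ∑ w : (ZMod q)ˣ,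
        kap κ J (l * u) * kap κ J (l * v) * kap κ J (l * w) *
          (R W (u * w⁻¹) * R W (v * u⁻¹) * R W (w * v⁻¹)) := by
      intro l
      unfold T3
      rw [← Equiv.sum_comp (Equiv.mulLeft l)]
      refine Finset.sum_congr rfl fun u _ => ?_
      rw [← Equiv.sum_comp (Equiv.mulLeft l)]
      refine Finset.sum_congr rfl fun v _ => ?_
      rw [← Equiv.sum_comp (Equiv.mulLeft l)]
      refine Finset.sum_congr rfl fun w _ => ?_
      simp only [Equiv.coe_mulLeft]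
      have e1 : l * u * (l * w)⁻¹ = u * w⁻¹ := by
        rw [mul_inv]
        calc l * u * (l⁻¹ * w⁻¹) = (l * l⁻¹) * (u * w⁻¹) := by
              rw [mul_mul_mul_comm]
          _ = u * w⁻¹ := by rw [mul_inv_cancel, one_mul]
      have e2 : l * v * (l * u)⁻¹ = v * u⁻¹ := by
        rw [mul_inv]
        calc l * v * (l⁻¹ * u⁻¹) = (l * l⁻¹) * (v * u⁻¹) := by
              rw [mul_mul_mul_comm]
          _ = v * u⁻¹ := by rw [mul_inv_cancel, one_mul]
      have e3 : l * w * (l * v)⁻¹ = w * v⁻¹ := by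
        rw [mul_inv]
        calc l * w * (l⁻¹ * v⁻¹) = (l * l⁻¹) * (w * v⁻¹) := by
              rw [mul_mul_mul_comm]
          _ = w * v⁻¹ := by rw [mul_inv_cancel, one_mul]
      rw [e1, e2, e3]
    have h2 : (φ : ℂ) * T3 W κ J = ∑ l : (ZMod q)ˣ, T3 W κ J := by
      rw [Finset.sum_const, Finset.card_univ, nsmul_eq_mul, hφ]
      push_cast
      rfl
    rw [h2, Finset.sum_congr rfl fun l _ => h1 l, Finset.sum_comm]
    refine Finset.sum_congr rfl fun u _ => ?_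
    rw [Finset.sum_comm]
    refine Finset.sum_congr rfl fun v _ => ?_
    rw [Finset.sum_comm]
    refine Finset.sum_congr rfl fun w _ => ?_
    rw [Finset.sum_mul]
  -- the bound
  have hB : φ * ‖T3 W κ J‖ ≤ ∑ w : (ZMod q)ˣ, ∑ u : (ZMod q)ˣ, ∑ v : (ZMod q)ˣ,
      (‖R W (u * w⁻¹)‖ * ‖R W (v * u⁻¹)‖ * ‖R W (w * v⁻¹)‖) *
      (1 / (J : ℝ) ^ 3 * ∑ a ∈ A J, ∑ b ∈ A J, ∑ c ∈ A J, ∑ d ∈ q.divisors,
        (if (a : ZMod d) * red d u + (b : ZMod d) * red d v + (c : ZMod d) * red d w = 0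
          then (d : ℝ) else 0)) := by
    have h1 : φ * ‖T3 W κ J‖ = ‖(φ : ℂ) * T3 W κ J‖ := by
      rw [norm_mul, Complex.norm_real, Real.norm_eq_abs, abs_of_pos hφ0]
    rw [h1, hA]
    have h2 : (∑ u : (ZMod q)ˣ, ∑ v : (ZMod q)ˣ, ∑ w : (ZMod q)ˣ,
      (∑ l : (ZMod q)ˣ, kap κ J (l * u) * kap κ J (l * v) * kap κ J (l * w)) *
        (R W (u * w⁻¹) * R W (v * u⁻¹) * R W (w * v⁻¹))) =
      ∑ w : (ZMod q)ˣ, ∑ u : (ZMod q)ˣ, ∑ v : (ZMod q)ˣ,
      (∑ l : (ZMod q)ˣ, kap κ J (l * u) * kap κ J (l * v) * kap κ J (l * w)) *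
        (R W (u * w⁻¹) * R W (v * u⁻¹) * R W (w * v⁻¹)) := by
      rw [Finset.sum_congr rfl fun u _ => Finset.sum_comm, Finset.sum_comm]
    rw [h2]
    refine norm_sum_le_of_le _ fun w _ => norm_sum_le_of_le _ fun u _ =>
      norm_sum_le_of_le _ fun v _ => ?_
    rw [norm_mul, norm_mul, norm_mul, mul_comm]
    exact mul_le_mul_of_nonneg_left (kap3_5 κ J hJ hκ u v w) (by positivity)
  -- substitution
  have hC : ∀ w : (ZMod q)ˣ, ∑ u : (ZMod q)ˣ, ∑ v : (ZMod q)ˣ,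
      (‖R W (u * w⁻¹)‖ * ‖R W (v * u⁻¹)‖ * ‖R W (w * v⁻¹)‖) *
      (1 / (J : ℝ) ^ 3 * ∑ a ∈ A J, ∑ b ∈ A J, ∑ c ∈ A J, ∑ d ∈ q.divisors,
        (if (a : ZMod d) * red d u + (b : ZMod d) * red d v + (c : ZMod d) * red d w = 0
          then (d : ℝ) else 0)) = Q := by
    intro w
    rw [hQ, ← Equiv.sum_comp (Equiv.mulRight w)]
    refine Finset.sum_congr rfl fun y _ => ?_
    rw [← Equiv.sum_comp (Equiv.mulRight w)]
    refine Finset.sum_congr rfl fun z _ => ?_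
    simp only [Equiv.coe_mulRight]
    have e1 : y * w * w⁻¹ = y := mul_inv_cancel_right y w
    have e2 : z * w * (y * w)⁻¹ = z * y⁻¹ := by
      rw [mul_inv, mul_comm y⁻¹ w⁻¹, ← mul_assoc, mul_inv_cancel_right]
    have e3 : w * (z * w)⁻¹ = z⁻¹ := by
      rw [mul_inv, mul_comm z⁻¹ w⁻¹, ← mul_assoc, mul_inv_cancel, one_mul]
    rw [e1, e2, e3, norm_R_inv_5]
    congr 1
    · ring
    · congr 1
      refine Finset.sum_congr rfl fun a _ => Finset.sum_congr rfl fun b _ =>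
        Finset.sum_congr rfl fun c _ => Finset.sum_congr rfl fun d hd => ?_
      have hd' : d ∣ q := (Nat.mem_divisors.1 hd).1
      have e4 : (a : ZMod d) * red d (y * w) + (b : ZMod d) * red d (z * w) + (c : ZMod d) * red d w =
          ((a : ZMod d) * red d y + (b : ZMod d) * red d z + (c : ZMod d)) * red d w := by
        rw [red_cast_5 d hd', red_cast_5 d hd', red_cast_5 d hd', red_cast_5 d hd', red_cast_5 d hd',
          Units.val_mul, Units.val_mul, map_mul, map_mul]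
        ring
      have e5 : IsUnit (red d w) := by
        rw [red_cast_5 d hd']
        exact w.isUnit.map _
      have e6 : ((a : ZMod d) * red d (y * w) + (b : ZMod d) * red d (z * w) +
          (c : ZMod d) * red d w = 0) ↔ ((a : ZMod d) * red d y + (b : ZMod d) * red d z + (c : ZMod d) = 0) := by
        rw [e4]
        exact e5.mul_left_eq_zero
      exact if_congr e6 rfl rfl
  rw [Finset.sum_congr rfl fun w _ => hC w, Finset.sum_const, Finset.card_univ, nsmul_eq_mul] at hB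
  have hD : ‖T3 W κ J‖ ≤ Q := le_of_mul_le_mul_left hB hφ0
  refine hD.trans (le_of_eq ?_)
  rw [hQ]
  -- rearrangement
  have h1 : ∀ y z : (ZMod q)ˣ, (‖R W y‖ * ‖R W z‖ * ‖R W (z * y⁻¹)‖) *
    (1 / (J : ℝ) ^ 3 * ∑ a ∈ A J, ∑ b ∈ A J, ∑ c ∈ A J, ∑ d ∈ q.divisors,
        (if (a : ZMod d) * red d y + (b : ZMod d) * red d z + (c : ZMod d) = 0
          then (d : ℝ) else 0)) = ∑ a ∈ A J, ∑ b ∈ A J, ∑ c ∈ A J, ∑ d ∈ q.divisors,
        1 / (J : ℝ) ^ 3 * ((d : ℝ) * (if (a : ZMod d) * red d y + (b : ZMod d) * red d z + (c : ZMod d) = 0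
          then ‖R W y‖ * ‖R W z‖ * ‖R W (z * y⁻¹)‖ else 0)) := by
    intro y z
    simp only [Finset.mul_sum]
    refine Finset.sum_congr rfl fun a _ => Finset.sum_congr rfl fun b _ =>
        Finset.sum_congr rfl fun c _ => Finset.sum_congr rfl fun d hd => ?_
    split_ifs <;> ring
  rw [Finset.sum_congr rfl fun y _ => Finset.sum_congr rfl fun z _ => h1 y z]
  simp only [Finset.mul_sum]
  rw [Finset.sum_congr rfl fun y _ => swapA_5 _ _ _, swapA_5, swapA_5]
  refine Finset.sum_congr rfl fun a _ => Finset.sum_congr rfl fun b _ =>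
        Finset.sum_congr rfl fun c _ => ?_
  rw [Finset.sum_congr rfl fun y _ => Finset.sum_comm, Finset.sum_comm]

theorem T2_le_sum (W : Finset (DirichletCharacter ℂ q)) (κ : ℤ → ℂ) (J : ℕ) (hJ : 1 ≤ J)
    (hκ : ∀ m ∈ A J, ‖κ m‖ ≤ 1 / J) :
    ‖T2 W κ J‖ ≤ 1 / (J : ℝ) ^ 2 * ∑ d ∈ q.divisors, (d : ℝ) *
      ∑ a ∈ A J, ∑ c ∈ A J, ∑ y : (ZMod q)ˣ,
        (if (a : ZMod d) * red d y + (c : ZMod d) = 0 then f W y else 0) := by
  classical
  set φ : ℝ := (Fintype.card (ZMod q)ˣ : ℝ) with hφ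
  have hφ0 : 0 < φ := by
    rw [hφ]
    exact_mod_cast Fintype.card_pos
  set Q : ℝ := ∑ y : (ZMod q)ˣ, f W y *
    (1 / (J : ℝ) ^ 2 * ∑ a ∈ A J, ∑ c ∈ A J, ∑ d ∈ q.divisors,
        (if (a : ZMod d) * red d y + (c : ZMod d) = 0
          then (d : ℝ) else 0)) with hQ
  -- averaging
  have hA : (φ : ℂ) * T2 W κ J = ∑ u : (ZMod q)ˣ, ∑ w : (ZMod q)ˣ,
      (∑ l : (ZMod q)ˣ, kap κ J (l * u) * kap κ J (l * w)) * (f W (u * w⁻¹) : ℂ) := by
    have h1 : ∀ l : (ZMod q)ˣ, T2 W κ J = ∑ u : (ZMod q)ˣ, ∑ w : (ZMod q)ˣ,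
        kap κ J (l * u) * kap κ J (l * w) * (f W (u * w⁻¹) : ℂ) := by
      intro l
      unfold T2
      rw [← Equiv.sum_comp (Equiv.mulLeft l)]
      refine Finset.sum_congr rfl fun u _ => ?_
      rw [← Equiv.sum_comp (Equiv.mulLeft l)]
      refine Finset.sum_congr rfl fun w _ => ?_
      simp only [Equiv.coe_mulLeft]
      have e1 : l * u * (l * w)⁻¹ = u * w⁻¹ := by
        rw [mul_inv]
        calc l * u * (l⁻¹ * w⁻¹) = (l * l⁻¹) * (u * w⁻¹) := by
              rw [mul_mul_mul_comm]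
          _ = u * w⁻¹ := by rw [mul_inv_cancel, one_mul]
      rw [e1]
    have h2 : (φ : ℂ) * T2 W κ J = ∑ l : (ZMod q)ˣ, T2 W κ J := by
      rw [Finset.sum_const, Finset.card_univ, nsmul_eq_mul, hφ]
      push_cast
      rfl
    rw [h2, Finset.sum_congr rfl fun l _ => h1 l, Finset.sum_comm]
    refine Finset.sum_congr rfl fun u _ => ?_
    rw [Finset.sum_comm]
    refine Finset.sum_congr rfl fun w _ => ?_
    rw [Finset.sum_mul]
  -- the bound
  have hB : φ * ‖T2 W κ J‖ ≤ ∑ w : (ZMod q)ˣ, ∑ u : (ZMod q)ˣ,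
      f W (u * w⁻¹) *
      (1 / (J : ℝ) ^ 2 * ∑ a ∈ A J, ∑ c ∈ A J, ∑ d ∈ q.divisors,
        (if (a : ZMod d) * red d u + (c : ZMod d) * red d w = 0
          then (d : ℝ) else 0)) := by
    have h1 : φ * ‖T2 W κ J‖ = ‖(φ : ℂ) * T2 W κ J‖ := by
      rw [norm_mul, Complex.norm_real, Real.norm_eq_abs, abs_of_pos hφ0]
    rw [h1, hA, Finset.sum_comm]
    refine norm_sum_le_of_le _ fun w _ => norm_sum_le_of_le _ fun u _ => ?_
    rw [norm_mul, mul_comm, Complex.norm_real, Real.norm_eq_abs, abs_of_nonneg (f_nonneg W _)]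
    exact mul_le_mul_of_nonneg_left (kap2_5 κ J hJ hκ u w) (f_nonneg W _)
  -- substitution
  have hC : ∀ w : (ZMod q)ˣ, ∑ u : (ZMod q)ˣ,
      f W (u * w⁻¹) *
      (1 / (J : ℝ) ^ 2 * ∑ a ∈ A J, ∑ c ∈ A J, ∑ d ∈ q.divisors,
        (if (a : ZMod d) * red d u + (c : ZMod d) * red d w = 0
          then (d : ℝ) else 0)) = Q := by
    intro w
    rw [hQ, ← Equiv.sum_comp (Equiv.mulRight w)]
    refine Finset.sum_congr rfl fun y _ => ?_
    simp only [Equiv.coe_mulRight]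
    have e1 : y * w * w⁻¹ = y := mul_inv_cancel_right y w
    rw [e1]
    congr 2
    refine Finset.sum_congr rfl fun a _ =>
      Finset.sum_congr rfl fun c _ => Finset.sum_congr rfl fun d hd => ?_
    have hd' : d ∣ q := (Nat.mem_divisors.1 hd).1
    have e4 : (a : ZMod d) * red d (y * w) + (c : ZMod d) * red d w =
        ((a : ZMod d) * red d y + (c : ZMod d)) * red d w := by
      rw [red_cast_5 d hd', red_cast_5 d hd', red_cast_5 d hd', Units.val_mul, map_mul]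
      ring
    have e5 : IsUnit (red d w) := by
      rw [red_cast_5 d hd']
      exact w.isUnit.map _
    have e6 : ((a : ZMod d) * red d (y * w) +
        (c : ZMod d) * red d w = 0) ↔ ((a : ZMod d) * red d y + (c : ZMod d) = 0) := by
      rw [e4]
      exact e5.mul_left_eq_zero
    exact if_congr e6 rfl rfl
  rw [Finset.sum_congr rfl fun w _ => hC w, Finset.sum_const, Finset.card_univ, nsmul_eq_mul] at hB
  have hD : ‖T2 W κ J‖ ≤ Q := le_of_mul_le_mul_left hB hφ0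
  refine hD.trans (le_of_eq ?_)
  rw [hQ]
  -- rearrangement
  have h1 : ∀ y : (ZMod q)ˣ, f W y *
    (1 / (J : ℝ) ^ 2 * ∑ a ∈ A J, ∑ c ∈ A J, ∑ d ∈ q.divisors,
        (if (a : ZMod d) * red d y + (c : ZMod d) = 0
          then (d : ℝ) else 0)) = ∑ a ∈ A J, ∑ c ∈ A J, ∑ d ∈ q.divisors,
        1 / (J : ℝ) ^ 2 * ((d : ℝ) * (if (a : ZMod d) * red d y + (c : ZMod d) = 0
          then f W y else 0)) := by
    intro y
    simp only [Finset.mul_sum]
    refine Finset.sum_congr rfl fun a _ =>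
        Finset.sum_congr rfl fun c _ => Finset.sum_congr rfl fun d hd => ?_
    split_ifs <;> ring
  rw [Finset.sum_congr rfl fun y _ => h1 y]
  simp only [Finset.mul_sum]
  rw [swapB_5, swapB_5]
  refine Finset.sum_congr rfl fun a _ => Finset.sum_congr rfl fun b _ => ?_
  rw [Finset.sum_comm]

end Pool.Agent.Helper88.LV
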