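import Pool.Agent.Helper88.LV.Defs

/-!
# LV-5: the second factor

PROOF. Substitute `z = t y` (for fixed `y`): the condition is `(a + b t) y + c = 0` in `ZMod d`.
For fixed `a, b, c, t` put `s = a + b t ∈ ZMod d` and let `g = gcd(s, d)` (`Nat.gcd s.val d`). If there is a
solution `y` then `g ∣ c` (in `ℤ`; as `g ∣ s y` and `g ∣ d`), and the solutions `y` modulo `d` are in one class
modulo `d/g`, so there are at most `g` modulo `d` and at most `g q/d` modulo `q`. So the sum is at most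
`∑_t g(t) ∑_c ∑_{e ∣ d, e ∣ c} (e q/d) #{(a,b) ∈ A L × A L : e ∣ a + b t}` (keep only `e = g` or bound by the sum
over all `e ∣ |c|`, `e ∣ d`). For `e ≤ |c| ≤ L` and fixed `b, t` at most `2L/e + 1 ≤ 3L/e` values of `a`; so
`≤ (q/d) ∑_t g(t) ∑_{c ∈ A L} ∑_{e ∣ |c|} e (2L)(3L/e) ≤ (q/d) (∑ g) (2L) T 6 L²`.
-/

set_option autoImplicit false

namespace Pool.Agent.Helper88.LV

open Finset

open scoped Classical in
private lemma red_eq_h4 {q : ℕ} [NeZero q] (d : ℕ) (hd : d ∣ q) (y : (ZMod q)ˣ) :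
    red d y = ZMod.castHom hd (ZMod d) (y : ZMod q) := by
  unfold red
  rw [ZMod.castHom_apply, ZMod.natCast_val]

private lemma red_mul_h4 {q : ℕ} [NeZero q] (d : ℕ) (hd : d ∣ q) (x y : (ZMod q)ˣ) :
    red d (x * y) = red d x * red d y := by
  rw [red_eq_h4 d hd, red_eq_h4 d hd, red_eq_h4 d hd, Units.val_mul, map_mul]

/-- counting in a residue class -/
private lemma class_card_h4 {q d' : ℕ} (hd' : 0 < d') (hdq : d' ∣ q) (S : Finset ℕ)
    (hS : ∀ n ∈ S, n < q) (hc : ∀ m ∈ S, ∀ n ∈ S, m % d' = n % d') : S.card ≤ q / d' := by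
  have h := Finset.card_le_card_of_injOn (s := S) (t := range (q / d')) (fun n => n / d') ?_ ?_
  · rwa [card_range] at h
  · intro n hn
    rw [Finset.mem_coe] at hn
    rw [Finset.mem_coe, mem_range]
    exact Nat.div_lt_div_of_lt_of_dvd hdq (hS n hn)
  · intro m hm n hn hmn
    have h1 := hc m hm n hn
    have h2 : m / d' = n / d' := hmn
    rw [← Nat.div_add_mod m d', ← Nat.div_add_mod n d', h1, h2]

/-- number of solutions `y` -/
private lemma sol_card_h4 {q : ℕ} [NeZero q] (d : ℕ) [NeZero d] (hd : d ∣ q) (s : ZMod d) (c : ℤ) :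
    ((univ.filter (fun y : (ZMod q)ˣ => s * red d y + (c : ZMod d) = 0)).card : ℝ) ≤
      ∑ e ∈ c.natAbs.divisors, (if e ∣ d ∧ e ∣ s.val then (e : ℝ) * ((q : ℝ) / d) else 0)
        + (if c = 0 then (q : ℝ) else 0) := by
  have hd0 : 0 < d := Nat.pos_of_ne_zero (NeZero.ne d)
  have hq0 : 0 < q := Nat.pos_of_ne_zero (NeZero.ne q)
  have hnn : 0 ≤ ∑ e ∈ c.natAbs.divisors, (if e ∣ d ∧ e ∣ s.val then (e : ℝ) * ((q : ℝ) / d) else 0) := by
    apply Finset.sum_nonneg
    intro e _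
    split_ifs
    · positivity
    · exact le_rfl
  set S := univ.filter (fun y : (ZMod q)ˣ => s * red d y + (c : ZMod d) = 0) with hSdef
  -- the values
  set V : Finset ℕ := S.image (fun y : (ZMod q)ˣ => (y : ZMod q).val) with hV
  have hcard : V.card = S.card := by
    rw [hV]
    apply Finset.card_image_of_injective
    intro x y hxy
    apply Units.ext
    exact ZMod.val_injective q hxy
  have hVq : ∀ n ∈ V, n < q := by
    intro n hn
    rw [hV, mem_image] at hn
    obtain ⟨y, _, rfl⟩ := hn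
    exact ZMod.val_lt _
  by_cases hc0 : c = 0
  · rw [if_pos hc0]
    have h1 : S.card ≤ q := by
      rw [← hcard]
      calc V.card ≤ (range q).card := Finset.card_le_card (fun n hn => mem_range.2 (hVq n hn))
        _ = q := card_range q
    have h2 : (S.card : ℝ) ≤ q := by exact_mod_cast h1
    linarith
  · rw [if_neg hc0, add_zero]
    rcases S.eq_empty_or_nonempty with h | ⟨y0, hy0⟩
    · rw [h, card_empty, Nat.cast_zero]
      exact hnn
    · set g : ℕ := Nat.gcd s.val d with hg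
      have hgd : g ∣ d := Nat.gcd_dvd_right _ _
      have hgs : g ∣ s.val := Nat.gcd_dvd_left _ _
      have hg0 : 0 < g := Nat.gcd_pos_of_pos_right _ hd0
      have hval : ∀ y ∈ S, (d : ℤ) ∣ (s.val : ℤ) * ((y : ZMod q).val : ℤ) + c := by
        intro y hy
        rw [hSdef, mem_filter] at hy
        have h1 := hy.2
        rw [← ZMod.intCast_zmod_eq_zero_iff_dvd]
        push_cast
        rw [← h1]
        unfold red
        rw [ZMod.natCast_zmod_val s]
      have hgc : g ∣ c.natAbs := by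
        have h1 := hval y0 hy0
        have h2 : (g : ℤ) ∣ (s.val : ℤ) * ((y0 : ZMod q).val : ℤ) + c :=
          (Int.natCast_dvd_natCast.2 hgd).trans h1
        have h3 : (g : ℤ) ∣ (s.val : ℤ) * ((y0 : ZMod q).val : ℤ) :=
          Dvd.dvd.mul_right (Int.natCast_dvd_natCast.2 hgs) _
        have h4 : (g : ℤ) ∣ c := (Int.dvd_iff_dvd_of_dvd_add h2).1 h3
        exact Int.natCast_dvd.1 h4
      have hd'0 : 0 < d / g := Nat.div_pos (Nat.le_of_dvd hd0 hgd) hg0
      have hdd' : d / g ∣ q := (Nat.div_dvd_of_dvd hgd).trans hd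
      have hVc : ∀ m ∈ V, ∀ n ∈ V, m % (d / g) = n % (d / g) := by
        intro m hm n hn
        rw [hV, mem_image] at hm hn
        obtain ⟨x, hx, rfl⟩ := hm
        obtain ⟨y, hy, rfl⟩ := hn
        have h1 := (hval x hx).sub (hval y hy)
        have h2 : (s.val : ℤ) * ((x : ZMod q).val : ℤ) + c - ((s.val : ℤ) * ((y : ZMod q).val : ℤ) + c) =
            (g : ℤ) * (((s.val / g : ℕ) : ℤ) * (((x : ZMod q).val : ℤ) - ((y : ZMod q).val : ℤ))) := by
          have h3 : (s.val : ℤ) = (g : ℤ) * ((s.val / g : ℕ) : ℤ) := by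
            rw [← Nat.cast_mul, Nat.mul_div_cancel' hgs]
          rw [h3]
          ring
        rw [h2] at h1
        have h4 : (d : ℤ) = (g : ℤ) * ((d / g : ℕ) : ℤ) := by
          rw [← Nat.cast_mul, Nat.mul_div_cancel' hgd]
        rw [h4] at h1
        have h5 : ((d / g : ℕ) : ℤ) ∣ ((s.val / g : ℕ) : ℤ) * (((x : ZMod q).val : ℤ) - ((y : ZMod q).val : ℤ)) :=
          Int.dvd_of_mul_dvd_mul_left (by exact_mod_cast hg0.ne') h1
        have h6 : IsCoprime ((d / g : ℕ) : ℤ) ((s.val / g : ℕ) : ℤ) := by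
          rw [Nat.isCoprime_iff_coprime]
          exact (Nat.coprime_div_gcd_div_gcd hg0).symm
        have h7 := h6.dvd_of_dvd_mul_left h5
        have h8 : ((y : ZMod q).val : ℤ) ≡ ((x : ZMod q).val : ℤ) [ZMOD ((d / g : ℕ) : ℤ)] :=
          Int.modEq_iff_dvd.2 h7
        have h9 := (Int.natCast_modEq_iff.1 h8).symm
        exact h9
      have h5 := class_card_h4 hd'0 hdd' V hVq hVc
      rw [hcard] at h5
      have h6 : (S.card : ℝ) ≤ ((q / (d / g) : ℕ) : ℝ) := by exact_mod_cast h5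
      have h7 : ((q / (d / g) : ℕ) : ℝ) = (g : ℝ) * ((q : ℝ) / d) := by
        rw [Nat.cast_div hdd' (by exact_mod_cast hd'0.ne'), Nat.cast_div hgd (by exact_mod_cast hg0.ne')]
        field_simp
      rw [h7] at h6
      refine h6.trans ?_
      have h8 : g ∈ c.natAbs.divisors := Nat.mem_divisors.2 ⟨hgc, by simpa using hc0⟩
      refine le_trans (le_of_eq ?_) (Finset.single_le_sum
        (f := fun e => if e ∣ d ∧ e ∣ s.val then (e : ℝ) * ((q : ℝ) / d) else 0) ?_ h8)
      · rw [if_pos ⟨hgd, hgs⟩]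
      · intro e _
        split_ifs
        · positivity
        · exact le_rfl

/-- number of `a` -/
private lemma a_card_h4 (d : ℕ) [NeZero d] (L : ℕ) (e : ℕ) (he0 : 0 < e) (heL : e ≤ L) (hed : e ∣ d)
    (w : ZMod d) :
    e * ((A L).filter (fun a : ℤ => e ∣ ((a : ZMod d) + w).val)).card ≤ 3 * L := by
  set S := (A L).filter (fun a : ℤ => e ∣ ((a : ZMod d) + w).val) with hS
  have he0' : (0 : ℤ) < e := by exact_mod_cast he0
  have hdv : ∀ a ∈ S, (e : ℤ) ∣ a + w.val := by
    intro a ha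
    rw [hS, mem_filter] at ha
    have h1 : (((a : ZMod d) + w).val : ℤ) = (a + w.val) % d := by
      have h2 : (a : ZMod d) + w = ((a + w.val : ℤ) : ZMod d) := by
        push_cast
        rw [ZMod.natCast_zmod_val]
      rw [h2, ZMod.val_intCast]
    have h3 : (e : ℤ) ∣ (a + w.val) % d := by
      rw [← h1]
      exact Int.natCast_dvd_natCast.2 ha.2
    have h4 := Int.emod_add_mul_ediv (a + w.val) d
    rw [← h4]
    exact dvd_add h3 (Dvd.dvd.mul_right (Int.natCast_dvd_natCast.2 hed) _)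
  have hr : ∀ a ∈ S, -(L : ℤ) ≤ a ∧ a ≤ L := by
    intro a ha
    rw [hS, mem_filter, mem_A] at ha
    exact abs_le.1 ha.1.2
  have h := Finset.card_le_card_of_injOn (s := S)
    (t := Finset.Icc (-(((L : ℤ) - w.val) / e)) (((L : ℤ) + w.val) / e)) (fun a => (a + w.val) / e) ?_ ?_
  · rw [Int.card_Icc] at h
    have h1 : (e : ℤ) * (((L : ℤ) - w.val) / e) ≤ (L : ℤ) - w.val := Int.mul_ediv_self_le he0'.ne'
    have h2 : (e : ℤ) * (((L : ℤ) + w.val) / e) ≤ (L : ℤ) + w.val := Int.mul_ediv_self_le he0'.ne'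
    have h3 : (e : ℤ) ≤ L := by exact_mod_cast heL
    have h4 : (S.card : ℤ) ≤ max (((L : ℤ) + w.val) / e + 1 - -(((L : ℤ) - w.val) / e)) 0 := by
      rw [← Int.toNat_eq_max]
      exact_mod_cast h
    have h5 : (e : ℤ) * S.card ≤ 3 * L := by
      rcases le_total (((L : ℤ) + w.val) / e + 1 - -(((L : ℤ) - w.val) / e)) 0 with h6 | h6
      · rw [max_eq_right h6] at h4
        have : (e : ℤ) * S.card ≤ e * 0 := mul_le_mul_of_nonneg_left h4 he0'.le
        linarith
      · rw [max_eq_left h6] at h4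
        have : (e : ℤ) * S.card ≤ e * (((L : ℤ) + w.val) / e + 1 - -(((L : ℤ) - w.val) / e)) :=
          mul_le_mul_of_nonneg_left h4 he0'.le
        linarith
    exact_mod_cast h5
  · intro a ha
    rw [Finset.mem_coe] at ha
    rw [Finset.mem_coe, Finset.mem_Icc]
    obtain ⟨h1, h2⟩ := hr a ha
    obtain ⟨k, hk⟩ := hdv a ha
    have h3 : (a + w.val) / e = k := by
      rw [hk]
      exact Int.mul_ediv_cancel_left k he0'.ne'
    dsimp only
    rw [h3]
    constructor
    · have : -k ≤ ((L : ℤ) - w.val) / e := by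
        rw [Int.le_ediv_iff_mul_le he0']
        linarith
      linarith
    · rw [Int.le_ediv_iff_mul_le he0']
      linarith
  · intro a ha b hb hab
    rw [Finset.mem_coe] at ha hb
    obtain ⟨k, hk⟩ := hdv a ha
    obtain ⟨l, hl⟩ := hdv b hb
    have h3 : (a + w.val) / e = k := by
      rw [hk]
      exact Int.mul_ediv_cancel_left k he0'.ne'
    have h4 : (b + w.val) / e = l := by
      rw [hl]
      exact Int.mul_ediv_cancel_left l he0'.ne'
    have hab' : (a + w.val) / e = (b + w.val) / e := hab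
    rw [h3, h4] at hab'
    rw [hab'] at hk
    linarith

private lemma A_card_h4 (L : ℕ) : (A L).card = 2 * L := by
  unfold A
  rw [Finset.card_erase_of_mem (by rw [Finset.mem_Icc]; constructor <;> omega), Int.card_Icc]
  omega

theorem second_count {q : ℕ} [NeZero q] (d : ℕ) [NeZero d] (hd : d ∣ q) (L : ℕ) (hL : 1 ≤ L)
    (hLq : L ≤ q)
    (T : ℝ) (hT1 : 1 ≤ T) (hT : ∀ n : ℕ, 1 ≤ n → n ≤ q → ((n.divisors.card : ℕ) : ℝ) ≤ T)
    (g : (ZMod q)ˣ → ℝ) (hg : ∀ y, 0 ≤ g y) :
    ∑ a ∈ A L, ∑ b ∈ A L, ∑ c ∈ A L, ∑ y : (ZMod q)ˣ, ∑ z : (ZMod q)ˣ,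
        (if (a : ZMod d) * red d y + (b : ZMod d) * red d z + (c : ZMod d) = 0
          then g (z * y⁻¹) else 0) ≤
      12 * T * ((q : ℝ) / d) * (L : ℝ) ^ 3 * ∑ y, g y := by
  have hL0 : (0 : ℝ) ≤ L := Nat.cast_nonneg L
  have hq0 : (0 : ℝ) < q := by exact_mod_cast Nat.pos_of_ne_zero (NeZero.ne q)
  have hd0 : (0 : ℝ) < d := by exact_mod_cast Nat.pos_of_ne_zero (NeZero.ne d)
  have hqd : 0 ≤ (q : ℝ) / d := by positivity
  -- substitution
  have hsub : ∀ (a b c : ℤ) (y : (ZMod q)ˣ), ∑ z : (ZMod q)ˣ,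
        (if (a : ZMod d) * red d y + (b : ZMod d) * red d z + (c : ZMod d) = 0
          then g (z * y⁻¹) else 0) =
      ∑ t : (ZMod q)ˣ, (if ((a : ZMod d) + (b : ZMod d) * red d t) * red d y + (c : ZMod d) = 0
          then g t else 0) := by
    intro a b c y
    symm
    refine Fintype.sum_equiv (Equiv.mulRight y) _ _ fun t => ?_
    rw [Equiv.coe_mulRight, mul_inv_cancel_right, red_mul_h4 d hd]
    congr 1
    apply propext
    constructor
    · intro h
      rw [← h]
      ring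
    · intro h
      rw [← h]
      ring
  have hre : ∑ a ∈ A L, ∑ b ∈ A L, ∑ c ∈ A L, ∑ y : (ZMod q)ˣ, ∑ z : (ZMod q)ˣ,
        (if (a : ZMod d) * red d y + (b : ZMod d) * red d z + (c : ZMod d) = 0
          then g (z * y⁻¹) else 0) =
      ∑ t : (ZMod q)ˣ, g t * ∑ b ∈ A L, ∑ c ∈ A L, ∑ a ∈ A L,
        ((univ.filter (fun y : (ZMod q)ˣ =>
          ((a : ZMod d) + (b : ZMod d) * red d t) * red d y + (c : ZMod d) = 0)).card : ℝ) := by
    have hone : ∀ a b c : ℤ, ∑ y : (ZMod q)ˣ, ∑ z : (ZMod q)ˣ,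
        (if (a : ZMod d) * red d y + (b : ZMod d) * red d z + (c : ZMod d) = 0
          then g (z * y⁻¹) else 0) = ∑ t : (ZMod q)ˣ, g t *
        ((univ.filter (fun y : (ZMod q)ˣ =>
          ((a : ZMod d) + (b : ZMod d) * red d t) * red d y + (c : ZMod d) = 0)).card : ℝ) := by
      intro a b c
      simp only [hsub]
      rw [Finset.sum_comm]
      refine Finset.sum_congr rfl fun t _ => ?_
      rw [← Finset.sum_filter, Finset.sum_const, nsmul_eq_mul]
      ring
    simp only [hone]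
    have hsw : ∀ G : ℤ → ℤ → ℤ → (ZMod q)ˣ → ℝ, ∑ a ∈ A L, ∑ b ∈ A L, ∑ c ∈ A L, ∑ t, G a b c t =
        ∑ t, ∑ b ∈ A L, ∑ c ∈ A L, ∑ a ∈ A L, G a b c t := by
      intro G
      calc ∑ a ∈ A L, ∑ b ∈ A L, ∑ c ∈ A L, ∑ t, G a b c t
          = ∑ a ∈ A L, ∑ b ∈ A L, ∑ t, ∑ c ∈ A L, G a b c t :=
            Finset.sum_congr rfl fun a _ => Finset.sum_congr rfl fun b _ => Finset.sum_comm
        _ = ∑ a ∈ A L, ∑ t, ∑ b ∈ A L, ∑ c ∈ A L, G a b c t :=
            Finset.sum_congr rfl fun a _ => Finset.sum_comm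
        _ = ∑ t, ∑ a ∈ A L, ∑ b ∈ A L, ∑ c ∈ A L, G a b c t := Finset.sum_comm
        _ = ∑ t, ∑ b ∈ A L, ∑ a ∈ A L, ∑ c ∈ A L, G a b c t :=
            Finset.sum_congr rfl fun t _ => Finset.sum_comm
        _ = ∑ t, ∑ b ∈ A L, ∑ c ∈ A L, ∑ a ∈ A L, G a b c t :=
            Finset.sum_congr rfl fun t _ => Finset.sum_congr rfl fun b _ => Finset.sum_comm
    rw [hsw]
    simp only [Finset.mul_sum]
  rw [hre]
  -- the inner bound
  have hin : ∀ (t : (ZMod q)ˣ) (b : ℤ) (c : ℤ), c ∈ A L → ∑ a ∈ A L,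
        ((univ.filter (fun y : (ZMod q)ˣ =>
          ((a : ZMod d) + (b : ZMod d) * red d t) * red d y + (c : ZMod d) = 0)).card : ℝ) ≤
      T * (3 * L * ((q : ℝ) / d)) := by
    intro t b c hc
    rw [mem_A] at hc
    obtain ⟨hc0, hcL⟩ := hc
    have hcn : 1 ≤ c.natAbs := Int.natAbs_pos.2 hc0
    have hcn2 : c.natAbs ≤ L := by
      have : (c.natAbs : ℤ) ≤ L := by rw [Int.natCast_natAbs]; exact hcL
      exact_mod_cast this
    calc ∑ a ∈ A L, ((univ.filter (fun y : (ZMod q)ˣ =>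
          ((a : ZMod d) + (b : ZMod d) * red d t) * red d y + (c : ZMod d) = 0)).card : ℝ)
        ≤ ∑ a ∈ A L, ∑ e ∈ c.natAbs.divisors,
          (if e ∣ d ∧ e ∣ ((a : ZMod d) + (b : ZMod d) * red d t).val then (e : ℝ) * ((q : ℝ) / d) else 0) := by
          refine Finset.sum_le_sum fun a _ => ?_
          have h := sol_card_h4 d hd ((a : ZMod d) + (b : ZMod d) * red d t) c
          rw [if_neg hc0, add_zero] at h
          exact h
      _ = ∑ e ∈ c.natAbs.divisors, ∑ a ∈ A L,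
          (if e ∣ d ∧ e ∣ ((a : ZMod d) + (b : ZMod d) * red d t).val then (e : ℝ) * ((q : ℝ) / d) else 0) :=
          Finset.sum_comm
      _ ≤ ∑ e ∈ c.natAbs.divisors, 3 * L * ((q : ℝ) / d) := by
          refine Finset.sum_le_sum fun e he => ?_
          have he1 : e ∣ c.natAbs := Nat.dvd_of_mem_divisors he
          have he0 : 0 < e := Nat.pos_of_dvd_of_pos he1 (by omega)
          have heL : e ≤ L := (Nat.le_of_dvd (by omega) he1).trans hcn2
          by_cases hed : e ∣ d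
          · simp only [hed, true_and]
            rw [← Finset.sum_filter, Finset.sum_const, nsmul_eq_mul]
            have h := a_card_h4 d L e he0 heL hed ((b : ZMod d) * red d t)
            have h' : (e : ℝ) * (((A L).filter (fun a : ℤ => e ∣ ((a : ZMod d) + (b : ZMod d) * red d t).val)).card : ℝ) ≤
                3 * L := by exact_mod_cast h
            calc _ = ((e : ℝ) * (((A L).filter (fun a : ℤ => e ∣ ((a : ZMod d) + (b : ZMod d) * red d t).val)).card : ℝ)) *
                  ((q : ℝ) / d) := by ring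
              _ ≤ 3 * L * ((q : ℝ) / d) := mul_le_mul_of_nonneg_right h' hqd
          · simp only [hed, false_and, if_false, Finset.sum_const_zero]
            positivity
      _ = (c.natAbs.divisors.card : ℝ) * (3 * L * ((q : ℝ) / d)) := by
          rw [Finset.sum_const, nsmul_eq_mul]
      _ ≤ T * (3 * L * ((q : ℝ) / d)) :=
          mul_le_mul_of_nonneg_right (hT _ hcn (hcn2.trans hLq)) (by positivity)
  have hAc : ((A L).card : ℝ) = 2 * L := by
    rw [A_card_h4]
    push_cast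
    ring
  have hbc : ∀ t : (ZMod q)ˣ, ∑ b ∈ A L, ∑ c ∈ A L, ∑ a ∈ A L,
        ((univ.filter (fun y : (ZMod q)ˣ =>
          ((a : ZMod d) + (b : ZMod d) * red d t) * red d y + (c : ZMod d) = 0)).card : ℝ) ≤
      12 * T * ((q : ℝ) / d) * (L : ℝ) ^ 3 := by
    intro t
    calc _ ≤ ∑ b ∈ A L, ∑ c ∈ A L, T * (3 * L * ((q : ℝ) / d)) :=
          Finset.sum_le_sum fun b _ => Finset.sum_le_sum fun c hc => hin t b c hc
      _ = 12 * T * ((q : ℝ) / d) * (L : ℝ) ^ 3 := by
          rw [Finset.sum_const, Finset.sum_const, nsmul_eq_mul, nsmul_eq_mul, hAc]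
          ring
  calc _ ≤ ∑ t : (ZMod q)ˣ, g t * (12 * T * ((q : ℝ) / d) * (L : ℝ) ^ 3) :=
        Finset.sum_le_sum fun t _ => mul_le_mul_of_nonneg_left (hbc t) (hg t)
    _ = 12 * T * ((q : ℝ) / d) * (L : ℝ) ^ 3 * ∑ y, g y := by
        rw [← Finset.sum_mul]
        ring

end Pool.Agent.Helper88.LV
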