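import Pool.Agent.Helper88.LV.Fejer
import Pool.Agent.Helper88.LV.Four

/-!
# LV-4: triples

PROOF. If `d ≤ 8 L`, `count_class` gives at most `10 L / d` values of `c`, so the sum is
`≤ (10 L/d)(2L)² (∑ g)²`. If `d > 8 L`, `H = d/(4L)` as in LV-3: at most one `c`, and
`1 ≤ 2 K d H (a y + b z)`, so the sum is `≤ 2 ∑_{a,b} ∑_{y,z} g(y) g(z) K(a y + b z)`
`= (2/H²) Re ∑_{j,i} (∑_a F_d((j-i) a)) (∑_b F_d((j-i) b)) ≤ (2/H²) ∑_{j,i} (∑_{a ∈ A L} ‖F_d((j-i) a)‖)²`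
`≤ (2/H) ((2L ∑ g)² + ∑_{h ∈ A H} 2L ∑_a ‖F_d(h a)‖²)` (`diffs`, Cauchy) `≤ (2/H)((2L)² (∑ g)² + 2L · 2T · q ∑ g²)`
(`hits` with `F = ‖F_d‖²`, `four_sq`), and `1/H ≤ 8L/d`.
-/

set_option autoImplicit false

namespace Pool.Agent.Helper88.LV

open Finset

private lemma card_A_88 (L : ℕ) : ((A L).card : ℝ) ≤ 2 * L := by
  have h0 : (0 : ℤ) ∈ Finset.Icc (-(L : ℤ)) L := by
    rw [mem_Icc]
    omega
  have h1 : (A L).card = 2 * L := by
    unfold A
    rw [card_erase_of_mem h0, Int.card_Icc]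
    omega
  rw [h1]
  push_cast
  exact le_rfl

private lemma ex88 {ι : Type*} [Fintype ι] (H : ℕ) (S : ℕ → ℕ → ι → ι → ℂ) :
    ∑ y : ι, ∑ z : ι, ∑ j ∈ range H, ∑ i ∈ range H, S j i y z =
      ∑ j ∈ range H, ∑ i ∈ range H, ∑ y : ι, ∑ z : ι, S j i y z := by
  calc ∑ y : ι, ∑ z : ι, ∑ j ∈ range H, ∑ i ∈ range H, S j i y z =
        ∑ y : ι, ∑ j ∈ range H, ∑ z : ι, ∑ i ∈ range H, S j i y z :=
        Finset.sum_congr rfl fun y _ => Finset.sum_comm
    _ = ∑ j ∈ range H, ∑ y : ι, ∑ z : ι, ∑ i ∈ range H, S j i y z := Finset.sum_comm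
    _ = ∑ j ∈ range H, ∑ y : ι, ∑ i ∈ range H, ∑ z : ι, S j i y z :=
        Finset.sum_congr rfl fun j _ => Finset.sum_congr rfl fun y _ => Finset.sum_comm
    _ = _ := Finset.sum_congr rfl fun j _ => Finset.sum_comm

/-- the weight and the Fourier coefficients -/
private lemma K_sum_88 {q : ℕ} [NeZero q] (d : ℕ) [NeZero d] (H : ℕ) (g : (ZMod q)ˣ → ℝ) (a b : ℤ) :
    ∑ y : (ZMod q)ˣ, ∑ z : (ZMod q)ˣ, g y * g z *
        K d H ((a : ZMod d) * red d y + (b : ZMod d) * red d z) ≤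
      (∑ j ∈ range H, ∑ i ∈ range H, ‖Fd d g ((((j : ℤ) - (i : ℤ)) * a : ℤ) : ZMod d)‖ *
        ‖Fd d g ((((j : ℤ) - (i : ℤ)) * b : ℤ) : ZMod d)‖) / (H : ℝ) ^ 2 := by
  have h1 : ((∑ y : (ZMod q)ˣ, ∑ z : (ZMod q)ˣ, g y * g z *
        K d H ((a : ZMod d) * red d y + (b : ZMod d) * red d z) : ℝ) : ℂ) =
      (∑ j ∈ range H, ∑ i ∈ range H, Fd d g ((((j : ℤ) - (i : ℤ)) * a : ℤ) : ZMod d) *
        Fd d g ((((j : ℤ) - (i : ℤ)) * b : ℤ) : ZMod d)) / (H : ℂ) ^ 2 := by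
    push_cast
    simp only [K_eq]
    have e1 : ∀ j i : ℕ, Fd d g (((j : ZMod d) - (i : ZMod d)) * (a : ZMod d)) *
        Fd d g (((j : ZMod d) - (i : ZMod d)) * (b : ZMod d)) =
        ∑ y : (ZMod q)ˣ, ∑ z : (ZMod q)ˣ, (g y : ℂ) * (g z : ℂ) *
          ZMod.stdAddChar (((j : ZMod d) - (i : ZMod d)) *
            ((a : ZMod d) * red d y + (b : ZMod d) * red d z)) := by
      intro j i
      unfold Fd
      rw [Finset.sum_mul_sum]
      refine Finset.sum_congr rfl fun y _ => Finset.sum_congr rfl fun z _ => ?_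
      have e2 : ((j : ZMod d) - (i : ZMod d)) * ((a : ZMod d) * red d y + (b : ZMod d) * red d z) =
          ((j : ZMod d) - (i : ZMod d)) * (a : ZMod d) * red d y +
            ((j : ZMod d) - (i : ZMod d)) * (b : ZMod d) * red d z := by ring
      rw [e2, AddChar.map_add_eq_mul]
      ring
    simp only [e1]
    simp only [← mul_div_assoc, ← Finset.sum_div, Finset.mul_sum]
    congr 1
    exact ex88 H (fun j i y z => (g y : ℂ) * (g z : ℂ) * ZMod.stdAddChar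
      (((j : ZMod d) - (i : ZMod d)) * ((a : ZMod d) * red d y + (b : ZMod d) * red d z)))
  have h2 : (∑ y : (ZMod q)ˣ, ∑ z : (ZMod q)ˣ, g y * g z *
        K d H ((a : ZMod d) * red d y + (b : ZMod d) * red d z) : ℝ) ≤
      ‖((∑ y : (ZMod q)ˣ, ∑ z : (ZMod q)ˣ, g y * g z *
        K d H ((a : ZMod d) * red d y + (b : ZMod d) * red d z) : ℝ) : ℂ)‖ := by
    rw [Complex.norm_real]
    exact le_abs_self _
  refine h2.trans ?_
  rw [h1, norm_div, norm_pow, Complex.norm_natCast]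
  refine div_le_div_of_nonneg_right ?_ (by positivity)
  refine (norm_sum_le _ _).trans (Finset.sum_le_sum fun j _ => ?_)
  refine (norm_sum_le _ _).trans (Finset.sum_le_sum fun i _ => ?_)
  rw [norm_mul]

theorem triple_count {q : ℕ} [NeZero q] (d : ℕ) [NeZero d] (hd : d ∣ q) (L : ℕ) (hL : 1 ≤ L)
    (T : ℝ) (hT1 : 1 ≤ T) (hT : ∀ n : ℕ, 1 ≤ n → n ≤ q → ((n.divisors.card : ℕ) : ℝ) ≤ T)
    (g : (ZMod q)ˣ → ℝ) (hg : ∀ y, 0 ≤ g y) :
    ∑ a ∈ A L, ∑ b ∈ A L, ∑ c ∈ A L, ∑ y : (ZMod q)ˣ, ∑ z : (ZMod q)ˣ,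
        (if (a : ZMod d) * red d y + (b : ZMod d) * red d z + (c : ZMod d) = 0
          then g y * g z else 0) ≤
      100 * ((L : ℝ) ^ 3 / d * (∑ y, g y) ^ 2 + T * (L : ℝ) ^ 2 / d * (q * ∑ y, g y ^ 2)) := by
  have hd0 : (0 : ℝ) < d := Nat.cast_pos.2 (Nat.pos_of_ne_zero (NeZero.ne d))
  have hL0 : (1 : ℝ) ≤ L := by exact_mod_cast hL
  have hG : 0 ≤ ∑ y, g y := Finset.sum_nonneg fun y _ => hg y
  have hG2 : 0 ≤ ∑ y, g y ^ 2 := Finset.sum_nonneg fun y _ => sq_nonneg _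
  have hcard := card_A_88 L
  have hT0 : 0 ≤ T := by linarith
  have hcomm : ∀ a b : ℤ, ∑ c ∈ A L, ∑ y : (ZMod q)ˣ, ∑ z : (ZMod q)ˣ,
        (if (a : ZMod d) * red d y + (b : ZMod d) * red d z + (c : ZMod d) = 0
          then g y * g z else 0) =
      ∑ y : (ZMod q)ˣ, ∑ z : (ZMod q)ˣ, (((A L).filter (fun c : ℤ =>
        (a : ZMod d) * red d y + (b : ZMod d) * red d z + (c : ZMod d) = 0)).card : ℝ) *
          (g y * g z) := by
    intro a b
    rw [Finset.sum_comm]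
    refine Finset.sum_congr rfl fun y _ => ?_
    rw [Finset.sum_comm]
    refine Finset.sum_congr rfl fun z _ => ?_
    rw [← Finset.sum_filter, Finset.sum_const, nsmul_eq_mul]
  have hsq : ∑ y : (ZMod q)ˣ, ∑ z : (ZMod q)ˣ, g y * g z = (∑ y, g y) ^ 2 := by
    rw [sq, Finset.sum_mul_sum]
  by_cases hdL : d ≤ 8 * L
  · -- small `d`
    have h1 : ∀ a ∈ A L, ∀ b ∈ A L, ∑ c ∈ A L, ∑ y : (ZMod q)ˣ, ∑ z : (ZMod q)ˣ,
        (if (a : ZMod d) * red d y + (b : ZMod d) * red d z + (c : ZMod d) = 0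
          then g y * g z else 0) ≤ 10 * L / d * (∑ y, g y) ^ 2 := by
      intro a _ b _
      rw [hcomm, ← hsq, Finset.mul_sum]
      refine Finset.sum_le_sum fun y _ => ?_
      rw [Finset.mul_sum]
      refine Finset.sum_le_sum fun z _ => ?_
      exact mul_le_mul_of_nonneg_right (count_class L d hL hdL _) (mul_nonneg (hg y) (hg z))
    have h2 : ∑ a ∈ A L, ∑ b ∈ A L, ∑ c ∈ A L, ∑ y : (ZMod q)ˣ, ∑ z : (ZMod q)ˣ,
        (if (a : ZMod d) * red d y + (b : ZMod d) * red d z + (c : ZMod d) = 0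
          then g y * g z else 0) ≤
        ∑ _a ∈ A L, ∑ _b ∈ A L, 10 * L / d * (∑ y, g y) ^ 2 :=
      Finset.sum_le_sum fun a ha => Finset.sum_le_sum fun b hb => h1 a ha b hb
    refine h2.trans ?_
    rw [Finset.sum_const, Finset.sum_const, nsmul_eq_mul, nsmul_eq_mul]
    have h3 : 0 ≤ 10 * (L : ℝ) / d * (∑ y, g y) ^ 2 := by positivity
    calc ((A L).card : ℝ) * (((A L).card : ℝ) * (10 * L / d * (∑ y, g y) ^ 2)) ≤
          (2 * L) * ((2 * L) * (10 * L / d * (∑ y, g y) ^ 2)) := by gcongr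
      _ = 40 * ((L : ℝ) ^ 3 / d * (∑ y, g y) ^ 2) := by ring
      _ ≤ _ := by
        have h6 : 0 ≤ (L : ℝ) ^ 3 / d * (∑ y, g y) ^ 2 := by positivity
        have h7 : 0 ≤ T * (L : ℝ) ^ 2 / d * (q * ∑ y, g y ^ 2) := by positivity
        linarith
  · -- large `d`
    push Not at hdL
    obtain ⟨H, hH⟩ : ∃ H, H = d / (4 * L) := ⟨_, rfl⟩
    have hH2 : 2 ≤ H := by
      rw [hH, Nat.le_div_iff_mul_le (by omega)]
      omega
    have hHL : 4 * (H * L) ≤ d := by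
      have := Nat.div_mul_le_self d (4 * L)
      rw [← hH] at this
      calc 4 * (H * L) = H * (4 * L) := by ring
        _ ≤ d := this
    have hHlt : d < 4 * L * (H + 1) := by
      have := Nat.lt_mul_div_succ d (show 0 < 4 * L by omega)
      rw [← hH] at this
      exact this
    have hH0 : (0 : ℝ) < H := by
      have : 0 < H := by omega
      exact_mod_cast this
    have hHd : (1 : ℝ) / H ≤ 8 * L / d := by
      rw [div_le_div_iff₀ hH0 hd0, one_mul]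
      have h1 : (d : ℝ) ≤ 4 * L * (H + 1) := by exact_mod_cast hHlt.le
      have h2 : (2 : ℝ) ≤ H := by exact_mod_cast hH2
      nlinarith
    -- one term
    have h1 : ∀ a b : ℤ, ∑ c ∈ A L, ∑ y : (ZMod q)ˣ, ∑ z : (ZMod q)ˣ,
        (if (a : ZMod d) * red d y + (b : ZMod d) * red d z + (c : ZMod d) = 0
          then g y * g z else 0) ≤
        2 * ∑ y : (ZMod q)ˣ, ∑ z : (ZMod q)ˣ, g y * g z *
          K d H ((a : ZMod d) * red d y + (b : ZMod d) * red d z) := by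
      intro a b
      rw [hcomm, Finset.mul_sum]
      refine Finset.sum_le_sum fun y _ => ?_
      rw [Finset.mul_sum]
      refine Finset.sum_le_sum fun z _ => ?_
      obtain ⟨s, hs⟩ : ∃ s : ZMod d, s = (a : ZMod d) * red d y + (b : ZMod d) * red d z := ⟨_, rfl⟩
      rw [← hs]
      have hK := K_nonneg d H s
      have hgg : 0 ≤ g y * g z := mul_nonneg (hg y) (hg z)
      rcases Finset.eq_empty_or_nonempty ((A L).filter (fun c : ℤ => s + (c : ZMod d) = 0)) with he | he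
      · rw [he, Finset.card_empty]
        have := mul_nonneg hgg hK
        push_cast
        linarith
      · obtain ⟨c, hc⟩ := he
        rw [mem_filter, mem_A] at hc
        have hc1 : ((((A L).filter (fun c : ℤ => s + (c : ZMod d) = 0)).card : ℕ) : ℝ) ≤ 1 := by
          exact_mod_cast count_class_one L d hdL _
        have hs' : s = ((-c : ℤ) : ZMod d) := by
          push_cast
          exact eq_neg_of_add_eq_zero_left hc.2
        have hk : 1 / 2 ≤ K d H s := by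
          rw [hs']
          refine K_ge d H (by omega) (-c) ?_
          rw [abs_neg]
          have h2 : 4 * (H : ℤ) * |c| ≤ 4 * (H : ℤ) * L :=
            mul_le_mul_of_nonneg_left hc.1.2 (by positivity)
          have h3 : 4 * (H : ℤ) * L ≤ d := by
            have : ((4 * (H * L) : ℕ) : ℤ) ≤ (d : ℤ) := by exact_mod_cast hHL
            push_cast at this
            linarith
          exact h2.trans h3
        have h4 := mul_le_mul_of_nonneg_right hc1 hgg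
        have h5 := mul_le_mul_of_nonneg_left hk hgg
        linarith
    -- Fourier coefficients
    obtain ⟨Φ, hΦ⟩ : ∃ Φ : ℤ → ℝ, Φ = fun h : ℤ =>
      (∑ a ∈ A L, ‖Fd d g (((h * a : ℤ)) : ZMod d)‖) ^ 2 := ⟨_, rfl⟩
    have h3 : ∑ a ∈ A L, ∑ b ∈ A L, ∑ y : (ZMod q)ˣ, ∑ z : (ZMod q)ˣ, g y * g z *
          K d H ((a : ZMod d) * red d y + (b : ZMod d) * red d z) ≤
        (∑ j ∈ range H, ∑ i ∈ range H, Φ ((j : ℤ) - (i : ℤ))) / (H : ℝ) ^ 2 := by
      have e1 : ∑ a ∈ A L, ∑ b ∈ A L, ∑ y : (ZMod q)ˣ, ∑ z : (ZMod q)ˣ, g y * g z *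
          K d H ((a : ZMod d) * red d y + (b : ZMod d) * red d z) ≤
          ∑ a ∈ A L, ∑ b ∈ A L, (∑ j ∈ range H, ∑ i ∈ range H,
            ‖Fd d g ((((j : ℤ) - (i : ℤ)) * a : ℤ) : ZMod d)‖ *
            ‖Fd d g ((((j : ℤ) - (i : ℤ)) * b : ℤ) : ZMod d)‖) / (H : ℝ) ^ 2 :=
        Finset.sum_le_sum fun a _ => Finset.sum_le_sum fun b _ => K_sum_88 d H g a b
      refine e1.trans (le_of_eq ?_)
      simp only [← Finset.sum_div]
      congr 1
      have e2 : ∀ j i : ℕ, Φ ((j : ℤ) - (i : ℤ)) = ∑ a ∈ A L, ∑ b ∈ A L,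
          ‖Fd d g ((((j : ℤ) - (i : ℤ)) * a : ℤ) : ZMod d)‖ *
            ‖Fd d g ((((j : ℤ) - (i : ℤ)) * b : ℤ) : ZMod d)‖ := by
        intro j i
        rw [hΦ]
        simp only
        rw [sq, Finset.sum_mul_sum]
      simp only [e2]
      rw [Finset.sum_congr rfl fun a _ => Finset.sum_comm]
      rw [Finset.sum_comm]
      refine Finset.sum_congr rfl fun j _ => ?_
      rw [Finset.sum_congr rfl fun a _ => Finset.sum_comm]
      rw [Finset.sum_comm]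
    have h4 := diffs H Φ (fun h => by rw [hΦ]; positivity)
    have h5 : Φ 0 ≤ (2 * L * ∑ y, g y) ^ 2 := by
      rw [hΦ]
      simp only
      have e1 : ∑ a ∈ A L, ‖Fd d g (((0 * a : ℤ)) : ZMod d)‖ ≤ 2 * L * ∑ y, g y := by
        refine (Finset.sum_le_sum fun a _ => norm_Fd_le d g hg _).trans ?_
        rw [Finset.sum_const, nsmul_eq_mul]
        exact mul_le_mul_of_nonneg_right hcard hG
      exact pow_le_pow_left₀ (Finset.sum_nonneg fun a _ => norm_nonneg _) e1 2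
    have h6 : ∑ h ∈ A H, Φ h ≤ 2 * L * (2 * T * (q * ∑ y, g y ^ 2)) := by
      have e1 : ∀ h ∈ A H, Φ h ≤ 2 * L * ∑ a ∈ A L, ‖Fd d g (((h * a : ℤ)) : ZMod d)‖ ^ 2 := by
        intro h _
        rw [hΦ]
        simp only
        refine (sq_sum_le_card_mul_sum_sq (s := A L)
          (f := fun a : ℤ => ‖Fd d g (((h * a : ℤ)) : ZMod d)‖)).trans ?_
        exact mul_le_mul_of_nonneg_right hcard (Finset.sum_nonneg fun a _ => sq_nonneg _)
      refine (Finset.sum_le_sum e1).trans ?_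
      rw [← Finset.mul_sum]
      refine mul_le_mul_of_nonneg_left ?_ (by positivity)
      refine (hits d H L T ?_ ?_ (fun l => ‖Fd d g l‖ ^ 2) fun l => sq_nonneg _).trans ?_
      · exact fun n hn hn' => hT n hn (hn'.trans (Nat.le_of_dvd (Nat.pos_of_ne_zero (NeZero.ne q)) hd))
      · have : 0 < H * L := Nat.mul_pos (by omega) hL
        omega
      · exact mul_le_mul_of_nonneg_left (four_sq d hd g) (by positivity)
    have h8 : (∑ j ∈ range H, ∑ i ∈ range H, Φ ((j : ℤ) - (i : ℤ))) / (H : ℝ) ^ 2 ≤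
        1 / H * ((2 * L * ∑ y, g y) ^ 2 + 2 * L * (2 * T * (q * ∑ y, g y ^ 2))) := by
      rw [div_le_iff₀ (by positivity)]
      have e1 : 1 / (H : ℝ) * ((2 * L * ∑ y, g y) ^ 2 + 2 * L * (2 * T * (q * ∑ y, g y ^ 2))) *
          (H : ℝ) ^ 2 = H * ((2 * L * ∑ y, g y) ^ 2 + 2 * L * (2 * T * (q * ∑ y, g y ^ 2))) := by
        field_simp
      rw [e1]
      exact h4.trans (mul_le_mul_of_nonneg_left (add_le_add h5 h6) hH0.le)
    have h9 : 0 ≤ (2 * L * ∑ y, g y) ^ 2 + 2 * L * (2 * T * (q * ∑ y, g y ^ 2)) := by positivity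
    have h10 := mul_le_mul_of_nonneg_right hHd h9
    have h11 : 8 * (L : ℝ) / d * ((2 * L * ∑ y, g y) ^ 2 + 2 * L * (2 * T * (q * ∑ y, g y ^ 2))) =
        32 * ((L : ℝ) ^ 3 / d * (∑ y, g y) ^ 2) + 32 * (T * (L : ℝ) ^ 2 / d * (q * ∑ y, g y ^ 2)) := by
      field_simp
      ring
    have h12 : 0 ≤ (L : ℝ) ^ 3 / d * (∑ y, g y) ^ 2 := by positivity
    have h13 : 0 ≤ T * (L : ℝ) ^ 2 / d * (q * ∑ y, g y ^ 2) := by positivity
    have h14 : ∑ a ∈ A L, ∑ b ∈ A L, ∑ c ∈ A L, ∑ y : (ZMod q)ˣ, ∑ z : (ZMod q)ˣ,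
        (if (a : ZMod d) * red d y + (b : ZMod d) * red d z + (c : ZMod d) = 0
          then g y * g z else 0) ≤ 2 * ∑ a ∈ A L, ∑ b ∈ A L, ∑ y : (ZMod q)ˣ, ∑ z : (ZMod q)ˣ,
          g y * g z * K d H ((a : ZMod d) * red d y + (b : ZMod d) * red d z) := by
      rw [Finset.mul_sum]
      refine Finset.sum_le_sum fun a _ => ?_
      rw [Finset.mul_sum]
      exact Finset.sum_le_sum fun b _ => h1 a b
    linarith

end Pool.Agent.Helper88.LV
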