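import Pool.Agent.Helper88.LV.Orth
import Pool.Agent.Helper88.LV.Pair
import Pool.Agent.Helper88.LV.Triple
import Pool.Agent.Helper88.LV.Second
import Pool.Agent.Helper88.LV.Ram

/-!
# LV-6b, LV-7: the bounds for the cubic and the quadratic sum

PROOF of `T3_le`. For each `d ∣ q`, Cauchy: the five-fold sum in `T3_le_sum` is at most
`(∑ [..] f(y) f(z))^{1/2} (∑ [..] f(z y⁻¹))^{1/2}`; `triple_count` and `second_count` with `L = J`, `g = f W`,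
`sum_f`, `sum_f_sq`, `card_units_le`, `T ≥ 1`: first `≤ (100 T/d) q² J³ (r² + E/J)`, second `≤ (12 T/d) q² J³ r`; the
product of the roots `≤ 35 (T/d) q² J³ √(r³ + r E/J)` (`1200 ≤ 35²`). Times `d/J³`, and there are at most `T`
divisors `d`.
PROOF of `T2_le`. `pair_count` with `L = J`: `≤ (1/J²) ∑_{d ∣ q} d 100 ((J²/d) φ r + T J √((q/d) φ E))`
`≤ 100 ∑_d (q r + (T/J) √(q³ E))`.
-/

set_option autoImplicit false

namespace Pool.Agent.Helper88.LV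

open Finset

variable {q : ℕ} [NeZero q]

private lemma inner3_5 (W : Finset (DirichletCharacter ℂ q)) (J : ℕ) (hJ : 1 ≤ J) (hJq : J ≤ q)
    (T : ℝ) (hT1 : 1 ≤ T) (hT : ∀ n : ℕ, 1 ≤ n → n ≤ q → ((n.divisors.card : ℕ) : ℝ) ≤ T)
    (d : ℕ) (hd : d ∈ q.divisors) :
    (d : ℝ) * ∑ a ∈ A J, ∑ b ∈ A J, ∑ c ∈ A J, ∑ y : (ZMod q)ˣ, ∑ z : (ZMod q)ˣ,
        (if (a : ZMod d) * red d y + (b : ZMod d) * red d z + (c : ZMod d) = 0
          then ‖R W y‖ * ‖R W z‖ * ‖R W (z * y⁻¹)‖ else 0) ≤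
      35 * T * (q : ℝ) ^ 2 * (J : ℝ) ^ 3 *
        Real.sqrt ((W.card : ℝ) ^ 3 + W.card * (En W : ℝ) / J) := by
  classical
  have hdq : d ∣ q := (Nat.mem_divisors.1 hd).1
  have hd0 : d ≠ 0 := fun h => by
    rw [h] at hdq
    exact NeZero.ne q (Nat.eq_zero_of_zero_dvd hdq)
  haveI : NeZero d := ⟨hd0⟩
  have hdpos : (0 : ℝ) < d := by exact_mod_cast Nat.pos_of_ne_zero hd0
  have hqpos : (0 : ℝ) < q := by exact_mod_cast Nat.pos_of_ne_zero (NeZero.ne q)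
  have hJpos : (0 : ℝ) < J := by exact_mod_cast hJ
  have hTpos : (0 : ℝ) < T := by linarith
  set r : ℝ := (W.card : ℝ) with hr
  set E : ℝ := (En W : ℝ) with hE
  have hr0 : 0 ≤ r := Nat.cast_nonneg _
  have hE0 : 0 ≤ E := Nat.cast_nonneg _
  have hc := card_units_le (q := q)
  have hc0 : (0 : ℝ) ≤ (Fintype.card (ZMod q)ˣ : ℝ) := Nat.cast_nonneg _
  have h1 := triple_count d hdq J hJ T hT1 hT (f W) (f_nonneg W)
  have h2 := second_count d hdq J hJ hJq T hT1 hT (f W) (f_nonneg W)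
  rw [sum_f, sum_f_sq] at h1
  rw [sum_f] at h2
  set X : ℝ := ∑ a ∈ A J, ∑ b ∈ A J, ∑ c ∈ A J, ∑ y : (ZMod q)ˣ, ∑ z : (ZMod q)ˣ,
        (if (a : ZMod d) * red d y + (b : ZMod d) * red d z + (c : ZMod d) = 0
          then ‖R W y‖ * ‖R W z‖ * ‖R W (z * y⁻¹)‖ else 0) with hX
  set S1 : ℝ := ∑ a ∈ A J, ∑ b ∈ A J, ∑ c ∈ A J, ∑ y : (ZMod q)ˣ, ∑ z : (ZMod q)ˣ,
        (if (a : ZMod d) * red d y + (b : ZMod d) * red d z + (c : ZMod d) = 0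
          then f W y * f W z else 0) with hS1
  set S2 : ℝ := ∑ a ∈ A J, ∑ b ∈ A J, ∑ c ∈ A J, ∑ y : (ZMod q)ˣ, ∑ z : (ZMod q)ˣ,
        (if (a : ZMod d) * red d y + (b : ZMod d) * red d z + (c : ZMod d) = 0
          then f W (z * y⁻¹) else 0) with hS2
  have hcs : X ^ 2 ≤ S1 * S2 := by
    let I : Finset (ℤ × ℤ × ℤ × (ZMod q)ˣ × (ZMod q)ˣ) :=
      A J ×ˢ (A J ×ˢ (A J ×ˢ ((univ : Finset (ZMod q)ˣ) ×ˢ (univ : Finset (ZMod q)ˣ))))
    let u : ℤ × ℤ × ℤ × (ZMod q)ˣ × (ZMod q)ˣ → ℝ := fun p =>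
      if (p.1 : ZMod d) * red d p.2.2.2.1 + (p.2.1 : ZMod d) * red d p.2.2.2.2
        + (p.2.2.1 : ZMod d) = 0 then ‖R W p.2.2.2.1‖ * ‖R W p.2.2.2.2‖ else 0
    let v : ℤ × ℤ × ℤ × (ZMod q)ˣ × (ZMod q)ˣ → ℝ := fun p =>
      if (p.1 : ZMod d) * red d p.2.2.2.1 + (p.2.1 : ZMod d) * red d p.2.2.2.2
        + (p.2.2.1 : ZMod d) = 0 then ‖R W (p.2.2.2.2 * p.2.2.2.1⁻¹)‖ else 0
    have hx : X = ∑ p ∈ I, u p * v p := by
      simp only [I, Finset.sum_product, hX]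
      refine sum_congr rfl fun a _ => sum_congr rfl fun b _ => sum_congr rfl fun c _ =>
        sum_congr rfl fun y _ => sum_congr rfl fun z _ => ?_
      simp only [u, v]
      split_ifs <;> ring
    have hs1 : S1 = ∑ p ∈ I, u p ^ 2 := by
      simp only [I, Finset.sum_product, hS1]
      refine sum_congr rfl fun a _ => sum_congr rfl fun b _ => sum_congr rfl fun c _ =>
        sum_congr rfl fun y _ => sum_congr rfl fun z _ => ?_
      simp only [u, f]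
      split_ifs <;> ring
    have hs2 : S2 = ∑ p ∈ I, v p ^ 2 := by
      simp only [I, Finset.sum_product, hS2]
      refine sum_congr rfl fun a _ => sum_congr rfl fun b _ => sum_congr rfl fun c _ =>
        sum_congr rfl fun y _ => sum_congr rfl fun z _ => ?_
      simp only [v, f]
      split_ifs <;> ring
    rw [hx, hs1, hs2]
    exact Finset.sum_mul_sq_le_sq_mul_sq I u v
  have hS20 : 0 ≤ S2 := by
    rw [hS2]
    refine sum_nonneg fun a _ => sum_nonneg fun b _ => sum_nonneg fun c _ =>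
        sum_nonneg fun y _ => sum_nonneg fun z _ => ?_
    split_ifs
    · exact f_nonneg _ _
    · exact le_rfl
  have hX0 : 0 ≤ X := by
    rw [hX]
    refine sum_nonneg fun a _ => sum_nonneg fun b _ => sum_nonneg fun c _ =>
        sum_nonneg fun y _ => sum_nonneg fun z _ => ?_
    split_ifs
    · positivity
    · exact le_rfl
  have hb1 : S1 ≤ 100 * (T / d * q ^ 2 * J ^ 3 * (r ^ 2 + E / J)) := by
    refine h1.trans (mul_le_mul_of_nonneg_left ?_ (by norm_num))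
    have e1 : (J : ℝ) ^ 3 / d * ((Fintype.card (ZMod q)ˣ : ℝ) * r) ^ 2 ≤
        T / d * q ^ 2 * J ^ 3 * r ^ 2 := by
      have : ((Fintype.card (ZMod q)ˣ : ℝ) * r) ^ 2 ≤ (q * r) ^ 2 := by
        gcongr
      calc (J : ℝ) ^ 3 / d * ((Fintype.card (ZMod q)ˣ : ℝ) * r) ^ 2
          ≤ (J : ℝ) ^ 3 / d * (q * r) ^ 2 := by gcongr
        _ = 1 * ((J : ℝ) ^ 3 / d * (q * r) ^ 2) := by ring
        _ ≤ T * ((J : ℝ) ^ 3 / d * (q * r) ^ 2) := by gcongr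
        _ = T / d * q ^ 2 * J ^ 3 * r ^ 2 := by ring
    have e2 : T * (J : ℝ) ^ 2 / d * (q * ((Fintype.card (ZMod q)ˣ : ℝ) * E)) ≤
        T / d * q ^ 2 * J ^ 3 * (E / J) := by
      calc T * (J : ℝ) ^ 2 / d * (q * ((Fintype.card (ZMod q)ˣ : ℝ) * E))
          ≤ T * (J : ℝ) ^ 2 / d * (q * (q * E)) := by gcongr
        _ = T / d * q ^ 2 * J ^ 3 * (E / J) := by
            field_simp
    calc _ ≤ T / d * q ^ 2 * J ^ 3 * r ^ 2 + T / d * q ^ 2 * J ^ 3 * (E / J) := add_le_add e1 e2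
      _ = _ := by ring
  have hb2 : S2 ≤ 12 * (T / d * q ^ 2 * J ^ 3 * r) := by
    refine h2.trans ?_
    calc 12 * T * ((q : ℝ) / d) * (J : ℝ) ^ 3 * ((Fintype.card (ZMod q)ˣ : ℝ) * r)
        ≤ 12 * T * ((q : ℝ) / d) * (J : ℝ) ^ 3 * (q * r) := by gcongr
      _ = 12 * (T / d * q ^ 2 * J ^ 3 * r) := by ring
  have hG : r ^ 3 + r * E / J = r * (r ^ 2 + E / J) := by ring
  have hG0 : 0 ≤ r ^ 3 + r * E / J := by positivity
  have hfin : X ≤ 35 * (T / d * q ^ 2 * J ^ 3) * Real.sqrt (r ^ 3 + r * E / J) := by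
    refine le_of_sq_le_sq ?_ (by positivity)
    rw [mul_pow, Real.sq_sqrt hG0, hG]
    calc X ^ 2 ≤ S1 * S2 := hcs
      _ ≤ (100 * (T / d * q ^ 2 * J ^ 3 * (r ^ 2 + E / J))) * (12 * (T / d * q ^ 2 * J ^ 3 * r)) :=
          mul_le_mul hb1 hb2 hS20 (by positivity)
      _ = 1200 * ((T / d * q ^ 2 * J ^ 3) ^ 2 * (r * (r ^ 2 + E / J))) := by ring
      _ ≤ 1225 * ((T / d * q ^ 2 * J ^ 3) ^ 2 * (r * (r ^ 2 + E / J))) := by
          gcongr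
          norm_num
      _ = _ := by ring
  calc (d : ℝ) * X ≤ d * (35 * (T / d * q ^ 2 * J ^ 3) * Real.sqrt (r ^ 3 + r * E / J)) := by
        gcongr
    _ = _ := by
        field_simp

private lemma inner2_5 (W : Finset (DirichletCharacter ℂ q)) (J : ℕ) (hJ : 1 ≤ J)
    (T : ℝ) (hT1 : 1 ≤ T) (hT : ∀ n : ℕ, 1 ≤ n → n ≤ q → ((n.divisors.card : ℕ) : ℝ) ≤ T)
    (d : ℕ) (hd : d ∈ q.divisors) :
    (d : ℝ) * ∑ a ∈ A J, ∑ c ∈ A J, ∑ y : (ZMod q)ˣ,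
        (if (a : ZMod d) * red d y + (c : ZMod d) = 0 then f W y else 0) ≤
      100 * (J : ℝ) ^ 2 * (q * W.card + T * Real.sqrt ((q : ℝ) ^ 3 * En W) / J) := by
  classical
  have hdq : d ∣ q := (Nat.mem_divisors.1 hd).1
  have hd0 : d ≠ 0 := fun h => by
    rw [h] at hdq
    exact NeZero.ne q (Nat.eq_zero_of_zero_dvd hdq)
  haveI : NeZero d := ⟨hd0⟩
  have hdpos : (0 : ℝ) < d := by exact_mod_cast Nat.pos_of_ne_zero hd0
  have hqpos : (0 : ℝ) < q := by exact_mod_cast Nat.pos_of_ne_zero (NeZero.ne q)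
  have hdleq : (d : ℝ) ≤ q := by
    exact_mod_cast Nat.le_of_dvd (Nat.pos_of_ne_zero (NeZero.ne q)) hdq
  have hJpos : (0 : ℝ) < J := by exact_mod_cast hJ
  have hTpos : (0 : ℝ) < T := by linarith
  set r : ℝ := (W.card : ℝ) with hr
  set E : ℝ := (En W : ℝ) with hE
  have hr0 : 0 ≤ r := Nat.cast_nonneg _
  have hE0 : 0 ≤ E := Nat.cast_nonneg _
  have hc := card_units_le (q := q)
  have hc0 : (0 : ℝ) ≤ (Fintype.card (ZMod q)ˣ : ℝ) := Nat.cast_nonneg _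
  have h1 := pair_count d hdq J hJ T hT1 hT (f W) (f_nonneg W)
  rw [sum_f, sum_f_sq] at h1
  have e1 : (J : ℝ) ^ 2 / d * ((Fintype.card (ZMod q)ˣ : ℝ) * r) ≤ (J : ℝ) ^ 2 / d * (q * r) := by
    gcongr
  have e2 : (d : ℝ) * Real.sqrt ((q : ℝ) / d * ((Fintype.card (ZMod q)ˣ : ℝ) * E)) ≤
      Real.sqrt ((q : ℝ) ^ 3 * E) := by
    have : (d : ℝ) = Real.sqrt ((d : ℝ) ^ 2) := (Real.sqrt_sq hdpos.le).symm
    rw [this, ← Real.sqrt_mul (by positivity)]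
    rw [← this]
    apply Real.sqrt_le_sqrt
    calc (d : ℝ) ^ 2 * ((q : ℝ) / d * ((Fintype.card (ZMod q)ˣ : ℝ) * E))
        = d * (q * ((Fintype.card (ZMod q)ˣ : ℝ) * E)) := by
          field_simp
      _ ≤ q * (q * (q * E)) := by gcongr
      _ = (q : ℝ) ^ 3 * E := by ring
  calc (d : ℝ) * ∑ a ∈ A J, ∑ c ∈ A J, ∑ y : (ZMod q)ˣ,
        (if (a : ZMod d) * red d y + (c : ZMod d) = 0 then f W y else 0)
      ≤ d * (100 * ((J : ℝ) ^ 2 / d * ((Fintype.card (ZMod q)ˣ : ℝ) * r) +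
          T * J * Real.sqrt ((q : ℝ) / d * ((Fintype.card (ZMod q)ˣ : ℝ) * E)))) := by
        gcongr
    _ = 100 * (d * ((J : ℝ) ^ 2 / d * ((Fintype.card (ZMod q)ˣ : ℝ) * r)) +
          T * J * (d * Real.sqrt ((q : ℝ) / d * ((Fintype.card (ZMod q)ˣ : ℝ) * E)))) := by ring
    _ ≤ 100 * (d * ((J : ℝ) ^ 2 / d * (q * r)) + T * J * Real.sqrt ((q : ℝ) ^ 3 * E)) := by
        gcongr
    _ = 100 * (J : ℝ) ^ 2 * (q * r + T * Real.sqrt ((q : ℝ) ^ 3 * E) / J) := by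
        field_simp

theorem T3_le (W : Finset (DirichletCharacter ℂ q)) (κ : ℤ → ℂ) (J : ℕ) (hJ : 1 ≤ J) (hJq : J ≤ q)
    (hκ : ∀ m ∈ A J, ‖κ m‖ ≤ 1 / J)
    (T : ℝ) (hT1 : 1 ≤ T) (hT : ∀ n : ℕ, 1 ≤ n → n ≤ q → ((n.divisors.card : ℕ) : ℝ) ≤ T) :
    ‖T3 W κ J‖ ≤ 35 * T ^ 2 * (q : ℝ) ^ 2 *
      Real.sqrt ((W.card : ℝ) ^ 3 + W.card * (En W : ℝ) / J) := by
  have hqpos : 0 < q := Nat.pos_of_ne_zero (NeZero.ne q)
  have hJpos : (0 : ℝ) < J := by exact_mod_cast hJ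
  have hTpos : (0 : ℝ) < T := by linarith
  have hcard : ((q.divisors.card : ℕ) : ℝ) ≤ T := hT q hqpos le_rfl
  set G : ℝ := Real.sqrt ((W.card : ℝ) ^ 3 + W.card * (En W : ℝ) / J) with hG
  have hG0 : 0 ≤ G := Real.sqrt_nonneg _
  refine (T3_le_sum W κ J hJ hκ).trans ?_
  have h1 := Finset.sum_le_sum (fun d hd => inner3_5 W J hJ hJq T hT1 hT d hd)
  rw [Finset.sum_const, nsmul_eq_mul] at h1
  calc _ ≤ 1 / (J : ℝ) ^ 3 * ((q.divisors.card : ℝ) * (35 * T * (q : ℝ) ^ 2 * (J : ℝ) ^ 3 * G)) :=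
        mul_le_mul_of_nonneg_left h1 (by positivity)
    _ ≤ 1 / (J : ℝ) ^ 3 * (T * (35 * T * (q : ℝ) ^ 2 * (J : ℝ) ^ 3 * G)) := by gcongr
    _ = 35 * T ^ 2 * (q : ℝ) ^ 2 * G := by
        field_simp

theorem T2_le (W : Finset (DirichletCharacter ℂ q)) (κ : ℤ → ℂ) (J : ℕ) (hJ : 1 ≤ J) (hJq : J ≤ q)
    (hκ : ∀ m ∈ A J, ‖κ m‖ ≤ 1 / J)
    (T : ℝ) (hT1 : 1 ≤ T) (hT : ∀ n : ℕ, 1 ≤ n → n ≤ q → ((n.divisors.card : ℕ) : ℝ) ≤ T) :
    ‖T2 W κ J‖ ≤ 100 * T * (q * W.card + T * Real.sqrt ((q : ℝ) ^ 3 * En W) / J) := by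
  have hqpos : 0 < q := Nat.pos_of_ne_zero (NeZero.ne q)
  have hJpos : (0 : ℝ) < J := by exact_mod_cast hJ
  have hTpos : (0 : ℝ) < T := by linarith
  have hcard : ((q.divisors.card : ℕ) : ℝ) ≤ T := hT q hqpos le_rfl
  set G : ℝ := q * W.card + T * Real.sqrt ((q : ℝ) ^ 3 * En W) / J with hG
  have hG0 : 0 ≤ G := by positivity
  refine (T2_le_sum W κ J hJ hκ).trans ?_
  have h1 := Finset.sum_le_sum (fun d hd => inner2_5 W J hJ T hT1 hT d hd)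
  rw [Finset.sum_const, nsmul_eq_mul] at h1
  calc _ ≤ 1 / (J : ℝ) ^ 2 * ((q.divisors.card : ℝ) * (100 * (J : ℝ) ^ 2 * G)) :=
        mul_le_mul_of_nonneg_left h1 (by positivity)
    _ ≤ 1 / (J : ℝ) ^ 2 * (T * (100 * (J : ℝ) ^ 2 * G)) := by gcongr
    _ = 100 * T * G := by
        field_simp

end Pool.Agent.Helper88.LV
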