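import Pool.Agent.Helper88.LV.Fejer
import Pool.Agent.Helper88.LV.Four

/-!
# LV-16: the second moment of the number of affine relations

`G1 y = ∑_{a,b,c ∈ A L} ∑_z [a y + b z + c = 0 (d)] g(z)`. PROOF of `G1_sq`. `d ≤ 8 L`: `count_class`. `d > 8 L`:
`G1 y ≤ 2 ∑_{a,b} ∑_z g(z) K(a y + b z) = (2/H²) ∑_{|h|<H} (H-|h|) B(h) ∑_a e(h a y/d)`, `B(h) = ∑_b F_d(h b)`. The term
`h = 0` is `≤ (2/H)(2L)² ∑ g`; for the others Parseval in `y` modulo `d`, with at most `2T` pairs `h a` in a class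
(`hits`), then Cauchy in `b`, `hits` again and `four_sq`.
-/

set_option autoImplicit false

namespace Pool.Agent.Helper88.LV

open Finset

private lemma card_A_88 (L : ℕ) : ((A L).card : ℝ) ≤ 2 * L := by
  have h0 : (0 : ℤ) ∈ Finset.Icc (-(L : ℤ)) L := by
    rw [mem_Icc]
    omega
  have h1 : (A L).card = 2 * L := by
    unfold A
    rw [card_erase_of_mem h0, Int.card_Icc]
    omega
  rw [h1]
  push_cast
  exact le_rfl

private theorem card_red_88 {q : ℕ} [NeZero q] (d : ℕ) [NeZero d] (hd : d ∣ q) (w : ZMod d) :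
    ((univ : Finset (ZMod q)ˣ).filter (fun z => red d z = w)).card ≤ q / d := by
  have hd0 : 0 < d := Nat.pos_of_ne_zero (NeZero.ne d)
  rw [← card_range (q / d)]
  refine Finset.card_le_card_of_injOn (fun z => (z : ZMod q).val / d) ?_ ?_
  · intro z _
    simp only [coe_range, Set.mem_Iio]
    exact Nat.div_lt_div_of_lt_of_dvd hd (ZMod.val_lt _)
  · intro z hz z' hz' h
    simp only [coe_filter, mem_univ, true_and, Set.mem_ofPred_eq] at hz hz'
    have h1 : (((z : ZMod q).val : ℕ) : ZMod d) = (((z' : ZMod q).val : ℕ) : ZMod d) := hz.trans hz'.symm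
    rw [ZMod.natCast_eq_natCast_iff'] at h1
    have h2 : (z : ZMod q).val / d = (z' : ZMod q).val / d := h
    have h3 : (z : ZMod q).val = (z' : ZMod q).val := by
      rw [← Nat.div_add_mod (z : ZMod q).val d, ← Nat.div_add_mod (z' : ZMod q).val d, h1, h2]
    exact Units.ext (ZMod.val_injective q h3)

/-- Parseval with repeated frequencies. -/
theorem dual_sum {ι : Type*} (d : ℕ) [NeZero d] (P : Finset ι) (ν : ι → ZMod d) (c : ι → ℂ) (B : ℝ)
    (hB : ∀ n : ZMod d, ((P.filter (fun p => ν p = n)).card : ℝ) ≤ B) :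
    ∑ s : ZMod d, ‖∑ p ∈ P, c p * ZMod.stdAddChar (ν p * s)‖ ^ 2 ≤ d * B * ∑ p ∈ P, ‖c p‖ ^ 2 := by
  classical
  have hd0 : (0 : ℝ) < d := Nat.cast_pos.2 (Nat.pos_of_ne_zero (NeZero.ne d))
  have h1 : ((∑ s : ZMod d, ‖∑ p ∈ P, c p * ZMod.stdAddChar (ν p * s)‖ ^ 2 : ℝ) : ℂ) =
      ∑ p ∈ P, ∑ p' ∈ P, if ν p = ν p' then (d : ℂ) * (c p * (starRingEnd ℂ) (c p')) else 0 := by
    push_cast
    have h2 : ∀ s : ZMod d, ((‖∑ p ∈ P, c p * ZMod.stdAddChar (ν p * s)‖ : ℂ)) ^ 2 =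
        ∑ p ∈ P, ∑ p' ∈ P, (c p * (starRingEnd ℂ) (c p')) * ZMod.stdAddChar (s * (ν p - ν p')) := by
      intro s
      rw [← Complex.mul_conj', map_sum, Finset.sum_mul_sum]
      refine Finset.sum_congr rfl fun p _ => Finset.sum_congr rfl fun p' _ => ?_
      have e1 : (starRingEnd ℂ) (c p' * ZMod.stdAddChar (ν p' * s)) =
          (starRingEnd ℂ) (c p') * ZMod.stdAddChar (-(ν p' * s)) := by
        rw [map_mul, AddChar.map_neg_eq_conj]
      have e2 : s * (ν p - ν p') = ν p * s + -(ν p' * s) := by ring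
      rw [e1, e2, AddChar.map_add_eq_mul]
      ring
    rw [Finset.sum_congr rfl fun s _ => h2 s, Finset.sum_comm]
    refine Finset.sum_congr rfl fun p _ => ?_
    rw [Finset.sum_comm]
    refine Finset.sum_congr rfl fun p' _ => ?_
    rw [← Finset.mul_sum, AddChar.sum_mulShift _ (ZMod.isPrimitive_stdAddChar d)]
    by_cases h : ν p = ν p'
    · rw [if_pos (sub_eq_zero.2 h), if_pos h, ZMod.card]
      ring
    · rw [if_neg (sub_ne_zero.2 h), if_neg h]
      simp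
  have h3 : ∑ s : ZMod d, ‖∑ p ∈ P, c p * ZMod.stdAddChar (ν p * s)‖ ^ 2 ≤
      ∑ p ∈ P, ∑ p' ∈ P, if ν p = ν p' then (d : ℝ) * (‖c p‖ * ‖c p'‖) else 0 := by
    have e0 : 0 ≤ ∑ s : ZMod d, ‖∑ p ∈ P, c p * ZMod.stdAddChar (ν p * s)‖ ^ 2 :=
      Finset.sum_nonneg fun s _ => sq_nonneg _
    have e1 : ∑ s : ZMod d, ‖∑ p ∈ P, c p * ZMod.stdAddChar (ν p * s)‖ ^ 2 =
        ‖((∑ s : ZMod d, ‖∑ p ∈ P, c p * ZMod.stdAddChar (ν p * s)‖ ^ 2 : ℝ) : ℂ)‖ := by
      rw [Complex.norm_real, Real.norm_of_nonneg e0]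
    rw [e1, h1]
    refine (norm_sum_le _ _).trans (Finset.sum_le_sum fun p _ => ?_)
    refine (norm_sum_le _ _).trans (Finset.sum_le_sum fun p' _ => ?_)
    split_ifs
    · rw [norm_mul, norm_mul, Complex.norm_natCast, RCLike.norm_conj]
    · rw [norm_zero]
  refine h3.trans ?_
  have h4 : ∀ p p' : ι, (if ν p = ν p' then (d : ℝ) * (‖c p‖ * ‖c p'‖) else 0) ≤
      (if ν p' = ν p then (d : ℝ) * ‖c p‖ ^ 2 / 2 else 0) +
      (if ν p = ν p' then (d : ℝ) * ‖c p'‖ ^ 2 / 2 else 0) := by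
    intro p p'
    by_cases h : ν p = ν p'
    · rw [if_pos h, if_pos h.symm, if_pos h]
      nlinarith [mul_nonneg hd0.le (sq_nonneg (‖c p‖ - ‖c p'‖))]
    · rw [if_neg h, if_neg fun h' => h h'.symm, if_neg h, add_zero]
  have h5 : ∀ p : ι, (∑ p' ∈ P, if ν p' = ν p then (d : ℝ) * ‖c p‖ ^ 2 / 2 else 0) ≤
      d * B * ‖c p‖ ^ 2 / 2 := by
    intro p
    rw [← Finset.sum_filter, Finset.sum_const, nsmul_eq_mul]
    have h8 : 0 ≤ (d : ℝ) * ‖c p‖ ^ 2 / 2 := by positivity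
    have h9 := mul_le_mul_of_nonneg_right (hB (ν p)) h8
    linarith
  calc (∑ p ∈ P, ∑ p' ∈ P, if ν p = ν p' then (d : ℝ) * (‖c p‖ * ‖c p'‖) else 0)
      ≤ ∑ p ∈ P, ∑ p' ∈ P, ((if ν p' = ν p then (d : ℝ) * ‖c p‖ ^ 2 / 2 else 0) +
      (if ν p = ν p' then (d : ℝ) * ‖c p'‖ ^ 2 / 2 else 0)) :=
        Finset.sum_le_sum fun p _ => Finset.sum_le_sum fun p' _ => h4 p p'
    _ = (∑ p ∈ P, ∑ p' ∈ P, if ν p' = ν p then (d : ℝ) * ‖c p‖ ^ 2 / 2 else 0) +
        ∑ p' ∈ P, ∑ p ∈ P, (if ν p = ν p' then (d : ℝ) * ‖c p'‖ ^ 2 / 2 else 0) := by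
        have e : (∑ p' ∈ P, ∑ p ∈ P, (if ν p = ν p' then (d : ℝ) * ‖c p'‖ ^ 2 / 2 else 0)) =
            ∑ p ∈ P, ∑ p' ∈ P, (if ν p = ν p' then (d : ℝ) * ‖c p'‖ ^ 2 / 2 else 0) :=
          Finset.sum_comm
        refine Eq.trans ?_ (congrArg₂ (· + ·) rfl e.symm)
        show _ = _ + _
        rw [← Finset.sum_add_distrib]
        exact Finset.sum_congr rfl fun y _ => Finset.sum_add_distrib
    _ ≤ (∑ p ∈ P, d * B * ‖c p‖ ^ 2 / 2) + ∑ p ∈ P, d * B * ‖c p‖ ^ 2 / 2 :=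
        add_le_add (Finset.sum_le_sum fun p _ => h5 p) (Finset.sum_le_sum fun p _ => h5 p)
    _ = d * B * ∑ p ∈ P, ‖c p‖ ^ 2 := by
        rw [← Finset.sum_add_distrib, Finset.mul_sum]
        exact Finset.sum_congr rfl fun y _ => by ring

/-- The number of affine relations with the fixed point `y`. -/
noncomputable def G1 {q : ℕ} [NeZero q] (d : ℕ) (L : ℕ) (g : (ZMod q)ˣ → ℝ) (y : (ZMod q)ˣ) : ℝ :=
  ∑ a ∈ A L, ∑ b ∈ A L, ∑ c ∈ A L, ∑ z : (ZMod q)ˣ,
    (if (a : ZMod d) * red d y + (b : ZMod d) * red d z + (c : ZMod d) = 0 then g z else 0)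

theorem G1_nonneg {q : ℕ} [NeZero q] (d : ℕ) (L : ℕ) (g : (ZMod q)ˣ → ℝ) (hg : ∀ y, 0 ≤ g y)
    (y : (ZMod q)ˣ) : 0 ≤ G1 d L g y := by
  unfold G1
  refine sum_nonneg fun a _ => sum_nonneg fun b _ => sum_nonneg fun c _ => sum_nonneg fun z _ => ?_
  split_ifs
  · exact hg z
  · exact le_rfl

private lemma sum_abs_88 {q : ℕ} [NeZero q] (d : ℕ) [NeZero d] (hd : d ∣ q) (F : ZMod d → ℝ)
    (hF : ∀ s, 0 ≤ F s) : ∑ y : (ZMod q)ˣ, F (red d y) ≤ (q : ℝ) / d * ∑ s : ZMod d, F s := by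
  classical
  have hd0 : (0 : ℝ) < d := Nat.cast_pos.2 (Nat.pos_of_ne_zero (NeZero.ne d))
  rw [← Finset.sum_fiberwise (univ : Finset (ZMod q)ˣ) (fun y => red d y) (fun y => F (red d y)),
    Finset.mul_sum]
  refine Finset.sum_le_sum fun s _ => ?_
  have h1 : ∑ y ∈ (univ : Finset (ZMod q)ˣ).filter (fun y => red d y = s), F (red d y) =
      (((univ : Finset (ZMod q)ˣ).filter (fun y => red d y = s)).card : ℝ) * F s := by
    rw [← nsmul_eq_mul, ← Finset.sum_const]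
    refine Finset.sum_congr rfl fun y hy => ?_
    rw [(Finset.mem_filter.1 hy).2]
  rw [h1]
  refine mul_le_mul_of_nonneg_right ?_ (hF s)
  rw [le_div_iff₀ hd0]
  have h7 := Nat.mul_le_mul_right d (card_red_88 d hd s)
  rw [Nat.div_mul_cancel hd] at h7
  exact_mod_cast h7

/-- the weight and the Fourier coefficients -/
private lemma K_sum1_88 {q : ℕ} [NeZero q] (d : ℕ) [NeZero d] (H : ℕ) (g : (ZMod q)ˣ → ℝ) (a b : ℤ)
    (s : ZMod d) :
    ((∑ z : (ZMod q)ˣ, g z * K d H ((a : ZMod d) * s + (b : ZMod d) * red d z) : ℝ) : ℂ) =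
      (∑ j ∈ range H, ∑ i ∈ range H, Fd d g ((((j : ℤ) - (i : ℤ)) * b : ℤ) : ZMod d) *
        ZMod.stdAddChar (((((j : ℤ) - (i : ℤ)) * a : ℤ) : ZMod d) * s)) / (H : ℂ) ^ 2 := by
  push_cast
  simp only [K_eq]
  have e1 : ∀ j i : ℕ, Fd d g (((j : ZMod d) - (i : ZMod d)) * (b : ZMod d)) *
      ZMod.stdAddChar (((j : ZMod d) - (i : ZMod d)) * (a : ZMod d) * s) =
      ∑ z : (ZMod q)ˣ, (g z : ℂ) *
        ZMod.stdAddChar (((j : ZMod d) - (i : ZMod d)) *
          ((a : ZMod d) * s + (b : ZMod d) * red d z)) := by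
    intro j i
    unfold Fd
    rw [Finset.sum_mul]
    refine Finset.sum_congr rfl fun z _ => ?_
    have e2 : ((j : ZMod d) - (i : ZMod d)) * ((a : ZMod d) * s + (b : ZMod d) * red d z) =
        ((j : ZMod d) - (i : ZMod d)) * (b : ZMod d) * red d z +
          ((j : ZMod d) - (i : ZMod d)) * (a : ZMod d) * s := by ring
    rw [e2, AddChar.map_add_eq_mul]
    ring
  simp only [e1]
  simp only [← mul_div_assoc, ← Finset.sum_div, Finset.mul_sum]
  congr 1
  calc ∑ z : (ZMod q)ˣ, ∑ j ∈ range H, ∑ i ∈ range H, (g z : ℂ) *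
        ZMod.stdAddChar (((j : ZMod d) - (i : ZMod d)) *
          ((a : ZMod d) * s + (b : ZMod d) * red d z)) =
      ∑ j ∈ range H, ∑ z : (ZMod q)ˣ, ∑ i ∈ range H, (g z : ℂ) *
        ZMod.stdAddChar (((j : ZMod d) - (i : ZMod d)) *
          ((a : ZMod d) * s + (b : ZMod d) * red d z)) := Finset.sum_comm
    _ = _ := Finset.sum_congr rfl fun j _ => Finset.sum_comm

private theorem card_diff88 (H : ℕ) (m : ℤ) (hm : |m| ≤ H) :
    ((range H ×ˢ range H).filter fun p : ℕ × ℕ => (p.1 : ℤ) - (p.2 : ℤ) = m).card = ((H : ℤ) - |m|).toNat := by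
  rcases le_total 0 m with h | h
  · rw [abs_of_nonneg h] at hm ⊢
    rw [← Finset.card_range ((H : ℤ) - m).toNat]
    refine Finset.card_nbij' (fun p => p.2) (fun t => (t + m.toNat, t)) ?_ ?_ ?_ ?_
    · intro p hp
      rw [Finset.mem_coe, Finset.mem_filter, Finset.mem_product, Finset.mem_range, Finset.mem_range] at hp
      rw [Finset.mem_coe, Finset.mem_range]
      dsimp only
      omega
    · intro t ht
      rw [Finset.mem_coe, Finset.mem_range] at ht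
      rw [Finset.mem_coe, Finset.mem_filter, Finset.mem_product, Finset.mem_range, Finset.mem_range]
      dsimp only
      omega
    · intro p hp
      rw [Finset.mem_coe, Finset.mem_filter, Finset.mem_product, Finset.mem_range, Finset.mem_range] at hp
      refine Prod.ext ?_ rfl
      dsimp only
      omega
    · intro t _
      rfl
  · rw [abs_of_nonpos h] at hm ⊢
    rw [← Finset.card_range ((H : ℤ) - -m).toNat]
    refine Finset.card_nbij' (fun p => p.1) (fun t => (t, t + (-m).toNat)) ?_ ?_ ?_ ?_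
    · intro p hp
      rw [Finset.mem_coe, Finset.mem_filter, Finset.mem_product, Finset.mem_range, Finset.mem_range] at hp
      rw [Finset.mem_coe, Finset.mem_range]
      dsimp only
      omega
    · intro t ht
      rw [Finset.mem_coe, Finset.mem_range] at ht
      rw [Finset.mem_coe, Finset.mem_filter, Finset.mem_product, Finset.mem_range, Finset.mem_range]
      dsimp only
      omega
    · intro p hp
      rw [Finset.mem_coe, Finset.mem_filter, Finset.mem_product, Finset.mem_range, Finset.mem_range] at hp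
      refine Prod.ext rfl ?_
      dsimp only
      omega
    · intro t _
      rfl

private theorem sum_diff88 (H : ℕ) (Φ : ℤ → ℂ) :
    ∑ j ∈ range H, ∑ i ∈ range H, Φ ((j : ℤ) - (i : ℤ)) =
      ∑ m ∈ Finset.Icc (-(H : ℤ)) H, (((H : ℤ) - |m| : ℤ) : ℂ) * Φ m := by
  classical
  rw [← Finset.sum_product (s := range H) (t := range H) (f := fun p : ℕ × ℕ => Φ ((p.1 : ℤ) - (p.2 : ℤ)))]
  rw [← Finset.sum_fiberwise_of_maps_to (s := range H ×ˢ range H) (t := Finset.Icc (-(H : ℤ)) H)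
    (g := fun p : ℕ × ℕ => (p.1 : ℤ) - (p.2 : ℤ))]
  · refine Finset.sum_congr rfl fun m hm => ?_
    have hm' : |m| ≤ H := abs_le.2 (Finset.mem_Icc.1 hm)
    have h1 : ∑ p ∈ (range H ×ˢ range H).filter (fun p : ℕ × ℕ => (p.1 : ℤ) - (p.2 : ℤ) = m),
        Φ ((p.1 : ℤ) - (p.2 : ℤ)) =
        (((range H ×ˢ range H).filter fun p : ℕ × ℕ => (p.1 : ℤ) - (p.2 : ℤ) = m).card : ℂ) * Φ m := by
      rw [← nsmul_eq_mul, ← Finset.sum_const]
      refine Finset.sum_congr rfl fun p hp => ?_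
      rw [(Finset.mem_filter.1 hp).2]
    rw [h1, card_diff88 H m hm']
    congr 1
    have h2 : ((((H : ℤ) - |m|).toNat : ℤ) : ℂ) = (((H : ℤ) - |m| : ℤ) : ℂ) := by
      rw [Int.toNat_of_nonneg (by omega)]
    exact h2
  · intro p hp
    rw [Finset.mem_product, Finset.mem_range, Finset.mem_range] at hp
    rw [Finset.mem_Icc]
    omega

/-- The second moment of the number of affine relations. -/
theorem G1_sq {q : ℕ} [NeZero q] (d : ℕ) [NeZero d] (hd : d ∣ q) (L : ℕ) (hL : 1 ≤ L)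
    (T : ℝ) (hT1 : 1 ≤ T) (hT : ∀ n : ℕ, 1 ≤ n → n ≤ q → ((n.divisors.card : ℕ) : ℝ) ≤ T)
    (g : (ZMod q)ˣ → ℝ) (hg : ∀ y, 0 ≤ g y) :
    ∑ y : (ZMod q)ˣ, G1 d L g y ^ 2 ≤ 8192 * ((q : ℝ) * (L : ℝ) ^ 6 / (d : ℝ) ^ 2 * (∑ y, g y) ^ 2 +
      T ^ 2 * (L : ℝ) ^ 4 * ((q : ℝ) / d) ^ 2 * ∑ y, g y ^ 2) := by
  classical
  have hd0 : (0 : ℝ) < d := Nat.cast_pos.2 (Nat.pos_of_ne_zero (NeZero.ne d))
  have hq0 : (0 : ℝ) < q := Nat.cast_pos.2 (Nat.pos_of_ne_zero (NeZero.ne q))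
  have hL0 : (1 : ℝ) ≤ L := by exact_mod_cast hL
  have hG : 0 ≤ ∑ y, g y := Finset.sum_nonneg fun y _ => hg y
  have hG2 : 0 ≤ ∑ y, g y ^ 2 := Finset.sum_nonneg fun y _ => sq_nonneg _
  have hcard := card_A_88 L
  have hT0 : 0 ≤ T := by linarith
  have hunits : (Fintype.card (ZMod q)ˣ : ℝ) ≤ q := by
    have h1 : Fintype.card (ZMod q)ˣ ≤ Fintype.card (ZMod q) :=
      Fintype.card_le_of_injective _ Units.val_injective
    rw [ZMod.card] at h1
    exact_mod_cast h1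
  have hcomm : ∀ (a b : ℤ) (y : (ZMod q)ˣ), ∑ c ∈ A L, ∑ z : (ZMod q)ˣ,
        (if (a : ZMod d) * red d y + (b : ZMod d) * red d z + (c : ZMod d) = 0 then g z else 0) =
      ∑ z : (ZMod q)ˣ, (((A L).filter (fun c : ℤ =>
        (a : ZMod d) * red d y + (b : ZMod d) * red d z + (c : ZMod d) = 0)).card : ℝ) * g z := by
    intro a b y
    rw [Finset.sum_comm]
    refine Finset.sum_congr rfl fun z _ => ?_
    rw [← Finset.sum_filter, Finset.sum_const, nsmul_eq_mul]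
  have hpos1 : 0 ≤ (q : ℝ) * (L : ℝ) ^ 6 / (d : ℝ) ^ 2 * (∑ y, g y) ^ 2 := by positivity
  have hpos2 : 0 ≤ T ^ 2 * (L : ℝ) ^ 4 * ((q : ℝ) / d) ^ 2 * ∑ y, g y ^ 2 := by positivity
  by_cases hdL : d ≤ 8 * L
  · -- small `d`
    have h1 : ∀ y : (ZMod q)ˣ, G1 d L g y ≤ 40 * (L : ℝ) ^ 3 / d * ∑ y, g y := by
      intro y
      unfold G1
      have h2 : ∀ a ∈ A L, ∀ b ∈ A L, ∑ c ∈ A L, ∑ z : (ZMod q)ˣ,
          (if (a : ZMod d) * red d y + (b : ZMod d) * red d z + (c : ZMod d) = 0 then g z else 0) ≤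
          10 * L / d * ∑ y, g y := by
        intro a _ b _
        rw [hcomm, Finset.mul_sum]
        refine Finset.sum_le_sum fun z _ => ?_
        exact mul_le_mul_of_nonneg_right (count_class L d hL hdL _) (hg z)
      refine (Finset.sum_le_sum fun a ha => Finset.sum_le_sum fun b hb => h2 a ha b hb).trans ?_
      rw [Finset.sum_const, Finset.sum_const, nsmul_eq_mul, nsmul_eq_mul]
      calc ((A L).card : ℝ) * (((A L).card : ℝ) * (10 * L / d * ∑ y, g y)) ≤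
            (2 * L) * ((2 * L) * (10 * L / d * ∑ y, g y)) := by gcongr
        _ = 40 * (L : ℝ) ^ 3 / d * ∑ y, g y := by ring
    have h2 : ∑ y : (ZMod q)ˣ, G1 d L g y ^ 2 ≤
        ∑ _y : (ZMod q)ˣ, (40 * (L : ℝ) ^ 3 / d * ∑ y, g y) ^ 2 :=
      Finset.sum_le_sum fun y _ => pow_le_pow_left₀ (G1_nonneg d L g hg y) (h1 y) 2
    rw [Finset.sum_const, nsmul_eq_mul, card_univ] at h2
    refine h2.trans ?_
    calc (Fintype.card (ZMod q)ˣ : ℝ) * (40 * (L : ℝ) ^ 3 / d * ∑ y, g y) ^ 2 ≤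
          q * (40 * (L : ℝ) ^ 3 / d * ∑ y, g y) ^ 2 := by gcongr
      _ = 1600 * ((q : ℝ) * (L : ℝ) ^ 6 / (d : ℝ) ^ 2 * (∑ y, g y) ^ 2) := by
          field_simp
          ring
      _ ≤ _ := by linarith
  · -- large `d`
    push Not at hdL
    obtain ⟨H, hH⟩ : ∃ H, H = d / (4 * L) := ⟨_, rfl⟩
    have hH2 : 2 ≤ H := by
      rw [hH, Nat.le_div_iff_mul_le (by omega)]
      omega
    have hHL : 4 * (H * L) ≤ d := by
      have := Nat.div_mul_le_self d (4 * L)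
      rw [← hH] at this
      calc 4 * (H * L) = H * (4 * L) := by ring
        _ ≤ d := this
    have hHlt : d < 4 * L * (H + 1) := by
      have := Nat.lt_mul_div_succ d (show 0 < 4 * L by omega)
      rw [← hH] at this
      exact this
    have hH0 : (0 : ℝ) < H := by
      have : 0 < H := by omega
      exact_mod_cast this
    have hHd : (1 : ℝ) / H ≤ 8 * L / d := by
      rw [div_le_div_iff₀ hH0 hd0, one_mul]
      have h1 : (d : ℝ) ≤ 4 * L * (H + 1) := by exact_mod_cast hHlt.le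
      have h2 : (2 : ℝ) ≤ H := by exact_mod_cast hH2
      nlinarith
    have hHL2 : 2 * (H * L) < d := by
      have : 0 < H * L := Nat.mul_pos (by omega) hL
      omega
    have hTd : ∀ n : ℕ, 1 ≤ n → n ≤ d → ((n.divisors.card : ℕ) : ℝ) ≤ T := fun n hn hn' =>
      hT n hn (hn'.trans (Nat.le_of_dvd (Nat.pos_of_ne_zero (NeZero.ne q)) hd))
    -- `B h`
    obtain ⟨Bf, hBf⟩ : ∃ Bf : ℤ → ℂ, Bf = fun h : ℤ => ∑ b ∈ A L, Fd d g (((h * b : ℤ)) : ZMod d) := ⟨_, rfl⟩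
    -- the sum with the weight
    obtain ⟨Sf, hSf⟩ : ∃ Sf : ZMod d → ℝ, Sf = fun s => ∑ a ∈ A L, ∑ b ∈ A L, ∑ z : (ZMod q)ˣ,
      g z * K d H ((a : ZMod d) * s + (b : ZMod d) * red d z) := ⟨_, rfl⟩
    have h1 : ∀ y : (ZMod q)ˣ, G1 d L g y ≤ 2 * Sf (red d y) := by
      intro y
      rw [hSf]
      unfold G1
      simp only
      rw [Finset.mul_sum]
      refine Finset.sum_le_sum fun a _ => ?_
      rw [Finset.mul_sum]
      refine Finset.sum_le_sum fun b _ => ?_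
      rw [hcomm, Finset.mul_sum]
      refine Finset.sum_le_sum fun z _ => ?_
      obtain ⟨s, hs⟩ : ∃ s : ZMod d, s = (a : ZMod d) * red d y + (b : ZMod d) * red d z := ⟨_, rfl⟩
      rw [← hs]
      have hK := K_nonneg d H s
      rcases Finset.eq_empty_or_nonempty ((A L).filter (fun c : ℤ => s + (c : ZMod d) = 0)) with he | he
      · rw [he, Finset.card_empty]
        have := mul_nonneg (hg z) hK
        push_cast
        linarith
      · obtain ⟨c, hc⟩ := he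
        rw [mem_filter, mem_A] at hc
        have hc1 : ((((A L).filter (fun c : ℤ => s + (c : ZMod d) = 0)).card : ℕ) : ℝ) ≤ 1 := by
          exact_mod_cast count_class_one L d hdL _
        have hs' : s = ((-c : ℤ) : ZMod d) := by
          push_cast
          exact eq_neg_of_add_eq_zero_left hc.2
        have hk : 1 / 2 ≤ K d H s := by
          rw [hs']
          refine K_ge d H (by omega) (-c) ?_
          rw [abs_neg]
          have h2 : 4 * (H : ℤ) * |c| ≤ 4 * (H : ℤ) * L :=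
            mul_le_mul_of_nonneg_left hc.1.2 (by positivity)
          have h3 : 4 * (H : ℤ) * L ≤ d := by
            have : ((4 * (H * L) : ℕ) : ℤ) ≤ (d : ℤ) := by exact_mod_cast hHL
            push_cast at this
            linarith
          exact h2.trans h3
        have h4 := mul_le_mul_of_nonneg_right hc1 (hg z)
        have h5 := mul_le_mul_of_nonneg_left hk (hg z)
        linarith
    have hSf0 : ∀ s, 0 ≤ Sf s := by
      intro s
      rw [hSf]
      exact sum_nonneg fun a _ => sum_nonneg fun b _ => sum_nonneg fun z _ =>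
        mul_nonneg (hg z) (K_nonneg d H _)
    -- the Fourier expansion
    obtain ⟨cf, hcf⟩ : ∃ cf : ℤ × ℤ → ℂ, cf = fun p : ℤ × ℤ => (((H : ℤ) - |p.1| : ℤ) : ℂ) / (H : ℂ) ^ 2 * Bf p.1 :=
      ⟨_, rfl⟩
    have h2 : ∀ s : ZMod d, ((Sf s : ℝ) : ℂ) = (1 / (H : ℂ)) * ((A L).card : ℂ) * Bf 0 +
        ∑ p ∈ A H ×ˢ A L, cf p * ZMod.stdAddChar ((((p.1 * p.2 : ℤ)) : ZMod d) * s) := by
      intro s
      have e1 : ((Sf s : ℝ) : ℂ) = ∑ a ∈ A L, ∑ b ∈ A L,
          (∑ j ∈ range H, ∑ i ∈ range H, Fd d g ((((j : ℤ) - (i : ℤ)) * b : ℤ) : ZMod d) *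
            ZMod.stdAddChar (((((j : ℤ) - (i : ℤ)) * a : ℤ) : ZMod d) * s)) / (H : ℂ) ^ 2 := by
        rw [hSf]
        simp only
        rw [Complex.ofReal_sum]
        refine Finset.sum_congr rfl fun a _ => ?_
        rw [Complex.ofReal_sum]
        exact Finset.sum_congr rfl fun b _ => K_sum1_88 d H g a b s
      have e2 : ∀ a : ℤ, ∑ b ∈ A L,
          (∑ j ∈ range H, ∑ i ∈ range H, Fd d g ((((j : ℤ) - (i : ℤ)) * b : ℤ) : ZMod d) *
            ZMod.stdAddChar (((((j : ℤ) - (i : ℤ)) * a : ℤ) : ZMod d) * s)) / (H : ℂ) ^ 2 =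
          (∑ j ∈ range H, ∑ i ∈ range H, (fun h : ℤ => Bf h *
            ZMod.stdAddChar ((((h * a : ℤ)) : ZMod d) * s)) ((j : ℤ) - (i : ℤ))) / (H : ℂ) ^ 2 := by
        intro a
        rw [← Finset.sum_div, Finset.sum_comm]
        congr 1
        refine Finset.sum_congr rfl fun j _ => ?_
        rw [Finset.sum_comm]
        refine Finset.sum_congr rfl fun i _ => ?_
        rw [hBf]
        simp only
        rw [Finset.sum_mul]
      have h0 : (0 : ℤ) ∈ Finset.Icc (-(H : ℤ)) H := Finset.mem_Icc.2 ⟨by omega, by omega⟩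
      have e3 : ∀ a : ℤ, (∑ j ∈ range H, ∑ i ∈ range H, (fun h : ℤ => Bf h *
            ZMod.stdAddChar ((((h * a : ℤ)) : ZMod d) * s)) ((j : ℤ) - (i : ℤ))) / (H : ℂ) ^ 2 =
          1 / (H : ℂ) * Bf 0 + ∑ h ∈ A H, cf (h, a) * ZMod.stdAddChar ((((h * a : ℤ)) : ZMod d) * s) := by
        intro a
        rw [sum_diff88 H (fun h : ℤ => Bf h * ZMod.stdAddChar ((((h * a : ℤ)) : ZMod d) * s)),
          ← Finset.add_sum_erase _ _ h0, add_div, Finset.sum_div]
        congr 1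
        · simp only [zero_mul, Int.cast_zero, AddChar.map_zero_eq_one, abs_zero, sub_zero, mul_one]
          have hH0' : (H : ℂ) ≠ 0 := by
            have : H ≠ 0 := by omega
            exact_mod_cast this
          push_cast
          field_simp
        · unfold A
          refine Finset.sum_congr rfl fun h _ => ?_
          rw [hcf]
          simp only
          ring
      rw [e1, Finset.sum_congr rfl fun a _ => (e2 a).trans (e3 a), Finset.sum_add_distrib, Finset.sum_const,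
        nsmul_eq_mul, Finset.sum_product_right]
      ring
    have h0 : ‖(1 / (H : ℂ)) * ((A L).card : ℂ) * Bf 0‖ ≤ 32 * (L : ℝ) ^ 3 / d * ∑ y, g y := by
      rw [norm_mul, norm_mul, norm_div, norm_one, Complex.norm_natCast, Complex.norm_natCast]
      have e1 : ‖Bf 0‖ ≤ 2 * L * ∑ y, g y := by
        rw [hBf]
        simp only
        refine (norm_sum_le _ _).trans ((Finset.sum_le_sum fun b _ => norm_Fd_le d g hg _).trans ?_)
        rw [Finset.sum_const, nsmul_eq_mul]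
        exact mul_le_mul_of_nonneg_right hcard hG
      calc 1 / (H : ℝ) * ((A L).card : ℝ) * ‖Bf 0‖ ≤ (8 * L / d) * (2 * L) * (2 * L * ∑ y, g y) := by
            gcongr
        _ = 32 * (L : ℝ) ^ 3 / d * ∑ y, g y := by ring
    obtain ⟨St, hSt⟩ : ∃ St : ZMod d → ℝ, St = fun s =>
      ‖∑ p ∈ A H ×ˢ A L, cf p * ZMod.stdAddChar ((((p.1 * p.2 : ℤ)) : ZMod d) * s)‖ := ⟨_, rfl⟩
    have h3 : ∀ s, Sf s ≤ 32 * (L : ℝ) ^ 3 / d * ∑ y, g y + St s := by
      intro s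
      have e1 : Sf s = ‖((Sf s : ℝ) : ℂ)‖ := by rw [Complex.norm_real, Real.norm_of_nonneg (hSf0 s)]
      rw [e1, h2 s, hSt]
      exact (norm_add_le _ _).trans (add_le_add h0 le_rfl)
    have hSt0 : ∀ s, 0 ≤ St s := fun s => by rw [hSt]; exact norm_nonneg _
    -- the second moment of `St`
    have hcount : ∀ n : ZMod d, (((A H ×ˢ A L).filter (fun p : ℤ × ℤ =>
        (((p.1 * p.2 : ℤ)) : ZMod d) = n)).card : ℝ) ≤ 2 * T := by
      intro n
      have e1 := hits d H L T hTd hHL2 (fun l => if l = n then 1 else 0) (fun l => by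
        split_ifs <;> norm_num)
      rw [Finset.sum_ite_eq' univ n (fun _ => (1 : ℝ)), if_pos (mem_univ n), mul_one] at e1
      have e2 : (((A H ×ˢ A L).filter (fun p : ℤ × ℤ => (((p.1 * p.2 : ℤ)) : ZMod d) = n)).card : ℝ) =
          ∑ h ∈ A H, ∑ m ∈ A L, (if (((h * m : ℤ)) : ZMod d) = n then (1 : ℝ) else 0) := by
        rw [← Finset.sum_product (s := A H) (t := A L)
          (f := fun p : ℤ × ℤ => if (((p.1 * p.2 : ℤ)) : ZMod d) = n then (1 : ℝ) else 0),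
          Finset.sum_ite, Finset.sum_const, Finset.sum_const_zero, nsmul_eq_mul, mul_one, add_zero]
      rw [e2]
      exact e1
    have h4 : ∑ s : ZMod d, St s ^ 2 ≤ 1024 * (T ^ 2 * (L : ℝ) ^ 4 * ((q : ℝ) / d) * ∑ y, g y ^ 2) := by
      have e1 := dual_sum d (A H ×ˢ A L) (fun p : ℤ × ℤ => (((p.1 * p.2 : ℤ)) : ZMod d)) cf (2 * T) hcount
      have e2 : ∀ h ∈ A H, ‖Bf h‖ ^ 2 ≤ 2 * L * ∑ b ∈ A L, ‖Fd d g (((h * b : ℤ)) : ZMod d)‖ ^ 2 := by
        intro h _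
        rw [hBf]
        simp only
        calc ‖∑ b ∈ A L, Fd d g (((h * b : ℤ)) : ZMod d)‖ ^ 2 ≤
              (∑ b ∈ A L, ‖Fd d g (((h * b : ℤ)) : ZMod d)‖) ^ 2 := by
              gcongr
              exact norm_sum_le _ _
          _ ≤ ((A L).card : ℝ) * ∑ b ∈ A L, ‖Fd d g (((h * b : ℤ)) : ZMod d)‖ ^ 2 :=
              sq_sum_le_card_mul_sum_sq (s := A L) (f := fun b : ℤ => ‖Fd d g (((h * b : ℤ)) : ZMod d)‖)
          _ ≤ _ := mul_le_mul_of_nonneg_right hcard (Finset.sum_nonneg fun b _ => sq_nonneg _)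
      have e3 : ∑ h ∈ A H, ‖Bf h‖ ^ 2 ≤ 2 * L * (2 * T * (q * ∑ y, g y ^ 2)) := by
        refine (Finset.sum_le_sum e2).trans ?_
        rw [← Finset.mul_sum]
        refine mul_le_mul_of_nonneg_left ?_ (by positivity)
        refine (hits d H L T hTd hHL2 (fun l => ‖Fd d g l‖ ^ 2) fun l => sq_nonneg _).trans ?_
        exact mul_le_mul_of_nonneg_left (four_sq d hd g) (by positivity)
      have e4 : ∑ p ∈ A H ×ˢ A L, ‖cf p‖ ^ 2 ≤ 1 / (H : ℝ) ^ 2 * (2 * L * ∑ h ∈ A H, ‖Bf h‖ ^ 2) := by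
        rw [Finset.sum_product]
        have e5 : ∀ h ∈ A H, ∀ a ∈ A L, ‖cf (h, a)‖ ^ 2 ≤ 1 / (H : ℝ) ^ 2 * ‖Bf h‖ ^ 2 := by
          intro h hh a _
          rw [mem_A] at hh
          rw [hcf]
          simp only
          rw [norm_mul, mul_pow]
          refine mul_le_mul_of_nonneg_right ?_ (sq_nonneg _)
          rw [norm_div, norm_pow, Complex.norm_natCast, Complex.norm_intCast]
          have e6 : |(((H : ℤ) - |h| : ℤ) : ℝ)| ≤ H := by
            rw [← Int.cast_abs]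
            have : |((H : ℤ) - |h|)| ≤ H := by
              rw [abs_le]
              have := abs_nonneg h
              omega
            exact_mod_cast this
          have e7 : |(((H : ℤ) - |h| : ℤ) : ℝ)| / (H : ℝ) ^ 2 ≤ 1 / H := by
            rw [div_le_div_iff₀ (by positivity) hH0, one_mul]
            calc |(((H : ℤ) - |h| : ℤ) : ℝ)| * H ≤ H * H := by gcongr
              _ = (H : ℝ) ^ 2 := by ring
          calc (|(((H : ℤ) - |h| : ℤ) : ℝ)| / (H : ℝ) ^ 2) ^ 2 ≤ (1 / (H : ℝ)) ^ 2 :=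
                pow_le_pow_left₀ (by positivity) e7 2
            _ = 1 / (H : ℝ) ^ 2 := by rw [one_div_pow]
        refine (Finset.sum_le_sum fun h hh => Finset.sum_le_sum fun a ha => e5 h hh a ha).trans ?_
        simp only [Finset.sum_const, nsmul_eq_mul]
        rw [Finset.mul_sum, Finset.mul_sum]
        refine Finset.sum_le_sum fun h _ => ?_
        calc ((A L).card : ℝ) * (1 / (H : ℝ) ^ 2 * ‖Bf h‖ ^ 2) ≤ (2 * L) * (1 / (H : ℝ) ^ 2 * ‖Bf h‖ ^ 2) := by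
              gcongr
          _ = 1 / (H : ℝ) ^ 2 * (2 * L * ‖Bf h‖ ^ 2) := by ring
      have e8 : 1 / (H : ℝ) ^ 2 ≤ 64 * (L : ℝ) ^ 2 / (d : ℝ) ^ 2 := by
        calc 1 / (H : ℝ) ^ 2 = (1 / (H : ℝ)) ^ 2 := by rw [one_div_pow]
          _ ≤ (8 * (L : ℝ) / d) ^ 2 := pow_le_pow_left₀ (by positivity) hHd 2
          _ = 64 * (L : ℝ) ^ 2 / (d : ℝ) ^ 2 := by ring
      rw [hSt]
      simp only
      refine e1.trans ?_
      calc (d : ℝ) * (2 * T) * ∑ p ∈ A H ×ˢ A L, ‖cf p‖ ^ 2 ≤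
            d * (2 * T) * (1 / (H : ℝ) ^ 2 * (2 * L * (2 * L * (2 * T * (q * ∑ y, g y ^ 2))))) := by
            gcongr
            exact e4.trans (by gcongr)
        _ ≤ d * (2 * T) * (64 * (L : ℝ) ^ 2 / (d : ℝ) ^ 2 *
            (2 * L * (2 * L * (2 * T * (q * ∑ y, g y ^ 2))))) := by
            gcongr
        _ = 1024 * (T ^ 2 * (L : ℝ) ^ 4 * ((q : ℝ) / d) * ∑ y, g y ^ 2) := by
            field_simp
            ring
    -- conclusion
    have h5 : ∀ y : (ZMod q)ˣ, G1 d L g y ^ 2 ≤ 8 * (32 * (L : ℝ) ^ 3 / d * ∑ y, g y) ^ 2 +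
        8 * St (red d y) ^ 2 := by
      intro y
      have e1 := h1 y
      have e2 := h3 (red d y)
      have e3 := G1_nonneg d L g hg y
      have e4 := hSt0 (red d y)
      have e5 : 0 ≤ 32 * (L : ℝ) ^ 3 / d * ∑ y, g y := by positivity
      have e6 : G1 d L g y ≤ 2 * (32 * (L : ℝ) ^ 3 / d * ∑ y, g y + St (red d y)) := by linarith
      have e7 := pow_le_pow_left₀ e3 e6 2
      nlinarith [sq_nonneg (32 * (L : ℝ) ^ 3 / d * ∑ y, g y - St (red d y))]
    refine (Finset.sum_le_sum fun y _ => h5 y).trans ?_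
    rw [Finset.sum_add_distrib, Finset.sum_const, nsmul_eq_mul, card_univ, ← Finset.mul_sum]
    have h6 := sum_abs_88 d hd (fun s => St s ^ 2) (fun s => sq_nonneg _)
    have h7 : (Fintype.card (ZMod q)ˣ : ℝ) * (8 * (32 * (L : ℝ) ^ 3 / d * ∑ y, g y) ^ 2) ≤
        8192 * ((q : ℝ) * (L : ℝ) ^ 6 / (d : ℝ) ^ 2 * (∑ y, g y) ^ 2) := by
      calc (Fintype.card (ZMod q)ˣ : ℝ) * (8 * (32 * (L : ℝ) ^ 3 / d * ∑ y, g y) ^ 2) ≤
            q * (8 * (32 * (L : ℝ) ^ 3 / d * ∑ y, g y) ^ 2) := by gcongr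
        _ = 8192 * ((q : ℝ) * (L : ℝ) ^ 6 / (d : ℝ) ^ 2 * (∑ y, g y) ^ 2) := by
            field_simp
            ring
    have h8 : 8 * ∑ y : (ZMod q)ˣ, St (red d y) ^ 2 ≤
        8192 * (T ^ 2 * (L : ℝ) ^ 4 * ((q : ℝ) / d) ^ 2 * ∑ y, g y ^ 2) := by
      calc 8 * ∑ y : (ZMod q)ˣ, St (red d y) ^ 2 ≤ 8 * ((q : ℝ) / d * ∑ s : ZMod d, St s ^ 2) := by
            gcongr
        _ ≤ 8 * ((q : ℝ) / d * (1024 * (T ^ 2 * (L : ℝ) ^ 4 * ((q : ℝ) / d) * ∑ y, g y ^ 2))) := by gcongr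
        _ = 8192 * (T ^ 2 * (L : ℝ) ^ 4 * ((q : ℝ) / d) ^ 2 * ∑ y, g y ^ 2) := by ring
    linarith

end Pool.Agent.Helper88.LV
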