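import Pool.Agent.Helper88.LV.Cubic
import Pool.Agent.Helper88.LV.Quad

/-!
# LV-17: the cubic sum with `E / J²`

For fixed `y`: Cauchy gives `‖R y‖ √(G1 y) √(G1 y⁻¹)` (`f = ‖R‖²`), then Cauchy in `y` and `G1_sq`.
-/

set_option autoImplicit false

namespace Pool.Agent.Helper88.LV

open Finset

variable {q : ℕ} [NeZero q]

private lemma red_cast_88 (d : ℕ) (hd : d ∣ q) (y : (ZMod q)ˣ) :
    red d y = ZMod.castHom hd (ZMod d) (y : ZMod q) := by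
  unfold red
  rw [ZMod.natCast_val, ZMod.castHom_apply]

private lemma red_mul_88 (d : ℕ) (hd : d ∣ q) (y z : (ZMod q)ˣ) : red d (y * z) = red d y * red d z := by
  rw [red_cast_88 d hd, red_cast_88 d hd, red_cast_88 d hd, Units.val_mul, map_mul]

private lemma red_inv_88 (d : ℕ) (hd : d ∣ q) (y : (ZMod q)ˣ) : red d y * red d y⁻¹ = 1 := by
  rw [← red_mul_88 d hd, mul_inv_cancel, red_cast_88 d hd, Units.val_one, map_one]

private lemma G2_eq_88 (d : ℕ) (hd : d ∣ q) (L : ℕ) (g : (ZMod q)ˣ → ℝ) (y : (ZMod q)ˣ) :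
    ∑ a ∈ A L, ∑ b ∈ A L, ∑ c ∈ A L, ∑ z : (ZMod q)ˣ,
      (if (a : ZMod d) * red d y + (b : ZMod d) * red d z + (c : ZMod d) = 0 then g (z * y⁻¹) else 0) =
    G1 d L g y⁻¹ := by
  unfold G1
  have h1 : ∀ a b c : ℤ, ∑ z : (ZMod q)ˣ,
      (if (a : ZMod d) * red d y + (b : ZMod d) * red d z + (c : ZMod d) = 0 then g (z * y⁻¹) else 0) =
      ∑ z : (ZMod q)ˣ,
      (if (c : ZMod d) * red d y⁻¹ + (b : ZMod d) * red d z + (a : ZMod d) = 0 then g z else 0) := by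
    intro a b c
    rw [← Equiv.sum_comp (Equiv.mulRight y⁻¹) (fun z : (ZMod q)ˣ =>
      (if (c : ZMod d) * red d y⁻¹ + (b : ZMod d) * red d z + (a : ZMod d) = 0 then g z else 0))]
    refine Finset.sum_congr rfl fun z _ => ?_
    rw [Equiv.coe_mulRight, red_mul_88 d hd]
    have h2 := red_inv_88 d hd y
    have h3 : ((a : ZMod d) * red d y + (b : ZMod d) * red d z + (c : ZMod d) = 0) ↔
        ((c : ZMod d) * red d y⁻¹ + (b : ZMod d) * (red d z * red d y⁻¹) + (a : ZMod d) = 0) := by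
      constructor
      · intro h
        calc (c : ZMod d) * red d y⁻¹ + (b : ZMod d) * (red d z * red d y⁻¹) + (a : ZMod d) =
              ((a : ZMod d) * red d y + (b : ZMod d) * red d z + (c : ZMod d)) * red d y⁻¹ +
                a * (1 - red d y * red d y⁻¹) := by ring
          _ = 0 := by rw [h, h2]; ring
      · intro h
        calc (a : ZMod d) * red d y + (b : ZMod d) * red d z + (c : ZMod d) =
              ((c : ZMod d) * red d y⁻¹ + (b : ZMod d) * (red d z * red d y⁻¹) + (a : ZMod d)) * red d y +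
                (c + b * red d z) * (1 - red d y * red d y⁻¹) := by ring
          _ = 0 := by rw [h, h2]; ring
    by_cases h : (a : ZMod d) * red d y + (b : ZMod d) * red d z + (c : ZMod d) = 0
    · rw [if_pos h, if_pos (h3.1 h)]
    · rw [if_neg h, if_neg (fun h' => h (h3.2 h'))]
  simp only [h1]
  calc ∑ a ∈ A L, ∑ b ∈ A L, ∑ c ∈ A L, ∑ z : (ZMod q)ˣ,
      (if (c : ZMod d) * red d y⁻¹ + (b : ZMod d) * red d z + (a : ZMod d) = 0 then g z else 0) =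
      ∑ b ∈ A L, ∑ a ∈ A L, ∑ c ∈ A L, ∑ z : (ZMod q)ˣ,
      (if (c : ZMod d) * red d y⁻¹ + (b : ZMod d) * red d z + (a : ZMod d) = 0 then g z else 0) :=
        Finset.sum_comm
    _ = ∑ b ∈ A L, ∑ c ∈ A L, ∑ a ∈ A L, ∑ z : (ZMod q)ˣ,
      (if (c : ZMod d) * red d y⁻¹ + (b : ZMod d) * red d z + (a : ZMod d) = 0 then g z else 0) :=
        Finset.sum_congr rfl fun b _ => Finset.sum_comm
    _ = _ := Finset.sum_comm

private lemma num3_88 {Q D T J r E φ S X : ℝ} (hQ : 0 < Q) (hD : 0 < D) (hJ : 0 < J) (hT : 1 ≤ T) (hr : 0 ≤ r)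
    (hE : 0 ≤ E) (hφ0 : 0 ≤ φ) (hφ : φ ≤ Q) (hX : X ^ 2 ≤ (φ * r) * S)
    (hS : S ≤ 8192 * (Q * J ^ 6 / D ^ 2 * (φ * r) ^ 2 + T ^ 2 * J ^ 4 * (Q / D) ^ 2 * (φ * E))) :
    D * X ≤ 91 * T * Q ^ 2 * J ^ 3 * Real.sqrt (r ^ 3 + r * E / J ^ 2) := by
  have hT0 : 0 < T := by linarith
  have hb1 : S ≤ 8192 * (Q ^ 3 / D ^ 2 * T ^ 2 * J ^ 6 * (r ^ 2 + E / J ^ 2)) := by
    refine hS.trans (mul_le_mul_of_nonneg_left ?_ (by norm_num))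
    have e1 : Q * J ^ 6 / D ^ 2 * (φ * r) ^ 2 ≤ Q ^ 3 / D ^ 2 * T ^ 2 * J ^ 6 * r ^ 2 := by
      have h2 : (φ * r) ^ 2 ≤ (Q * r) ^ 2 := by
        gcongr
      have h3 : (1 : ℝ) ≤ T ^ 2 := one_le_pow₀ hT
      calc Q * J ^ 6 / D ^ 2 * (φ * r) ^ 2 ≤ Q * J ^ 6 / D ^ 2 * (Q * r) ^ 2 := by gcongr
        _ = 1 * (Q * J ^ 6 / D ^ 2 * (Q * r) ^ 2) := by ring
        _ ≤ T ^ 2 * (Q * J ^ 6 / D ^ 2 * (Q * r) ^ 2) := by gcongr
        _ = Q ^ 3 / D ^ 2 * T ^ 2 * J ^ 6 * r ^ 2 := by ring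
    have e2 : T ^ 2 * J ^ 4 * (Q / D) ^ 2 * (φ * E) ≤ Q ^ 3 / D ^ 2 * T ^ 2 * J ^ 6 * (E / J ^ 2) := by
      calc T ^ 2 * J ^ 4 * (Q / D) ^ 2 * (φ * E) ≤ T ^ 2 * J ^ 4 * (Q / D) ^ 2 * (Q * E) := by gcongr
        _ = Q ^ 3 / D ^ 2 * T ^ 2 * J ^ 6 * (E / J ^ 2) := by
            field_simp
    calc _ ≤ Q ^ 3 / D ^ 2 * T ^ 2 * J ^ 6 * r ^ 2 + Q ^ 3 / D ^ 2 * T ^ 2 * J ^ 6 * (E / J ^ 2) :=
          add_le_add e1 e2
      _ = _ := by ring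
  have hGG : r ^ 3 + r * E / J ^ 2 = r * (r ^ 2 + E / J ^ 2) := by ring
  have hGG0 : 0 ≤ r ^ 3 + r * E / J ^ 2 := by positivity
  have hfin : X ≤ 91 * (T * Q ^ 2 / D * J ^ 3) * Real.sqrt (r ^ 3 + r * E / J ^ 2) := by
    refine le_of_sq_le_sq ?_ (by positivity)
    rw [mul_pow, Real.sq_sqrt hGG0, hGG]
    calc X ^ 2 ≤ (φ * r) * S := hX
      _ ≤ (φ * r) * (8192 * (Q ^ 3 / D ^ 2 * T ^ 2 * J ^ 6 * (r ^ 2 + E / J ^ 2))) :=
          mul_le_mul_of_nonneg_left hb1 (mul_nonneg hφ0 hr)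
      _ ≤ (Q * r) * (8192 * (Q ^ 3 / D ^ 2 * T ^ 2 * J ^ 6 * (r ^ 2 + E / J ^ 2))) :=
          mul_le_mul_of_nonneg_right (mul_le_mul_of_nonneg_right hφ hr) (by positivity)
      _ = 8192 * ((T * Q ^ 2 / D * J ^ 3) ^ 2 * (r * (r ^ 2 + E / J ^ 2))) := by
          field_simp
      _ ≤ 8281 * ((T * Q ^ 2 / D * J ^ 3) ^ 2 * (r * (r ^ 2 + E / J ^ 2))) :=
          mul_le_mul_of_nonneg_right (by norm_num) (by positivity)
      _ = _ := by ring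
  calc D * X ≤ D * (91 * (T * Q ^ 2 / D * J ^ 3) * Real.sqrt (r ^ 3 + r * E / J ^ 2)) :=
        mul_le_mul_of_nonneg_left hfin hD.le
    _ = _ := by
        field_simp

private lemma inner3_88 (W : Finset (DirichletCharacter ℂ q)) (J : ℕ) (hJ : 1 ≤ J)
    (T : ℝ) (hT1 : 1 ≤ T) (hT : ∀ n : ℕ, 1 ≤ n → n ≤ q → ((n.divisors.card : ℕ) : ℝ) ≤ T)
    (d : ℕ) (hd : d ∈ q.divisors) :
    (d : ℝ) * ∑ a ∈ A J, ∑ b ∈ A J, ∑ c ∈ A J, ∑ y : (ZMod q)ˣ, ∑ z : (ZMod q)ˣ,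
        (if (a : ZMod d) * red d y + (b : ZMod d) * red d z + (c : ZMod d) = 0
          then ‖R W y‖ * ‖R W z‖ * ‖R W (z * y⁻¹)‖ else 0) ≤
      91 * T * (q : ℝ) ^ 2 * (J : ℝ) ^ 3 *
        Real.sqrt ((W.card : ℝ) ^ 3 + W.card * (En W : ℝ) / (J : ℝ) ^ 2) := by
  classical
  have hdq : d ∣ q := (Nat.mem_divisors.1 hd).1
  have hd0 : d ≠ 0 := fun h => by
    rw [h] at hdq
    exact NeZero.ne q (Nat.eq_zero_of_zero_dvd hdq)
  have : NeZero d := ⟨hd0⟩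
  have hdpos : (0 : ℝ) < d := by exact_mod_cast Nat.pos_of_ne_zero hd0
  have hqpos : (0 : ℝ) < q := by exact_mod_cast Nat.pos_of_ne_zero (NeZero.ne q)
  have hJpos : (0 : ℝ) < J := by exact_mod_cast hJ
  have hTpos : (0 : ℝ) < T := by linarith
  obtain ⟨r, hr⟩ : ∃ r : ℝ, r = (W.card : ℝ) := ⟨_, rfl⟩
  obtain ⟨E, hE⟩ : ∃ E : ℝ, E = (En W : ℝ) := ⟨_, rfl⟩
  have hr0 : 0 ≤ r := hr ▸ Nat.cast_nonneg _
  have hE0 : 0 ≤ E := hE ▸ Nat.cast_nonneg _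
  have hc := card_units_le (q := q)
  have hc0 : (0 : ℝ) ≤ (Fintype.card (ZMod q)ˣ : ℝ) := Nat.cast_nonneg _
  have h1 := G1_sq d hdq J hJ T hT1 hT (f W) (f_nonneg W)
  rw [sum_f, sum_f_sq, ← hr, ← hE] at h1
  have hG0 : ∀ y, 0 ≤ G1 d J (f W) y := G1_nonneg d J (f W) (f_nonneg W)
  obtain ⟨X, hX⟩ : ∃ X : ℝ, X = ∑ a ∈ A J, ∑ b ∈ A J, ∑ c ∈ A J, ∑ y : (ZMod q)ˣ, ∑ z : (ZMod q)ˣ,
        (if (a : ZMod d) * red d y + (b : ZMod d) * red d z + (c : ZMod d) = 0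
          then ‖R W y‖ * ‖R W z‖ * ‖R W (z * y⁻¹)‖ else 0) := ⟨_, rfl⟩
  rw [← hX, ← hr, ← hE]
  -- `y` outside
  have hX1 : X = ∑ y : (ZMod q)ˣ, ∑ a ∈ A J, ∑ b ∈ A J, ∑ c ∈ A J, ∑ z : (ZMod q)ˣ,
        (if (a : ZMod d) * red d y + (b : ZMod d) * red d z + (c : ZMod d) = 0
          then ‖R W y‖ * ‖R W z‖ * ‖R W (z * y⁻¹)‖ else 0) := by
    rw [hX]
    calc ∑ a ∈ A J, ∑ b ∈ A J, ∑ c ∈ A J, ∑ y : (ZMod q)ˣ, ∑ z : (ZMod q)ˣ,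
        (if (a : ZMod d) * red d y + (b : ZMod d) * red d z + (c : ZMod d) = 0
          then ‖R W y‖ * ‖R W z‖ * ‖R W (z * y⁻¹)‖ else 0) =
        ∑ a ∈ A J, ∑ b ∈ A J, ∑ y : (ZMod q)ˣ, ∑ c ∈ A J, ∑ z : (ZMod q)ˣ,
        (if (a : ZMod d) * red d y + (b : ZMod d) * red d z + (c : ZMod d) = 0
          then ‖R W y‖ * ‖R W z‖ * ‖R W (z * y⁻¹)‖ else 0) :=
          Finset.sum_congr rfl fun a _ => Finset.sum_congr rfl fun b _ => Finset.sum_comm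
      _ = ∑ a ∈ A J, ∑ y : (ZMod q)ˣ, ∑ b ∈ A J, ∑ c ∈ A J, ∑ z : (ZMod q)ˣ,
        (if (a : ZMod d) * red d y + (b : ZMod d) * red d z + (c : ZMod d) = 0
          then ‖R W y‖ * ‖R W z‖ * ‖R W (z * y⁻¹)‖ else 0) :=
          Finset.sum_congr rfl fun a _ => Finset.sum_comm
      _ = _ := Finset.sum_comm
  have hy : ∀ y : (ZMod q)ˣ, ∑ a ∈ A J, ∑ b ∈ A J, ∑ c ∈ A J, ∑ z : (ZMod q)ˣ,
        (if (a : ZMod d) * red d y + (b : ZMod d) * red d z + (c : ZMod d) = 0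
          then ‖R W y‖ * ‖R W z‖ * ‖R W (z * y⁻¹)‖ else 0) ≤
      ‖R W y‖ * Real.sqrt (G1 d J (f W) y * G1 d J (f W) y⁻¹) := by
    intro y
    let I : Finset (ℤ × ℤ × ℤ × (ZMod q)ˣ) := A J ×ˢ (A J ×ˢ (A J ×ˢ (univ : Finset (ZMod q)ˣ)))
    let u : ℤ × ℤ × ℤ × (ZMod q)ˣ → ℝ := fun p =>
      if (p.1 : ZMod d) * red d y + (p.2.1 : ZMod d) * red d p.2.2.2
        + (p.2.2.1 : ZMod d) = 0 then ‖R W p.2.2.2‖ else 0
    let v : ℤ × ℤ × ℤ × (ZMod q)ˣ → ℝ := fun p =>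
      if (p.1 : ZMod d) * red d y + (p.2.1 : ZMod d) * red d p.2.2.2
        + (p.2.2.1 : ZMod d) = 0 then ‖R W (p.2.2.2 * y⁻¹)‖ else 0
    have hx : ∑ a ∈ A J, ∑ b ∈ A J, ∑ c ∈ A J, ∑ z : (ZMod q)ˣ,
        (if (a : ZMod d) * red d y + (b : ZMod d) * red d z + (c : ZMod d) = 0
          then ‖R W y‖ * ‖R W z‖ * ‖R W (z * y⁻¹)‖ else 0) = ‖R W y‖ * ∑ p ∈ I, u p * v p := by
      rw [Finset.mul_sum]
      simp only [I, Finset.sum_product]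
      refine sum_congr rfl fun a _ => sum_congr rfl fun b _ => sum_congr rfl fun c _ =>
        sum_congr rfl fun z _ => ?_
      simp only [u, v]
      split_ifs <;> ring
    have hs1 : G1 d J (f W) y = ∑ p ∈ I, u p ^ 2 := by
      unfold G1
      simp only [I, Finset.sum_product]
      refine sum_congr rfl fun a _ => sum_congr rfl fun b _ => sum_congr rfl fun c _ =>
        sum_congr rfl fun z _ => ?_
      simp only [u, f]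
      split_ifs <;> ring
    have hs2 : G1 d J (f W) y⁻¹ = ∑ p ∈ I, v p ^ 2 := by
      rw [← G2_eq_88 d hdq J (f W) y]
      simp only [I, Finset.sum_product]
      refine sum_congr rfl fun a _ => sum_congr rfl fun b _ => sum_congr rfl fun c _ =>
        sum_congr rfl fun z _ => ?_
      simp only [v, f]
      split_ifs <;> ring
    rw [hx]
    refine mul_le_mul_of_nonneg_left ?_ (norm_nonneg _)
    refine Real.le_sqrt_of_sq_le ?_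
    rw [hs1, hs2]
    exact Finset.sum_mul_sq_le_sq_mul_sq I u v
  have hX2 : X ≤ ∑ y : (ZMod q)ˣ, ‖R W y‖ * Real.sqrt (G1 d J (f W) y * G1 d J (f W) y⁻¹) := by
    rw [hX1]
    exact Finset.sum_le_sum fun y _ => hy y
  have hX0 : 0 ≤ X := by
    rw [hX]
    refine sum_nonneg fun a _ => sum_nonneg fun b _ => sum_nonneg fun c _ =>
        sum_nonneg fun y _ => sum_nonneg fun z _ => ?_
    split_ifs
    · positivity
    · exact le_rfl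
  have hsym : ∑ y : (ZMod q)ˣ, G1 d J (f W) y⁻¹ ^ 2 = ∑ y : (ZMod q)ˣ, G1 d J (f W) y ^ 2 :=
    Equiv.sum_comp (Equiv.inv (ZMod q)ˣ) (fun y => G1 d J (f W) y ^ 2)
  have hX3 : X ^ 2 ≤ ((Fintype.card (ZMod q)ˣ : ℝ) * r) * ∑ y : (ZMod q)ˣ, G1 d J (f W) y ^ 2 := by
    refine (pow_le_pow_left₀ hX0 hX2 2).trans ?_
    refine (Finset.sum_mul_sq_le_sq_mul_sq univ (fun y : (ZMod q)ˣ => ‖R W y‖)
      (fun y => Real.sqrt (G1 d J (f W) y * G1 d J (f W) y⁻¹))).trans ?_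
    have e1 : ∑ y : (ZMod q)ˣ, ‖R W y‖ ^ 2 = (Fintype.card (ZMod q)ˣ : ℝ) * r := by
      rw [hr]
      exact sum_f W
    rw [e1]
    refine mul_le_mul_of_nonneg_left ?_ (mul_nonneg hc0 hr0)
    have e2 : ∀ y : (ZMod q)ˣ, Real.sqrt (G1 d J (f W) y * G1 d J (f W) y⁻¹) ^ 2 ≤
        (G1 d J (f W) y ^ 2 + G1 d J (f W) y⁻¹ ^ 2) / 2 := by
      intro y
      rw [Real.sq_sqrt (mul_nonneg (hG0 y) (hG0 _))]
      nlinarith [sq_nonneg (G1 d J (f W) y - G1 d J (f W) y⁻¹)]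
    refine (Finset.sum_le_sum fun y _ => e2 y).trans (le_of_eq ?_)
    rw [← Finset.sum_div, Finset.sum_add_distrib, hsym]
    ring
  exact num3_88 hqpos hdpos hJpos hT1 hr0 hE0 hc0 hc hX3 h1

/-- The cubic sum, with `E / J²`. -/
theorem T3_le2 (W : Finset (DirichletCharacter ℂ q)) (κ : ℤ → ℂ) (J : ℕ) (hJ : 1 ≤ J)
    (hκ : ∀ m ∈ A J, ‖κ m‖ ≤ 1 / J)
    (T : ℝ) (hT1 : 1 ≤ T) (hT : ∀ n : ℕ, 1 ≤ n → n ≤ q → ((n.divisors.card : ℕ) : ℝ) ≤ T) :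
    ‖T3 W κ J‖ ≤ 91 * T ^ 2 * (q : ℝ) ^ 2 *
      Real.sqrt ((W.card : ℝ) ^ 3 + W.card * (En W : ℝ) / (J : ℝ) ^ 2) := by
  have hqpos : 0 < q := Nat.pos_of_ne_zero (NeZero.ne q)
  have hJpos : (0 : ℝ) < J := by exact_mod_cast hJ
  have hTpos : (0 : ℝ) < T := by linarith
  have hcard : ((q.divisors.card : ℕ) : ℝ) ≤ T := hT q hqpos le_rfl
  obtain ⟨G, hG⟩ : ∃ G : ℝ, G = Real.sqrt ((W.card : ℝ) ^ 3 + W.card * (En W : ℝ) / (J : ℝ) ^ 2) := ⟨_, rfl⟩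
  have hG0 : 0 ≤ G := hG ▸ Real.sqrt_nonneg _
  refine (T3_le_sum W κ J hJ hκ).trans ?_
  have h1 := Finset.sum_le_sum (fun d hd => inner3_88 W J hJ T hT1 hT d hd)
  rw [Finset.sum_const, nsmul_eq_mul, ← hG] at h1
  rw [← hG]
  calc _ ≤ 1 / (J : ℝ) ^ 3 * ((q.divisors.card : ℝ) * (91 * T * (q : ℝ) ^ 2 * (J : ℝ) ^ 3 * G)) :=
        mul_le_mul_of_nonneg_left h1 (by positivity)
    _ ≤ 1 / (J : ℝ) ^ 3 * (T * (91 * T * (q : ℝ) ^ 2 * (J : ℝ) ^ 3 * G)) := by gcongr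
    _ = 91 * T ^ 2 * (q : ℝ) ^ 2 * G := by
        field_simp

end Pool.Agent.Helper88.LV
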