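import Mathlib

/-!
# Large values of Dirichlet polynomials over the characters modulo `q`: definitions

`R W u = ∑_{χ ∈ W} χ(u)`, `f W u = |R W u|²`, `En W` the additive energy of `W` (in the group of
characters), `A L` the non-zero integers of absolute value at most `L`, `red d y` the residue modulo `d`
of the unit `y` modulo `q` (used for `d ∣ q`), `K d H` the Fejér weight on `ZMod d`.
-/

set_option autoImplicit false

namespace Pool.Agent.Helper88.LV

open Finset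

/-- The sum of the characters of the family `W`. -/
noncomputable def R {q : ℕ} (W : Finset (DirichletCharacter ℂ q)) (u : (ZMod q)ˣ) : ℂ :=
  ∑ χ ∈ W, χ (u : ZMod q)

/-- `|R|²`. -/
noncomputable def f {q : ℕ} (W : Finset (DirichletCharacter ℂ q)) (u : (ZMod q)ˣ) : ℝ :=
  ‖R W u‖ ^ 2

open scoped Classical in
/-- The energy: the number of solutions of `χ₁ χ₂ = χ₃ χ₄` in `W`. -/
noncomputable def En {q : ℕ} (W : Finset (DirichletCharacter ℂ q)) : ℕ :=
  (((W ×ˢ W) ×ˢ (W ×ˢ W)).filter (fun p => p.1.1 * p.1.2 = p.2.1 * p.2.2)).card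

/-- The non-zero integers `m` with `|m| ≤ L`. -/
noncomputable def A (L : ℕ) : Finset ℤ := (Finset.Icc (-(L : ℤ)) L).erase 0

/-- The residue modulo `d` of a unit modulo `q` (for `d ∣ q` this is the value of the ring
homomorphism `ZMod.castHom`). -/
def red {q : ℕ} (d : ℕ) (y : (ZMod q)ˣ) : ZMod d := ((y : ZMod q).val : ZMod d)

/-- The Fejér weight of length `H` on `ZMod d`. -/
noncomputable def K (d H : ℕ) [NeZero d] (s : ZMod d) : ℝ :=
  ‖∑ j ∈ range H, ZMod.stdAddChar ((j : ZMod d) * s)‖ ^ 2 / (H : ℝ) ^ 2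

/-- The trigonometric polynomial with coefficients `κ` and frequencies in `A J`. -/
noncomputable def kap {q : ℕ} [NeZero q] (κ : ℤ → ℂ) (J : ℕ) (u : (ZMod q)ˣ) : ℂ :=
  ∑ m ∈ A J, κ m * ZMod.stdAddChar ((m : ZMod q) * (u : ZMod q))

/-- The cubic sum. -/
noncomputable def T3 {q : ℕ} [NeZero q] (W : Finset (DirichletCharacter ℂ q)) (κ : ℤ → ℂ)
    (J : ℕ) : ℂ :=
  ∑ u : (ZMod q)ˣ, ∑ v : (ZMod q)ˣ, ∑ w : (ZMod q)ˣ,
    kap κ J u * kap κ J v * kap κ J w * (R W (u * w⁻¹) * R W (v * u⁻¹) * R W (w * v⁻¹))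

/-- The quadratic sum. -/
noncomputable def T2 {q : ℕ} [NeZero q] (W : Finset (DirichletCharacter ℂ q)) (κ : ℤ → ℂ)
    (J : ℕ) : ℂ :=
  ∑ u : (ZMod q)ˣ, ∑ w : (ZMod q)ˣ, kap κ J u * kap κ J w * (f W (u * w⁻¹) : ℂ)

lemma mem_A {L : ℕ} {m : ℤ} : m ∈ A L ↔ m ≠ 0 ∧ |m| ≤ L := by
  unfold A
  rw [mem_erase, mem_Icc, abs_le]

lemma f_nonneg {q : ℕ} (W : Finset (DirichletCharacter ℂ q)) (u : (ZMod q)ˣ) : 0 ≤ f W u := by
  unfold f
  positivity

lemma K_nonneg (d H : ℕ) [NeZero d] (s : ZMod d) : 0 ≤ K d H s := by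
  unfold K
  positivity

end Pool.Agent.Helper88.LV
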