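import Pool.Agent.Helper88.LV.Orth
import Pool.Agent.Helper88.LV.Pair

/-!
# LV-18: the energy, second form

`V² E ≤ B² ∑_{n,n'} ‖R(n/n')‖³` as in LV-9, then `pair_count` with `g = ‖R‖³`: `∑ ‖R‖³ ≤ √(∑ ‖R‖² ∑ ‖R‖⁴)` and
`∑ ‖R‖⁶ ≤ r² ∑ ‖R‖⁴`.
-/

set_option autoImplicit false

namespace Pool.Agent.Helper88.LV

open Finset

variable {q : ℕ} [NeZero q]

/-- a Dirichlet polynomial of length `N < q` as a sum over the units -/
private theorem sum_unitsE88 (N : ℕ) (hNq : N < q) (b : ℕ → ℂ) (η : DirichletCharacter ℂ q) :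
    ∑ n ∈ Icc 1 N, b n * η (n : ZMod q) =
      ∑ u : (ZMod q)ˣ, (if (u : ZMod q).val ∈ Icc 1 N then b (u : ZMod q).val else 0) * η (u : ZMod q) := by
  classical
  obtain ⟨g, hg⟩ : ∃ g : ZMod q → ℂ, g = fun s => (if s.val ∈ Icc 1 N then b s.val else 0) * η s := ⟨_, rfl⟩
  have h1 : ∑ u : (ZMod q)ˣ, g (u : ZMod q) = ∑ s : ZMod q, g s := by
    refine Fintype.sum_of_injective (fun u : (ZMod q)ˣ => (u : ZMod q)) Units.val_injective _ _ ?_ fun _ => rfl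
    intro s hs
    rw [hg]
    dsimp only
    rw [MulChar.map_nonunit η, mul_zero]
    intro hu
    obtain ⟨u, hu⟩ := hu
    exact hs ⟨u, hu⟩
  have h2 : ∑ s : ZMod q, g s = ∑ n ∈ Icc 1 N, g (n : ZMod q) := by
    have hinj : Set.InjOn (fun n : ℕ => (n : ZMod q)) (Icc 1 N : Finset ℕ) := by
      intro n hn n' hn' hnn
      rw [Finset.mem_coe, Finset.mem_Icc] at hn hn'
      have e2 : (n : ZMod q) = (n' : ZMod q) := hnn
      rw [ZMod.natCast_eq_natCast_iff'] at e2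
      rwa [Nat.mod_eq_of_lt (by omega), Nat.mod_eq_of_lt (by omega)] at e2
    rw [← Finset.sum_image (f := g) hinj]
    symm
    refine Finset.sum_subset (Finset.subset_univ _) fun s _ hs => ?_
    rw [hg]
    dsimp only
    rw [if_neg, zero_mul]
    intro h
    refine hs (Finset.mem_image.2 ⟨s.val, h, ?_⟩)
    exact ZMod.natCast_zmod_val s
  have h3 : ∑ u : (ZMod q)ˣ, (if (u : ZMod q).val ∈ Icc 1 N then b (u : ZMod q).val else 0) * η (u : ZMod q) =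
      ∑ u : (ZMod q)ˣ, g (u : ZMod q) := by rw [hg]
  rw [h3, h1, h2, hg]
  refine Finset.sum_congr rfl fun n hn => ?_
  have hn' := Finset.mem_Icc.1 hn
  dsimp only
  rw [ZMod.val_natCast, Nat.mod_eq_of_lt (by omega), if_pos hn]

omit [NeZero q] in
private theorem char_divE88 (η : DirichletCharacter ℂ q) (u v : (ZMod q)ˣ) :
    η (((u * v⁻¹ : (ZMod q)ˣ)) : ZMod q) = η (u : ZMod q) * (starRingEnd ℂ) (η (v : ZMod q)) := by
  rw [Units.val_mul, map_mul]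
  congr 1
  have h2 : η (v : ZMod q) * η ((v⁻¹ : (ZMod q)ˣ) : ZMod q) = 1 := by
    rw [← map_mul, Units.mul_inv, map_one]
  rw [eq_inv_of_mul_eq_one_right h2]
  exact Complex.inv_eq_conj (DirichletCharacter.unit_norm_eq_one η v)

/-- the number of pairs is counted by `pair_count` -/
private theorem pairsE88 (N : ℕ) (hN : 1 ≤ N) (T : ℝ) (hT1 : 1 ≤ T)
    (hT : ∀ n : ℕ, 1 ≤ n → n ≤ q → ((n.divisors.card : ℕ) : ℝ) ≤ T)
    (g : (ZMod q)ˣ → ℝ) (hg : ∀ y, 0 ≤ g y) :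
    ∑ u ∈ (Finset.univ.filter fun u : (ZMod q)ˣ => (u : ZMod q).val ∈ Icc 1 N),
      ∑ v ∈ (Finset.univ.filter fun u : (ZMod q)ˣ => (u : ZMod q).val ∈ Icc 1 N), g (u * v⁻¹) ≤
      100 * ((N : ℝ) ^ 2 / q * ∑ y, g y + T * N * Real.sqrt (∑ y, g y ^ 2)) := by
  classical
  obtain ⟨S, hS⟩ : ∃ S : Finset (ZMod q)ˣ, S = Finset.univ.filter fun u : (ZMod q)ˣ => (u : ZMod q).val ∈ Icc 1 N :=
    ⟨_, rfl⟩
  rw [← hS]
  have hq0 : (q : ℝ) ≠ 0 := Nat.cast_ne_zero.2 (NeZero.ne q)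
  have h1 := pair_count q (dvd_refl q) N hN T hT1 hT g hg
  rw [div_self hq0, one_mul] at h1
  refine le_trans ?_ h1
  obtain ⟨G, hG⟩ : ∃ G : ℤ × ℤ × (ZMod q)ˣ → ℝ, G = fun p =>
    if (p.1 : ZMod q) * red q p.2.2 + (p.2.1 : ZMod q) = 0 then g p.2.2 else 0 := ⟨_, rfl⟩
  have hG0 : ∀ p, 0 ≤ G p := by
    intro p
    rw [hG]
    dsimp only
    split_ifs
    · exact hg _
    · exact le_rfl
  have h2 : ∑ a ∈ A N, ∑ b ∈ A N, ∑ y : (ZMod q)ˣ,
      (if (a : ZMod q) * red q y + (b : ZMod q) = 0 then g y else 0) =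
      ∑ p ∈ A N ×ˢ A N ×ˢ (Finset.univ : Finset (ZMod q)ˣ), G p := by
    rw [Finset.sum_product]
    refine Finset.sum_congr rfl fun a _ => ?_
    rw [Finset.sum_product]
    refine Finset.sum_congr rfl fun b _ => Finset.sum_congr rfl fun y _ => ?_
    rw [hG]
  have hinj : Set.InjOn (fun p : (ZMod q)ˣ × (ZMod q)ˣ =>
      ((((p.2 : ZMod q).val : ℤ), -((p.1 : ZMod q).val : ℤ), p.1 * p.2⁻¹) : ℤ × ℤ × (ZMod q)ˣ))
      ((S ×ˢ S : Finset ((ZMod q)ˣ × (ZMod q)ˣ)) : Set ((ZMod q)ˣ × (ZMod q)ˣ)) := by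
    intro p _ p' _ hpp
    have e1 : (((p.2 : ZMod q).val : ℤ)) = ((p'.2 : ZMod q).val : ℤ) := congrArg Prod.fst hpp
    have e2 : -(((p.1 : ZMod q).val : ℤ)) = -((p'.1 : ZMod q).val : ℤ) := congrArg (fun x => x.2.1) hpp
    have e3 : (p.2 : ZMod q).val = (p'.2 : ZMod q).val := by exact_mod_cast e1
    have e4 : (p.1 : ZMod q).val = (p'.1 : ZMod q).val := by
      have := neg_inj.1 e2
      exact_mod_cast this
    exact Prod.ext (Units.ext (ZMod.val_injective q e4)) (Units.ext (ZMod.val_injective q e3))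
  have h3 : ∑ u ∈ S, ∑ v ∈ S, g (u * v⁻¹) = ∑ p ∈ S ×ˢ S, G ((fun p : (ZMod q)ˣ × (ZMod q)ˣ =>
      ((((p.2 : ZMod q).val : ℤ), -((p.1 : ZMod q).val : ℤ), p.1 * p.2⁻¹) : ℤ × ℤ × (ZMod q)ˣ)) p) := by
    rw [Finset.sum_product]
    refine Finset.sum_congr rfl fun u _ => Finset.sum_congr rfl fun v _ => ?_
    rw [hG]
    dsimp only
    rw [if_pos]
    unfold red
    rw [ZMod.natCast_zmod_val]
    push_cast
    rw [ZMod.natCast_zmod_val, ZMod.natCast_zmod_val, mul_comm (u : ZMod q), ← mul_assoc, Units.mul_inv, one_mul,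
      add_neg_cancel]
  rw [h2, h3, ← Finset.sum_image (f := G) hinj]
  refine Finset.sum_le_sum_of_subset_of_nonneg ?_ fun p _ _ => hG0 p
  intro p hp
  obtain ⟨x, hx, rfl⟩ := Finset.mem_image.1 hp
  rw [Finset.mem_product, hS, Finset.mem_filter, Finset.mem_filter, Finset.mem_Icc, Finset.mem_Icc] at hx
  obtain ⟨⟨_, hx1, hx2⟩, ⟨_, hx3, hx4⟩⟩ := hx
  rw [Finset.mem_product, Finset.mem_product, mem_A, mem_A]
  dsimp only
  refine ⟨⟨by omega, ?_⟩, ⟨by omega, ?_⟩, Finset.mem_univ _⟩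
  · rw [abs_of_nonneg (Int.natCast_nonneg _)]
    omega
  · rw [abs_neg, abs_of_nonneg (Int.natCast_nonneg _)]
    omega

theorem energy2 (N : ℕ) (hN : 1 ≤ N) (hNq : N < q) (b : ℕ → ℂ) (B : ℝ)
    (hB : 0 ≤ B) (hb : ∀ n ∈ Icc 1 N, ‖b n‖ ≤ B) (W : Finset (DirichletCharacter ℂ q)) (V : ℝ)
    (hV : 0 ≤ V) (hVW : ∀ χ ∈ W, V ≤ ‖∑ n ∈ Icc 1 N, b n * χ (n : ZMod q)‖)
    (T : ℝ) (hT1 : 1 ≤ T) (hT : ∀ n : ℕ, 1 ≤ n → n ≤ q → ((n.divisors.card : ℕ) : ℝ) ≤ T) :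
    V ^ 2 * (En W : ℝ) ≤ 100 * B ^ 2 * T *
      ((N : ℝ) ^ 2 * Real.sqrt (W.card * En W) + N * W.card * Real.sqrt (q * En W)) := by
  classical
  obtain ⟨S, hS⟩ : ∃ S : Finset (ZMod q)ˣ, S = Finset.univ.filter fun u : (ZMod q)ˣ => (u : ZMod q).val ∈ Icc 1 N :=
    ⟨_, rfl⟩
  obtain ⟨D, hD⟩ : ∃ D : DirichletCharacter ℂ q → ℂ, D = fun χ => ∑ n ∈ Icc 1 N, b n * χ (n : ZMod q) := ⟨_, rfl⟩
  obtain ⟨β, hβ⟩ : ∃ β : (ZMod q)ˣ → ℂ, β = fun u : (ZMod q)ˣ => if (u : ZMod q).val ∈ Icc 1 N then b (u : ZMod q).val else 0 :=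
    ⟨_, rfl⟩
  have hDβ : ∀ η, D η = ∑ u : (ZMod q)ˣ, β u * η (u : ZMod q) := by
    intro η
    rw [hD, hβ]
    exact sum_unitsE88 N hNq b η
  have hβS : ∀ u, ‖β u‖ ≤ if u ∈ S then B else 0 := by
    intro u
    rw [hβ, hS]
    dsimp only
    by_cases h : (u : ZMod q).val ∈ Icc 1 N
    · have hu : u ∈ Finset.univ.filter (fun u : (ZMod q)ˣ => (u : ZMod q).val ∈ Icc 1 N) :=
        Finset.mem_filter.2 ⟨Finset.mem_univ _, h⟩
      rw [if_pos h, if_pos hu]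
      exact hb _ h
    · rw [if_neg h, norm_zero]
      split_ifs
      · exact hB
      · exact le_rfl
  -- step 1
  have s1 : V ^ 2 * (En W : ℝ) ≤ ∑ p ∈ W ×ˢ W ×ˢ W, ‖D (p.1 * p.2.1 * p.2.2⁻¹)‖ ^ 2 := by
    obtain ⟨P, hP⟩ : ∃ P : Finset (DirichletCharacter ℂ q × DirichletCharacter ℂ q × DirichletCharacter ℂ q),
      P = (W ×ˢ W ×ˢ W).filter fun p => p.1 * p.2.1 * p.2.2⁻¹ ∈ W := ⟨_, rfl⟩
    have e0 : En W = (((W ×ˢ W) ×ˢ (W ×ˢ W)).filter (fun p => p.1.1 * p.1.2 = p.2.1 * p.2.2)).card := by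
      unfold En
      congr
    have e1 : En W ≤ P.card := by
      rw [e0]
      refine Finset.card_le_card_of_injOn (fun p => (p.1.1, p.1.2, p.2.1)) ?_ ?_
      · intro p hp
        rw [Finset.mem_coe, Finset.mem_filter, Finset.mem_product, Finset.mem_product, Finset.mem_product] at hp
        rw [hP, Finset.mem_coe, Finset.mem_filter, Finset.mem_product, Finset.mem_product]
        refine ⟨⟨hp.1.1.1, hp.1.1.2, hp.1.2.1⟩, ?_⟩
        dsimp only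
        rw [hp.2, mul_comm p.2.1 p.2.2, mul_inv_cancel_right]
        exact hp.1.2.2
      · intro p hp p' hp' hpp
        rw [Finset.mem_coe, Finset.mem_filter] at hp hp'
        have hpp' : (p.1.1, p.1.2, p.2.1) = (p'.1.1, p'.1.2, p'.2.1) := hpp
        rw [Prod.mk.injEq, Prod.mk.injEq] at hpp'
        obtain ⟨e1, e2, e3⟩ := hpp'
        have e4 := hp.2
        rw [e1, e2, hp'.2, e3] at e4
        have e5 := mul_left_cancel e4
        exact Prod.ext (Prod.ext e1 e2) (Prod.ext e3 e5.symm)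
    calc V ^ 2 * (En W : ℝ) ≤ V ^ 2 * (P.card : ℝ) := by
          have : (En W : ℝ) ≤ (P.card : ℝ) := by exact_mod_cast e1
          exact mul_le_mul_of_nonneg_left this (sq_nonneg V)
      _ = ∑ _p ∈ P, V ^ 2 := by rw [Finset.sum_const, nsmul_eq_mul, mul_comm]
      _ ≤ ∑ p ∈ P, ‖D (p.1 * p.2.1 * p.2.2⁻¹)‖ ^ 2 := by
          refine Finset.sum_le_sum fun p hp => ?_
          rw [hP, Finset.mem_filter] at hp
          refine pow_le_pow_left₀ hV ?_ 2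
          rw [hD]
          exact hVW _ hp.2
      _ ≤ _ := by
          rw [hP]
          exact Finset.sum_le_sum_of_subset_of_nonneg (Finset.filter_subset _ _) fun _ _ _ => sq_nonneg _
  -- step 2
  have s2 : ∑ p ∈ W ×ˢ W ×ˢ W, ‖D (p.1 * p.2.1 * p.2.2⁻¹)‖ ^ 2 ≤
      ∑ u ∈ S, ∑ v ∈ S, B ^ 2 * (‖R W (u * v⁻¹)‖ * ‖R W (u * v⁻¹)‖ ^ 2) := by
    have e0 : ∀ y : (ZMod q)ˣ, ∑ p ∈ W ×ˢ W ×ˢ W, (p.1 * p.2.1 * p.2.2⁻¹ : DirichletCharacter ℂ q) (y : ZMod q) =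
        R W y * (R W y * (starRingEnd ℂ) (R W y)) := by
      intro y
      unfold R
      rw [map_sum, Finset.sum_mul_sum, Finset.sum_mul_sum, Finset.sum_product]
      refine Finset.sum_congr rfl fun χ _ => ?_
      rw [Finset.sum_product]
      refine Finset.sum_congr rfl fun ψ _ => ?_
      rw [Finset.mul_sum]
      refine Finset.sum_congr rfl fun ρ _ => ?_
      dsimp only
      rw [MulChar.mul_apply, MulChar.mul_apply, MulChar.inv_apply_eq_inv', mul_assoc]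
      congr 2
      exact Complex.inv_eq_conj (DirichletCharacter.unit_norm_eq_one ρ y)
    have e1 : ((∑ p ∈ W ×ˢ W ×ˢ W, ‖D (p.1 * p.2.1 * p.2.2⁻¹)‖ ^ 2 : ℝ) : ℂ) =
        ∑ u : (ZMod q)ˣ, ∑ v : (ZMod q)ˣ, β u * (starRingEnd ℂ) (β v) *
          (R W (u * v⁻¹) * (R W (u * v⁻¹) * (starRingEnd ℂ) (R W (u * v⁻¹)))) := by
      rw [Complex.ofReal_sum]
      have e2 : ∀ η : DirichletCharacter ℂ q, ((‖D η‖ ^ 2 : ℝ) : ℂ) = ∑ u : (ZMod q)ˣ, ∑ v : (ZMod q)ˣ,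
          β u * (starRingEnd ℂ) (β v) * η ((u * v⁻¹ : (ZMod q)ˣ) : ZMod q) := by
        intro η
        rw [Complex.ofReal_pow, ← Complex.mul_conj', hDβ, map_sum, Finset.sum_mul_sum]
        refine Finset.sum_congr rfl fun u _ => Finset.sum_congr rfl fun v _ => ?_
        rw [map_mul, char_divE88]
        ring
      rw [Finset.sum_congr rfl fun p _ => e2 _, Finset.sum_comm]
      refine Finset.sum_congr rfl fun u _ => ?_
      rw [Finset.sum_comm]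
      refine Finset.sum_congr rfl fun v _ => ?_
      rw [← Finset.mul_sum, e0]
    have e3 : (0 : ℝ) ≤ ∑ p ∈ W ×ˢ W ×ˢ W, ‖D (p.1 * p.2.1 * p.2.2⁻¹)‖ ^ 2 :=
      Finset.sum_nonneg fun _ _ => sq_nonneg _
    rw [← Real.norm_of_nonneg e3, ← Complex.norm_real, e1]
    refine (norm_sum_le _ _).trans ?_
    have e4 : ∀ u : (ZMod q)ˣ, ‖∑ v : (ZMod q)ˣ, β u * (starRingEnd ℂ) (β v) *
        (R W (u * v⁻¹) * (R W (u * v⁻¹) * (starRingEnd ℂ) (R W (u * v⁻¹))))‖ ≤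
        if u ∈ S then ∑ v ∈ S, B ^ 2 * (‖R W (u * v⁻¹)‖ * ‖R W (u * v⁻¹)‖ ^ 2) else 0 := by
      intro u
      refine (norm_sum_le _ _).trans ?_
      by_cases hu : u ∈ S
      · rw [if_pos hu]
        have hu' : ‖β u‖ ≤ B := by
          have := hβS u
          rwa [if_pos hu] at this
        rw [← Finset.sum_subset (Finset.subset_univ S)]
        · refine Finset.sum_le_sum fun v hv => ?_
          have hv' : ‖β v‖ ≤ B := by
            have := hβS v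
            rwa [if_pos hv] at this
          rw [norm_mul, norm_mul, norm_mul, norm_mul, RCLike.norm_conj, RCLike.norm_conj]
          have e5 : ‖β u‖ * ‖β v‖ ≤ B ^ 2 := by
            rw [sq]
            exact mul_le_mul hu' hv' (norm_nonneg _) hB
          have e6 : 0 ≤ ‖R W (u * v⁻¹)‖ * (‖R W (u * v⁻¹)‖ * ‖R W (u * v⁻¹)‖) := by positivity
          calc ‖β u‖ * ‖β v‖ * (‖R W (u * v⁻¹)‖ * (‖R W (u * v⁻¹)‖ * ‖R W (u * v⁻¹)‖))
              ≤ B ^ 2 * (‖R W (u * v⁻¹)‖ * (‖R W (u * v⁻¹)‖ * ‖R W (u * v⁻¹)‖)) :=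
                mul_le_mul_of_nonneg_right e5 e6
            _ = _ := by ring
        · intro v _ hv
          have := hβS v
          rw [if_neg hv] at this
          have h0 : β v = 0 := norm_le_zero_iff.1 this
          rw [h0, map_zero, mul_zero, zero_mul, norm_zero]
      · rw [if_neg hu]
        have := hβS u
        rw [if_neg hu] at this
        have h0 : β u = 0 := norm_le_zero_iff.1 this
        refine le_of_eq (Finset.sum_eq_zero fun v _ => ?_)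
        rw [h0, zero_mul, zero_mul, norm_zero]
    refine (Finset.sum_le_sum fun u _ => e4 u).trans (le_of_eq ?_)
    rw [Finset.sum_ite_mem, Finset.univ_inter]
  -- step 3
  have hq0 : (0 : ℝ) < q := by exact_mod_cast NeZero.pos q
  have hN0 : (0 : ℝ) ≤ N := Nat.cast_nonneg N
  have hE0 : (0 : ℝ) ≤ En W := Nat.cast_nonneg _
  have hr0 : (0 : ℝ) ≤ W.card := Nat.cast_nonneg _
  have hcard := card_units_le (q := q)
  have hf1 : ∑ y, f W y ≤ q * W.card := by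
    rw [sum_f]
    exact mul_le_mul_of_nonneg_right hcard (Nat.cast_nonneg _)
  have hf2 : ∑ y, f W y ^ 2 ≤ q * En W := by
    rw [sum_f_sq]
    exact mul_le_mul_of_nonneg_right hcard hE0
  obtain ⟨F3, hF3⟩ : ∃ F3 : ℝ, F3 = ∑ u ∈ S, ∑ v ∈ S, ‖R W (u * v⁻¹)‖ ^ 3 := ⟨_, rfl⟩
  have s3 : V ^ 2 * (En W : ℝ) ≤ B ^ 2 * F3 := by
    refine (s1.trans s2).trans (le_of_eq ?_)
    rw [hF3, Finset.mul_sum]
    refine Finset.sum_congr rfl fun u _ => ?_
    rw [Finset.mul_sum]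
    refine Finset.sum_congr rfl fun v _ => ?_
    ring
  have e1 := pairsE88 N hN T hT1 hT (fun y => ‖R W y‖ ^ 3) (fun y => by positivity)
  rw [← hS, ← hF3] at e1
  have e2 : ∑ y : (ZMod q)ˣ, ‖R W y‖ ^ 3 ≤ q * Real.sqrt (W.card * En W) := by
    have h1 : (∑ y : (ZMod q)ˣ, ‖R W y‖ ^ 3) ^ 2 ≤ (∑ y : (ZMod q)ˣ, f W y) * ∑ y : (ZMod q)ˣ, f W y ^ 2 := by
      have h2 := Finset.sum_mul_sq_le_sq_mul_sq (Finset.univ : Finset (ZMod q)ˣ) (fun y => ‖R W y‖)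
        (fun y => f W y)
      have h3 : ∑ y : (ZMod q)ˣ, ‖R W y‖ * f W y = ∑ y : (ZMod q)ˣ, ‖R W y‖ ^ 3 :=
        Finset.sum_congr rfl fun y _ => by
          unfold f
          ring
      rw [h3] at h2
      exact h2
    have h4 : 0 ≤ ∑ y : (ZMod q)ˣ, f W y := Finset.sum_nonneg fun y _ => f_nonneg W y
    have h5 : (∑ y : (ZMod q)ˣ, f W y) * ∑ y : (ZMod q)ˣ, f W y ^ 2 ≤ (q * W.card) * (q * En W) :=
      mul_le_mul hf1 hf2 (Finset.sum_nonneg fun y _ => sq_nonneg _) (by positivity)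
    have h6 : (q : ℝ) * Real.sqrt (W.card * En W) = Real.sqrt ((q * W.card) * (q * En W)) := by
      have : (q : ℝ) * W.card * (q * En W) = (q : ℝ) ^ 2 * (W.card * En W) := by ring
      rw [this, Real.sqrt_mul (sq_nonneg _) ((W.card : ℝ) * En W), Real.sqrt_sq hq0.le]
    rw [h6]
    exact Real.le_sqrt_of_sq_le (h1.trans h5)
  have e3 : Real.sqrt (∑ y : (ZMod q)ˣ, (‖R W y‖ ^ 3) ^ 2) ≤ W.card * Real.sqrt (q * En W) := by
    have h1 : ∑ y : (ZMod q)ˣ, (‖R W y‖ ^ 3) ^ 2 ≤ (W.card : ℝ) ^ 2 * (q * En W) := by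
      refine le_trans ?_ (mul_le_mul_of_nonneg_left hf2 (by positivity))
      rw [Finset.mul_sum]
      refine Finset.sum_le_sum fun y _ => ?_
      calc (‖R W y‖ ^ 3) ^ 2 = f W y * f W y ^ 2 := by
            unfold f
            ring
        _ ≤ (W.card : ℝ) ^ 2 * f W y ^ 2 := mul_le_mul_of_nonneg_right (f_le W y) (sq_nonneg _)
    refine (Real.sqrt_le_sqrt h1).trans (le_of_eq ?_)
    rw [Real.sqrt_mul (by positivity), Real.sqrt_sq hr0]
  have e4 : F3 ≤ 100 * T * ((N : ℝ) ^ 2 * Real.sqrt (W.card * En W) + N * W.card * Real.sqrt (q * En W)) := by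
    refine e1.trans ?_
    have h1 : (N : ℝ) ^ 2 / q * ∑ y : (ZMod q)ˣ, ‖R W y‖ ^ 3 ≤ (N : ℝ) ^ 2 * Real.sqrt (W.card * En W) := by
      calc (N : ℝ) ^ 2 / q * ∑ y : (ZMod q)ˣ, ‖R W y‖ ^ 3 ≤
            (N : ℝ) ^ 2 / q * (q * Real.sqrt (W.card * En W)) := mul_le_mul_of_nonneg_left e2 (by positivity)
        _ = _ := by field_simp
    have h2 : (N : ℝ) ^ 2 * Real.sqrt (W.card * En W) ≤ T * ((N : ℝ) ^ 2 * Real.sqrt (W.card * En W)) :=
      le_mul_of_one_le_left (by positivity) hT1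
    have h3 : T * N * Real.sqrt (∑ y : (ZMod q)ˣ, (‖R W y‖ ^ 3) ^ 2) ≤ T * N * (W.card * Real.sqrt (q * En W)) :=
      mul_le_mul_of_nonneg_left e3 (by positivity)
    linarith
  calc V ^ 2 * (En W : ℝ) ≤ B ^ 2 * F3 := s3
    _ ≤ B ^ 2 * (100 * T * ((N : ℝ) ^ 2 * Real.sqrt (W.card * En W) + N * W.card * Real.sqrt (q * En W))) :=
        mul_le_mul_of_nonneg_left e4 (by positivity)
    _ = _ := by ring

end Pool.Agent.Helper88.LV
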