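import Pool.Agent.Helper88.LV.MainT
import Pool.Agent.Helper88.LV.TDefs
import Pool.Agent.Helper25.HM.K8

/-!
# LV-14: the large value theorem for the family `χ(n) n^{it}`, all moduli

`q ≥ N^{2/5+d}`: `lvt`. `q < N^{2/5+d}`: the Halász-Montgomery inequality and Huxley's subdivision (`hm_full`,
helper25) with `H = N^{2/5+2d} / q`.
-/

set_option autoImplicit false

namespace Pool.Agent.Helper88.LV

open Finset Pool.Agent.Helper25.HM

private lemma nat88 {X : ℝ} (hX : 0 ≤ X) (a : ℝ) (n : ℕ) : (X ^ a) ^ n = X ^ (a * n) := by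
  rw [← Real.rpow_natCast (X ^ a) n, ← Real.rpow_mul hX]

private lemma mono88 {X : ℝ} (hX : 1 < X) {a b : ℝ} (h : a ≤ b) : X ^ a ≤ X ^ b :=
  Real.rpow_le_rpow_of_exponent_le hX.le h

private lemma JJ_le88 {M : ℕ} (hM : 1 ≤ M) : (JJ M : ℝ) ≤ 1 + 2 * Real.log M := by
  unfold JJ
  have h1 : ((Nat.log 2 M : ℕ) : ℝ) ≤ Real.logb 2 M := Real.natLog_le_logb _ _
  have h2 : Real.logb 2 M ≤ 2 * Real.log M := by
    unfold Real.logb
    rw [div_le_iff₀ (Real.log_pos (by norm_num))]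
    have h3 : (1 / 2 : ℝ) ≤ Real.log 2 := by
      have := Real.log_two_gt_d9
      linarith
    have h4 : 0 ≤ Real.log M := Real.log_natCast_nonneg M
    nlinarith
  push_cast
  linarith

/-- The part of small `q`. -/
private lemma hm_part88 {X k K h k0 d C : ℝ} {q : ℕ} [NeZero q] (hX : 1 < X) (hh : 0 < h)
    (hd : 20 * h ≤ d) (hk0 : 20 * h ≤ k0) (hbig : (10 : ℝ) ^ 8 ≤ X ^ h)
    (hlog : 1 + 2 * Real.log X ≤ X ^ h) (hk : (q : ℝ) = X ^ k) (hkd : k ≤ 2 / 5 + d)
    (T : ℕ) (hT1 : 1 ≤ T) (hK : (q : ℝ) * T = X ^ K) (hKk : 2 / 5 + k0 ≤ K) (hKd : K ≤ 1 / 2 - d)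
    (hC : ∀ m : ℕ, m ≠ 0 → ((Nat.divisors m).card : ℝ) ≤ C * (m : ℝ) ^ (h / 2))
    (hCX : C ≤ X ^ (h / 2)) (M : ℕ) (hMX : (M : ℝ) ≤ X ^ (2 / 5 + h)) (b : ℕ → ℂ)
    (hb : ∀ n, ‖b n‖ ≤ X ^ h) (W : Finset (DirichletCharacter ℂ q × ℤ))
    (hWT : ∀ p ∈ W, |p.2| ≤ (T : ℤ)) (hVW : ∀ p ∈ W, X ^ (4 / 5 - K - h) ≤
      ‖∑ n ∈ Icc 1 M, b n * (p.1 (n : ZMod q) * nt n p.2)‖) :
    (W.card : ℝ) ≤ X ^ (3 * K - 6 / 5 - 4 * h) := by
  classical
  have hX0 : 0 < X := by linarith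
  have hX0' : 0 ≤ X := hX0.le
  have hqpos : (0 : ℝ) < q := by exact_mod_cast NeZero.pos q
  have hq1 : (1 : ℝ) ≤ q := by exact_mod_cast NeZero.one_le
  have hTpos : (0 : ℝ) < T := by exact_mod_cast hT1
  have hd10 : d ≤ 1 / 10 := by linarith
  have hlogX : 0 ≤ Real.log X := Real.log_nonneg hX.le
  have hXh : Real.log X ≤ X ^ h := by linarith
  have hXh1 : 1 ≤ X ^ h := by linarith
  rcases W.eq_empty_or_nonempty with hW | ⟨p₀, hp₀⟩
  · rw [hW, card_empty, Nat.cast_zero]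
    positivity
  have hVpos : 0 < X ^ (4 / 5 - K - h) := Real.rpow_pos_of_pos hX0 _
  have hM1 : 1 ≤ M := by
    by_contra hM
    have hM' : M = 0 := by omega
    have h1 := hVW p₀ hp₀
    rw [hM'] at h1
    simp at h1
    linarith
  have hM1' : (1 : ℝ) ≤ M := by exact_mod_cast hM1
  have hqX : (q : ℝ) ≤ X := by
    rw [hk]
    calc X ^ k ≤ X ^ (1 : ℝ) := mono88 hX (by linarith)
      _ = X := Real.rpow_one X
  have hMleX : (M : ℝ) ≤ X := by
    calc (M : ℝ) ≤ X ^ (2 / 5 + h) := hMX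
      _ ≤ X ^ (1 : ℝ) := mono88 hX (by linarith)
      _ = X := Real.rpow_one X
  -- the divisor function
  have hτ : ((q.divisors.card : ℕ) : ℝ) ≤ X ^ h := by
    calc ((q.divisors.card : ℕ) : ℝ) ≤ C * (q : ℝ) ^ (h / 2) := hC q (NeZero.ne q)
      _ ≤ X ^ (h / 2) * X ^ (h / 2) := by gcongr
      _ = X ^ h := by
        rw [← Real.rpow_add hX0]
        congr 1
        ring
  -- `JJ`
  have hJJ : (JJ M : ℝ) ≤ X ^ h := by
    refine (JJ_le88 hM1).trans (le_trans ?_ hlog)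
    have : Real.log M ≤ Real.log X := Real.log_le_log (by linarith) hMleX
    linarith
  -- `H`
  set Y : ℝ := X ^ (2 / 5 + 2 * d - k) with hY
  have hY2 : 2 ≤ Y := by
    calc (2 : ℝ) ≤ X ^ h := le_trans (by norm_num) hbig
      _ ≤ Y := mono88 hX (by linarith)
  set H : ℕ := ⌊Y⌋₊ with hH
  have hHY : (H : ℝ) ≤ Y := Nat.floor_le (by linarith)
  have hHY' : Y / 2 ≤ H := by
    have := Nat.lt_floor_add_one Y
    rw [← hH] at this
    linarith
  have hH1 : 1 ≤ H := by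
    rw [hH]
    exact Nat.le_floor (by push_cast; linarith)
  have hHpos : (0 : ℝ) < H := by exact_mod_cast hH1
  have hqH : (q : ℝ) * H ≤ X ^ (2 / 5 + 2 * d) := by
    calc (q : ℝ) * H ≤ X ^ k * Y := by
          rw [hk]
          gcongr
      _ = X ^ (2 / 5 + 2 * d) := by
        rw [hY, ← Real.rpow_add hX0]
        congr 1
        ring
  have hHX : (H : ℝ) + 1 ≤ X := by
    have h1 : (H : ℝ) ≤ X ^ (2 / 5 + 2 * d) := by
      calc (H : ℝ) ≤ (q : ℝ) * H := le_mul_of_one_le_left hHpos.le hq1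
        _ ≤ _ := hqH
    have h2 : (1 : ℝ) ≤ X ^ (2 / 5 + 2 * d) := Real.one_le_rpow hX.le (by linarith)
    calc (H : ℝ) + 1 ≤ 2 * X ^ (2 / 5 + 2 * d) := by linarith
      _ ≤ X ^ h * X ^ (2 / 5 + 2 * d) := by
        have : (2 : ℝ) ≤ X ^ h := le_trans (by norm_num) hbig
        gcongr
      _ = X ^ (2 / 5 + 2 * d + h) := by
        rw [← Real.rpow_add hX0]
        congr 1
        ring
      _ ≤ X ^ (1 : ℝ) := mono88 hX (by linarith)
      _ = X := Real.rpow_one X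
  have hsq : Real.sqrt q * Real.sqrt H ≤ X ^ (1 / 5 + d) := by
    rw [← Real.sqrt_mul hqpos.le]
    apply Real.sqrt_le_left (by positivity) |>.mpr
    rw [nat88 hX0']
    refine hqH.trans (le_of_eq ?_)
    congr 1
    push_cast
    ring
  have hsq2 : Real.sqrt q * (1 + Real.log q) ≤ X ^ (1 / 5 + d) := by
    have h1 : Real.sqrt q ≤ X ^ (1 / 5 + d / 2) := by
      apply Real.sqrt_le_left (by positivity) |>.mpr
      rw [nat88 hX0', hk]
      apply mono88 hX
      push_cast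
      linarith
    have h2 : 1 + Real.log q ≤ X ^ h := by
      have : Real.log q ≤ Real.log X := Real.log_le_log hqpos hqX
      linarith
    have h3 : 0 ≤ Real.log q := Real.log_natCast_nonneg q
    calc Real.sqrt q * (1 + Real.log q) ≤ X ^ (1 / 5 + d / 2) * X ^ h := by gcongr
      _ = X ^ (1 / 5 + d / 2 + h) := by rw [← Real.rpow_add hX0]
      _ ≤ _ := mono88 hX (by linarith)
  have hlogq : 0 ≤ Real.log q := Real.log_natCast_nonneg q
  have hcond : 2 * (JJ M : ℝ) ^ 2 * ((X ^ h) ^ 2 * M * (q.divisors.card *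
      (200 * Real.sqrt q * Real.sqrt H + 4 * Real.sqrt q * (1 + Real.log q)))) ≤
      (X ^ (4 / 5 - K - h)) ^ 2 := by
    have h1 : 200 * Real.sqrt q * Real.sqrt H + 4 * Real.sqrt q * (1 + Real.log q) ≤
        204 * X ^ (1 / 5 + d) := by
      nlinarith
    have h0 : 0 ≤ 200 * Real.sqrt q * Real.sqrt H + 4 * Real.sqrt q * (1 + Real.log q) := by
      positivity
    calc 2 * (JJ M : ℝ) ^ 2 * ((X ^ h) ^ 2 * M * (q.divisors.card *
          (200 * Real.sqrt q * Real.sqrt H + 4 * Real.sqrt q * (1 + Real.log q)))) ≤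
          2 * (X ^ h) ^ 2 * ((X ^ h) ^ 2 * X ^ (2 / 5 + h) * (X ^ h * (204 * X ^ (1 / 5 + d)))) := by
          gcongr
      _ = 408 * ((X ^ h) ^ 2 * (X ^ h) ^ 2 * X ^ (2 / 5 + h) * X ^ h * X ^ (1 / 5 + d)) := by ring
      _ ≤ X ^ h * ((X ^ h) ^ 2 * (X ^ h) ^ 2 * X ^ (2 / 5 + h) * X ^ h * X ^ (1 / 5 + d)) := by
          have : (408 : ℝ) ≤ X ^ h := le_trans (by norm_num) hbig
          gcongr
      _ = X ^ (3 / 5 + d + 7 * h) := by
          rw [nat88 hX0', ← Real.rpow_add hX0, ← Real.rpow_add hX0, ← Real.rpow_add hX0,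
            ← Real.rpow_add hX0, ← Real.rpow_add hX0]
          congr 1
          push_cast
          ring
      _ ≤ (X ^ (4 / 5 - K - h)) ^ 2 := by
          rw [nat88 hX0']
          apply mono88 hX
          push_cast
          linarith
  have key := hm_full W H hH1 T (by exact_mod_cast hWT) hM1 b (B := X ^ h) (by positivity)
    (fun n _ => hb n) (V := X ^ (4 / 5 - K - h)) hVpos.le hVW hcond
  -- the right hand side
  have hTH : 2 * (T : ℝ) / H + 1 ≤ 5 * X ^ (max (K - 2 / 5 - 2 * d) 0) := by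
    have h1 : (T : ℝ) = X ^ (K - k) := by
      have : (T : ℝ) = X ^ K / X ^ k := by
        rw [← hK, ← hk]
        field_simp
      rw [this, Real.rpow_sub hX0]
    have h2 : 2 * (T : ℝ) / H ≤ 4 * X ^ (K - 2 / 5 - 2 * d) := by
      rw [div_le_iff₀ hHpos]
      calc 2 * (T : ℝ) = 4 * X ^ (K - 2 / 5 - 2 * d) * (Y / 2) := by
            rw [h1, hY]
            have : X ^ (K - k) = X ^ (K - 2 / 5 - 2 * d) * X ^ (2 / 5 + 2 * d - k) := by
              rw [← Real.rpow_add hX0]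
              congr 1
              ring
            rw [this]
            ring
        _ ≤ _ := by gcongr
    have h3 : X ^ (K - 2 / 5 - 2 * d) ≤ X ^ (max (K - 2 / 5 - 2 * d) 0) :=
      mono88 hX (le_max_left _ _)
    have h4 : 1 ≤ X ^ (max (K - 2 / 5 - 2 * d) 0) :=
      Real.one_le_rpow hX.le (le_max_right _ _)
    linarith
  have hlogH : 3 + 2 * Real.log (H + 1) ≤ 5 * X ^ h := by
    have : Real.log ((H : ℝ) + 1) ≤ Real.log X := Real.log_le_log (by positivity) hHX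
    linarith
  have hlogH0 : 0 ≤ 3 + 2 * Real.log ((H : ℝ) + 1) := by
    have : 0 ≤ Real.log ((H : ℝ) + 1) := Real.log_nonneg (by linarith)
    linarith
  set m := max (K - 2 / 5 - 2 * d) 0 with hm
  have hR : (JJ M : ℝ) ^ 3 * ((2 * T / H + 1) * (120 * ((X ^ h) ^ 2 * M ^ 2 * (q.divisors.card *
      (3 + 2 * Real.log (H + 1)))))) ≤ X ^ (4 / 5 + 10 * h + m) := by
    calc (JJ M : ℝ) ^ 3 * ((2 * T / H + 1) * (120 * ((X ^ h) ^ 2 * M ^ 2 * (q.divisors.card *
          (3 + 2 * Real.log (H + 1)))))) ≤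
          (X ^ h) ^ 3 * ((5 * X ^ m) * (120 * ((X ^ h) ^ 2 * (X ^ (2 / 5 + h)) ^ 2 * (X ^ h *
            (5 * X ^ h))))) := by
          gcongr
      _ = 3000 * ((X ^ h) ^ 3 * X ^ m * (X ^ h) ^ 2 * (X ^ (2 / 5 + h)) ^ 2 * X ^ h * X ^ h) := by
          ring
      _ ≤ X ^ h * ((X ^ h) ^ 3 * X ^ m * (X ^ h) ^ 2 * (X ^ (2 / 5 + h)) ^ 2 * X ^ h * X ^ h) := by
          have : (3000 : ℝ) ≤ X ^ h := le_trans (by norm_num) hbig
          gcongr
      _ = X ^ (4 / 5 + 10 * h + m) := by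
          rw [nat88 hX0', nat88 hX0', nat88 hX0', ← Real.rpow_add hX0, ← Real.rpow_add hX0,
            ← Real.rpow_add hX0, ← Real.rpow_add hX0, ← Real.rpow_add hX0, ← Real.rpow_add hX0]
          congr 1
          push_cast
          ring
  have hfin : (W.card : ℝ) * (X ^ (4 / 5 - K - h)) ^ 2 ≤
      X ^ (3 * K - 6 / 5 - 4 * h) * (X ^ (4 / 5 - K - h)) ^ 2 := by
    refine (key.trans hR).trans ?_
    rw [nat88 hX0', ← Real.rpow_add hX0]
    apply mono88 hX
    push_cast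
    rcases max_choice (K - 2 / 5 - 2 * d) 0 with h1 | h1
    · rw [hm, h1]
      linarith
    · rw [hm, h1]
      linarith
  exact le_of_mul_le_mul_right hfin (by positivity)

/-- **The large value theorem for all pairs `(χ, t)`.** -/
theorem lvt_all (k0 d : ℝ) (hk0 : 0 < k0) (hd : 0 < d) : LVT k0 d := by
  classical
  obtain ⟨η1, hη1, c1, hc1, N1, h1⟩ := lvt d hd
  obtain ⟨h, hh, hhd, hhk⟩ : ∃ h : ℝ, 0 < h ∧ 20 * h ≤ d ∧ 20 * h ≤ k0 := by
    refine ⟨min (d / 20) (k0 / 20), lt_min (by linarith) (by linarith), ?_, ?_⟩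
    · have := min_le_left (d / 20) (k0 / 20)
      linarith
    · have := min_le_right (d / 20) (k0 / 20)
      linarith
  obtain ⟨C, hC1, hC⟩ := Pool.Agent.Helper7.GPC.card_divisors_le (ε := h / 2) (by linarith)
  have hlogev : ∀ᶠ x : ℝ in Filter.atTop, 1 + 2 * Real.log x ≤ x ^ h := by
    have h2 : (fun x : ℝ => Real.log x) =o[Filter.atTop] fun x : ℝ => x ^ h :=
      isLittleO_log_rpow_atTop hh
    have h3 := h2.bound (by norm_num : (0 : ℝ) < 1 / 4)
    have h4 := (tendsto_rpow_atTop hh).eventually_ge_atTop (2 : ℝ)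
    filter_upwards [h3, h4, Filter.eventually_ge_atTop (1 : ℝ)] with x hx1 hx2 hx3
    have h5 : Real.log x ≤ 1 / 4 * x ^ h := by
      have h6 : 0 ≤ Real.log x := Real.log_nonneg hx3
      have h7 : 0 ≤ x ^ h := Real.rpow_nonneg (by linarith) _
      rwa [Real.norm_of_nonneg h6, Real.norm_of_nonneg h7] at hx1
    linarith
  have hev : ∀ᶠ n : ℕ in Filter.atTop, (10 : ℝ) ^ 8 ≤ (n : ℝ) ^ h ∧
      C ≤ (n : ℝ) ^ (h / 2) ∧ (2 : ℝ) ≤ n ∧ 1 + 2 * Real.log (n : ℝ) ≤ (n : ℝ) ^ h := by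
    have e1 := ((tendsto_rpow_atTop hh).comp
      tendsto_natCast_atTop_atTop).eventually_ge_atTop ((10 : ℝ) ^ 8)
    have e2 := ((tendsto_rpow_atTop (by linarith : (0 : ℝ) < h / 2)).comp
      tendsto_natCast_atTop_atTop).eventually_ge_atTop C
    have e3 : ∀ᶠ n : ℕ in Filter.atTop, (2 : ℝ) ≤ (n : ℝ) :=
      tendsto_natCast_atTop_atTop.eventually_ge_atTop (2 : ℝ)
    have e4 := (tendsto_natCast_atTop_atTop (R := ℝ)).eventually hlogev
    filter_upwards [e1, e2, e3, e4] with q a b c d using ⟨a, b, c, d⟩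
  obtain ⟨N2, hN2⟩ := Filter.eventually_atTop.1 hev
  refine ⟨min η1 h, lt_min hη1 hh, min c1 (4 * h), ?_, max N1 N2, ?_⟩
  · have e1 := min_le_left η1 h
    have e2 := min_le_right η1 h
    exact lt_min (by linarith) (by linarith)
  intro N hN q _ T hT hqT1 hqT2 M hM b hb W hWT hVW
  obtain ⟨hbig, hCX, hN3, hlog⟩ := hN2 N ((le_max_right _ _).trans hN)
  have hX : (1 : ℝ) < N := by linarith
  have hX0 : (0 : ℝ) < N := by linarith
  have hη1' := min_le_left η1 h
  have hη2' := min_le_right η1 h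
  have hqpos : (0 : ℝ) < q := by exact_mod_cast NeZero.pos q
  have hTpos : (0 : ℝ) < T := by exact_mod_cast hT
  have hqTpos : (0 : ℝ) < (q : ℝ) * T := by positivity
  rcases le_total ((N : ℝ) ^ (2 / 5 + d)) q with hq | hq
  · -- large `q`
    have h2 := h1 N ((le_max_left _ _).trans hN) q T hT hq hqT2 M
      (hM.trans (mono88 hX (by linarith))) b (fun n => (hb n).trans (mono88 hX (by linarith))) W hWT
      (fun p hp => by
        have h3 : (N : ℝ) ^ (4 / 5 - η1) / ((q : ℝ) * T) ≤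
            (N : ℝ) ^ (4 / 5 - min η1 h) / ((q : ℝ) * T) := by
          have := mono88 hX (by linarith : 4 / 5 - η1 ≤ 4 / 5 - min η1 h)
          gcongr
        refine (h3.trans (hVW p hp)).trans (le_of_eq ?_)
        congr 1
        apply Finset.sum_congr rfl
        intro n _
        unfold nt
        rw [mul_comm Complex.I])
    refine h2.trans ?_
    have h4 := mono88 hX (by linarith [min_le_left c1 (4 * h)] :
      -(6 / 5 : ℝ) - c1 ≤ -(6 / 5) - min c1 (4 * h))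
    gcongr
  · -- small `q`
    obtain ⟨k, hk⟩ : ∃ k : ℝ, (q : ℝ) = (N : ℝ) ^ k :=
      ⟨Real.logb N q, (Real.rpow_logb hX0 hX.ne' hqpos).symm⟩
    obtain ⟨K, hK⟩ : ∃ K : ℝ, (q : ℝ) * T = (N : ℝ) ^ K :=
      ⟨Real.logb N ((q : ℝ) * T), (Real.rpow_logb hX0 hX.ne' hqTpos).symm⟩
    have hkd : k ≤ 2 / 5 + d := by
      rw [hk] at hq
      exact (Real.rpow_le_rpow_left_iff hX).1 hq
    have hK1 : 2 / 5 + k0 ≤ K := by
      rw [hK] at hqT1
      exact (Real.rpow_le_rpow_left_iff hX).1 hqT1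
    have hK2 : K ≤ 1 / 2 - d := by
      rw [hK] at hqT2
      exact (Real.rpow_le_rpow_left_iff hX).1 hqT2
    have h2 := hm_part88 hX hh hhd hhk hbig hlog hk hkd T hT hK hK1 hK2 hC hCX M
      (hM.trans (mono88 hX (by linarith))) b (fun n => (hb n).trans (mono88 hX (by linarith))) W hWT
      (fun p hp => by
        have h3 := hVW p hp
        rw [hK, ← Real.rpow_sub hX0] at h3
        exact (mono88 hX (by linarith)).trans h3)
    refine h2.trans ?_
    rw [hK, nat88 hX0.le, ← Real.rpow_add hX0]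
    apply mono88 hX
    push_cast
    linarith [min_le_right c1 (4 * h)]

end Pool.Agent.Helper88.LV
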