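import Pool.Agent.Helper88.LV.Orth
import Pool.Agent.Helper88.LV.Ram

/-!
# LV-12: the trivial bound for the quadratic sum

`f ≤ r²`, and for given `c` the number of the pairs `(a, y)` with `a y + c = 0` in `ZMod d` is at most
`∑_{e ∣ |c|} (3 J / e) (e q / d)`. (The counting lemmas are those of `Second.lean`, helper4.)
-/

set_option autoImplicit false

namespace Pool.Agent.Helper88.LV

open Finset

/-- counting in a residue class -/
private lemma class_card_t88 {q d' : ℕ} (hd' : 0 < d') (hdq : d' ∣ q) (S : Finset ℕ)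
    (hS : ∀ n ∈ S, n < q) (hc : ∀ m ∈ S, ∀ n ∈ S, m % d' = n % d') : S.card ≤ q / d' := by
  have h := Finset.card_le_card_of_injOn (s := S) (t := range (q / d')) (fun n => n / d') ?_ ?_
  · rwa [card_range] at h
  · intro n hn
    rw [Finset.mem_coe] at hn
    rw [Finset.mem_coe, mem_range]
    exact Nat.div_lt_div_of_lt_of_dvd hdq (hS n hn)
  · intro m hm n hn hmn
    have h1 := hc m hm n hn
    have h2 : m / d' = n / d' := hmn
    rw [← Nat.div_add_mod m d', ← Nat.div_add_mod n d', h1, h2]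

/-- number of solutions `y` -/
private lemma sol_card_t88 {q : ℕ} [NeZero q] (d : ℕ) [NeZero d] (hd : d ∣ q) (s : ZMod d) (c : ℤ) :
    ((univ.filter (fun y : (ZMod q)ˣ => s * red d y + (c : ZMod d) = 0)).card : ℝ) ≤
      ∑ e ∈ c.natAbs.divisors, (if e ∣ d ∧ e ∣ s.val then (e : ℝ) * ((q : ℝ) / d) else 0)
        + (if c = 0 then (q : ℝ) else 0) := by
  have hd0 : 0 < d := Nat.pos_of_ne_zero (NeZero.ne d)
  have hq0 : 0 < q := Nat.pos_of_ne_zero (NeZero.ne q)
  have hnn : 0 ≤ ∑ e ∈ c.natAbs.divisors, (if e ∣ d ∧ e ∣ s.val then (e : ℝ) * ((q : ℝ) / d) else 0) := by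
    apply Finset.sum_nonneg
    intro e _
    split_ifs
    · positivity
    · exact le_rfl
  set S := univ.filter (fun y : (ZMod q)ˣ => s * red d y + (c : ZMod d) = 0) with hSdef
  -- the values
  set V : Finset ℕ := S.image (fun y : (ZMod q)ˣ => (y : ZMod q).val) with hV
  have hcard : V.card = S.card := by
    rw [hV]
    apply Finset.card_image_of_injective
    intro x y hxy
    apply Units.ext
    exact ZMod.val_injective q hxy
  have hVq : ∀ n ∈ V, n < q := by
    intro n hn
    rw [hV, mem_image] at hn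
    obtain ⟨y, _, rfl⟩ := hn
    exact ZMod.val_lt _
  by_cases hc0 : c = 0
  · rw [if_pos hc0]
    have h1 : S.card ≤ q := by
      rw [← hcard]
      calc V.card ≤ (range q).card := Finset.card_le_card (fun n hn => mem_range.2 (hVq n hn))
        _ = q := card_range q
    have h2 : (S.card : ℝ) ≤ q := by exact_mod_cast h1
    linarith
  · rw [if_neg hc0, add_zero]
    rcases S.eq_empty_or_nonempty with h | ⟨y0, hy0⟩
    · rw [h, card_empty, Nat.cast_zero]
      exact hnn
    · set g : ℕ := Nat.gcd s.val d with hg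
      have hgd : g ∣ d := Nat.gcd_dvd_right _ _
      have hgs : g ∣ s.val := Nat.gcd_dvd_left _ _
      have hg0 : 0 < g := Nat.gcd_pos_of_pos_right _ hd0
      have hval : ∀ y ∈ S, (d : ℤ) ∣ (s.val : ℤ) * ((y : ZMod q).val : ℤ) + c := by
        intro y hy
        rw [hSdef, mem_filter] at hy
        have h1 := hy.2
        rw [← ZMod.intCast_zmod_eq_zero_iff_dvd]
        push_cast
        rw [← h1]
        unfold red
        rw [ZMod.natCast_zmod_val s]
      have hgc : g ∣ c.natAbs := by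
        have h1 := hval y0 hy0
        have h2 : (g : ℤ) ∣ (s.val : ℤ) * ((y0 : ZMod q).val : ℤ) + c :=
          (Int.natCast_dvd_natCast.2 hgd).trans h1
        have h3 : (g : ℤ) ∣ (s.val : ℤ) * ((y0 : ZMod q).val : ℤ) :=
          Dvd.dvd.mul_right (Int.natCast_dvd_natCast.2 hgs) _
        have h4 : (g : ℤ) ∣ c := (Int.dvd_iff_dvd_of_dvd_add h2).1 h3
        exact Int.natCast_dvd.1 h4
      have hd'0 : 0 < d / g := Nat.div_pos (Nat.le_of_dvd hd0 hgd) hg0
      have hdd' : d / g ∣ q := (Nat.div_dvd_of_dvd hgd).trans hd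
      have hVc : ∀ m ∈ V, ∀ n ∈ V, m % (d / g) = n % (d / g) := by
        intro m hm n hn
        rw [hV, mem_image] at hm hn
        obtain ⟨x, hx, rfl⟩ := hm
        obtain ⟨y, hy, rfl⟩ := hn
        have h1 := (hval x hx).sub (hval y hy)
        have h2 : (s.val : ℤ) * ((x : ZMod q).val : ℤ) + c - ((s.val : ℤ) * ((y : ZMod q).val : ℤ) + c) =
            (g : ℤ) * (((s.val / g : ℕ) : ℤ) * (((x : ZMod q).val : ℤ) - ((y : ZMod q).val : ℤ))) := by
          have h3 : (s.val : ℤ) = (g : ℤ) * ((s.val / g : ℕ) : ℤ) := by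
            rw [← Nat.cast_mul, Nat.mul_div_cancel' hgs]
          rw [h3]
          ring
        rw [h2] at h1
        have h4 : (d : ℤ) = (g : ℤ) * ((d / g : ℕ) : ℤ) := by
          rw [← Nat.cast_mul, Nat.mul_div_cancel' hgd]
        rw [h4] at h1
        have h5 : ((d / g : ℕ) : ℤ) ∣ ((s.val / g : ℕ) : ℤ) * (((x : ZMod q).val : ℤ) - ((y : ZMod q).val : ℤ)) :=
          Int.dvd_of_mul_dvd_mul_left (by exact_mod_cast hg0.ne') h1
        have h6 : IsCoprime ((d / g : ℕ) : ℤ) ((s.val / g : ℕ) : ℤ) := by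
          rw [Nat.isCoprime_iff_coprime]
          exact (Nat.coprime_div_gcd_div_gcd hg0).symm
        have h7 := h6.dvd_of_dvd_mul_left h5
        have h8 : ((y : ZMod q).val : ℤ) ≡ ((x : ZMod q).val : ℤ) [ZMOD ((d / g : ℕ) : ℤ)] :=
          Int.modEq_iff_dvd.2 h7
        have h9 := (Int.natCast_modEq_iff.1 h8).symm
        exact h9
      have h5 := class_card_t88 hd'0 hdd' V hVq hVc
      rw [hcard] at h5
      have h6 : (S.card : ℝ) ≤ ((q / (d / g) : ℕ) : ℝ) := by exact_mod_cast h5
      have h7 : ((q / (d / g) : ℕ) : ℝ) = (g : ℝ) * ((q : ℝ) / d) := by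
        rw [Nat.cast_div hdd' (by exact_mod_cast hd'0.ne'), Nat.cast_div hgd (by exact_mod_cast hg0.ne')]
        field_simp
      rw [h7] at h6
      refine h6.trans ?_
      have h8 : g ∈ c.natAbs.divisors := Nat.mem_divisors.2 ⟨hgc, by simpa using hc0⟩
      refine le_trans (le_of_eq ?_) (Finset.single_le_sum
        (f := fun e => if e ∣ d ∧ e ∣ s.val then (e : ℝ) * ((q : ℝ) / d) else 0) ?_ h8)
      · rw [if_pos ⟨hgd, hgs⟩]
      · intro e _
        split_ifs
        · positivity
        · exact le_rfl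

/-- number of `a` -/
private lemma a_card_t88 (d : ℕ) [NeZero d] (L : ℕ) (e : ℕ) (he0 : 0 < e) (heL : e ≤ L) (hed : e ∣ d)
    (w : ZMod d) :
    e * ((A L).filter (fun a : ℤ => e ∣ ((a : ZMod d) + w).val)).card ≤ 3 * L := by
  set S := (A L).filter (fun a : ℤ => e ∣ ((a : ZMod d) + w).val) with hS
  have he0' : (0 : ℤ) < e := by exact_mod_cast he0
  have hdv : ∀ a ∈ S, (e : ℤ) ∣ a + w.val := by
    intro a ha
    rw [hS, mem_filter] at ha
    have h1 : (((a : ZMod d) + w).val : ℤ) = (a + w.val) % d := by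
      have h2 : (a : ZMod d) + w = ((a + w.val : ℤ) : ZMod d) := by
        push_cast
        rw [ZMod.natCast_zmod_val]
      rw [h2, ZMod.val_intCast]
    have h3 : (e : ℤ) ∣ (a + w.val) % d := by
      rw [← h1]
      exact Int.natCast_dvd_natCast.2 ha.2
    have h4 := Int.emod_add_mul_ediv (a + w.val) d
    rw [← h4]
    exact dvd_add h3 (Dvd.dvd.mul_right (Int.natCast_dvd_natCast.2 hed) _)
  have hr : ∀ a ∈ S, -(L : ℤ) ≤ a ∧ a ≤ L := by
    intro a ha
    rw [hS, mem_filter, mem_A] at ha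
    exact abs_le.1 ha.1.2
  have h := Finset.card_le_card_of_injOn (s := S)
    (t := Finset.Icc (-(((L : ℤ) - w.val) / e)) (((L : ℤ) + w.val) / e)) (fun a => (a + w.val) / e) ?_ ?_
  · rw [Int.card_Icc] at h
    have h1 : (e : ℤ) * (((L : ℤ) - w.val) / e) ≤ (L : ℤ) - w.val := Int.mul_ediv_self_le he0'.ne'
    have h2 : (e : ℤ) * (((L : ℤ) + w.val) / e) ≤ (L : ℤ) + w.val := Int.mul_ediv_self_le he0'.ne'
    have h3 : (e : ℤ) ≤ L := by exact_mod_cast heL
    have h4 : (S.card : ℤ) ≤ max (((L : ℤ) + w.val) / e + 1 - -(((L : ℤ) - w.val) / e)) 0 := by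
      rw [← Int.toNat_eq_max]
      exact_mod_cast h
    have h5 : (e : ℤ) * S.card ≤ 3 * L := by
      rcases le_total (((L : ℤ) + w.val) / e + 1 - -(((L : ℤ) - w.val) / e)) 0 with h6 | h6
      · rw [max_eq_right h6] at h4
        have : (e : ℤ) * S.card ≤ e * 0 := mul_le_mul_of_nonneg_left h4 he0'.le
        linarith
      · rw [max_eq_left h6] at h4
        have : (e : ℤ) * S.card ≤ e * (((L : ℤ) + w.val) / e + 1 - -(((L : ℤ) - w.val) / e)) :=
          mul_le_mul_of_nonneg_left h4 he0'.le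
        linarith
    exact_mod_cast h5
  · intro a ha
    rw [Finset.mem_coe] at ha
    rw [Finset.mem_coe, Finset.mem_Icc]
    obtain ⟨h1, h2⟩ := hr a ha
    obtain ⟨k, hk⟩ := hdv a ha
    have h3 : (a + w.val) / e = k := by
      rw [hk]
      exact Int.mul_ediv_cancel_left k he0'.ne'
    dsimp only
    rw [h3]
    constructor
    · have : -k ≤ ((L : ℤ) - w.val) / e := by
        rw [Int.le_ediv_iff_mul_le he0']
        linarith
      linarith
    · rw [Int.le_ediv_iff_mul_le he0']
      linarith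
  · intro a ha b hb hab
    rw [Finset.mem_coe] at ha hb
    obtain ⟨k, hk⟩ := hdv a ha
    obtain ⟨l, hl⟩ := hdv b hb
    have h3 : (a + w.val) / e = k := by
      rw [hk]
      exact Int.mul_ediv_cancel_left k he0'.ne'
    have h4 : (b + w.val) / e = l := by
      rw [hl]
      exact Int.mul_ediv_cancel_left l he0'.ne'
    have hab' : (a + w.val) / e = (b + w.val) / e := hab
    rw [h3, h4] at hab'
    rw [hab'] at hk
    linarith

private lemma A_card_t88 (L : ℕ) : (A L).card = 2 * L := by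
  unfold A
  rw [Finset.card_erase_of_mem (by rw [Finset.mem_Icc]; constructor <;> omega), Int.card_Icc]
  omega

theorem T2_triv {q : ℕ} [NeZero q] (W : Finset (DirichletCharacter ℂ q)) (κ : ℤ → ℂ) (J : ℕ)
    (hJ : 1 ≤ J) (hJq : J ≤ q) (hκ : ∀ m ∈ A J, ‖κ m‖ ≤ 1 / J)
    (T : ℝ) (hT1 : 1 ≤ T) (hT : ∀ n : ℕ, 1 ≤ n → n ≤ q → ((n.divisors.card : ℕ) : ℝ) ≤ T) :
    ‖T2 W κ J‖ ≤ 6 * T ^ 2 * (q * (W.card : ℝ) ^ 2) := by
  classical
  have hqpos : 0 < q := Nat.pos_of_ne_zero (NeZero.ne q)
  have hJpos : (0 : ℝ) < J := by exact_mod_cast hJ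
  have hTpos : (0 : ℝ) < T := by linarith
  have hcard : ((q.divisors.card : ℕ) : ℝ) ≤ T := hT q hqpos le_rfl
  refine (T2_le_sum W κ J hJ hκ).trans ?_
  have key : ∀ d ∈ q.divisors, (d : ℝ) * ∑ a ∈ A J, ∑ c ∈ A J, ∑ y : (ZMod q)ˣ,
        (if (a : ZMod d) * red d y + (c : ZMod d) = 0 then f W y else 0) ≤
      6 * T * (J : ℝ) ^ 2 * (q * (W.card : ℝ) ^ 2) := by
    intro d hd
    have hdq : d ∣ q := (Nat.mem_divisors.1 hd).1
    have hd0 : d ≠ 0 := fun h => by
      rw [h] at hdq
      exact NeZero.ne q (Nat.eq_zero_of_zero_dvd hdq)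
    have : NeZero d := ⟨hd0⟩
    have hdpos : (0 : ℝ) < d := by exact_mod_cast Nat.pos_of_ne_zero hd0
    have h1 : ∀ a ∈ A J, ∀ c ∈ A J, ∑ y : (ZMod q)ˣ,
        (if (a : ZMod d) * red d y + (c : ZMod d) = 0 then f W y else 0) ≤
        (W.card : ℝ) ^ 2 * ∑ e ∈ c.natAbs.divisors,
          (if e ∣ d ∧ e ∣ (a : ZMod d).val then (e : ℝ) * ((q : ℝ) / d) else 0) := by
      intro a _ c hc
      have hc0 : c ≠ 0 := (mem_A.1 hc).1
      have h2 := sol_card_t88 d hdq (a : ZMod d) c
      rw [if_neg hc0, add_zero] at h2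
      calc ∑ y : (ZMod q)ˣ, (if (a : ZMod d) * red d y + (c : ZMod d) = 0 then f W y else 0) ≤
            ∑ y : (ZMod q)ˣ, (if (a : ZMod d) * red d y + (c : ZMod d) = 0
              then (W.card : ℝ) ^ 2 else 0) := by
            apply Finset.sum_le_sum
            intro y _
            split_ifs
            · exact f_le W y
            · exact le_rfl
        _ = (W.card : ℝ) ^ 2 * ((univ.filter (fun y : (ZMod q)ˣ =>
              (a : ZMod d) * red d y + (c : ZMod d) = 0)).card : ℝ) := by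
            rw [← Finset.sum_filter, Finset.sum_const, nsmul_eq_mul, mul_comm]
        _ ≤ _ := by gcongr
    have h3 : ∀ c ∈ A J, ∑ a ∈ A J, ∑ e ∈ c.natAbs.divisors,
          (if e ∣ d ∧ e ∣ (a : ZMod d).val then (e : ℝ) * ((q : ℝ) / d) else 0) ≤
          T * (3 * J * ((q : ℝ) / d)) := by
      intro c hc
      obtain ⟨hc0, hcJ⟩ := mem_A.1 hc
      have hcn : 1 ≤ c.natAbs := Int.natAbs_pos.2 hc0
      have hcn' : c.natAbs ≤ J := by
        have : (c.natAbs : ℤ) ≤ J := by rw [Int.natCast_natAbs]; exact hcJ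
        exact_mod_cast this
      rw [Finset.sum_comm]
      calc ∑ e ∈ c.natAbs.divisors, ∑ a ∈ A J,
            (if e ∣ d ∧ e ∣ (a : ZMod d).val then (e : ℝ) * ((q : ℝ) / d) else 0) ≤
            ∑ e ∈ c.natAbs.divisors, 3 * J * ((q : ℝ) / d) := by
            apply Finset.sum_le_sum
            intro e he
            have hec : e ∣ c.natAbs := (Nat.mem_divisors.1 he).1
            have he0 : 0 < e := Nat.pos_of_dvd_of_pos hec (by omega)
            have heJ : e ≤ J := (Nat.le_of_dvd (by omega) hec).trans hcn'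
            by_cases hed : e ∣ d
            · have h4 := a_card_t88 d J e he0 heJ hed 0
              have h5 : ∑ a ∈ A J, (if e ∣ d ∧ e ∣ (a : ZMod d).val
                  then (e : ℝ) * ((q : ℝ) / d) else 0) =
                  ((A J).filter (fun a : ℤ => e ∣ ((a : ZMod d) + 0).val)).card *
                    ((e : ℝ) * ((q : ℝ) / d)) := by
                have e1 : (((A J).filter (fun a : ℤ => e ∣ ((a : ZMod d) + 0).val)).card : ℝ) *
                    ((e : ℝ) * ((q : ℝ) / d)) =
                    ∑ a ∈ (A J).filter (fun a : ℤ => e ∣ ((a : ZMod d) + 0).val),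
                      ((e : ℝ) * ((q : ℝ) / d)) := by
                  rw [Finset.sum_const, nsmul_eq_mul]
                rw [e1, Finset.sum_filter]
                apply Finset.sum_congr rfl
                intro a _
                simp [hed]
              rw [h5]
              have h6 : (e : ℝ) * ((A J).filter (fun a : ℤ => e ∣ ((a : ZMod d) + 0).val)).card ≤
                  3 * J := by exact_mod_cast h4
              calc (((A J).filter (fun a : ℤ => e ∣ ((a : ZMod d) + 0).val)).card : ℝ) *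
                    ((e : ℝ) * ((q : ℝ) / d)) =
                    ((e : ℝ) * ((A J).filter (fun a : ℤ => e ∣ ((a : ZMod d) + 0).val)).card) *
                      ((q : ℝ) / d) := by ring
                _ ≤ _ := by gcongr
            · rw [Finset.sum_eq_zero]
              · positivity
              · intro a _
                rw [if_neg]
                tauto
        _ = (c.natAbs.divisors.card : ℝ) * (3 * J * ((q : ℝ) / d)) := by
            rw [Finset.sum_const, nsmul_eq_mul]
        _ ≤ _ := by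
            have := hT c.natAbs hcn (hcn'.trans hJq)
            gcongr
    have hA : ((A J).card : ℝ) = 2 * J := by
      rw [A_card_t88]
      push_cast
      ring
    calc (d : ℝ) * ∑ a ∈ A J, ∑ c ∈ A J, ∑ y : (ZMod q)ˣ,
        (if (a : ZMod d) * red d y + (c : ZMod d) = 0 then f W y else 0) ≤
          d * ∑ a ∈ A J, ∑ c ∈ A J, (W.card : ℝ) ^ 2 * ∑ e ∈ c.natAbs.divisors,
          (if e ∣ d ∧ e ∣ (a : ZMod d).val then (e : ℝ) * ((q : ℝ) / d) else 0) := by
          gcongr with a ha c hc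
          exact h1 a ha c hc
      _ = d * ((W.card : ℝ) ^ 2 * ∑ c ∈ A J, ∑ a ∈ A J, ∑ e ∈ c.natAbs.divisors,
          (if e ∣ d ∧ e ∣ (a : ZMod d).val then (e : ℝ) * ((q : ℝ) / d) else 0)) := by
          rw [Finset.sum_comm]
          simp_rw [← Finset.mul_sum]
      _ ≤ d * ((W.card : ℝ) ^ 2 * ∑ c ∈ A J, T * (3 * J * ((q : ℝ) / d))) := by
          gcongr with c hc
          exact h3 c hc
      _ = 6 * T * (J : ℝ) ^ 2 * (q * (W.card : ℝ) ^ 2) := by
          rw [Finset.sum_const, nsmul_eq_mul, hA]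
          field_simp
          ring
  have h1 := Finset.sum_le_sum key
  rw [Finset.sum_const, nsmul_eq_mul] at h1
  calc _ ≤ 1 / (J : ℝ) ^ 2 * ((q.divisors.card : ℝ) * (6 * T * (J : ℝ) ^ 2 *
        (q * (W.card : ℝ) ^ 2))) :=
        mul_le_mul_of_nonneg_left h1 (by positivity)
    _ ≤ 1 / (J : ℝ) ^ 2 * (T * (6 * T * (J : ℝ) ^ 2 * (q * (W.card : ℝ) ^ 2))) := by gcongr
    _ = 6 * T ^ 2 * (q * (W.card : ℝ) ^ 2) := by
        field_simp

end Pool.Agent.Helper88.LV
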