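import Pool.Agent.Helper88.LV.Dual
import Pool.Agent.Helper88.LV.Cubic2
import Pool.Agent.Helper88.LV.Energy2

/-!
# The large value theorem modulo `q` in logarithmic form, with the sharper third moment and energy

`lv_log2`: for `8 M ≤ q`, a polynomial of length `M` with coefficients at most `Λ` and `r` characters with values at least
`V` one of four alternatives holds (linear inequalities between the logarithms; `e` is the logarithm of the energy).
It follows from `cubic`, `T2_le`, `T3_le2`, `energy2`, `dual_c`.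
-/

set_option autoImplicit false

namespace Pool.Agent.Helper88.LV

open Finset

private lemma sqrt_add88 {a b : ℝ} (ha : 0 ≤ a) (hb : 0 ≤ b) : Real.sqrt (a + b) ≤ Real.sqrt a + Real.sqrt b := by
  rw [Real.sqrt_le_left (by positivity)]
  have h1 := Real.sq_sqrt ha
  have h2 := Real.sq_sqrt hb
  have h3 : 0 ≤ Real.sqrt a * Real.sqrt b := by positivity
  nlinarith

/-- the energy inequality in logarithms -/
private lemma energy2_log88 {q r E M V Λ : ℝ} (hq : 0 < q) (hr : 0 < r) (hE : 0 < E) (hM : 0 < M)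
    (hV : 0 < V) (hΛ : 10 ^ 6 ≤ Λ)
    (h : V ^ 2 * E ≤ 100 * Λ ^ 2 * Λ * (M ^ 2 * Real.sqrt (r * E) + M * r * Real.sqrt (q * E))) :
    2 * Real.log V + Real.log E ≤ 4 * Real.log Λ + 2 * Real.log M + (Real.log r + Real.log E) / 2 ∨
    2 * Real.log V + Real.log E ≤ 4 * Real.log Λ + Real.log M + Real.log r + (Real.log q + Real.log E) / 2 := by
  have hΛ0 : 0 < Λ := by linarith
  have hS1 : 0 < Real.sqrt (r * E) := Real.sqrt_pos.2 (by positivity)
  have hS2 : 0 < Real.sqrt (q * E) := Real.sqrt_pos.2 (by positivity)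
  have hl1 : Real.log (Real.sqrt (r * E)) = (Real.log r + Real.log E) / 2 := by
    rw [Real.log_sqrt (by positivity), Real.log_mul hr.ne' hE.ne']
  have hl2 : Real.log (Real.sqrt (q * E)) = (Real.log q + Real.log E) / 2 := by
    rw [Real.log_sqrt (by positivity), Real.log_mul hq.ne' hE.ne']
  have hL : Real.log (V ^ 2 * E) = 2 * Real.log V + Real.log E := by
    rw [Real.log_mul (by positivity) hE.ne', Real.log_pow]
    push_cast
    ring
  have hΛ4 : 200 * (Λ ^ 2 * Λ) ≤ Λ ^ 4 := by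
    have : Λ ^ 4 = Λ * (Λ ^ 2 * Λ) := by ring
    rw [this]
    apply mul_le_mul_of_nonneg_right _ (by positivity)
    linarith
  have hX0 : 0 < M ^ 2 * Real.sqrt (r * E) := by positivity
  have hY0 : 0 < M * r * Real.sqrt (q * E) := by positivity
  rcases le_total (M * r * Real.sqrt (q * E)) (M ^ 2 * Real.sqrt (r * E)) with hc | hc
  · left
    have h1 : V ^ 2 * E ≤ Λ ^ 4 * (M ^ 2 * Real.sqrt (r * E)) := by
      calc V ^ 2 * E ≤ 100 * Λ ^ 2 * Λ * (M ^ 2 * Real.sqrt (r * E) + M * r * Real.sqrt (q * E)) := h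
        _ ≤ 100 * Λ ^ 2 * Λ * (M ^ 2 * Real.sqrt (r * E) + M ^ 2 * Real.sqrt (r * E)) := by gcongr
        _ = 200 * (Λ ^ 2 * Λ) * (M ^ 2 * Real.sqrt (r * E)) := by ring
        _ ≤ _ := mul_le_mul_of_nonneg_right hΛ4 hX0.le
    have h2 := Real.log_le_log (by positivity) h1
    rw [hL, Real.log_mul (by positivity) (by positivity), Real.log_mul (by positivity) hS1.ne', hl1, Real.log_pow,
      Real.log_pow] at h2
    push_cast at h2
    linarith
  · right
    have h1 : V ^ 2 * E ≤ Λ ^ 4 * (M * r * Real.sqrt (q * E)) := by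
      calc V ^ 2 * E ≤ 100 * Λ ^ 2 * Λ * (M ^ 2 * Real.sqrt (r * E) + M * r * Real.sqrt (q * E)) := h
        _ ≤ 100 * Λ ^ 2 * Λ * (M * r * Real.sqrt (q * E) + M * r * Real.sqrt (q * E)) := by gcongr
        _ = 200 * (Λ ^ 2 * Λ) * (M * r * Real.sqrt (q * E)) := by ring
        _ ≤ _ := mul_le_mul_of_nonneg_right hΛ4 hY0.le
    have h2 := Real.log_le_log (by positivity) h1
    rw [hL, Real.log_mul (by positivity) (by positivity), Real.log_mul (by positivity) hS2.ne',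
      Real.log_mul hM.ne' hr.ne', hl2, Real.log_pow] at h2
    push_cast at h2
    linarith

/-- the third moment as a sum of four terms -/
private lemma four_terms88 {q r E M Λ m s t3 t2 ji : ℝ} (hq : 0 < q) (hr : 0 < r) (hE : 0 ≤ E)
    (hM : 0 < M) (hΛ : 10 ^ 6 ≤ Λ) (hji0 : 0 ≤ ji) (hji : ji ≤ 8 * M / q)
    (hs8 : s ≤ 8 * M) (hm16 : 16 * M < m) (h2 : s ≤ m → m * (m - s) ^ 2 ≤ t3 + s * t2)
    (h3 : t3 ≤ 91 * Λ ^ 2 * q ^ 2 * Real.sqrt (r ^ 3 + r * E * ji ^ 2)) (h40 : 0 ≤ t2)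
    (h4 : t2 ≤ 100 * Λ * (q * r + Λ * Real.sqrt (q ^ 3 * E) * ji)) :
    m ^ 3 ≤ 364 * Λ ^ 2 * (q ^ 2 * Real.sqrt (r ^ 3)) + 2912 * Λ ^ 2 * (q * M * Real.sqrt (r * E)) +
      3200 * Λ ^ 2 * (M * q * r) + 25600 * Λ ^ 2 * (M ^ 2 * Real.sqrt (q * E)) := by
  have hΛ0 : 0 < Λ := by linarith
  have hm : 0 < m := by linarith
  have h5 : m ^ 3 ≤ 4 * (t3 + s * t2) := by
    rcases le_or_gt 0 s with hs0 | hs0
    · have h6 := h2 (by linarith)
      have h7 : (m / 2) ^ 2 ≤ (m - s) ^ 2 := pow_le_pow_left₀ (by positivity) (by linarith) 2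
      have h8 : m * (m / 2) ^ 2 ≤ m * (m - s) ^ 2 := mul_le_mul_of_nonneg_left h7 hm.le
      nlinarith [h6, h8]
    · have h6 := h2 (by linarith)
      have h7 : m ^ 2 ≤ (m - s) ^ 2 := pow_le_pow_left₀ hm.le (by linarith) 2
      have h8 : m * m ^ 2 ≤ m * (m - s) ^ 2 := mul_le_mul_of_nonneg_left h7 hm.le
      have h9 : 0 < m ^ 3 := by positivity
      nlinarith [h6, h8, h9]
  -- the third moment
  have hs3 : Real.sqrt (r ^ 3 + r * E * ji ^ 2) ≤ Real.sqrt (r ^ 3) + Real.sqrt (r * E) * ji := by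
    have e1 : Real.sqrt (r * E * ji ^ 2) = Real.sqrt (r * E) * ji := by
      rw [Real.sqrt_mul (by positivity), Real.sqrt_sq hji0]
    rw [← e1]
    exact sqrt_add88 (by positivity) (by positivity)
  have hR0 : 0 ≤ Real.sqrt (r * E) := Real.sqrt_nonneg _
  have h3' : t3 ≤ 91 * Λ ^ 2 * q ^ 2 * (Real.sqrt (r ^ 3) + Real.sqrt (r * E) * (8 * M / q)) := by
    refine h3.trans ?_
    apply mul_le_mul_of_nonneg_left _ (by positivity)
    refine hs3.trans ?_
    have : Real.sqrt (r * E) * ji ≤ Real.sqrt (r * E) * (8 * M / q) := mul_le_mul_of_nonneg_left hji hR0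
    linarith
  have h3'' : 91 * Λ ^ 2 * q ^ 2 * (Real.sqrt (r ^ 3) + Real.sqrt (r * E) * (8 * M / q)) =
      91 * Λ ^ 2 * (q ^ 2 * Real.sqrt (r ^ 3)) + 728 * Λ ^ 2 * (q * M * Real.sqrt (r * E)) := by
    field_simp
    ring
  -- the second moment
  have hq3 : Real.sqrt (q ^ 3 * E) = q * Real.sqrt (q * E) := by
    rw [show q ^ 3 * E = q ^ 2 * (q * E) by ring, Real.sqrt_mul (by positivity), Real.sqrt_sq hq.le]
  have hQ0 : 0 ≤ Real.sqrt (q * E) := Real.sqrt_nonneg _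
  have h4' : t2 ≤ 100 * Λ * (q * r + Λ * (8 * M * Real.sqrt (q * E))) := by
    refine h4.trans ?_
    apply mul_le_mul_of_nonneg_left _ (by positivity)
    rw [hq3]
    have e1 : q * Real.sqrt (q * E) * ji ≤ q * Real.sqrt (q * E) * (8 * M / q) :=
      mul_le_mul_of_nonneg_left hji (by positivity)
    have e2 : q * Real.sqrt (q * E) * (8 * M / q) = 8 * M * Real.sqrt (q * E) := by
      field_simp
    have e3 : Λ * (q * Real.sqrt (q * E)) * ji = Λ * (q * Real.sqrt (q * E) * ji) := by ring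
    rw [e3]
    have e4 : Λ * (q * Real.sqrt (q * E) * ji) ≤ Λ * (8 * M * Real.sqrt (q * E)) :=
      mul_le_mul_of_nonneg_left (by linarith) hΛ0.le
    linarith
  have h6 : s * t2 ≤ 8 * M * (100 * Λ * (q * r + Λ * (8 * M * Real.sqrt (q * E)))) := by
    rcases le_or_gt 0 s with hs0 | hs0
    · exact mul_le_mul hs8 h4' h40 (by positivity)
    · have e1 : s * t2 ≤ 0 := mul_nonpos_of_nonpos_of_nonneg hs0.le h40
      have e2 : 0 ≤ 8 * M * (100 * Λ * (q * r + Λ * (8 * M * Real.sqrt (q * E)))) := by positivity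
      linarith
  have h7 : 8 * M * (100 * Λ * (q * r + Λ * (8 * M * Real.sqrt (q * E)))) =
      800 * Λ * (M * q * r) + 6400 * Λ ^ 2 * (M ^ 2 * Real.sqrt (q * E)) := by ring
  have h8 : 800 * Λ * (M * q * r) ≤ 800 * Λ ^ 2 * (M * q * r) := by
    have : Λ ≤ Λ ^ 2 := le_self_pow₀ (by linarith) (by norm_num)
    have e0 : 0 ≤ M * q * r := by positivity
    nlinarith [mul_le_mul_of_nonneg_right this e0]
  rw [h3''] at h3'
  rw [h7] at h6
  linarith

/-- the logarithm of one of the terms -/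
private lemma term_log88 {m Λ c Z z : ℝ} (hm : 0 < m) (hc : c ≤ 110000) (hΛ : 10 ^ 6 ≤ Λ) (hZ : 0 < Z)
    (hz : Real.log Z = z) (h : m ^ 3 ≤ c * Λ ^ 2 * Z) : 3 * Real.log m ≤ 3 * Real.log Λ + z := by
  have hΛ0 : 0 < Λ := by linarith
  have h1 : m ^ 3 ≤ Λ ^ 3 * Z := by
    refine h.trans ?_
    apply mul_le_mul_of_nonneg_right _ hZ.le
    calc c * Λ ^ 2 ≤ Λ * Λ ^ 2 := by
          apply mul_le_mul_of_nonneg_right _ (by positivity)
          linarith
      _ = Λ ^ 3 := by ring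
  have h2 := Real.log_le_log (by positivity) h1
  rw [Real.log_mul (by positivity) hZ.ne', Real.log_pow, Real.log_pow, hz] at h2
  push_cast at h2
  exact h2

/-- the final step in logarithms, as a disjunction -/
private lemma final2_log88 {q r E M V Λ m s t3 t2 ji : ℝ} (hq : 0 < q) (hr : 0 < r) (hE : 0 ≤ E)
    (hM : 0 < M) (hV : 0 < V) (hΛ : 10 ^ 6 ≤ Λ)
    (hen : V ^ 2 * E ≤ 100 * Λ ^ 2 * Λ * (M ^ 2 * Real.sqrt (r * E) + M * r * Real.sqrt (q * E)))
    (hji0 : 0 ≤ ji) (hji : ji ≤ 8 * M / q) (h1 : r * V ^ 2 ≤ 2 * Λ ^ 2 * M * m)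
    (hs8 : s ≤ 8 * M) (h2 : s ≤ m → m * (m - s) ^ 2 ≤ t3 + s * t2)
    (h3 : t3 ≤ 91 * Λ ^ 2 * q ^ 2 * Real.sqrt (r ^ 3 + r * E * ji ^ 2)) (h40 : 0 ≤ t2)
    (h4 : t2 ≤ 100 * Λ * (q * r + Λ * Real.sqrt (q ^ 3 * E) * ji)) :
    Real.log r + 2 * Real.log V ≤ 2 * Real.log M + 4 * Real.log Λ ∨
    3 * (Real.log r + 2 * Real.log V - 3 * Real.log Λ - Real.log M) ≤
      3 * Real.log Λ + 2 * Real.log q + 3 / 2 * Real.log r ∨
    3 * (Real.log r + 2 * Real.log V - 3 * Real.log Λ - Real.log M) ≤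
      3 * Real.log Λ + Real.log M + Real.log q + Real.log r ∨
    ∃ e : ℝ, (2 * Real.log V + e ≤ 4 * Real.log Λ + 2 * Real.log M + (Real.log r + e) / 2 ∨
        2 * Real.log V + e ≤ 4 * Real.log Λ + Real.log M + Real.log r + (Real.log q + e) / 2) ∧
      (3 * (Real.log r + 2 * Real.log V - 3 * Real.log Λ - Real.log M) ≤
        3 * Real.log Λ + Real.log q + Real.log M + (Real.log r + e) / 2 ∨
       3 * (Real.log r + 2 * Real.log V - 3 * Real.log Λ - Real.log M) ≤
        3 * Real.log Λ + 2 * Real.log M + (Real.log q + e) / 2) := by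
  have hΛ0 : 0 < Λ := by linarith
  have hlΛ : ∀ c : ℝ, 0 < c → c ≤ 10 ^ 6 → Real.log c ≤ Real.log Λ := fun c hc0 hc1 =>
    Real.log_le_log hc0 (hc1.trans hΛ)
  have hm : 0 < m := by
    have h5 : 0 < 2 * Λ ^ 2 * M * m := lt_of_lt_of_le (by positivity) h1
    exact (mul_pos_iff_of_pos_left (by positivity)).1 h5
  -- the lower bound for `m`
  have hml : Real.log r + 2 * Real.log V - 3 * Real.log Λ - Real.log M ≤ Real.log m := by
    have h5 := Real.log_le_log (by positivity) h1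
    rw [Real.log_mul hr.ne' (by positivity), Real.log_mul (by positivity) hm.ne', Real.log_mul (by positivity) hM.ne',
      Real.log_mul (by norm_num) (by positivity), Real.log_pow, Real.log_pow] at h5
    push_cast at h5
    have h6 := hlΛ 2 (by norm_num) (by norm_num)
    linarith
  by_cases hA0 : m ≤ 16 * M
  · left
    have h5 := Real.log_le_log hm hA0
    rw [Real.log_mul (by norm_num) hM.ne'] at h5
    have h6 := hlΛ 16 (by norm_num) (by norm_num)
    linarith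
  right
  rw [not_le] at hA0
  have h5 := four_terms88 hq hr hE hM hΛ hji0 hji hs8 hA0 h2 h3 h40 h4
  have hr3 : 0 < Real.sqrt (r ^ 3) := Real.sqrt_pos.2 (by positivity)
  by_cases hc1 : m ^ 3 ≤ 1456 * Λ ^ 2 * (q ^ 2 * Real.sqrt (r ^ 3))
  · left
    have h6 := term_log88 hm (by norm_num) hΛ (by positivity) (z := 2 * Real.log q + 3 / 2 * Real.log r) (by
      rw [Real.log_mul (by positivity) hr3.ne', Real.log_sqrt (by positivity), Real.log_pow, Real.log_pow]
      push_cast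
      ring) hc1
    linarith
  right
  by_cases hc3 : m ^ 3 ≤ 12800 * Λ ^ 2 * (M * q * r)
  · left
    have h6 := term_log88 hm (by norm_num) hΛ (by positivity) (z := Real.log M + Real.log q + Real.log r) (by
      rw [Real.log_mul (by positivity) hr.ne', Real.log_mul hM.ne' hq.ne']) hc3
    linarith
  right
  rw [not_le] at hc1 hc3
  have hE0 : 0 < E := by
    rcases hE.lt_or_eq with h | h
    · exact h
    · exfalso
      rw [← h] at h5
      simp only [mul_zero, Real.sqrt_zero, add_zero] at h5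
      have e1 : 0 < m ^ 3 := by positivity
      nlinarith
  refine ⟨Real.log E, energy2_log88 hq hr hE0 hM hV hΛ hen, ?_⟩
  have hS1 : 0 < Real.sqrt (r * E) := Real.sqrt_pos.2 (by positivity)
  have hS2 : 0 < Real.sqrt (q * E) := Real.sqrt_pos.2 (by positivity)
  by_cases hc2 : m ^ 3 ≤ 11648 * Λ ^ 2 * (q * M * Real.sqrt (r * E))
  · left
    have h6 := term_log88 hm (by norm_num) hΛ (by positivity)
      (z := Real.log q + Real.log M + (Real.log r + Real.log E) / 2) (by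
      rw [Real.log_mul (by positivity) hS1.ne', Real.log_mul hq.ne' hM.ne', Real.log_sqrt (by positivity),
        Real.log_mul hr.ne' hE0.ne']) hc2
    linarith
  · right
    rw [not_le] at hc2
    have hc4 : m ^ 3 ≤ 102400 * Λ ^ 2 * (M ^ 2 * Real.sqrt (q * E)) := by
      by_contra hc4
      rw [not_le] at hc4
      linarith
    have h6 := term_log88 hm (by norm_num) hΛ (by positivity)
      (z := 2 * Real.log M + (Real.log q + Real.log E) / 2) (by
      rw [Real.log_mul (by positivity) hS2.ne', Real.log_sqrt (by positivity), Real.log_mul hq.ne' hE0.ne',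
        Real.log_pow]
      push_cast
      ring) hc4
    linarith

/-- The large value theorem modulo `q` in logarithmic form, second version. -/
theorem lv_log2 {q : ℕ} [NeZero q] {M : ℕ} (hM1 : 1 ≤ M) (h8M : 8 * M ≤ q) (b : ℕ → ℂ) {Λ : ℝ} (hΛ : 10 ^ 6 ≤ Λ)
    (hb : ∀ n ∈ Icc 1 M, ‖b n‖ ≤ Λ)
    (hT : ∀ n : ℕ, 1 ≤ n → n ≤ q → ((n.divisors.card : ℕ) : ℝ) ≤ Λ)
    (W : Finset (DirichletCharacter ℂ q)) (hW : W.Nonempty) {V : ℝ} (hV : 0 < V)
    (hVW : ∀ χ ∈ W, V ≤ ‖∑ n ∈ Icc 1 M, b n * χ (n : ZMod q)‖) :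
    Real.log W.card + 2 * Real.log V ≤ 2 * Real.log M + 4 * Real.log Λ ∨
    3 * (Real.log W.card + 2 * Real.log V - 3 * Real.log Λ - Real.log M) ≤
      3 * Real.log Λ + 2 * Real.log q + 3 / 2 * Real.log W.card ∨
    3 * (Real.log W.card + 2 * Real.log V - 3 * Real.log Λ - Real.log M) ≤
      3 * Real.log Λ + Real.log M + Real.log q + Real.log W.card ∨
    ∃ e : ℝ, (2 * Real.log V + e ≤ 4 * Real.log Λ + 2 * Real.log M + (Real.log W.card + e) / 2 ∨
        2 * Real.log V + e ≤ 4 * Real.log Λ + Real.log M + Real.log W.card + (Real.log q + e) / 2) ∧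
      (3 * (Real.log W.card + 2 * Real.log V - 3 * Real.log Λ - Real.log M) ≤
        3 * Real.log Λ + Real.log q + Real.log M + (Real.log W.card + e) / 2 ∨
       3 * (Real.log W.card + 2 * Real.log V - 3 * Real.log Λ - Real.log M) ≤
        3 * Real.log Λ + 2 * Real.log M + (Real.log q + e) / 2) := by
  classical
  have hq0 : (0 : ℝ) < q := by exact_mod_cast Nat.pos_of_ne_zero (NeZero.ne q)
  have hr0 : (0 : ℝ) < W.card := by exact_mod_cast Finset.card_pos.2 hW
  have hMpos : (0 : ℝ) < M := by exact_mod_cast hM1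
  have hΛ0 : 0 < Λ := by linarith
  have hΛ1 : 1 ≤ Λ := by linarith
  obtain ⟨J, hJdef⟩ : ∃ J : ℕ, J = q / (4 * M) := ⟨_, rfl⟩
  have h4M : 0 < 4 * M := by omega
  have hJ1 : 1 ≤ J := by
    rw [hJdef, Nat.le_div_iff_mul_le h4M]
    omega
  have hJq : J ≤ q := by
    rw [hJdef]
    exact Nat.div_le_self _ _
  have hMJ : 4 * J * M ≤ q := by
    have := Nat.div_mul_le_self q (4 * M)
    calc 4 * J * M = J * (4 * M) := by ring
      _ ≤ q := by rw [hJdef]; exact this
  have hJpos : (0 : ℝ) < J := by exact_mod_cast hJ1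
  have hji : 1 / (J : ℝ) ≤ 8 * M / q := by
    rw [div_le_div_iff₀ hJpos hq0]
    have h1 : q < (J + 1) * (4 * M) := by
      have := Nat.lt_div_mul_add h4M (a := q)
      calc q < q / (4 * M) * (4 * M) + 4 * M := this
        _ = (J + 1) * (4 * M) := by rw [hJdef]; ring
    have h2 : q ≤ J * (8 * M) := by
      have h3 : (J + 1) * (4 * M) ≤ (J + J) * (4 * M) := Nat.mul_le_mul_right _ (by omega)
      calc q ≤ (J + 1) * (4 * M) := h1.le
        _ ≤ (J + J) * (4 * M) := h3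
        _ = J * (8 * M) := by ring
    have h4 : (q : ℝ) ≤ J * (8 * M) := by exact_mod_cast h2
    linarith
  have hMq : M < q := by omega
  have hen := energy2 M hM1 hMq b Λ hΛ0.le hb W V hV.le hVW Λ hΛ1 hT
  obtain ⟨c, hc, hdual⟩ := dual_c M J hM1 hJ1 hMJ b Λ hΛ0.le hb W V hV.le hVW
  obtain ⟨P, hP⟩ : ∃ P : ℝ, P = ∑ u : (ZMod q)ˣ, K q J (u : ZMod q) * ‖∑ χ ∈ W, c χ * χ (u : ZMod q)‖ ^ 2 :=
    ⟨_, rfl⟩
  obtain ⟨m, hm⟩ : ∃ m : ℝ, m = P / W.card := ⟨_, rfl⟩
  have hPm : P = W.card * m := by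
    rw [hm]
    field_simp
  have h1 : (W.card : ℝ) * V ^ 2 ≤ 2 * Λ ^ 2 * M * m := by
    rw [← hP, hPm] at hdual
    have h2 : (W.card : ℝ) * (W.card * V ^ 2) ≤ W.card * (2 * Λ ^ 2 * M * m) := by
      calc (W.card : ℝ) * (W.card * V ^ 2) = (W.card : ℝ) ^ 2 * V ^ 2 := by ring
        _ ≤ _ := hdual
        _ = _ := by ring
    exact le_of_mul_le_mul_left h2 hr0
  obtain ⟨s, hs⟩ : ∃ s : ℝ, s = (Fintype.card (ZMod q)ˣ : ℝ) / J := ⟨_, rfl⟩
  have hs8 : s ≤ 8 * M := by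
    have h2 : (Fintype.card (ZMod q)ˣ : ℝ) ≤ q := card_units_le
    calc s = (Fintype.card (ZMod q)ˣ : ℝ) * (1 / J) := by rw [hs]; ring
      _ ≤ q * (8 * M / q) := by gcongr
      _ = 8 * M := by field_simp
  have hκ : ∀ m ∈ A J, ‖kF J m‖ ≤ 1 / J := fun m hm => norm_kF_le J hJ1 m hm
  have h2 : s ≤ m → m * (m - s) ^ 2 ≤ ‖T3 W (kF J) J‖ + s * ‖T2 W (kF J) J‖ := by
    intro hsm
    rw [hs] at hsm ⊢
    have := cubic J hJ1 W c hc m (by rw [← hP]; exact hPm) hsm
    exact le_of_mul_le_mul_left this hr0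
  have h3 := T3_le2 W (kF J) J hJ1 hκ Λ hΛ1 hT
  have h4 := T2_le W (kF J) J hJ1 hJq hκ Λ hΛ1 hT
  refine final2_log88 (q := q) (r := W.card) (E := En W) (M := M) (V := V) (Λ := Λ) (m := m) (s := s)
    (t3 := ‖T3 W (kF J) J‖) (t2 := ‖T2 W (kF J) J‖) (ji := 1 / (J : ℝ))
    hq0 hr0 (Nat.cast_nonneg _) hMpos hV hΛ hen (by positivity) hji h1
    hs8 h2 ?_ (norm_nonneg _) ?_
  · refine h3.trans (le_of_eq ?_)
    congr 2
    ring
  · refine h4.trans (le_of_eq ?_)
    congr 2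
    ring

end Pool.Agent.Helper88.LV
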