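import Pool.Agent.Helper88.LV.MainN
import Pool.Agent.Helper19.V4.Final

/-!
# The Moebius exponential sum at points with a convergent of denominator in `[N^{k0}, N^{k1}]`
-/

set_option autoImplicit false

namespace Pool.Agent.Helper88.LV

open Pool.Helper19.V4

theorem v_zero {k0 k1 : ℝ} (hk0 : 2 / 5 < k0) (hk1 : k1 < 68 / 135) :
    ∃ d : ℝ, 0 < d ∧ ∃ C : ℝ, 0 < C ∧ ∀ N : ℕ, 1 ≤ N → ∀ (x : ℝ) (a : ℤ) (b : ℕ), 1 ≤ b →
      IsCoprime a (b : ℤ) → (N : ℝ) ^ k0 ≤ b → (b : ℝ) ≤ (N : ℝ) ^ k1 →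
        ‖FM N x‖ ≤ C * (1 + N * |x - a / b|) * (N : ℝ) ^ ((4 : ℝ) / 5 - d) := by
  have h := lvn ((2 / 5 + k0) / 2) k1 (by linarith) hk1
  exact main (κ0 := (2 / 5 + k0) / 2) (κ0' := k0) (κ1 := k1) (by linarith) (by linarith)
    (by linarith) h

end Pool.Agent.Helper88.LV
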